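import Pool.Agent.CPW.Slopes

/-!
# Basic bounds (proved)
-/

set_option autoImplicit false

namespace Pool.Agent.CPW

namespace Par

variable {P : Par}

theorem dl_pos (h : P.Ok) : 0 < P.dl := by
  have : (10 : ℝ) ≤ P.L := by exact_mod_cast h.ten
  unfold dl
  positivity

theorem dl_le (h : P.Ok) : P.dl ≤ 1 / 40 := by
  have : (10 : ℝ) ≤ P.L := by exact_mod_cast h.ten
  unfold dl
  rw [div_le_div_iff₀ (by positivity) (by norm_num)]
  linarith

theorem L_dl (h : P.Ok) : P.L * P.dl = 1 / 4 := by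
  have : (10 : ℝ) ≤ P.L := by exact_mod_cast h.ten
  unfold dl
  have : (P.L : ℝ) ≠ 0 := by positivity
  field_simp

theorem cl_ge (h : P.Ok) (e i : ℕ) : (1 : ℝ) ≤ P.cl e i := by
  have := h.odd e i
  have : 1 ≤ P.cl e i := by omega
  exact_mod_cast this

theorem cl_le (h : P.Ok) (e i : ℕ) : (P.cl e i : ℝ) ≤ P.L - 1 := by
  have := h.lt e i
  have : P.cl e i + 1 ≤ P.L := by omega
  have : (P.cl e i : ℝ) + 1 ≤ P.L := by exact_mod_cast this
  linarith

theorem lam_ge (h : P.Ok) (e i : ℕ) : 3 / 4 ≤ P.lam e i := by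
  have := cl_ge h e i
  unfold lam
  split_ifs <;> linarith

theorem lam_le (h : P.Ok) (e i : ℕ) : P.lam e i ≤ P.L - 3 / 4 := by
  have := cl_le h e i
  unfold lam
  split_ifs <;> linarith

theorem lam_dl (h : P.Ok) (e i : ℕ) : 3 / 4 * P.dl ≤ P.lam e i * P.dl ∧
    P.lam e i * P.dl ≤ 1 / 4 - 3 / 4 * P.dl := by
  have h1 := dl_pos h
  have h2 := L_dl h
  constructor
  · exact mul_le_mul_of_nonneg_right (lam_ge h e i) h1.le
  · have := mul_le_mul_of_nonneg_right (lam_le h e i) h1.le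
    linarith

theorem al_ge (h : P.Ok) (e i : ℕ) : -1 / 8 + 3 / 4 * P.dl ≤ P.al e i := by
  have := lam_dl h e i
  unfold al
  linarith [this.2]

theorem al_le (h : P.Ok) (e i : ℕ) : P.al e i ≤ 1 / 8 - 3 / 4 * P.dl := by
  have := lam_dl h e i
  unfold al
  linarith [this.1]

theorem dl_sq (h : P.Ok) : 0 < P.dl ^ 2 ∧ P.dl ^ 2 ≤ 1 / 40 * P.dl := by
  have h1 := dl_pos h
  have h2 := dl_le h
  constructor
  · positivity
  · nlinarith

theorem tau_ge (h : P.Ok) (e i : ℕ) : -1 / 4 ≤ P.tau e i := by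
  have := dl_sq h
  unfold tau
  split_ifs <;> linarith [this.1]

theorem tau_le (h : P.Ok) (e i : ℕ) : P.tau e i ≤ 1 / 4 + 19 / 16 * P.dl ^ 2 := by
  have := dl_sq h
  unfold tau
  split_ifs <;> linarith [this.1]

theorem tau_le' (h : P.Ok) (e i : ℕ) : P.tau e i ≤ 13 / 50 := by
  have h1 := tau_le h e i
  have h2 := dl_sq h
  have h3 := dl_le h
  nlinarith

theorem T_ge {i : ℕ} (hi : i < P.T) : (1 : ℝ) ≤ P.T := by
  have : 1 ≤ P.T := by omega
  exact_mod_cast this

theorem i_le {i : ℕ} (hi : i < P.T) : (i : ℝ) + 1 ≤ P.T := by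
  have : i + 1 ≤ P.T := by omega
  exact_mod_cast this

theorem q_ge {i : ℕ} (hi : i < P.T) : 6 ≤ P.q := by
  have := T_ge hi
  unfold q
  linarith

theorem V_ge (P : Par) : 16 ≤ P.V := by
  unfold V
  have : (0 : ℝ) ≤ P.L := by positivity
  have : (0 : ℝ) ≤ P.T := by positivity
  linarith

theorem V_pos (P : Par) : 0 < P.V := by linarith [V_ge P]

theorem M_ge (P : Par) : 4 ≤ P.M := by
  unfold M
  have := V_pos P
  have : (0 : ℝ) ≤ 2 * P.V * P.T := by positivity
  linarith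

theorem sg_cases (e : ℕ) : sg e = 1 ∨ sg e = -1 := by
  unfold sg
  exact neg_one_pow_eq_or ℝ e

theorem sg_sq (e : ℕ) : sg e * sg e = 1 := by
  rcases sg_cases e with h | h <;> rw [h] <;> norm_num

theorem sg_succ (e : ℕ) : sg (e + 1) = -sg e := by
  unfold sg
  rw [pow_succ]
  ring

theorem sg_Vi {i : ℕ} (hi : i < P.T) (e : ℕ) : -(P.V * P.T - P.V) ≤ sg e * P.V * i ∧
    sg e * P.V * i ≤ P.V * P.T - P.V := by
  have h1 := V_pos P
  have h2 := i_le hi
  have h3 : (0 : ℝ) ≤ i := by positivity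
  have h4 : P.V * i ≤ P.V * P.T - P.V := by nlinarith
  have h5 : 0 ≤ P.V * i := by positivity
  rcases sg_cases e with h | h <;> rw [h] <;> constructor <;> linarith

theorem g_B_ge {i : ℕ} (hi : i < P.T) {c : ℕ} (hc : c % 4 = 0) : 4 + 2 * P.V ≤ P.g c i := by
  have := sg_Vi hi (c / 4)
  unfold g M
  rw [if_pos hc]
  linarith [this.2]

theorem g_of_ne {c : ℕ} (hc : c % 4 ≠ 0) (i : ℕ) : P.g c i = 1 := by
  unfold g
  rw [if_neg hc]

theorem g_ge {i : ℕ} (hi : i < P.T) (c : ℕ) : 1 ≤ P.g c i := by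
  by_cases hc : c % 4 = 0
  · have := g_B_ge hi hc
    linarith [V_pos P]
  · rw [g_of_ne hc]

theorem g_le {i : ℕ} (hi : i < P.T) (c : ℕ) : P.g c i ≤ P.M + 2 * P.V * P.T := by
  by_cases hc : c % 4 = 0
  · have := sg_Vi hi (c / 4)
    unfold g
    rw [if_pos hc]
    linarith [this.1, V_pos P]
  · rw [g_of_ne hc]
    have h1 := M_ge P
    have h2 := V_pos P
    have : (0 : ℝ) ≤ 2 * P.V * P.T := by positivity
    linarith

theorem th3_bd (h : P.Ok) {i : ℕ} (hi : i < P.T) (e : ℕ) :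
    -(1 / 16) ≤ (P.tau e i - P.al e i / 2) / P.q ∧
      (P.tau e i - P.al e i / 2) / P.q ≤ 1 / 16 := by
  have h1 := q_ge hi
  have h2 := tau_ge h e i
  have h3 := tau_le' h e i
  have h4 := al_ge h e i
  have h5 := al_le h e i
  have h6 := dl_pos h
  constructor
  · rw [le_div_iff₀ (by linarith)]
    nlinarith
  · rw [div_le_iff₀ (by linarith)]
    nlinarith

theorem th_ge (h : P.Ok) {i : ℕ} (hi : i < P.T) (c : ℕ) : 1 / 4 ≤ P.th c i := by
  have h2 := tau_ge h (c / 4) i
  have h3 := tau_le' h (c / 4) i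
  have h4 := al_ge h (c / 4) i
  have h5 := al_le h (c / 4) i
  have h6 := dl_pos h
  have h7 := (th3_bd h hi (c / 4)).1
  unfold th
  split_ifs <;> linarith

theorem th_le (h : P.Ok) {i : ℕ} (hi : i < P.T) (c : ℕ) : P.th c i ≤ 21 / 16 := by
  have h2 := tau_ge h (c / 4) i
  have h3 := tau_le' h (c / 4) i
  have h4 := al_ge h (c / 4) i
  have h5 := al_le h (c / 4) i
  have h6 := dl_pos h
  have h7 := (th3_bd h hi (c / 4)).2
  unfold th
  split_ifs <;> linarith

theorem th_le_half (h : P.Ok) {i : ℕ} (hi : i < P.T) {c : ℕ} (hc : c % 4 ≠ 0) :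
    P.th c i ≤ 1 / 2 := by
  have h2 := tau_ge h (c / 4) i
  have h3 := tau_le' h (c / 4) i
  have h4 := al_ge h (c / 4) i
  have h5 := al_le h (c / 4) i
  have h6 := dl_pos h
  have h7 := (th3_bd h hi (c / 4)).2
  unfold th
  rw [if_neg hc]
  split_ifs <;> linarith

theorem th_g (h : P.Ok) {i : ℕ} (hi : i < P.T) (c : ℕ) : P.th c i + 1 / 2 ≤ P.g c i := by
  by_cases hc : c % 4 = 0
  · have h1 := g_B_ge hi hc
    have h2 := th_le h hi c
    linarith [V_pos P]
  · have := th_le_half h hi hc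
    rw [g_of_ne hc]
    linarith

theorem D_ge {i : ℕ} (hi : i < P.T) (c : ℕ) : 1 ≤ P.D c := by
  have := q_ge hi
  unfold D
  split_ifs <;> linarith

theorem D_pos {i : ℕ} (hi : i < P.T) (c : ℕ) : 0 < P.D c := by linarith [D_ge hi c]

theorem D_le {i : ℕ} (hi : i < P.T) (c : ℕ) : P.D c ≤ P.q := by
  have := q_ge hi
  unfold D
  split_ifs <;> linarith

theorem X_succ (P : Par) (c : ℕ) : P.X (c + 1) = P.X c + P.D c := by
  unfold X D
  have h4 : c % 4 = 0 ∨ c % 4 = 1 ∨ c % 4 = 2 ∨ c % 4 = 3 := by omega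
  rcases h4 with h | h | h | h
  · have e1 : (c + 1) % 4 = 1 := by omega
    have e2 : (c + 1) / 4 = c / 4 := by omega
    simp only [h, e1, e2]
    norm_num
  · have e1 : (c + 1) % 4 = 2 := by omega
    have e2 : (c + 1) / 4 = c / 4 := by omega
    simp only [h, e1, e2]
    norm_num
  · have e1 : (c + 1) % 4 = 3 := by omega
    have e2 : (c + 1) / 4 = c / 4 := by omega
    simp only [h, e1, e2]
    norm_num
    ring
  · have e1 : (c + 1) % 4 = 0 := by omega
    have e2 : (c + 1) / 4 = c / 4 + 1 := by omega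
    simp only [h, e1, e2]
    norm_num
    ring

theorem G_succ (P : Par) (c i : ℕ) : P.G (c + 1) i = P.G c i + P.g (c + 1) i := by
  unfold G g
  have h4 : c % 4 = 0 ∨ c % 4 = 1 ∨ c % 4 = 2 ∨ c % 4 = 3 := by omega
  rcases h4 with h | h | h | h
  · have e1 : (c + 1) % 4 = 1 := by omega
    have e2 : (c + 1) / 4 = c / 4 := by omega
    simp only [h, e1, e2]
    norm_num
    ring
  · have e1 : (c + 1) % 4 = 2 := by omega
    have e2 : (c + 1) / 4 = c / 4 := by omega
    simp only [h, e1, e2]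
    norm_num
    ring
  · have e1 : (c + 1) % 4 = 3 := by omega
    have e2 : (c + 1) / 4 = c / 4 := by omega
    simp only [h, e1, e2]
    norm_num
    ring
  · have e1 : (c + 1) % 4 = 0 := by omega
    have e2 : (c + 1) / 4 = c / 4 + 1 := by omega
    simp only [h, e1, e2, sg_succ]
    norm_num
    ring

theorem F_succ (P : Par) (c i : ℕ) : P.F (c + 1) i = P.F c i + P.D c * P.s c i := rfl

theorem F_succ' (P : Par) (c i : ℕ) : P.F (c + 1) i = P.F c i + P.D c * (P.th c i - P.G c i) := rfl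

theorem ep_pos (h : P.Ok) : 0 < P.ep := by
  have h1 := dl_pos h
  have h2 := M_ge P
  have h3 := V_pos P
  unfold ep
  positivity

theorem ep_mul (h : P.Ok) : P.ep * (P.M + 2 * P.V * P.T + 1) = P.dl ^ 2 / 10000 := by
  have h1 := dl_pos h
  have h2 := M_ge P
  have h3 := V_pos P
  unfold ep
  have : P.M + 2 * P.V * P.T + 1 ≠ 0 := by positivity
  field_simp

theorem ep_g (h : P.Ok) {i : ℕ} (hi : i < P.T) (c : ℕ) : P.ep * P.g c i ≤ P.dl ^ 2 / 10000 := by
  have h1 := ep_mul h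
  have h2 := g_le hi c
  have h3 := ep_pos h
  have : P.ep * P.g c i ≤ P.ep * (P.M + 2 * P.V * P.T + 1) :=
    mul_le_mul_of_nonneg_left (by linarith) h3.le
  linarith

theorem ep_le (h : P.Ok) : P.ep ≤ P.dl ^ 2 / 10000 := by
  have h1 := ep_mul h
  have h3 := ep_pos h
  have h4 := M_ge P
  have h5 := V_pos P
  have h6 : (0 : ℝ) ≤ 2 * P.V * P.T := by positivity
  have : P.ep * 1 ≤ P.ep * (P.M + 2 * P.V * P.T + 1) :=
    mul_le_mul_of_nonneg_left (by linarith) h3.le
  linarith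

theorem pos_nonneg (h : P.Ok) {c i : ℕ} {x : Lab} : 0 ≤ P.pos (c / 4) i x := by
  have h1 : (10 : ℝ) ≤ P.L := by exact_mod_cast h.ten
  have h2 := lam_ge h (c / 4) i
  cases x with
  | U l => simp [pos]
  | W l => simp [pos]
  | e => simp [pos]
  | f => simp only [pos]; linarith
  | w => simp only [pos]; linarith

theorem pos_le (h : P.Ok) {c i : ℕ} {x : Lab} (hx : P.lab c i x) : P.pos (c / 4) i x ≤ P.L := by
  have h1 : (10 : ℝ) ≤ P.L := by exact_mod_cast h.ten
  have h2 := lam_le h (c / 4) i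
  cases x with
  | U l =>
    have : l ≤ P.L := by
      rcases hx with hx | hx
      · exact hx
      · simp at hx
    simp only [pos]
    exact_mod_cast this
  | W l =>
    have : l ≤ P.L := by
      rcases hx with hx | hx
      · exact hx
      · simp at hx
    simp only [pos]
    exact_mod_cast this
  | e => simp only [pos]; linarith
  | f => simp only [pos]; linarith
  | w => simp only [pos]; linarith

theorem off_ge (P : Par) (x : Lab) : -2 ≤ P.off x := by
  cases x <;> simp only [off] <;> (try split_ifs) <;> norm_num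

theorem off_le (P : Par) (x : Lab) : P.off x ≤ 17 := by
  cases x <;> simp only [off] <;> (try split_ifs) <;> norm_num

/-- The bounds for the position parameter `A = th + pos * dl` of a label. -/
theorem A_bd (h : P.Ok) {c i : ℕ} (hi : i < P.T) {x : Lab} (hx : P.lab c i x) :
    1 / 4 ≤ P.th c i + P.pos (c / 4) i x * P.dl ∧
      P.th c i + P.pos (c / 4) i x * P.dl ≤ 25 / 16 ∧
      1 / 4 ≤ P.g c i - P.th c i - P.pos (c / 4) i x * P.dl := by
  have h1 := dl_pos h
  have h2 := L_dl h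
  have h3 := th_ge h hi c
  have h4 := th_le h hi c
  have h5 := th_g h hi c
  have h6 : 0 ≤ P.pos (c / 4) i x * P.dl := mul_nonneg (pos_nonneg h) h1.le
  have h7 : P.pos (c / 4) i x * P.dl ≤ P.L * P.dl := mul_le_mul_of_nonneg_right (pos_le h hx) h1.le
  refine ⟨by linarith, by linarith, by linarith⟩

/-- The abscissa of a label lies strictly between the two columns. -/
theorem Q_fst (h : P.Ok) {c i : ℕ} (hi : i < P.T) {x : Lab} (hx : P.lab c i x) :
    P.X c < (P.Q c i x).1 ∧ (P.Q c i x).1 < P.X (c + 1) := by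
  have h1 := A_bd h hi hx
  have h2 := D_pos hi c
  have h3 : 0 < P.g c i := by linarith [g_ge hi c]
  rw [X_succ]
  exact ⟨pt_fst_gt h2 h3 (by linarith [h1.1]), pt_fst_lt h2 h3 (by linarith [h1.2.2])⟩

theorem str_lab {c i : ℕ} {x : Lab} (hx : P.str x) : P.lab c i x := Or.inl hx

end Par

end Pool.Agent.CPW
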