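import Pool.Agent.CPW.Bnd

/-!
# Definitions for the completeness part (no proofs)
-/

set_option autoImplicit false

namespace Pool.Agent.CPW

/-- The number of the block of column `l`, if the switch column is `ls`. -/
def blk (ls l : ℕ) : ℕ := if l < ls then l / 2 else (l + 1) / 2

/-- The labels of the supporter `b < 2` in a stage of track `i` in the period `e` with switch column
`ls`; `t`: there is a test point. -/
def Par.sup (P : Par) (ls b e i : ℕ) (t : Prop) : Lab → Prop
  | .U l => l ≤ P.L ∧ (blk ls l + b) % 2 = 0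
  | .W l => l ≤ P.L ∧ l ≠ ls ∧ (blk ls l + b) % 2 = 1
  | .e => b % 2 = 1
  | .f => (blk ls P.L + b) % 2 = 1
  | .w => t ∧ (blk ls (P.cl e i) + b) % 2 = 0 ∧ (P.rt e i → ls < P.cl e i) ∧
      (¬ P.rt e i → P.cl e i < ls)

/-- The labels of the class `p < 5` of the track `i` in the stage `c`; `v i` is the switch column. -/
def Par.cls (P : Par) (v : ℕ → ℕ) (c i p : ℕ) (x : Lab) : Prop :=
  (p = 4 ∧ x = Lab.W (v i)) ∨
    (p < 4 ∧ (c + p / 2) % 2 = 0 ∧
      P.sup (v i) (p % 2) (c / 4) i (c % 4 = 2 ∧ P.act (c / 4) i) x)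

open Classical in
/-- The normalised supporting slopes. -/
noncomputable def Par.mu (P : Par) (ls e i : ℕ) : Lab → ℝ
  | .U l => if l % 2 = 0 then 0 else if l < ls then -5 else 5
  | .W l => if l < ls then (if l % 2 = 1 then 15 / 2 else -3)
      else (if l % 2 = 1 then -15 / 2 else 3)
  | .e => -2
  | .f => 2
  | .w => if P.rt e i then 6 else -6

/-- The points of the class `p` of the track `i` in the stage `c`, with the two forced points. -/
def Par.cset (P : Par) (v : ℕ → ℕ) (c i p : ℕ) : Set Pt :=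
  {z | z = P.Pc c i p ∨ z = P.Pc (c + 1) i p ∨ ∃ x : Lab, P.cls v c i p x ∧ z = P.Q c i x}

end Pool.Agent.CPW
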