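import Pool.Agent.CPW.TDefs

/-!
# Package CPl: `CP S ≤ k` for finite sets

`ConvPart` is monotone in `k` (the same `f`; the classes `j` with `k ≤ j < k'` are empty, and the empty
set is in convex position). If `S` is finite there is `k` with `ConvPart S k`: choose an injective
numbering of the points (`S.Finite` gives a finset and a bijection with `Fin n`), `f z` = the number of
`z`, every class has at most one point, and a set with one point is in convex position
(`Subsingleton`). So the infimum is attained: `ConvPart S (CP S)` (`Nat.sInf_mem`), and `CP S ≤ k` iff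
`ConvPart S k` (`Nat.sInf_le`).
-/

set_option autoImplicit false

namespace Pool.Agent.CPW

private theorem convPos_sub {A : Set Pt} (h : ∀ a ∈ A, ∀ b ∈ A, a = b) : ConvPos A := by
  haveI : Subsingleton A := ⟨fun a b => Subtype.ext (h a a.2 b b.2)⟩
  exact Subsingleton.convexIndependent _

private theorem convPart_mono {S : Set Pt} {k k' : ℕ} (hk : k ≤ k') (h : ConvPart S k) :
    ConvPart S k' := by
  obtain ⟨f, h1, h2⟩ := h
  refine ⟨f, fun z hz => lt_of_lt_of_le (h1 z hz) hk, fun j hj => ?_⟩
  by_cases hjk : j < k
  · exact h2 j hjk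
  · refine convPos_sub fun a ha b hb => ?_
    exact absurd (ha.2 ▸ h1 a ha.1) hjk

private theorem convPart_ex {S : Set Pt} (hS : S.Finite) : ∃ k, ConvPart S k := by
  classical
  obtain ⟨n, g, hg⟩ : ∃ (n : ℕ) (g : S → Fin n), Function.Injective g := by
    haveI := hS.fintype
    exact ⟨Fintype.card S, Fintype.equivFin S, (Fintype.equivFin S).injective⟩
  refine ⟨n, fun z => if h : z ∈ S then (g ⟨z, h⟩ : ℕ) else 0, fun z hz => ?_, fun j _ => ?_⟩
  · simp only [dif_pos hz]
    exact (g ⟨z, hz⟩).2
  · refine convPos_sub fun a ha b hb => ?_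
    have h1 := ha.2
    have h2 := hb.2
    simp only [dif_pos ha.1] at h1
    simp only [dif_pos hb.1] at h2
    have h3 : g ⟨a, ha.1⟩ = g ⟨b, hb.1⟩ := Fin.ext (h1.trans h2.symm)
    exact congrArg Subtype.val (hg h3)

theorem cp_le_iff (S : Set Pt) (hS : S.Finite) (k : ℕ) : CP S ≤ k ↔ ConvPart S k := by
  constructor
  · intro h
    have h1 : CP S ∈ {k : ℕ | ConvPart S k} := Nat.sInf_mem (convPart_ex hS)
    exact convPart_mono h h1
  · intro h
    exact Nat.sInf_le h

end Pool.Agent.CPW
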