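import Pool.Agent.CPW.Defs

/-!
# The clauses for cliques (definitions)

Vertices `0, …, n-1`, `k` variables `u_0, …, u_{k-1}` with values in `1, …, n` (the value `u + 1`
stands for the vertex `u`); variable `a` has the tracks `2 a` (lo) and `2 a + 1` (hi). Tests:
L-test with threshold `t` (column `10 t + 7`) means `x_i > t`, R-test with threshold `t` (column
`10 t + 3`) means `x_i ≤ t`. Clauses:
* `j < k`, `a = j`: `hi_a > 0`;
* `k ≤ j < 2 k`, `a = j - k`: `hi_a ≤ n`;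
* `2 k ≤ j < 2 k + k (n + 1)`, `(a, t) = ((j - 2k) / (n+1), (j - 2k) % (n+1))`:
  `lo_a > t ∨ hi_a ≤ t`;
* the other `j < nc n k`, `a, b < k`, `u, v < n`: if `a < b` and `u, v` are not adjacent:
  `lo_a ≤ u ∨ hi_a > u + 1 ∨ lo_b ≤ v ∨ hi_b > v + 1`.
-/

set_option autoImplicit false

namespace Pool.Agent.CPW

/-- The number of clauses. -/
def nc (n k : ℕ) : ℕ := 2 * k + k * (n + 1) + k * (k * (n * n))

def ca (n k j : ℕ) : ℕ := (j - (2 * k + k * (n + 1))) / (k * (n * n))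
def cr (n k j : ℕ) : ℕ := (j - (2 * k + k * (n + 1))) % (k * (n * n))
def cb (n k j : ℕ) : ℕ := cr n k j / (n * n)
def cu (n k j : ℕ) : ℕ := cr n k j % (n * n) / n
def cv (n k j : ℕ) : ℕ := cr n k j % (n * n) % n

/-- Track `i` has a literal in the clause `j`. -/
def cact (n k j i : ℕ) : Prop :=
  (j < k ∧ i = 2 * j + 1) ∨ (k ≤ j ∧ j < 2 * k ∧ i = 2 * (j - k) + 1) ∨
    (2 * k ≤ j ∧ j < 2 * k + k * (n + 1) ∧ i / 2 = (j - 2 * k) / (n + 1)) ∨
    (2 * k + k * (n + 1) ≤ j ∧ (i / 2 = ca n k j ∨ i / 2 = cb n k j))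

/-- The literal is of the form `x_i ≤ t`. -/
def crt (n k j i : ℕ) : Prop :=
  (k ≤ j ∧ j < 2 * k) ∨ (2 * k ≤ j ∧ j < 2 * k + k * (n + 1) ∧ i % 2 = 1) ∨
    (2 * k + k * (n + 1) ≤ j ∧ i % 2 = 0)

/-- The threshold. -/
def ctv (n k j i : ℕ) : ℕ :=
  if j < k then 0 else if j < 2 * k then n
  else if j < 2 * k + k * (n + 1) then (j - 2 * k) % (n + 1)
  else min n ((if i / 2 = ca n k j then cu n k j else cv n k j) + i % 2)

open Classical in
/-- The test column. -/
noncomputable def ccl (n k j i : ℕ) : ℕ := 10 * ctv n k j i + if crt n k j i then 3 else 7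

/-- The clause is present. -/
def cpre (n k : ℕ) (adj : ℕ → ℕ → Prop) (j : ℕ) : Prop :=
  j < 2 * k + k * (n + 1) ∨ (ca n k j < cb n k j ∧ ¬ adj (cu n k j) (cv n k j))

/-- The parameters for the graph `adj` on `0, …, n-1` and cliques of size `k`. -/
noncomputable def par (n k : ℕ) (adj : ℕ → ℕ → Prop) : Par where
  T := 2 * k
  L := 10 * (n + 1)
  E := (2 * k * (5 * (n + 1)) + 1) * nc n k
  act e i := cact n k (e % nc n k) i
  rt e i := crt n k (e % nc n k) i
  cl e i := ccl n k (e % nc n k) i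
  pre e := cpre n k adj (e % nc n k)

end Pool.Agent.CPW
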