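import Mathlib

/-!
# Package Logic: a constant block

Let `Φ c = ∑ i ∈ range T, φ i c`. For `1 ≤ c < 4 B m`: `Φ c ≤ T (L / 2)`, and `Φ` is monotone there.
Suppose the statement is false. Then for every `β < B` some `i < T` and some `c` with
`4 β m + 1 ≤ c < 4 (β + 1) m` satisfy `φ i (4 β m + 1) < φ i c` (monotone), so
`Φ (4 β m + 1) < Φ c ≤ Φ (4 (β+1) m - 1)`, and (if `β + 1 < B`) `≤ Φ (4 (β+1) m + 1)`. So
`Φ (4 B m - 1) ≥ B > T (L/2)` (by induction on `β ≤ B - 1`: `β ≤ Φ (4 β m + 1)`). Contradiction.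
-/

set_option autoImplicit false

namespace Pool.Agent.CPW

theorem blocks (T L m B : ℕ) (φ : ℕ → ℕ → ℕ) (hm : 0 < m) (hB : T * (L / 2) < B)
    (hb : ∀ i < T, ∀ c, 1 ≤ c → c < 4 * (B * m) → 2 * φ i c ≤ L)
    (hmono : ∀ i < T, ∀ c, 1 ≤ c → c + 1 < 4 * (B * m) → φ i c ≤ φ i (c + 1)) :
    ∃ β < B, ∀ i < T, ∀ c, 4 * (β * m) + 1 ≤ c → c < 4 * ((β + 1) * m) →
      φ i c = φ i (4 * (β * m) + 1) := by
  have mono : ∀ i < T, ∀ c, 1 ≤ c → ∀ c', c ≤ c' → c' < 4 * (B * m) → φ i c ≤ φ i c' := by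
    intro i hi c hc c' hcc
    induction c', hcc using Nat.le_induction with
    | base => intro _; exact le_rfl
    | succ c' hcc ih =>
      intro h
      exact (ih (by omega)).trans (hmono i hi c' (by omega) h)
  by_contra hcon
  push Not at hcon
  have hlt : ∀ β < B, ∃ c, 4 * (β * m) + 1 ≤ c ∧ c < 4 * ((β + 1) * m) ∧
      ∑ i ∈ Finset.range T, φ i (4 * (β * m) + 1) < ∑ i ∈ Finset.range T, φ i c := by
    intro β hβ
    obtain ⟨i, hi, c, hc1, hc2, hne⟩ := hcon β hβ
    have hB' : (β + 1) * m ≤ B * m := Nat.mul_le_mul_right m hβ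
    have hcB : c < 4 * (B * m) := by omega
    refine ⟨c, hc1, hc2, Finset.sum_lt_sum (fun j hj => ?_) ⟨i, Finset.mem_range.2 hi, ?_⟩⟩
    · exact mono j (Finset.mem_range.1 hj) _ (by omega) c hc1 hcB
    · exact lt_of_le_of_ne (mono i hi _ (by omega) c hc1 hcB) hne.symm
  have hind : ∀ β, β < B → β ≤ ∑ i ∈ Finset.range T, φ i (4 * (β * m) + 1) := by
    intro β
    induction β with
    | zero => intro _; exact Nat.zero_le _
    | succ β ih =>
      intro hβ
      have h1 := ih (by omega)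
      obtain ⟨c, hc1, hc2, hc3⟩ := hlt β (by omega)
      have hB' : (β + 1 + 1) * m ≤ B * m := Nat.mul_le_mul_right m hβ
      have hm' : (β + 1 + 1) * m = (β + 1) * m + m := by ring
      have h2 : ∑ i ∈ Finset.range T, φ i c ≤
          ∑ i ∈ Finset.range T, φ i (4 * ((β + 1) * m) + 1) := by
        refine Finset.sum_le_sum fun j hj => ?_
        exact mono j (Finset.mem_range.1 hj) c (by omega) _ (by omega) (by omega)
      omega
  have hB0 : 0 < B := by omega
  have h1 := hind (B - 1) (by omega)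
  obtain ⟨c, hc1, hc2, hc3⟩ := hlt (B - 1) (by omega)
  have hB1 : B - 1 + 1 = B := by omega
  rw [hB1] at hc2
  have h2 : ∑ i ∈ Finset.range T, φ i c ≤ T * (L / 2) := by
    have h3 : ∑ i ∈ Finset.range T, φ i c ≤ ∑ _i ∈ Finset.range T, L / 2 := by
      refine Finset.sum_le_sum fun j hj => ?_
      have h4 := hb j (Finset.mem_range.1 hj) c (by omega) hc2
      omega
    rwa [Finset.sum_const, Finset.card_range, smul_eq_mul] at h3
  omega

end Pool.Agent.CPW
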