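import Pool.Agent.CPW.ClDefs
import Pool.Agent.CPW.Logic

/-!
# Package ClauseA: numbers which satisfy all clauses give a clique, and conversely

`par_ok`: `ctv ≤ n` in all cases (`(j - 2k) % (n+1) ≤ n`), so `ccl` is `≡ 3` or `7` modulo `10` and
`< 10 (n+1)`; `10 (n+1)` is even and `≥ 10`.

`clause_sound`: `m i` satisfies the tests. Put `x i = (m i + 2) / 5`. A literal with `crt` says
`2 m i ≤ 10 t + 4`, i.e. `x i ≤ t`; one without `crt` says `10 t + 7 ≤ 2 m i + 1`, i.e. `x i > t`
(`t = ctv`). The clauses `j = a < k` and `j = k + a` give `1 ≤ x (2a+1) ≤ n`. The clauses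
`j = 2 k + a (n+1) + t`, `t ≤ n`, give `x (2a) > t ∨ x (2a+1) ≤ t`; hence `x (2a+1) ≤ x (2a)` (take
`t = x (2a)` if this is `≤ n`). Put `u a = x (2a+1) - 1 < n`. Let `a < b < k` and suppose that `u a`,
`u b` are not adjacent. The clause `j = 2 k + k (n+1) + a (k (n n)) + (b (n n) + (u a n + u b))` has
`ca = a`, `cb = b`, `cu = u a`, `cv = u b`; it is present; the active tracks are `2a, 2a+1, 2b, 2b+1`, and
the literals say `x (2a) ≤ u a`, `x (2a+1) > u a + 1`, `x (2b) ≤ u b`, `x (2b+1) > u b + 1` (the `min n`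
has no effect as `u + 1 ≤ n`). All four are false.

`clause_compl`: given the clique `u`, put `v i = 10 (u (i/2) + 1)`. Check the four kinds of clauses:
`hi_a`: `7 < v`, and `v < 10 n + 3`; `lo_a, hi_a`: `10 t + 7 < v (2a)` if `t < u a + 1`, and
`v (2a+1) < 10 t + 3` if `u a + 1 ≤ t`; the last kind: as `u a, u b` are adjacent and `cu, cv` are not,
`u a ≠ cu` or `u b ≠ cv`; if `u a < cu`: `v (2a) < 10 cu + 3` (R-test of `lo_a`), if `u a > cu`:
`10 (cu + 1) + 7 < v (2a+1)`; same for `b`. Here `a = ca < b = cb < k` because of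
`j < nc n k` (so that `u` is defined and `i < 2 k`).
-/

set_option autoImplicit false

namespace Pool.Agent.CPW

private theorem mul_add_mod' {a b c : ℕ} (h : c < b) : (a * b + c) % b = c := by
  rw [Nat.add_comm, Nat.add_mul_mod_self_right, Nat.mod_eq_of_lt h]

private theorem ctv_le (n k j i : ℕ) : ctv n k j i ≤ n := by
  unfold ctv
  split_ifs
  · exact Nat.zero_le n
  · exact le_rfl
  · exact Nat.lt_succ_iff.1 (Nat.mod_lt (j - 2 * k) (Nat.succ_pos n))
  · exact min_le_left _ _
  · exact min_le_left _ _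

private theorem ccl_crt {n k j i : ℕ} (h : crt n k j i) : ccl n k j i = 10 * ctv n k j i + 3 := by
  unfold ccl
  rw [if_pos h]

private theorem ccl_not {n k j i : ℕ} (h : ¬ crt n k j i) :
    ccl n k j i = 10 * ctv n k j i + 7 := by
  unfold ccl
  rw [if_neg h]

/-- the code of the last kind of clauses -/
private theorem code {n k a b u v : ℕ} (ha : a < k) (hb : b < k) (hu : u < n) (hv : v < n) :
    2 * k + k * (n + 1) + (a * (k * (n * n)) + (b * (n * n) + (u * n + v))) < nc n k ∧
      ca n k (2 * k + k * (n + 1) + (a * (k * (n * n)) + (b * (n * n) + (u * n + v)))) = a ∧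
      cb n k (2 * k + k * (n + 1) + (a * (k * (n * n)) + (b * (n * n) + (u * n + v)))) = b ∧
      cu n k (2 * k + k * (n + 1) + (a * (k * (n * n)) + (b * (n * n) + (u * n + v)))) = u ∧
      cv n k (2 * k + k * (n + 1) + (a * (k * (n * n)) + (b * (n * n) + (u * n + v)))) = v := by
  have h1 : u * n + v < n * n := by
    have : (u + 1) * n ≤ n * n := Nat.mul_le_mul_right n hu
    have e : (u + 1) * n = u * n + n := by ring
    omega
  have h2 : b * (n * n) + (u * n + v) < k * (n * n) := by
    have : (b + 1) * (n * n) ≤ k * (n * n) := Nat.mul_le_mul_right _ hb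
    have e : (b + 1) * (n * n) = b * (n * n) + n * n := by ring
    omega
  have h3 : a * (k * (n * n)) + (b * (n * n) + (u * n + v)) < k * (k * (n * n)) := by
    have : (a + 1) * (k * (n * n)) ≤ k * (k * (n * n)) := Nat.mul_le_mul_right _ ha
    have e : (a + 1) * (k * (n * n)) = a * (k * (n * n)) + k * (n * n) := by ring
    omega
  have hsub : 2 * k + k * (n + 1) + (a * (k * (n * n)) + (b * (n * n) + (u * n + v))) -
      (2 * k + k * (n + 1)) = a * (k * (n * n)) + (b * (n * n) + (u * n + v)) :=
    Nat.add_sub_cancel_left _ _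
  have hcr : cr n k (2 * k + k * (n + 1) + (a * (k * (n * n)) + (b * (n * n) + (u * n + v)))) =
      b * (n * n) + (u * n + v) := by
    unfold cr
    rw [hsub, mul_add_mod' h2]
  have hnn : 0 < n * n := by omega
  refine ⟨?_, ?_, ?_, ?_, ?_⟩
  · unfold nc
    omega
  · unfold ca
    rw [hsub, Nat.mul_comm a, Nat.mul_add_div (by omega), Nat.div_eq_of_lt h2, add_zero]
  · unfold cb
    rw [hcr, Nat.mul_comm b, Nat.mul_add_div hnn, Nat.div_eq_of_lt h1, add_zero]
  · unfold cu
    rw [hcr, mul_add_mod' h1, Nat.mul_comm u, Nat.mul_add_div (by omega),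
      Nat.div_eq_of_lt hv, add_zero]
  · unfold cv
    rw [hcr, mul_add_mod' h1, mul_add_mod' hv]

theorem par_ok (n k : ℕ) (adj : ℕ → ℕ → Prop) : (par n k adj).Ok := by
  have h1 : ∀ j i, ccl n k j i % 2 = 1 ∧ ccl n k j i < 10 * (n + 1) := by
    intro j i
    have h2 := ctv_le n k j i
    by_cases h : crt n k j i
    · rw [ccl_crt h]
      omega
    · rw [ccl_not h]
      omega
  refine ⟨?_, ?_, fun e i => (h1 _ i).1, fun e i => (h1 _ i).2⟩
  · change 10 ≤ 10 * (n + 1)
    omega
  · change 10 * (n + 1) % 2 = 0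
    omega

theorem clause_sound (n k : ℕ) (adj : ℕ → ℕ → Prop) (m : ℕ → ℕ)
    (hm : ∀ j < nc n k, cpre n k adj j → ∃ i < 2 * k, cact n k j i ∧
      (crt n k j i → 2 * m i ≤ ccl n k j i + 1) ∧ (¬ crt n k j i → ccl n k j i ≤ 2 * m i + 1)) :
    ∃ u : ℕ → ℕ, (∀ a < k, u a < n) ∧ ∀ a b, a < b → b < k → adj (u a) (u b) := by
  obtain ⟨x, hx⟩ : ∃ x : ℕ → ℕ, ∀ i, x i = (m i + 2) / 5 := ⟨_, fun _ => rfl⟩
  have hm' : ∀ j < nc n k, cpre n k adj j → ∃ i < 2 * k, cact n k j i ∧
      (crt n k j i → x i ≤ ctv n k j i) ∧ (¬ crt n k j i → ctv n k j i < x i) := by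
    intro j hj hp
    obtain ⟨i, hi, h1, h2, h3⟩ := hm j hj hp
    refine ⟨i, hi, h1, fun h => ?_, fun h => ?_⟩
    · have h4 := h2 h
      rw [ccl_crt h] at h4
      rw [hx]
      omega
    · have h4 := h3 h
      rw [ccl_not h] at h4
      rw [hx]
      omega
  have hA : ∀ a < k, 0 < x (2 * a + 1) := by
    intro a ha
    obtain ⟨i, -, h1, -, h3⟩ := hm' a (by unfold nc; omega) (Or.inl (by omega))
    have h4 : i = 2 * a + 1 := by
      unfold cact at h1
      omega
    have h5 : ¬ crt n k a i := by
      unfold crt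
      omega
    have h6 := h3 h5
    rw [h4] at h6
    omega
  have hB : ∀ a < k, x (2 * a + 1) ≤ n := by
    intro a ha
    obtain ⟨i, -, h1, h2, -⟩ := hm' (k + a) (by unfold nc; omega) (Or.inl (by omega))
    have h4 : i = 2 * a + 1 := by
      unfold cact at h1
      omega
    have h5 : crt n k (k + a) i := Or.inl ⟨by omega, by omega⟩
    have h6 := h2 h5
    have h7 := ctv_le n k (k + a) i
    rw [h4] at h6 h7
    omega
  have hC : ∀ a < k, ∀ t ≤ n, t < x (2 * a) ∨ x (2 * a + 1) ≤ t := by
    intro a ha t ht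
    have hlt : a * (n + 1) + t < k * (n + 1) := by
      have : (a + 1) * (n + 1) ≤ k * (n + 1) := Nat.mul_le_mul_right _ ha
      have e : (a + 1) * (n + 1) = a * (n + 1) + (n + 1) := by ring
      omega
    obtain ⟨i, -, h1, h2, h3⟩ := hm' (2 * k + (a * (n + 1) + t)) (by unfold nc; omega)
      (Or.inl (by omega))
    have e0 : 2 * k + (a * (n + 1) + t) - 2 * k = a * (n + 1) + t :=
      Nat.add_sub_cancel_left _ _
    have e1 : (2 * k + (a * (n + 1) + t) - 2 * k) / (n + 1) = a := by
      rw [e0, Nat.mul_comm, Nat.mul_add_div (Nat.succ_pos n), Nat.div_eq_of_lt (by omega),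
        add_zero]
    have e2 : (2 * k + (a * (n + 1) + t) - 2 * k) % (n + 1) = t := by
      rw [e0, mul_add_mod' (by omega)]
    have h4 : i / 2 = a := by
      unfold cact at h1
      rw [e1] at h1
      omega
    have h5 : ctv n k (2 * k + (a * (n + 1) + t)) i = t := by
      unfold ctv
      rw [if_neg (by omega), if_neg (by omega), if_pos (by omega), e2]
    rw [h5] at h2 h3
    rcases Nat.mod_two_eq_zero_or_one i with h6 | h6
    · left
      have h7 : i = 2 * a := by omega
      have h8 : ¬ crt n k (2 * k + (a * (n + 1) + t)) i := by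
        unfold crt
        omega
      rw [← h7]
      exact h3 h8
    · right
      have h7 : i = 2 * a + 1 := by omega
      have h8 : crt n k (2 * k + (a * (n + 1) + t)) i := Or.inr (Or.inl ⟨by omega, by omega, h6⟩)
      rw [← h7]
      exact h2 h8
  have hle : ∀ a < k, x (2 * a + 1) ≤ x (2 * a) := by
    intro a ha
    by_cases h : x (2 * a) ≤ n
    · rcases hC a ha _ h with h1 | h1
      · omega
      · exact h1
    · have := hB a ha
      omega
  refine ⟨fun a => x (2 * a + 1) - 1, fun a ha => ?_, fun a b hab hb => ?_⟩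
  · have h1 := hA a ha
    have h2 := hB a ha
    change x (2 * a + 1) - 1 < n
    omega
  · by_contra hcon
    have ha : a < k := by omega
    have a1 := hA a ha
    have a2 := hB a ha
    have a3 := hle a ha
    have b1 := hA b hb
    have b2 := hB b hb
    have b3 := hle b hb
    simp only at hcon
    obtain ⟨u, hu⟩ : ∃ u, u = x (2 * a + 1) - 1 := ⟨_, rfl⟩
    obtain ⟨v, hv⟩ : ∃ v, v = x (2 * b + 1) - 1 := ⟨_, rfl⟩
    rw [← hu, ← hv] at hcon
    obtain ⟨c1, c2, c3, c4, c5⟩ := code (n := n) ha hb (u := u) (v := v) (by omega) (by omega)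
    obtain ⟨j, hj⟩ : ∃ j, j = 2 * k + k * (n + 1) + (a * (k * (n * n)) +
      (b * (n * n) + (u * n + v))) := ⟨_, rfl⟩
    rw [← hj] at c1 c2 c3 c4 c5
    have hj' : 2 * k + k * (n + 1) ≤ j := by omega
    obtain ⟨i, -, h1, h2, h3⟩ := hm' j c1 (Or.inr ⟨by omega, by rw [c4, c5]; exact hcon⟩)
    have h4 : i / 2 = a ∨ i / 2 = b := by
      unfold cact at h1
      rw [c2, c3] at h1
      omega
    have h5 : ctv n k j i = min n ((if i / 2 = a then u else v) + i % 2) := by
      unfold ctv
      rw [if_neg (by omega), if_neg (by omega), if_neg (by omega), c2, c4, c5]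
    rw [h5] at h2 h3
    rcases Nat.mod_two_eq_zero_or_one i with h6 | h6
    · have h7 : crt n k j i := Or.inr (Or.inr ⟨hj', h6⟩)
      have h8 := h2 h7
      rw [h6, add_zero] at h8
      rcases h4 with h4 | h4
      · rw [if_pos h4] at h8
        have h9 : i = 2 * a := by omega
        rw [h9] at h8
        have := min_le_right n u
        omega
      · rw [if_neg (by omega)] at h8
        have h9 : i = 2 * b := by omega
        rw [h9] at h8
        have := min_le_right n v
        omega
    · have h7 : ¬ crt n k j i := by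
        unfold crt
        omega
      have h8 := h3 h7
      rw [h6] at h8
      rcases h4 with h4 | h4
      · rw [if_pos h4, min_eq_right (by omega)] at h8
        have h9 : i = 2 * a + 1 := by omega
        rw [h9] at h8
        omega
      · rw [if_neg (by omega), min_eq_right (by omega)] at h8
        have h9 : i = 2 * b + 1 := by omega
        rw [h9] at h8
        omega

theorem clause_compl (n k : ℕ) (adj : ℕ → ℕ → Prop) (u : ℕ → ℕ) (hu : ∀ a < k, u a < n)
    (hadj : ∀ a b, a < b → b < k → adj (u a) (u b)) :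
    (∀ i < 2 * k, 10 * (u (i / 2) + 1) % 2 = 0 ∧ 0 < 10 * (u (i / 2) + 1) ∧
      10 * (u (i / 2) + 1) < 10 * (n + 1)) ∧
    ∀ j < nc n k, cpre n k adj j → ∃ i < 2 * k, cact n k j i ∧
      (crt n k j i → 10 * (u (i / 2) + 1) < ccl n k j i) ∧
      (¬ crt n k j i → ccl n k j i < 10 * (u (i / 2) + 1)) := by
  refine ⟨fun i hi => ?_, fun j hj hp => ?_⟩
  · have := hu (i / 2) (by omega)
    omega
  rcases Nat.lt_or_ge j k with h1 | h1
  · refine ⟨2 * j + 1, by omega, Or.inl ⟨h1, rfl⟩, fun h => ?_, fun h => ?_⟩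
    · exfalso
      unfold crt at h
      omega
    · rw [ccl_not h]
      have h2 : ctv n k j (2 * j + 1) = 0 := by
        unfold ctv
        rw [if_pos h1]
      rw [h2]
      omega
  rcases Nat.lt_or_ge j (2 * k) with h2 | h2
  · refine ⟨2 * (j - k) + 1, by omega, Or.inr (Or.inl ⟨h1, h2, rfl⟩), fun h => ?_, fun h => ?_⟩
    · rw [ccl_crt h]
      have h3 : ctv n k j (2 * (j - k) + 1) = n := by
        unfold ctv
        rw [if_neg (by omega), if_pos h2]
      have h4 : (2 * (j - k) + 1) / 2 = j - k := by omega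
      have h5 := hu (j - k) (by omega)
      rw [h3, h4]
      omega
    · exact absurd (Or.inl ⟨h1, h2⟩) h
  rcases Nat.lt_or_ge j (2 * k + k * (n + 1)) with h3 | h3
  · obtain ⟨a, ha⟩ : ∃ a, a = (j - 2 * k) / (n + 1) := ⟨_, rfl⟩
    obtain ⟨t, ht⟩ : ∃ t, t = (j - 2 * k) % (n + 1) := ⟨_, rfl⟩
    have hak : a < k := by
      rw [ha]
      refine Nat.div_lt_of_lt_mul ?_
      rw [Nat.mul_comm (n + 1) k]
      omega
    have hctv : ∀ i, ctv n k j i = t := by
      intro i
      unfold ctv
      rw [if_neg (by omega), if_neg (by omega), if_pos h3, ht]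
    have hua := hu a hak
    by_cases htu : t < u a + 1
    · have e : 2 * a / 2 = a := by omega
      refine ⟨2 * a, by omega, Or.inr (Or.inr (Or.inl ⟨h2, h3, by rw [e, ha]⟩)), fun h => ?_,
        fun h => ?_⟩
      · exfalso
        unfold crt at h
        omega
      · rw [ccl_not h, hctv, e]
        omega
    · have e : (2 * a + 1) / 2 = a := by omega
      refine ⟨2 * a + 1, by omega, Or.inr (Or.inr (Or.inl ⟨h2, h3, by rw [e, ha]⟩)), fun h => ?_,
        fun h => ?_⟩
      · rw [ccl_crt h, hctv, e]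
        omega
      · exact absurd (Or.inr (Or.inl ⟨h2, h3, by omega⟩)) h
  · have hp' : ca n k j < cb n k j ∧ ¬ adj (cu n k j) (cv n k j) := by
      rcases hp with h | h
      · omega
      · exact h
    obtain ⟨hab, hna⟩ := hp'
    have hbk : cb n k j < k := by
      unfold nc at hj
      unfold cb
      refine Nat.div_lt_of_lt_mul ?_
      unfold cr
      rw [Nat.mul_comm (n * n) k]
      refine Nat.mod_lt _ (Nat.pos_of_ne_zero ?_)
      intro h0
      rw [h0, mul_zero] at hj
      omega
    obtain ⟨a, ha⟩ : ∃ a, a = ca n k j := ⟨_, rfl⟩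
    obtain ⟨b, hb⟩ : ∃ b, b = cb n k j := ⟨_, rfl⟩
    rw [← ha, ← hb] at hab
    rw [← hb] at hbk
    have hadj' := hadj a b hab hbk
    have hne : u a ≠ cu n k j ∨ u b ≠ cv n k j := by
      by_contra hcon
      push Not at hcon
      apply hna
      rw [← hcon.1, ← hcon.2]
      exact hadj'
    have hua := hu a (by omega)
    have hub := hu b hbk
    have hctv : ∀ i, ctv n k j i =
        min n ((if i / 2 = a then cu n k j else cv n k j) + i % 2) := by
      intro i
      unfold ctv
      rw [if_neg (by omega), if_neg (by omega), if_neg (by omega), ha]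
    have hcrt : ∀ i, crt n k j i ↔ i % 2 = 0 := by
      intro i
      unfold crt
      omega
    have hact : ∀ i, i / 2 = a ∨ i / 2 = b → cact n k j i := by
      intro i h
      rw [ha, hb] at h
      exact Or.inr (Or.inr (Or.inr ⟨h3, h⟩))
    have ea : 2 * a / 2 = a := by omega
    have ea' : (2 * a + 1) / 2 = a := by omega
    have eb : 2 * b / 2 = b := by omega
    have eb' : (2 * b + 1) / 2 = b := by omega
    have hmod : ∀ c, 2 * c % 2 = 0 := by
      intro c
      omega
    have hmod' : ∀ c, (2 * c + 1) % 2 = 1 := by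
      intro c
      omega
    rcases hne with h | h
    · rcases lt_or_gt_of_ne h with h | h
      · refine ⟨2 * a, by omega, hact _ (Or.inl ea), fun h' => ?_, fun h' => ?_⟩
        · rw [ccl_crt h', hctv, ea, if_pos rfl, hmod, add_zero]
          have : u a + 1 ≤ min n (cu n k j) := le_min hua h
          omega
        · exact absurd ((hcrt _).2 (hmod a)) h'
      · refine ⟨2 * a + 1, by omega, hact _ (Or.inl ea'), fun h' => ?_, fun h' => ?_⟩
        · have h4 := (hcrt _).1 h'
          omega
        · rw [ccl_not h', hctv, ea', if_pos rfl, hmod']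
          have := min_le_right n (cu n k j + 1)
          omega
    · rcases lt_or_gt_of_ne h with h | h
      · refine ⟨2 * b, by omega, hact _ (Or.inr eb), fun h' => ?_, fun h' => ?_⟩
        · rw [ccl_crt h', hctv, eb, if_neg (by omega), hmod, add_zero]
          have : u b + 1 ≤ min n (cv n k j) := le_min hub h
          omega
        · exact absurd ((hcrt _).2 (hmod b)) h'
      · refine ⟨2 * b + 1, by omega, hact _ (Or.inr eb'), fun h' => ?_, fun h' => ?_⟩
        · have h4 := (hcrt _).1 h'
          omega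
        · rw [ccl_not h', hctv, eb', if_neg (by omega), hmod']
          have := min_le_right n (cv n k j + 1)
          omega

end Pool.Agent.CPW
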