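import Pool.Agent.CPW.Bnd

/-!
# Package Clos: closed form of the heights, the pencil, the gaps between the tracks

Everything follows from `F_succ'` and the definitions of `D`, `th`, `G`, `X` (`simp` with
`(4 * e + r) % 4 = r`, `(4 * e + r) / 4 = e`).

`F_four`: induction on `e`. With `σ = sg e` (and `sg (e+1) = - sg e`, `sg_succ`) the sum of the four
increments of the period `e` is
`(1 - τ - α/2) + (q-1) 3/8 + (3/8 + α) + q (3/8 + (τ - α/2)/q)
   - [(2q+1) (e (M+3) + M - σ V i) + (q-1) + 2 + 3 q]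
 = 3/4 q - 4 q - (2q+1) (e (M+3) + M) + (2q+1) σ V i`, where `τ = tau e i`, `α = al e i`
(`q ≠ 0` is needed for the last `th`).

`F_two`: `F (4e+2) i = F (4e) i + (1 - τ - α/2) - (e (M+3) + M) + σ V i
   + (q-1) (3/8 - (e (M+3) + M + 1) + σ V i)`.

`pencil`: `F (4e+2) i + s (4e+2) i / 2 + tau e i` with
`s (4e+2) i = 3/8 + α - (e (M+3)+M+2) + σ V i`; the terms with `σ V i`, `α` and `τ` cancel.

`Q_w`: `P.Q (4e+2) i .w` has abscissa `X + (3/8 + α + λ dl) = X + 1/2` (`D = 1`, `g = 1`) and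
ordinate `F + s / 2 + 1/2 * 1/2 + (19/2) dl^2/8 = F + s/2 + tau e i` as `act e i`; then
`pencil` with `j = 0`.

Gaps: the differences are, for `j < i`, `i - j ≥ 1`:
`sg e (F (4e) j - F (4e) i) = V (i-j) (q+1/2)`;
`sg e (F (4e+1) j - F (4e+1) i) = V (i-j) (q-1/2) + sg e (θ_j - θ_i)` with
`θ = th (4e) = 1 - τ - α/2`, `|θ_j - θ_i| ≤ 13/50 + 1/4 + 1/8 ≤ 1`;
`sg e (F (4e+2) j - F (4e+2) i) = V (i-j) / 2 + sg e (θ_j - θ_i)`;
`sg e (F (4e+3) i - F (4e+3) j) = V (i-j) / 2 + sg e (θ_i + α_i - θ_j - α_j)` and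
`θ + α = 1 - τ + α/2`, again `≤ 1` in absolute value;
`sg e (F (4e+4) i - F (4e+4) j) = V (i-j) (q+1/2)`.
-/

set_option autoImplicit false

namespace Pool.Agent.CPW

namespace Par

variable {P : Par}

/-- The common part of the heights. -/
noncomputable def base (P : Par) (e : ℕ) : ℝ :=
  P.H - e * (13 / 4 * P.q) - (2 * P.q + 1) * (P.M * e + (P.M + 3) * (e * (e - 1) / 2))

private theorem m0 (e : ℕ) : 4 * e % 4 = 0 := by omega

private theorem m1 (e : ℕ) : (4 * e + 1) % 4 = 1 := by omega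

private theorem m2 (e : ℕ) : (4 * e + 2) % 4 = 2 := by omega

private theorem m3 (e : ℕ) : (4 * e + 3) % 4 = 3 := by omega

private theorem d0 (e : ℕ) : 4 * e / 4 = e := by omega

private theorem d1 (e : ℕ) : (4 * e + 1) / 4 = e := by omega

private theorem d2 (e : ℕ) : (4 * e + 2) / 4 = e := by omega

private theorem d3 (e : ℕ) : (4 * e + 3) / 4 = e := by omega

private theorem q_ne (P : Par) : P.q ≠ 0 := by
  have h : 0 < P.q := by
    unfold q
    positivity
  exact h.ne'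

private theorem st0 (P : Par) (e i : ℕ) : P.F (4 * e + 1) i = P.F (4 * e) i +
    (1 - P.tau e i - P.al e i / 2 - (e * (P.M + 3) + P.M - sg e * P.V * i)) := by
  rw [F_succ']
  simp only [D, th, G, m0, d0]
  norm_num

private theorem st1 (P : Par) (e i : ℕ) : P.F (4 * e + 2) i = P.F (4 * e + 1) i +
    (P.q - 1) * (3 / 8 - (e * (P.M + 3) + P.M + 1 - sg e * P.V * i)) := by
  rw [F_succ']
  simp only [D, th, G, m1, d1]
  norm_num

private theorem st2 (P : Par) (e i : ℕ) : P.F (4 * e + 3) i = P.F (4 * e + 2) i +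
    (3 / 8 + P.al e i - (e * (P.M + 3) + P.M + 2 - sg e * P.V * i)) := by
  rw [F_succ']
  simp only [D, th, G, m2, d2]
  norm_num

private theorem st3 (P : Par) (e i : ℕ) : P.F (4 * e + 4) i = P.F (4 * e + 3) i +
    P.q * (3 / 8 + (P.tau e i - P.al e i / 2) / P.q -
      (e * (P.M + 3) + P.M + 3 - sg e * P.V * i)) := by
  rw [F_succ']
  simp only [D, th, G, m3, d3]
  norm_num

theorem F_four (P : Par) (e i : ℕ) :
    P.F (4 * e) i = P.base e - sg e * P.V * i * (P.q + 1 / 2) := by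
  induction e with
  | zero =>
    simp only [Nat.mul_zero, F, base, sg]
    norm_num
  | succ e ih =>
    have h1 : 4 * (e + 1) = 4 * e + 4 := by ring
    have h3 : P.q * ((P.tau e i - P.al e i / 2) / P.q) = P.tau e i - P.al e i / 2 :=
      mul_div_cancel₀ _ (q_ne P)
    rw [h1, st3, st2, st1, st0, ih, sg_succ]
    unfold base
    push_cast
    linear_combination h3

theorem F_one (P : Par) (e i : ℕ) :
    P.F (4 * e + 1) i = P.base e - sg e * P.V * i * (P.q - 1 / 2) +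
      (1 - P.tau e i - P.al e i / 2) - (e * (P.M + 3) + P.M) := by
  rw [st0, F_four]
  ring

theorem F_two (P : Par) (e i : ℕ) :
    P.F (4 * e + 2) i = P.base e - sg e * P.V * i / 2 + (1 - P.tau e i - P.al e i / 2) +
      (P.q - 1) * (3 / 8) - P.q * (e * (P.M + 3) + P.M) - (P.q - 1) := by
  rw [st1, F_one]
  ring

theorem F_three (P : Par) (e i : ℕ) :
    P.F (4 * e + 3) i = P.base e + sg e * P.V * i / 2 + (1 - P.tau e i + P.al e i / 2) +
      P.q * (3 / 8) - (P.q + 1) * (e * (P.M + 3) + P.M) - (P.q + 1) := by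
  rw [st2, F_two]
  ring

theorem pencil (P : Par) (e i j : ℕ) :
    P.F (4 * e + 2) i + P.s (4 * e + 2) i / 2 + P.tau e i =
      P.F (4 * e + 2) j + P.s (4 * e + 2) j / 2 + P.tau e j := by
  rw [F_two, F_two]
  simp only [s, th, G, m2, d2]
  norm_num
  ring

theorem Q_w (P : Par) {e i : ℕ} (ha : P.act e i) : P.Q (4 * e + 2) i Lab.w = P.om e := by
  have hp := pencil P e i 0
  have hs : P.s (4 * e + 2) i = P.th (4 * e + 2) i - P.G (4 * e + 2) i := rfl
  have ht : P.th (4 * e + 2) i = 3 / 8 + P.al e i := by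
    simp only [th, m2, d2]
    norm_num
  have hD : P.D (4 * e + 2) = 1 := by
    simp only [D, m2]
    norm_num
  have hg : P.g (4 * e + 2) i = 1 := g_of_ne (by omega) i
  have ha2 : P.al e i = 1 / 8 - P.lam e i * P.dl := rfl
  have hta : P.tau e i = 1 / 4 + 19 / 16 * P.dl ^ 2 := by
    unfold tau
    rw [if_pos ha]
  have hA : P.th (4 * e + 2) i + P.lam e i * P.dl = 1 / 2 := by
    rw [ht, ha2]
    ring
  have hA2 : P.g (4 * e + 2) i - P.th (4 * e + 2) i - P.lam e i * P.dl = 1 / 2 := by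
    rw [hg]
    linarith
  unfold Q om pt
  simp only [pos, off, d2]
  rw [hA, hA2, hD, hg]
  refine Prod.ext ?_ ?_
  · simp only
    ring
  · simp only
    rw [hs, hta] at hp
    linear_combination hp

private theorem dth (h : P.Ok) (e i j : ℕ) :
    |(1 - P.tau e i - P.al e i / 2) - (1 - P.tau e j - P.al e j / 2)| ≤ 1 := by
  have h1 := tau_ge h e i
  have h2 := tau_ge h e j
  have h3 := tau_le' h e i
  have h4 := tau_le' h e j
  have h5 := al_ge h e i
  have h6 := al_ge h e j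
  have h7 := al_le h e i
  have h8 := al_le h e j
  have h9 := dl_pos h
  rw [abs_le]
  constructor <;> linarith

private theorem dth' (h : P.Ok) (e i j : ℕ) :
    |(1 - P.tau e i + P.al e i / 2) - (1 - P.tau e j + P.al e j / 2)| ≤ 1 := by
  have h1 := tau_ge h e i
  have h2 := tau_ge h e j
  have h3 := tau_le' h e i
  have h4 := tau_le' h e j
  have h5 := al_ge h e i
  have h6 := al_ge h e j
  have h7 := al_le h e i
  have h8 := al_le h e j
  have h9 := dl_pos h
  rw [abs_le]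
  constructor <;> linarith

private theorem sg_mul_ge (e : ℕ) {x : ℝ} (hx : |x| ≤ 1) : -1 ≤ sg e * x := by
  rw [abs_le] at hx
  rcases sg_cases e with h | h <;> rw [h] <;> linarith [hx.1, hx.2]

private theorem sg_abs (e : ℕ) (x : ℝ) : |sg e * x| = |x| := by
  rcases sg_cases e with h | h <;> rw [h]
  · rw [one_mul]
  · rw [neg_one_mul, abs_neg]

private theorem ij {i j : ℕ} (hj : j < i) : (1 : ℝ) ≤ (i : ℝ) - j := by
  have h1 : j + 1 ≤ i := hj
  have h2 : (j : ℝ) + 1 ≤ i := by exact_mod_cast h1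
  linarith

private theorem Vij {i j : ℕ} (hj : j < i) {c : ℝ} (hc : 0 ≤ c) :
    P.V * c ≤ P.V * ((i : ℝ) - j) * c := by
  have h1 := V_pos P
  have h2 := ij hj
  have h3 : P.V * 1 ≤ P.V * ((i : ℝ) - j) := mul_le_mul_of_nonneg_left h2 h1.le
  rw [mul_one] at h3
  exact mul_le_mul_of_nonneg_right h3 hc

theorem gap0 (h : P.Ok) (e : ℕ) {i j : ℕ} (hi : i < P.T) (hj : j < i) :
    P.V * (P.q + 1 / 2) ≤ sg e * (P.F (4 * e) j - P.F (4 * e) i) := by
  have hq := q_ge hi
  have h1 := Vij (P := P) hj (c := P.q + 1 / 2) (by linarith)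
  have h2 : sg e * (P.F (4 * e) j - P.F (4 * e) i) = P.V * ((i : ℝ) - j) * (P.q + 1 / 2) := by
    rw [F_four, F_four]
    linear_combination (P.V * ((i : ℝ) - j) * (P.q + 1 / 2)) * sg_sq e
  rw [h2]
  exact h1

theorem gap1 (h : P.Ok) (e : ℕ) {i j : ℕ} (hi : i < P.T) (hj : j < i) :
    P.V * (P.q - 1 / 2) - 1 ≤ sg e * (P.F (4 * e + 1) j - P.F (4 * e + 1) i) := by
  have hq := q_ge hi
  have h1 := Vij (P := P) hj (c := P.q - 1 / 2) (by linarith)
  have h3 := sg_mul_ge e (dth h e j i)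
  have h2 : sg e * (P.F (4 * e + 1) j - P.F (4 * e + 1) i) =
      P.V * ((i : ℝ) - j) * (P.q - 1 / 2) +
        sg e * ((1 - P.tau e j - P.al e j / 2) - (1 - P.tau e i - P.al e i / 2)) := by
    rw [F_one, F_one]
    linear_combination (P.V * ((i : ℝ) - j) * (P.q - 1 / 2)) * sg_sq e
  rw [h2]
  linarith

theorem gap2 (h : P.Ok) (e : ℕ) {i j : ℕ} (hi : i < P.T) (hj : j < i) :
    P.V / 2 - 1 ≤ sg e * (P.F (4 * e + 2) j - P.F (4 * e + 2) i) := by
  have h1 := Vij (P := P) hj (c := 1 / 2) (by norm_num)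
  have h3 := sg_mul_ge e (dth h e j i)
  have h2 : sg e * (P.F (4 * e + 2) j - P.F (4 * e + 2) i) =
      P.V * ((i : ℝ) - j) * (1 / 2) +
        sg e * ((1 - P.tau e j - P.al e j / 2) - (1 - P.tau e i - P.al e i / 2)) := by
    rw [F_two, F_two]
    linear_combination (P.V * ((i : ℝ) - j) * (1 / 2)) * sg_sq e
  rw [h2]
  linarith

theorem gap3 (h : P.Ok) (e : ℕ) {i j : ℕ} (hi : i < P.T) (hj : j < i) :
    P.V / 2 - 1 ≤ sg e * (P.F (4 * e + 3) i - P.F (4 * e + 3) j) := by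
  have h1 := Vij (P := P) hj (c := 1 / 2) (by norm_num)
  have h3 := sg_mul_ge e (dth' h e i j)
  have h2 : sg e * (P.F (4 * e + 3) i - P.F (4 * e + 3) j) =
      P.V * ((i : ℝ) - j) * (1 / 2) +
        sg e * ((1 - P.tau e i + P.al e i / 2) - (1 - P.tau e j + P.al e j / 2)) := by
    rw [F_three, F_three]
    linear_combination (P.V * ((i : ℝ) - j) * (1 / 2)) * sg_sq e
  rw [h2]
  linarith

theorem gap4 (h : P.Ok) (e : ℕ) {i j : ℕ} (hi : i < P.T) (hj : j < i) :
    P.V * (P.q + 1 / 2) ≤ sg e * (P.F (4 * e + 4) i - P.F (4 * e + 4) j) := by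
  have h1 := gap0 h (e + 1) hi hj
  rw [sg_succ] at h1
  have h2 : 4 * (e + 1) = 4 * e + 4 := by ring
  rw [h2] at h1
  linarith

private theorem gapLt (h : P.Ok) (c : ℕ) {i j : ℕ} (hi : i < P.T) (hj : j < i) :
    P.V / 2 - 1 ≤ |P.F c i - P.F c j| := by
  have hq := q_ge hi
  have hV := V_pos P
  have hc : c = 4 * (c / 4) + c % 4 := by omega
  have h4 : c % 4 = 0 ∨ c % 4 = 1 ∨ c % 4 = 2 ∨ c % 4 = 3 := by omega
  generalize c / 4 = e at hc
  rcases h4 with h4 | h4 | h4 | h4 <;> rw [h4] at hc <;> rw [hc]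
  · have h1 := gap0 h e hi hj
    have h2 := le_abs_self (sg e * (P.F (4 * e) j - P.F (4 * e) i))
    rw [sg_abs, abs_sub_comm] at h2
    rw [Nat.add_zero]
    nlinarith
  · have h1 := gap1 h e hi hj
    have h2 := le_abs_self (sg e * (P.F (4 * e + 1) j - P.F (4 * e + 1) i))
    rw [sg_abs, abs_sub_comm] at h2
    nlinarith
  · have h1 := gap2 h e hi hj
    have h2 := le_abs_self (sg e * (P.F (4 * e + 2) j - P.F (4 * e + 2) i))
    rw [sg_abs, abs_sub_comm] at h2
    linarith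
  · have h1 := gap3 h e hi hj
    have h2 := le_abs_self (sg e * (P.F (4 * e + 3) i - P.F (4 * e + 3) j))
    rw [sg_abs] at h2
    linarith

/-- The unsigned form of the gaps (from `gap0, gap2, gap3` and, for `c % 4 = 1`, `gap1`; note that
`V / 2 - 1 ≤ V (q - 1/2) - 1` and that `|sg e * y| = |y|`). -/
theorem gapAll (h : P.Ok) (c : ℕ) {i j : ℕ} (hi : i < P.T) (hj : j < P.T) (hij : i ≠ j) :
    P.V / 2 - 1 ≤ |P.F c i - P.F c j| := by
  rcases lt_or_gt_of_ne hij with h1 | h1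
  · rw [abs_sub_comm]
    exact gapLt h c hj h1
  · exact gapLt h c hi h1

theorem gapOne (h : P.Ok) (e : ℕ) {i j : ℕ} (hi : i < P.T) (hj : j < P.T) (hij : i ≠ j) :
    P.V * (P.q - 1 / 2) - 1 ≤ |P.F (4 * e + 1) i - P.F (4 * e + 1) j| := by
  rcases lt_or_gt_of_ne hij with h1 | h1
  · have h2 := le_abs_self (sg e * (P.F (4 * e + 1) i - P.F (4 * e + 1) j))
    rw [sg_abs] at h2
    exact (gap1 h e hj h1).trans h2
  · have h2 := le_abs_self (sg e * (P.F (4 * e + 1) j - P.F (4 * e + 1) i))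
    rw [sg_abs, abs_sub_comm] at h2
    exact (gap1 h e hi h1).trans h2

end Par

end Pool.Agent.CPW
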