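import Pool.Agent.CPW.Slopes

/-!
# Package Glue: chains of caps

By induction on `N` (or: prove for every `n ≤ N` that `B n = {z | ∃ c < n, z ∈ A c}` is a cap).
`B (n+1) = B n ∪ A n`. All points of `B n` have abscissa `≤ X n`, with equality only for `q n` (if
`n ≥ 1`, as `q n ∈ A (n-1)` and `A (n-1)` is a cap; points of `A c`, `c < n - 1`, have abscissa
`≤ X (c+1) < X n`), all points of `A n` have abscissa `≥ X n`, with equality only for `q n`.

Junction: for `a ∈ B n`, `a ≠ q n` and `b ∈ A n`, `b ≠ q n` we have `sl (q n) b < sl a (q n)`: for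
`a ∈ A (n-1)` this is `hj`. Otherwise `a.1 ≤ X (n-1)`. If `a = q (n-1)` then `a ∈ A (n-1)`. Otherwise
`a.1 < X (n-1) < X n`, the points `a, q (n-1), q n` are in the cap `B n`, so
`sl (q (n-1)) (q n) < sl a (q n)` (`sl_left_lt`), and `sl (q n) b < sl (q (n-1)) (q n)` by `hj`.

`conc` for `a.1 < b.1 < c.1` in `B n ∪ A n`: if all three are in `B n` or in `A n`, clear. If `b = q n`:
junction. If `b.1 < X n < c.1` (`a, b ∈ B n`, `c ∈ A n`): `sl b (q n) < sl a b` as `B n` is a cap,
`sl (q n) c < sl b (q n)` (junction), so `sl b c < sl b (q n)` (`sl_left_lt`). If `a.1 < X n < b.1`: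
`sl (q n) b < sl a (q n)`, so `sl (q n) b < sl a b` (`sl_left_lt`), and `sl b c < sl (q n) b`.
-/

set_option autoImplicit false

namespace Pool.Agent.CPW

theorem glue (N : ℕ) (X : ℕ → ℝ) (A : ℕ → Set Pt) (q : ℕ → Pt) (hX : ∀ c < N, X c < X (c + 1))
    (hA : ∀ c < N, Cap (A c)) (hx : ∀ c < N, ∀ z ∈ A c, X c ≤ z.1 ∧ z.1 ≤ X (c + 1))
    (hq : ∀ c < N, q c ∈ A c ∧ q (c + 1) ∈ A c) (hq1 : ∀ c ≤ N, (q c).1 = X c)
    (hj : ∀ c, c + 1 < N → ∀ a ∈ A c, a ≠ q (c + 1) → ∀ b ∈ A (c + 1), b ≠ q (c + 1) →
      sl (q (c + 1)) b < sl a (q (c + 1))) :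
    Cap {z | ∃ c < N, z ∈ A c} := by
  -- monotonicity
  have hmono : ∀ d c, c + d ≤ N → X c ≤ X (c + d) := by
    intro d
    induction d with
    | zero => exact fun c _ => le_rfl
    | succ d ih =>
      intro c hc
      have h1 := ih c (by omega)
      have h2 := hX (c + d) (by omega)
      rw [← add_assoc]
      linarith
  have hmono' : ∀ c n, c ≤ n → n ≤ N → X c ≤ X n := by
    intro c n h1 h2
    obtain ⟨d, rfl⟩ := Nat.exists_eq_add_of_le h1
    exact hmono d c h2
  have hB1 : ∀ n ≤ N, ∀ z, (∃ c < n, z ∈ A c) → z.1 ≤ X n := by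
    rintro n hn z ⟨c, hc, hz⟩
    exact (hx c (by omega) z hz).2.trans (hmono' _ _ hc hn)
  have hB2 : ∀ n ≤ N, ∀ z, (∃ c < n, z ∈ A c) → z.1 = X n → z = q n := by
    rintro n hn z ⟨c, hc, hz⟩ h1
    by_cases hcn : c + 1 = n
    · subst hcn
      exact (hA c (by omega)).inj z hz _ (hq c (by omega)).2 (by rw [h1, hq1 _ hn])
    · have h2 := (hx c (by omega) z hz).2
      have h3 := hX (c + 1) (by omega)
      have h4 := hmono' (c + 1 + 1) n (by omega) hn
      linarith
  have hA2 : ∀ n < N, ∀ z ∈ A n, z.1 = X n → z = q n := by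
    intro n hn z hz h1
    exact (hA n hn).inj z hz _ (hq n hn).1 (by rw [h1, hq1 _ hn.le])
  have key : ∀ n ≤ N, Cap {z | ∃ c < n, z ∈ A c} := by
    intro n
    induction n with
    | zero =>
      intro _
      refine ⟨?_, ?_⟩
      · rintro a ⟨c, hc, _⟩
        exact absurd hc (Nat.not_lt_zero c)
      · rintro a ⟨c, hc, _⟩
        exact absurd hc (Nat.not_lt_zero c)
    | succ n ih =>
      intro hn
      have hnN : n < N := hn
      have IH := ih hnN.le
      -- the junction
      have hJ : ∀ a, (∃ c < n, a ∈ A c) → a ≠ q n → ∀ b ∈ A n, b ≠ q n →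
          sl (q n) b < sl a (q n) := by
        rintro a ⟨c, hc, ha⟩ haq b hb hbq
        obtain ⟨m, rfl⟩ : ∃ m, n = m + 1 := ⟨n - 1, by omega⟩
        by_cases hcm : c = m
        · subst hcm
          exact hj c hnN a ha haq b hb hbq
        by_cases ham : a = q m
        · subst ham
          exact hj m hnN _ (hq m (by omega)).1 haq b hb hbq
        have hc' : c < m := by omega
        have h1 : a.1 ≤ X m := hB1 m (by omega) a ⟨c, hc', ha⟩
        have h2 : a.1 < X m :=
          lt_of_le_of_ne h1 fun h => ham (hB2 m (by omega) a ⟨c, hc', ha⟩ h)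
        have h3 := hX m (by omega)
        have e1 := hq1 m (by omega)
        have e2 := hq1 (m + 1) hnN.le
        have h4 := IH.conc a ⟨c, hc, ha⟩ (q m) ⟨m, by omega, (hq m (by omega)).1⟩ (q (m + 1))
          ⟨m, by omega, (hq m (by omega)).2⟩ (by rw [e1]; exact h2) (by rw [e1, e2]; exact h3)
        have h5 := (sl_left_lt (a := a) (b := q m) (c := q (m + 1)) (by rw [e1]; exact h2)
          (by rw [e1, e2]; exact h3) h4).2
        have h6 := hj m hnN (q m) (hq m (by omega)).1 (fun h => by
          rw [h, e2] at e1
          exact h3.ne' e1) b hb hbq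
        exact h6.trans h5
      have e1 := hq1 n hnN.le
      refine ⟨?_, ?_⟩
      · rintro a ⟨c, hc, ha⟩ b ⟨d, hd, hb⟩ hab
        rcases Nat.lt_succ_iff_lt_or_eq.1 hc with hc' | rfl
        · rcases Nat.lt_succ_iff_lt_or_eq.1 hd with hd' | rfl
          · exact IH.inj a ⟨c, hc', ha⟩ b ⟨d, hd', hb⟩ hab
          · have h1 := hB1 d hnN.le a ⟨c, hc', ha⟩
            have h2 := (hx d hnN b hb).1
            rw [hB2 d hnN.le a ⟨c, hc', ha⟩ (by linarith), hA2 d hnN b hb (by linarith)]
        · rcases Nat.lt_succ_iff_lt_or_eq.1 hd with hd' | rfl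
          · have h1 := hB1 c hnN.le b ⟨d, hd', hb⟩
            have h2 := (hx c hnN a ha).1
            rw [hB2 c hnN.le b ⟨d, hd', hb⟩ (by linarith), hA2 c hnN a ha (by linarith)]
          · exact (hA _ hnN).inj a ha b hb hab
      · have hcases : ∀ z, (∃ c < n + 1, z ∈ A c) → (∃ c < n, z ∈ A c) ∨ z ∈ A n := by
          rintro z ⟨c, hc, hz⟩
          rcases Nat.lt_succ_iff_lt_or_eq.1 hc with hc' | rfl
          · exact Or.inl ⟨c, hc', hz⟩
          · exact Or.inr hz
        have hl : ∀ z, (∃ c < n, z ∈ A c) → z.1 ≤ X n := hB1 n hnN.le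
        have hr : ∀ z ∈ A n, X n ≤ z.1 := fun z hz => (hx n hnN z hz).1
        intro a ha b hb c hc hab hbc
        rcases hcases c hc with hc | hc
        · have h1 := hl c hc
          have hb' : ∃ c < n, b ∈ A c := by
            rcases hcases b hb with h | h
            · exact h
            · exact absurd (hr b h) (by linarith)
          have ha' : ∃ c < n, a ∈ A c := by
            rcases hcases a ha with h | h
            · exact h
            · exact absurd (hr a h) (by linarith)
          exact IH.conc a ha' b hb' c hc hab hbc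
        · rcases hcases a ha with ha | ha
          · rcases hcases b hb with hb | hb
            · have hbX := hl b hb
              rcases hbX.eq_or_lt with h1 | h1
              · have h2 := hB2 n hnN.le b hb h1
                subst h2
                exact hJ a ha (fun h => by rw [h] at hab; exact lt_irrefl _ hab) c hc
                  (fun h => by rw [h] at hbc; exact lt_irrefl _ hbc)
              · have hqn : ∃ c < n, q n ∈ A c := by
                  obtain ⟨d, hd, _⟩ := hb
                  obtain ⟨m, rfl⟩ : ∃ m, n = m + 1 := ⟨n - 1, by omega⟩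
                  exact ⟨m, by omega, (hq m (by omega)).2⟩
                have h2 := IH.conc a ha b hb (q n) hqn hab (by rw [e1]; exact h1)
                rcases (hr c hc).eq_or_lt with h3 | h3
                · rw [hA2 n hnN c hc h3.symm]
                  exact h2
                · have h4 := hJ b hb (fun h => by rw [h, e1] at h1; exact lt_irrefl _ h1) c hc
                    (fun h => by rw [h, e1] at h3; exact lt_irrefl _ h3)
                  have h5 := (sl_left_lt (a := b) (b := q n) (c := c) (by rw [e1]; exact h1)
                    (by rw [e1]; exact h3) h4).1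
                  exact h5.trans h2
            · rcases (hr b hb).eq_or_lt with h1 | h1
              · have h2 := hA2 n hnN b hb h1.symm
                subst h2
                exact hJ a ha (fun h => by rw [h] at hab; exact lt_irrefl _ hab) c hc
                  (fun h => by rw [h] at hbc; exact lt_irrefl _ hbc)
              · rcases (hl a ha).eq_or_lt with h3 | h3
                · have h4 : a ∈ A n := by
                    rw [hB2 n hnN.le a ha h3]
                    exact (hq n hnN).1
                  exact (hA n hnN).conc a h4 b hb c hc hab hbc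
                · have h4 := hJ a ha (fun h => by rw [h, e1] at h3; exact lt_irrefl _ h3) b hb
                    (fun h => by rw [h, e1] at h1; exact lt_irrefl _ h1)
                  have h5 := (sl_left_lt (a := a) (b := q n) (c := b) (by rw [e1]; exact h3)
                    (by rw [e1]; exact h1) h4).2
                  have h6 := (hA n hnN).conc (q n) (hq n hnN).1 b hb c hc (by rw [e1]; exact h1)
                    hbc
                  exact h6.trans h5
          · have hb' : b ∈ A n := by
              rcases hcases b hb with h | h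
              · exact absurd (hl b h) (by have := hr a ha; linarith)
              · exact h
            exact (hA n hnN).conc a ha b hb' c hc hab hbc
  exact key N le_rfl

end Pool.Agent.CPW
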