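import Pool.Agent.CPW.CDefs

/-!
# Package Junc: the junction inequality of the caps of the completeness part

Four cases (`u = p ep` at all columns).
(1) `a = Pc c i p`, `b = Pc (c+2) i p`: by `sl_col` the slopes are `s c i` and `s (c+1) i`, and by
`G_succ` `s c i - s (c+1) i = th c i - th (c+1) i + g (c+1) i`. If `(c+1) % 4 ≠ 0` this is
`≥ 1/4 - 1/2 + 1`, otherwise `≥ 1/4 - 21/16 + 4`.
(2) `a = Pc c i p`, `b = Q (c+1) i y` (`a' = pos y`, `A' = th (c+1) i + a' dl`): by `sl_in` and `G_succ`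
`sl (Pc (c+1)) b = - G c i - a' dl + off y dl²/(8 A') - p ep g'/(D' A') ≤ - G c i + 17 dl²/2` and
`s c i = th c i - G c i ≥ 1/4 - G c i`; `17 dl²/2 ≤ 17/3200 < 1/4`.
(3) `a = Q c i x`, `b = Pc (c+2) i p`: by `sl_out`
`sl a (Pc (c+1)) = - G c i - a dl - off x dl²/(8 (g-A)) + … ≥ - G c i - 1/4 - 17 dl²/2` (`a dl ≤ L dl
= 1/4`), and `s (c+1) i = th (c+1) i - G c i - g (c+1) i ≤ - G c i - 1/2` by `th_g`; and
`17 dl²/2 < 1/4`.
(4) `a = Q c i x`, `b = Q (c+1) i y`: if `p < 4`, `cls` in stage `c` requires `(c + p/2) % 2 = 0` and in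
stage `c+1` `(c + 1 + p/2) % 2 = 0`, a contradiction. So `p = 4`, `x = y = W (v i)`, the positions are
both `v i`, the offsets are `-2` (`v i` even, `0 < v i < L`):
`sl a (Pc (c+1)) = - G c i - (v i) dl + 2 dl²/(8 (g-A)) + (nonneg)`, greater than
`sl (Pc (c+1)) b = - G c i - (v i) dl - 2 dl²/(8 A') - (nonneg)`.
(`cls` labels are `lab` labels, for `sl_in`, `sl_out`, `A_bd`.)
-/

set_option autoImplicit false

namespace Pool.Agent.CPW

theorem cls_lab (P : Par) (v : ℕ → ℕ) {c i p : ℕ} (hv : v i < P.L) {x : Lab}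
    (hx : P.cls v c i p x) : P.lab c i x := by
  rcases hx with ⟨_, rfl⟩ | ⟨_, _, hx⟩
  · exact Or.inl hv.le
  · cases x with
    | U l => exact Or.inl hx.1
    | W l => exact Or.inl hx.1
    | e => exact Or.inl trivial
    | f => exact Or.inl trivial
    | w => exact Or.inr ⟨rfl, hx.1⟩

private theorem frac_le {o t B : ℝ} (ho : o ≤ 17) (ht : 0 ≤ t) (hB : 1 / 4 ≤ B) :
    o * t / (8 * B) ≤ 17 * t / 2 := by
  rw [div_le_div_iff₀ (by linarith) (by norm_num)]
  have h1 : o * t ≤ 17 * t := mul_le_mul_of_nonneg_right ho ht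
  have h2 : 17 * t * 2 ≤ 17 * t * (8 * B) := mul_le_mul_of_nonneg_left (by linarith) (by linarith)
  linarith

private theorem sl_cc (P : Par) {c i p : ℕ} (hi : i < P.T) :
    sl (P.Pc c i p) (P.Pc (c + 1) i p) = P.th c i - P.G c i := by
  have h := sl_col (X := P.X c) (Y := P.F c i) (D := P.D c) (u := p * P.ep)
    (Par.D_pos hi c) (Par.F_succ' P c i) (p * P.ep)
  simp only [Par.Pc, Par.X_succ]
  rw [h]
  simp

private theorem sl_qc (P : Par) (h : P.Ok) {c i p : ℕ} (hi : i < P.T) {x : Lab}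
    (hx : P.lab c i x) :
    sl (P.Q c i x) (P.Pc (c + 1) i p) =
      -P.G c i - P.pos (c / 4) i x * P.dl
        - P.off x * P.dl ^ 2 / (8 * (P.g c i - P.th c i - P.pos (c / 4) i x * P.dl))
        + p * P.ep * P.g c i / (P.D c * (P.g c i - P.th c i - P.pos (c / 4) i x * P.dl)) := by
  have h1 := Par.A_bd h hi hx
  have h3 : 0 < P.g c i := by linarith [Par.g_ge (P := P) hi c]
  simp only [Par.Pc, Par.X_succ, Par.F_succ', Par.Q]
  exact sl_out (Par.D_pos hi c) h3 (by linarith [h1.2.2])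

private theorem sl_cq (P : Par) (h : P.Ok) {c i p : ℕ} (hi : i < P.T) {x : Lab}
    (hx : P.lab c i x) :
    sl (P.Pc c i p) (P.Q c i x) =
      -(P.G c i - P.g c i) - P.pos (c / 4) i x * P.dl
        + P.off x * P.dl ^ 2 / (8 * (P.th c i + P.pos (c / 4) i x * P.dl))
        - p * P.ep * P.g c i / (P.D c * (P.th c i + P.pos (c / 4) i x * P.dl)) := by
  have h1 := Par.A_bd h hi hx
  have h3 : 0 < P.g c i := by linarith [Par.g_ge (P := P) hi c]
  simp only [Par.Pc, Par.Q]
  exact sl_in (Par.D_pos hi c) h3 (by linarith [h1.1])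

private theorem pdl (P : Par) (h : P.Ok) {c i : ℕ} {x : Lab} (hx : P.lab c i x) :
    0 ≤ P.pos (c / 4) i x * P.dl ∧ P.pos (c / 4) i x * P.dl ≤ 1 / 4 := by
  have h1 := Par.dl_pos h
  have h2 := Par.L_dl h
  refine ⟨mul_nonneg (Par.pos_nonneg h) h1.le, ?_⟩
  have := mul_le_mul_of_nonneg_right (Par.pos_le h hx) h1.le
  linarith

theorem junc (P : Par) (h : P.Ok) (v : ℕ → ℕ) {c i p : ℕ} (hi : i < P.T) (hp : p < 5)
    (hv : v i % 2 = 0 ∧ 0 < v i ∧ v i < P.L) {a b : Pt}
    (ha : a = P.Pc c i p ∨ ∃ x : Lab, P.cls v c i p x ∧ a = P.Q c i x)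
    (hb : b = P.Pc (c + 2) i p ∨ ∃ y : Lab, P.cls v (c + 1) i p y ∧ b = P.Q (c + 1) i y) :
    sl (P.Pc (c + 1) i p) b < sl a (P.Pc (c + 1) i p) := by
  have hdl := Par.dl_pos h
  have hdl' := Par.dl_le h
  have hsq := Par.dl_sq h
  have hsmall : 17 * P.dl ^ 2 / 2 < 1 / 4 := by nlinarith
  have hep := Par.ep_pos h
  have hG := Par.G_succ P c i
  have hth := Par.th_ge h hi c
  have hth' := Par.th_ge h hi (c + 1)
  have hthg := Par.th_g h hi (c + 1)
  have hg : 1 ≤ P.g c i := Par.g_ge hi c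
  have hg' : 1 ≤ P.g (c + 1) i := Par.g_ge hi (c + 1)
  have hD := Par.D_pos (P := P) hi c
  have hD' := Par.D_pos (P := P) hi (c + 1)
  have hpe : 0 ≤ (p : ℝ) * P.ep := by positivity
  -- lower bounds for the left slope
  rcases ha with rfl | ⟨x, hx, rfl⟩
  · rw [sl_cc P hi]
    rcases hb with rfl | ⟨y, hy, rfl⟩
    · rw [show c + 2 = (c + 1) + 1 from rfl, sl_cc P hi, hG]
      by_cases hc : (c + 1) % 4 = 0
      · have h1 := Par.th_le h hi (c + 1)
        have h2 := Par.g_B_ge (P := P) hi hc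
        have h3 := Par.V_pos P
        linarith
      · linarith
    · have hl := cls_lab P v hv.2.2 hy
      have hA := Par.A_bd h hi hl
      have hpd := pdl P h hl
      rw [sl_cq P h hi hl, hG]
      have h1 := frac_le (Par.off_le P y) hsq.1.le hA.1
      have h2 : 0 ≤ p * P.ep * P.g (c + 1) i /
          (P.D (c + 1) * (P.th (c + 1) i + P.pos ((c + 1) / 4) i y * P.dl)) := by
        have : 0 < P.th (c + 1) i + P.pos ((c + 1) / 4) i y * P.dl := by linarith [hA.1]
        positivity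
      linarith [hpd.1]
  · have hl := cls_lab P v hv.2.2 hx
    have hA := Par.A_bd h hi hl
    have hpd := pdl P h hl
    rw [sl_qc P h hi hl]
    have h2 : 0 ≤ p * P.ep * P.g c i /
        (P.D c * (P.g c i - P.th c i - P.pos (c / 4) i x * P.dl)) := by
      have : 0 < P.g c i - P.th c i - P.pos (c / 4) i x * P.dl := by linarith [hA.2.2]
      positivity
    rcases hb with rfl | ⟨y, hy, rfl⟩
    · rw [show c + 2 = (c + 1) + 1 from rfl, sl_cc P hi, hG]
      have h1 := frac_le (Par.off_le P x) hsq.1.le hA.2.2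
      linarith [hpd.2]
    · have hl' := cls_lab P v hv.2.2 hy
      have hA' := Par.A_bd h hi hl'
      rw [sl_cq P h hi hl', hG]
      have h3 : 0 ≤ p * P.ep * P.g (c + 1) i /
          (P.D (c + 1) * (P.th (c + 1) i + P.pos ((c + 1) / 4) i y * P.dl)) := by
        have : 0 < P.th (c + 1) i + P.pos ((c + 1) / 4) i y * P.dl := by linarith [hA'.1]
        positivity
      rcases hx with ⟨hp4, rfl⟩ | ⟨hp4, hc, _⟩
      · rcases hy with ⟨_, rfl⟩ | ⟨hp4', _, _⟩
        · have ho : P.off (Lab.W (v i)) = -2 := by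
            simp only [Par.off]
            rw [if_neg (by omega), if_pos hv.1]
          have e1 : P.pos (c / 4) i (Lab.W (v i)) = (v i : ℝ) := rfl
          have e2 : P.pos ((c + 1) / 4) i (Lab.W (v i)) = (v i : ℝ) := rfl
          rw [ho]
          rw [e1] at h2 hA ⊢
          rw [e2] at h3 hA' ⊢
          have h5 : 0 < 2 * P.dl ^ 2 / (8 * (P.g c i - P.th c i - v i * P.dl)) := by
            have : 0 < P.g c i - P.th c i - v i * P.dl := by linarith [hA.2.2]
            have := hsq.1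
            positivity
          have h6 : 0 < 2 * P.dl ^ 2 / (8 * (P.th (c + 1) i + v i * P.dl)) := by
            have : 0 < P.th (c + 1) i + v i * P.dl := by linarith [hA'.1]
            have := hsq.1
            positivity
          have e3 : -2 * P.dl ^ 2 / (8 * (P.g c i - P.th c i - v i * P.dl)) =
              -(2 * P.dl ^ 2 / (8 * (P.g c i - P.th c i - v i * P.dl))) := by ring
          have e4 : -2 * P.dl ^ 2 / (8 * (P.th (c + 1) i + v i * P.dl)) =
              -(2 * P.dl ^ 2 / (8 * (P.th (c + 1) i + v i * P.dl))) := by ring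
          rw [e3, e4]
          linarith
        · omega
      · rcases hy with ⟨hp4', _⟩ | ⟨_, hc', _⟩
        · omega
        · omega

end Pool.Agent.CPW
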