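import Pool.Agent.CPW.Bnd

/-!
# Package StCap: strictly concave labels give a cap in the stage

Let `D = D c`, `g = g c i`, `th = th c i`, `G = G c i`, `δ = dl`. For a label `x` with `Λ x`, `a = pos x`,
`o = off x`, `A = th + a δ` put `m x = -(G - g) - th - 2 a δ + μ x * δ / 8`.

(1) If `Λ x, Λ y`, `x ≠ y`, `a' = pos y`, `d = a' - a`: by `sl_mid` the slope of the line through `Q x` and
`Q y` is `-(G-g) - th - (a + a') δ + (o' - o) δ/(8 d)`, and its difference to `m x` is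
`(δ / (8 d)) (-8 d² + (o' - o) - μ d)`, where the second factor is negative by `hm`. So
`sl (Q x) (Q y) < m x` if `d > 0` and `m x < sl (Q y) (Q x)` if `d < 0`.

(2) `m x < sl (Pc c) (Q x)`: by `sl_in` (`u = p ep`) the difference is
`th + a δ + o δ²/(8 A) - p ep g / (D A) - μ δ / 8`, which is at least
`1/4 - δ² - 16 δ²/10000 - δ > 0` (`A_bd`, `off_ge`, `ep_g`, `D_ge`, `δ ≤ 1/40`).

(3) `sl (Q x) (Pc (c+1)) < m x`: by `sl_out` the difference `m x - sl` is
`g - th - a δ + o δ²/(8 (g - A)) - p ep g/(D (g - A)) + μ δ/8 ≥ 1/4 - δ² - 16 δ²/10000 - δ > 0`.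

Now the set is a cap. The abscissas: `X c = (Pc c).1 < (Q x).1 < X (c+1) = (Pc (c+1)).1` (`Q_fst`),
and those of different labels are different (`pt_fst_eq_iff`, `hm`): `inj`. `conc`: if
`a.1 < b.1 < c'.1` in the set then `b` is a label point `Q x`, and `sl b c' < m x < sl a b` by (1), (2),
(3).
-/

set_option autoImplicit false

namespace Pool.Agent.CPW

open Par

/-- the slope of the support line at the label -/
private noncomputable def mm (P : Par) (c i : ℕ) (μ : Lab → ℝ) (x : Lab) : ℝ :=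
  -(P.G c i - P.g c i) - P.th c i - 2 * P.pos (c / 4) i x * P.dl + μ x * P.dl / 8

private theorem key_mid {a a' o o' m dl b t : ℝ} (hdl : 0 < dl) (hd : 0 < a' - a)
    (h : o' < o + 8 * (a' - a) ^ 2 + m * (a' - a)) :
    -b - t - (a + a') * dl + (o' - o) * dl / (8 * (a' - a)) <
      -b - t - 2 * a * dl + m * dl / 8 := by
  have h1 : (o' - o) * dl / (8 * (a' - a)) < (a' - a) * dl + m * dl / 8 := by
    rw [div_lt_iff₀ (by positivity)]
    nlinarith [mul_pos hdl hd]
  linarith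

private theorem key_mid' {a a' o o' m dl b t : ℝ} (hdl : 0 < dl) (hd : 0 < a - a')
    (h : o' < o + 8 * (a' - a) ^ 2 + m * (a' - a)) :
    -b - t - 2 * a * dl + m * dl / 8 <
      -b - t - (a' + a) * dl + (o - o') * dl / (8 * (a - a')) := by
  have h1 : m * dl / 8 - (a - a') * dl < (o - o') * dl / (8 * (a - a')) := by
    rw [lt_div_iff₀ (by positivity)]
    nlinarith [mul_pos hdl hd]
  linarith

/-- the bounds of the small terms -/
private theorem small {A g D u e o dl μ : ℝ} (hA : 1 / 4 ≤ A) (hD : 1 ≤ D) (hdl : 0 < dl)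
    (hdl' : dl ≤ 1 / 40) (ho : -2 ≤ o) (hu : u ≤ 4 * e) (heg : e * g ≤ dl ^ 2 / 10000)
    (hg : 0 ≤ g) (hμ : |μ| ≤ 8) :
    -(1 / 4) < o * dl ^ 2 / (8 * A) - u * g / (D * A) - μ * dl / 8 ∧
      -(1 / 4) < o * dl ^ 2 / (8 * A) - u * g / (D * A) + μ * dl / 8 := by
  have hA0 : 0 < A := by linarith
  have hDA : 1 / 4 ≤ D * A := by nlinarith
  have h1 : -(dl ^ 2) ≤ o * dl ^ 2 / (8 * A) := by
    rw [le_div_iff₀ (by positivity)]
    have : 0 ≤ dl ^ 2 := by positivity
    nlinarith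
  have h2 : u * g / (D * A) ≤ 16 * (dl ^ 2 / 10000) := by
    rw [div_le_iff₀ (by positivity)]
    have e1 : u * g ≤ 4 * (e * g) := by nlinarith
    have e2 : 0 ≤ dl ^ 2 / 10000 := by positivity
    nlinarith
  obtain ⟨h3, h4⟩ := abs_le.1 hμ
  have h5 : μ * dl / 8 ≤ dl := by nlinarith
  have h6 : -dl ≤ μ * dl / 8 := by nlinarith
  have h7 : dl ^ 2 ≤ 1 / 40 * dl := by nlinarith
  constructor <;> nlinarith

private theorem in_lt (P : Par) (h : P.Ok) {c i p : ℕ} (hi : i < P.T) (hp : p < 5) {x : Lab}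
    (hx : P.lab c i x) {μ : Lab → ℝ} (hμ : |μ x| ≤ 8) :
    mm P c i μ x < sl (P.Pc c i p) (P.Q c i x) := by
  have hA := A_bd h hi hx
  have hD := D_ge hi c
  have hg := g_ge hi c
  have hp4 : (p : ℝ) ≤ 4 := by exact_mod_cast (by omega : p ≤ 4)
  have hep := ep_pos h
  have hs := small (A := P.th c i + P.pos (c / 4) i x * P.dl) (g := P.g c i) (D := P.D c)
    (u := p * P.ep) (e := P.ep) (o := P.off x) (μ := μ x) hA.1 hD (dl_pos h) (dl_le h)
    (off_ge P x) (mul_le_mul_of_nonneg_right hp4 hep.le) (ep_g h hi c) (by linarith) hμ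
  unfold Par.Pc Par.Q mm
  rw [sl_in (by linarith) (by linarith) (by linarith [hA.1])]
  linarith [hs.1, hA.1]

private theorem out_lt (P : Par) (h : P.Ok) {c i p : ℕ} (hi : i < P.T) (hp : p < 5) {x : Lab}
    (hx : P.lab c i x) {μ : Lab → ℝ} (hμ : |μ x| ≤ 8) :
    sl (P.Q c i x) (P.Pc (c + 1) i p) < mm P c i μ x := by
  have hA := A_bd h hi hx
  have hD := D_ge hi c
  have hg := g_ge hi c
  have hp4 : (p : ℝ) ≤ 4 := by exact_mod_cast (by omega : p ≤ 4)
  have hep := ep_pos h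
  have hs := small (A := P.g c i - P.th c i - P.pos (c / 4) i x * P.dl) (g := P.g c i)
    (D := P.D c) (u := p * P.ep) (e := P.ep) (o := P.off x) (μ := μ x) hA.2.2 hD (dl_pos h)
    (dl_le h) (off_ge P x) (mul_le_mul_of_nonneg_right hp4 hep.le) (ep_g h hi c)
    (by linarith) hμ
  unfold Par.Pc Par.Q mm
  rw [X_succ, F_succ', sl_out (by linarith) (by linarith) (by linarith [hA.2.2])]
  linarith [hs.2, hA.2.2]

theorem stCap (P : Par) (h : P.Ok) {c i p : ℕ} (hi : i < P.T) (hp : p < 5) (Λ : Lab → Prop)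
    (μ : Lab → ℝ) (hΛ : ∀ x, Λ x → P.lab c i x) (hμ : ∀ x, Λ x → |μ x| ≤ 8)
    (hm : ∀ x y, Λ x → Λ y → x ≠ y → P.pos (c / 4) i x ≠ P.pos (c / 4) i y ∧
      P.off y < P.off x + 8 * (P.pos (c / 4) i y - P.pos (c / 4) i x) ^ 2 +
        μ x * (P.pos (c / 4) i y - P.pos (c / 4) i x)) :
    Cap {z | z = P.Pc c i p ∨ z = P.Pc (c + 1) i p ∨ ∃ x : Lab, Λ x ∧ z = P.Q c i x} := by
  have hdl := dl_pos h
  have hD : 0 < P.D c := D_pos hi c
  have hg : 0 < P.g c i := by linarith [g_ge hi c]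
  have hX : P.X c < P.X (c + 1) := by
    rw [X_succ]
    linarith
  -- the support line at a label
  have hlt : ∀ x, Λ x → ∀ z, (z = P.Pc c i p ∨ z = P.Pc (c + 1) i p ∨ ∃ y : Lab, Λ y ∧
      z = P.Q c i y) → z.1 < (P.Q c i x).1 → mm P c i μ x < sl z (P.Q c i x) := by
    rintro x hx z (rfl | rfl | ⟨y, hy, rfl⟩) hz
    · exact in_lt P h hi hp (hΛ x hx) (hμ x hx)
    · exact absurd hz (not_lt.2 (Q_fst h hi (hΛ x hx)).2.le)
    · have h1 : P.pos (c / 4) i y < P.pos (c / 4) i x :=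
        (pt_fst_lt_iff (o := P.off y) (o' := P.off x) hD hg hdl).1 hz
      have hne : x ≠ y := by
        rintro rfl
        exact lt_irrefl _ h1
      have h2 := (hm x y hx hy hne).2
      unfold Par.Q mm
      rw [sl_mid hD hg hdl h1.ne]
      exact key_mid' hdl (by linarith) h2
  have hgt : ∀ x, Λ x → ∀ z, (z = P.Pc c i p ∨ z = P.Pc (c + 1) i p ∨ ∃ y : Lab, Λ y ∧
      z = P.Q c i y) → (P.Q c i x).1 < z.1 → sl (P.Q c i x) z < mm P c i μ x := by
    rintro x hx z (rfl | rfl | ⟨y, hy, rfl⟩) hz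
    · exact absurd hz (not_lt.2 (Q_fst h hi (hΛ x hx)).1.le)
    · exact out_lt P h hi hp (hΛ x hx) (hμ x hx)
    · have h1 : P.pos (c / 4) i x < P.pos (c / 4) i y :=
        (pt_fst_lt_iff (o := P.off x) (o' := P.off y) hD hg hdl).1 hz
      have hne : x ≠ y := by
        rintro rfl
        exact lt_irrefl _ h1
      have h2 := (hm x y hx hy hne).2
      unfold Par.Q mm
      rw [sl_mid hD hg hdl h1.ne]
      exact key_mid hdl (by linarith) h2
  constructor
  · rintro a ha b hb hab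
    rcases ha with rfl | rfl | ⟨x, hx, rfl⟩ <;> rcases hb with rfl | rfl | ⟨y, hy, rfl⟩
    · rfl
    · exact absurd hab hX.ne
    · exact absurd hab (Q_fst h hi (hΛ y hy)).1.ne
    · exact absurd hab hX.ne'
    · rfl
    · exact absurd hab (Q_fst h hi (hΛ y hy)).2.ne'
    · exact absurd hab (Q_fst h hi (hΛ x hx)).1.ne'
    · exact absurd hab (Q_fst h hi (hΛ x hx)).2.ne
    · by_contra hne
      have hxy : x ≠ y := by
        rintro rfl
        exact hne rfl
      exact (hm x y hx hy hxy).1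
        ((pt_fst_eq_iff (o := P.off x) (o' := P.off y) hD hg hdl).1 hab)
  · rintro a ha b hb z hz hab hbz
    rcases hb with rfl | rfl | ⟨x, hx, rfl⟩
    · exfalso
      rcases ha with rfl | rfl | ⟨y, hy, rfl⟩
      · exact lt_irrefl _ hab
      · exact absurd hab (not_lt.2 hX.le)
      · exact absurd hab (not_lt.2 (Q_fst h hi (hΛ y hy)).1.le)
    · exfalso
      rcases hz with rfl | rfl | ⟨y, hy, rfl⟩
      · exact absurd hbz (not_lt.2 hX.le)
      · exact lt_irrefl _ hbz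
      · exact absurd hbz (not_lt.2 (Q_fst h hi (hΛ y hy)).2.le)
    · exact (hgt x hx z hz hbz).trans (hlt x hx a ha hab)

end Pool.Agent.CPW
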