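import Pool.Agent.CPW.Micro
import Pool.Agent.CPW.StCap
import Pool.Agent.CPW.Glue
import Pool.Agent.CPW.Junc
import Pool.Agent.CPW.Clos

/-!
# Package Compl: assembly of the completeness part

For `j < 5 T` let `i = j / 5`, `p = j % 5` and `A j = {z | ∃ c < 4 E, z ∈ P.cset v c i p}`.

(1) `A j` is a cap: `glue` with `N = 4 E`, `X = P.X`, `A c = P.cset v c i p`, `q c = P.Pc c i p`.
`cset` is a cap by `stCap` with `Λ = P.cls v c i p`, `μ = P.mu (v i) (c/4) i` (`|μ| ≤ 8`) for `p <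
4` (condition `hm`: `micro`), and for `p = 4` any `μ`, e.g. `0` (only one label). The junction:
`junc` (if `a ∈ cset c`, `a ≠ Pc (c+1)`, then `a = Pc c` or `a = Q c x`, …). The ranges of
abscissas: `Q_fst`, `cls_lab`, `X_succ`, `D_pos`.

(2) Every `z ∈ S` is in some `A j` (`CapPart_of_cover`), `j = 5 i + p`:
* `z = Pc c i p`: `z ∈ cset c` if `c < 4 E`, and `z ∈ cset (c-1)` if `c = 4 E > 0`.
* `z = Q c i (U l)`: `b = blk (v i) l % 2`, `p = b + 2 (c % 2)`; `z = Q c i (W l)`: if `l = v i`, `p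
  = 4`, otherwise `b = (blk (v i) l + 1) % 2`, `p = b + 2 (c % 2)`; `z = Q c i e`: `b = 1`; `z = Q c
  i f`: `b = (blk (v i) L + 1) % 2`.
* `z = om e`: let `i` be the track given by `ht`; `z = Q (4e+2) i w` by `Q_w`; `b = blk (v i) (cl e
  i) % 2`, `p = b`, `c = 4 e + 2`.
-/

set_option autoImplicit false

namespace Pool.Agent.CPW

private theorem compl_mu (P : Par) (ls e i : ℕ) (x : Lab) : |P.mu ls e i x| ≤ 8 := by
  cases x <;> simp only [Par.mu] <;> (try split_ifs) <;> rw [abs_le] <;> constructor <;> norm_num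

private theorem compl_cap (P : Par) (h : P.Ok) (v : ℕ → ℕ) {i p : ℕ} (hi : i < P.T) (hp : p < 5)
    (hv : v i % 2 = 0 ∧ 0 < v i ∧ v i < P.L) :
    Cap {z | ∃ c < 4 * P.E, z ∈ P.cset v c i p} := by
  refine glue (4 * P.E) P.X (fun c => P.cset v c i p) (fun c => P.Pc c i p) ?_ ?_ ?_ ?_ ?_ ?_
  · intro c _
    have h1 := Par.D_pos hi c
    rw [Par.X_succ]
    linarith
  · intro c _
    have hΛ : ∀ x, P.cls v c i p x → P.lab c i x := fun x hx => cls_lab P v hv.2.2 hx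
    by_cases hp4 : p < 4
    · refine stCap P h hi hp (P.cls v c i p) (P.mu (v i) (c / 4) i) hΛ
        (fun x _ => compl_mu P _ _ _ x) fun x y hx hy hxy => ?_
      rcases hx with hx | hx
      · omega
      · rcases hy with hy | hy
        · omega
        · exact micro P h (Nat.mod_lt p two_pos) hv.2.1 hv.2.2 hv.1 hx.2.2 hy.2.2 hxy
    · refine stCap P h hi hp (P.cls v c i p) (fun _ => 0) hΛ (fun x _ => by simp)
        fun x y hx hy hxy => ?_
      rcases hx with hx | hx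
      · rcases hy with hy | hy
        · exact absurd (hx.2.trans hy.2.symm) hxy
        · omega
      · omega
  · intro c _ z hz
    have h1 : P.X c < P.X (c + 1) := by
      have h1 := Par.D_pos hi c
      rw [Par.X_succ]
      linarith
    rcases hz with rfl | rfl | ⟨x, hx, rfl⟩
    · exact ⟨le_rfl, h1.le⟩
    · exact ⟨h1.le, le_rfl⟩
    · have h2 := Par.Q_fst h hi (cls_lab P v hv.2.2 hx)
      exact ⟨h2.1.le, h2.2.le⟩
  · intro c _
    exact ⟨Or.inl rfl, Or.inr (Or.inl rfl)⟩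
  · intro c _
    rfl
  · intro c _ a ha ha' b hb hb'
    refine junc P h v hi hp hv ?_ ?_
    · rcases ha with ha | ha | ha
      · exact Or.inl ha
      · exact absurd ha ha'
      · exact Or.inr ha
    · rcases hb with hb | hb | hb
      · exact absurd hb hb'
      · exact Or.inl hb
      · exact Or.inr hb

private theorem compl_cls (P : Par) (v : ℕ → ℕ) (c i b : ℕ) (hb : b < 2) {x : Lab}
    (hx : P.sup (v i) b (c / 4) i (c % 4 = 2 ∧ P.act (c / 4) i) x) :
    ∃ p < 5, P.cls v c i p x := by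
  refine ⟨b + 2 * (c % 2), by omega, Or.inr ⟨by omega, by omega, ?_⟩⟩
  have h1 : (b + 2 * (c % 2)) % 2 = b := by omega
  rw [h1]
  exact hx

private theorem compl_str (P : Par) (v : ℕ → ℕ) (c i : ℕ) {x : Lab} (hx : P.str x) :
    ∃ p < 5, P.cls v c i p x := by
  cases x with
  | U l =>
    exact compl_cls P v c i (blk (v i) l % 2) (Nat.mod_lt _ two_pos) ⟨hx, by omega⟩
  | W l =>
    by_cases hl : l = v i
    · exact ⟨4, by omega, Or.inl ⟨rfl, by rw [hl]⟩⟩
    · exact compl_cls P v c i ((blk (v i) l + 1) % 2) (Nat.mod_lt _ two_pos) ⟨hx, hl, by omega⟩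
  | e =>
    exact compl_cls P v c i 1 (by omega) rfl
  | f =>
    refine compl_cls P v c i ((blk (v i) P.L + 1) % 2) (Nat.mod_lt _ two_pos) ?_
    show (blk (v i) P.L + (blk (v i) P.L + 1) % 2) % 2 = 1
    omega
  | w => exact hx.elim

theorem compl (P : Par) (h : P.Ok) (hE : 0 < P.E) (v : ℕ → ℕ)
    (hv : ∀ i < P.T, v i % 2 = 0 ∧ 0 < v i ∧ v i < P.L)
    (ht : ∀ e < P.E, P.pre e → ∃ i < P.T, P.act e i ∧ (P.rt e i → v i < P.cl e i) ∧
      (¬ P.rt e i → P.cl e i < v i)) :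
    CapPart P.S (5 * P.T) := by
  have key : ∀ z ∈ P.S, ∃ i < P.T, ∃ p < 5, ∃ c < 4 * P.E, z ∈ P.cset v c i p := by
    rintro z (⟨c, i, p, hc, hi, hp, rfl⟩ | ⟨c, i, x, hc, hi, hx, rfl⟩ | ⟨e, he, hpe, rfl⟩)
    · rcases Nat.lt_or_ge c (4 * P.E) with hc' | hc'
      · exact ⟨i, hi, p, hp, c, hc', Or.inl rfl⟩
      · obtain ⟨c', rfl⟩ : ∃ c', c = c' + 1 := ⟨c - 1, by omega⟩
        exact ⟨i, hi, p, hp, c', by omega, Or.inr (Or.inl rfl)⟩
    · obtain ⟨p, hp, hcls⟩ := compl_str P v c i hx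
      exact ⟨i, hi, p, hp, c, hc, Or.inr (Or.inr ⟨x, hcls, rfl⟩)⟩
    · obtain ⟨i, hi, ha, h1, h2⟩ := ht e he hpe
      have e1 : (4 * e + 2) / 4 = e := by omega
      have e2 : (4 * e + 2) % 4 = 2 := by omega
      obtain ⟨p, hp, hcls⟩ := compl_cls P v (4 * e + 2) i (blk (v i) (P.cl e i) % 2)
        (Nat.mod_lt _ two_pos) (x := Lab.w) (by
          rw [e1]
          exact ⟨⟨e2, ha⟩, by omega, h1, h2⟩)
      exact ⟨i, hi, p, hp, 4 * e + 2, by omega, Or.inr (Or.inr ⟨Lab.w, hcls, (Par.Q_w P ha).symm⟩)⟩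
  refine CapPart_of_cover (fun j => {z | ∃ c < 4 * P.E, z ∈ P.cset v c (j / 5) (j % 5)})
    (fun j hj => ?_) fun z hz => ?_
  · have hi : j / 5 < P.T := by omega
    exact compl_cap P h v hi (Nat.mod_lt _ (by norm_num)) (hv _ hi)
  · obtain ⟨i, hi, p, hp, c, hc, hz'⟩ := key z hz
    refine ⟨5 * i + p, by omega, c, hc, ?_⟩
    have e1 : (5 * i + p) / 5 = i := by omega
    have e2 : (5 * i + p) % 5 = p := by omega
    rw [e1, e2]
    exact hz'

end Pool.Agent.CPW
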