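import Pool.Agent.CPW.NoSw

/-!
# Package Count: every class has its track

Let `K = 5 T`. (1) For a column `c ≤ 4 E` the map `(i, p) ↦ f (Pc c i p)`, `i < T`, `p < 5`, is
injective with values `< K`: the points `Pc c i p` of the column have the same abscissa and are
pairwise different (`ep > 0`; for `i ≠ i'` use `gapAll`: `|F c i - F c i'| ≥ V/2 - 1 > 4 ep`), and a cap
contains at most one of them (`Cap.inj`). So it is a bijection onto `{0, …, K-1}`. For `j < K` let
`tr c j` be the number `i` with `f (Pc c i p) = j` for some `p < 5`; every `i < T` is the value of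
exactly five `j < K`.

(2) `tr 1 = tr 0` on `{0..K-1}`: let `j < K`, `i = tr 0 j`, `i' = tr 1 j`. If `F 1 i' < F 1 i`, the
points `Pc 0 i p, Pc 1 i' p', Pc 2 m p''` of the class `j` (there is one in each column) contradict
`noSw0` (their abscissas increase, `Cap.conc`). So `F 1 (tr 0 j) ≤ F 1 (tr 1 j)` for all `j`. Both
sides have the same sum over `j < K`, namely `5 ∑_i F 1 i`, so they are equal for all `j`, and
`i ↦ F 1 i` is injective on `{0..T-1}` by `gapAll`.

(3) `tr (c+1) = tr c` for `1 ≤ c < 4 E`, by induction, if `tr c = tr (c-1)`: let `i = tr c j`,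
`i' = tr (c+1) j`. If `F (c+1) i < F (c+1) i'`, the points of the class `j` in the columns `c-1, c, c+1`
contradict `noSw`. So `F (c+1) (tr (c+1) j) ≤ F (c+1) (tr c j)` for all `j < K`; the sums are equal;
so equality, so `tr (c+1) j = tr c j`.

So `tr c = tr 0` on `{0..K-1}` for all `c ≤ 4 E`; take `tr = tr 0`.
-/

set_option autoImplicit false

namespace Pool.Agent.CPW

private theorem inS (P : Par) {c i p : ℕ} (hc : c ≤ 4 * P.E) (hi : i < P.T) (hp : p < 5) :
    P.Pc c i p ∈ P.S := Or.inl ⟨c, i, p, hc, hi, hp, rfl⟩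

private theorem col_inj (P : Par) (h : P.Ok) (f : Pt → ℕ) (hf : ∀ z ∈ P.S, f z < 5 * P.T)
    (hcap : ∀ j < 5 * P.T, Cap {z | z ∈ P.S ∧ f z = j}) {c i p i' p' : ℕ} (hc : c ≤ 4 * P.E)
    (hi : i < P.T) (hp : p < 5) (hi' : i' < P.T) (hp' : p' < 5)
    (he : f (P.Pc c i p) = f (P.Pc c i' p')) : i = i' ∧ p = p' := by
  have hS := inS P hc hi hp
  have hS' := inS P hc hi' hp'
  have h1 := (hcap _ (hf _ hS)).inj _ ⟨hS, rfl⟩ _ ⟨hS', he.symm⟩ rfl
  have h2 : P.F c i + p * P.ep = P.F c i' + p' * P.ep := congrArg Prod.snd h1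
  have hep := Par.ep_pos h
  have hep2 := Par.ep_le h
  have hdl := Par.dl_pos h
  have hdl2 := Par.dl_le h
  have hV := Par.V_ge P
  by_cases hii : i = i'
  · refine ⟨hii, ?_⟩
    rw [hii] at h2
    have h3 : ((p : ℝ) - p') * P.ep = 0 := by linear_combination h2
    rcases mul_eq_zero.1 h3 with h4 | h4
    · exact_mod_cast sub_eq_zero.1 h4
    · exact absurd h4 hep.ne'
  · exfalso
    have h3 := Par.gapAll h c hi hi' hii
    have h4 : P.F c i - P.F c i' = ((p' : ℝ) - p) * P.ep := by linear_combination h2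
    rw [h4, abs_mul, abs_of_pos hep] at h3
    have h5 : |(p' : ℝ) - p| ≤ 5 := by
      have e1 : (p : ℝ) ≤ 5 := by exact_mod_cast hp.le
      have e2 : (p' : ℝ) ≤ 5 := by exact_mod_cast hp'.le
      have e3 : (0 : ℝ) ≤ p := Nat.cast_nonneg _
      have e4 : (0 : ℝ) ≤ p' := Nat.cast_nonneg _
      rw [abs_le]
      constructor <;> linarith
    have h6 : P.ep ≤ 1 := by nlinarith
    nlinarith [abs_nonneg ((p' : ℝ) - p)]

private theorem col_img (P : Par) (h : P.Ok) (f : Pt → ℕ) (hf : ∀ z ∈ P.S, f z < 5 * P.T)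
    (hcap : ∀ j < 5 * P.T, Cap {z | z ∈ P.S ∧ f z = j}) {c : ℕ} (hc : c ≤ 4 * P.E) :
    (Finset.range P.T ×ˢ Finset.range 5).image (fun x : ℕ × ℕ => f (P.Pc c x.1 x.2)) =
      Finset.range (5 * P.T) := by
  refine Finset.eq_of_subset_of_card_le ?_ ?_
  · intro j hj
    obtain ⟨x, hx, rfl⟩ := Finset.mem_image.1 hj
    rw [Finset.mem_product, Finset.mem_range, Finset.mem_range] at hx
    exact Finset.mem_range.2 (hf _ (inS P hc hx.1 hx.2))
  · rw [Finset.card_image_of_injOn, Finset.card_product, Finset.card_range, Finset.card_range,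
      Finset.card_range, mul_comm]
    intro x hx y hy hxy
    rw [Finset.mem_coe, Finset.mem_product, Finset.mem_range, Finset.mem_range] at hx hy
    obtain ⟨e1, e2⟩ := col_inj P h f hf hcap hc hx.1 hx.2 hy.1 hy.2 hxy
    exact Prod.ext e1 e2

private theorem F_eq (P : Par) (h : P.Ok) (c : ℕ) {i i' : ℕ} (hi : i < P.T) (hi' : i' < P.T)
    (he : P.F c i = P.F c i') : i = i' := by
  by_contra hne
  have h1 := Par.gapAll h c hi hi' hne
  rw [he, sub_self, abs_zero] at h1
  have hV := Par.V_ge P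
  linarith

theorem count (P : Par) (h : P.Ok) (hE : 0 < P.E) (f : Pt → ℕ)
    (hf : ∀ z ∈ P.S, f z < 5 * P.T)
    (hc : ∀ j < 5 * P.T, Cap {z | z ∈ P.S ∧ f z = j}) :
    ∃ tr : ℕ → ℕ,
      (∀ c i p : ℕ, c ≤ 4 * P.E → i < P.T → p < 5 → tr (f (P.Pc c i p)) = i) ∧
      (∀ j < 5 * P.T, tr j < P.T ∧ ∀ c ≤ 4 * P.E, ∃ p < 5, f (P.Pc c (tr j) p) = j) ∧
      ∀ i < P.T, ((Finset.range (5 * P.T)).filter (fun j => tr j = i)).card = 5 := by
  classical
  have hex : ∀ c, ∃ t : ℕ → ℕ, c ≤ 4 * P.E → ∀ j < 5 * P.T, t j < P.T ∧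
      ∃ p < 5, f (P.Pc c (t j) p) = j := by
    intro c
    by_cases hc' : c ≤ 4 * P.E
    · have h1 : ∀ j, ∃ i, j < 5 * P.T → i < P.T ∧ ∃ p < 5, f (P.Pc c i p) = j := by
        intro j
        by_cases hj : j < 5 * P.T
        · have h2 : j ∈ (Finset.range P.T ×ˢ Finset.range 5).image
              (fun x : ℕ × ℕ => f (P.Pc c x.1 x.2)) := by
            rw [col_img P h f hf hc hc']
            exact Finset.mem_range.2 hj
          obtain ⟨x, hx, hxj⟩ := Finset.mem_image.1 h2
          rw [Finset.mem_product, Finset.mem_range, Finset.mem_range] at hx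
          exact ⟨x.1, fun _ => ⟨hx.1, x.2, hx.2, hxj⟩⟩
        · exact ⟨0, fun h' => absurd h' hj⟩
      choose t ht using h1
      exact ⟨t, fun _ j hj => ht j hj⟩
    · exact ⟨fun _ => 0, fun h' => absurd h' hc'⟩
  choose tr htr using hex
  have hA : ∀ c i p, c ≤ 4 * P.E → i < P.T → p < 5 → tr c (f (P.Pc c i p)) = i := by
    intro c i p hc' hi hp
    obtain ⟨h1, p', hp', h2⟩ := htr c hc' _ (hf _ (inS P hc' hi hp))
    exact (col_inj P h f hf hc hc' h1 hp' hi hp h2).1
  have hB : ∀ c ≤ 4 * P.E, ∀ φ : ℕ → ℝ, ∑ j ∈ Finset.range (5 * P.T), φ (tr c j) =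
      ∑ x ∈ Finset.range P.T ×ˢ Finset.range 5, φ x.1 := by
    intro c hc' φ
    rw [← col_img P h f hf hc hc', Finset.sum_image]
    · refine Finset.sum_congr rfl fun x hx => ?_
      rw [Finset.mem_product, Finset.mem_range, Finset.mem_range] at hx
      rw [hA c x.1 x.2 hc' hx.1 hx.2]
    · intro x hx y hy hxy
      rw [Finset.mem_coe, Finset.mem_product, Finset.mem_range, Finset.mem_range] at hx hy
      obtain ⟨e1, e2⟩ := col_inj P h f hf hc hc' hx.1 hx.2 hy.1 hy.2 hxy
      exact Prod.ext e1 e2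
  have hX : ∀ c {i : ℕ}, i < P.T → P.X c < P.X (c + 1) := by
    intro c i hi
    rw [Par.X_succ]
    linarith [Par.D_pos hi c]
  have hstep : ∀ c, c + 1 ≤ 4 * P.E → ∀ j < 5 * P.T, tr (c + 1) j = tr c j := by
    intro c
    induction c with
    | zero =>
      intro hc1
      have hle : ∀ j ∈ Finset.range (5 * P.T), P.F 1 (tr 0 j) ≤ P.F 1 (tr 1 j) := by
        intro j hj
        rw [Finset.mem_range] at hj
        obtain ⟨a1, p, hp, b1⟩ := htr 0 (by omega) j hj
        obtain ⟨a2, p', hp', b2⟩ := htr 1 (by omega) j hj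
        obtain ⟨a3, p'', hp'', b3⟩ := htr 2 (by omega) j hj
        by_contra hlt
        rw [not_le] at hlt
        refine noSw0 P h a1 a2 a3 hp hp' hp'' hlt ?_
        exact (hc j hj).conc _ ⟨inS P (by omega) a1 hp, b1⟩ _ ⟨inS P (by omega) a2 hp', b2⟩ _
          ⟨inS P (by omega) a3 hp'', b3⟩ (hX 0 a1) (hX 1 a1)
      have hsum : ∑ j ∈ Finset.range (5 * P.T), P.F 1 (tr 0 j) =
          ∑ j ∈ Finset.range (5 * P.T), P.F 1 (tr 1 j) := by
        rw [hB 0 (by omega) (P.F 1), hB 1 (by omega) (P.F 1)]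
      intro j hj
      have h1 := (Finset.sum_eq_sum_iff_of_le hle).1 hsum j (Finset.mem_range.2 hj)
      exact (F_eq P h 1 (htr 0 (by omega) j hj).1 (htr 1 (by omega) j hj).1 h1).symm
    | succ c ih =>
      intro hc1
      have ih' := ih (by omega)
      have hle : ∀ j ∈ Finset.range (5 * P.T),
          P.F (c + 1 + 1) (tr (c + 1 + 1) j) ≤ P.F (c + 1 + 1) (tr (c + 1) j) := by
        intro j hj
        rw [Finset.mem_range] at hj
        obtain ⟨a1, p, hp, b1⟩ := htr c (by omega) j hj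
        obtain ⟨a2, p', hp', b2⟩ := htr (c + 1) (by omega) j hj
        obtain ⟨a3, p'', hp'', b3⟩ := htr (c + 1 + 1) (by omega) j hj
        rw [← ih' j hj] at b1
        by_contra hlt
        rw [not_le] at hlt
        refine noSw P h (c := c + 1) (by omega) a2 a3 hp hp' hp'' hlt ?_
        exact (hc j hj).conc _ ⟨inS P (by omega) a2 hp, b1⟩ _ ⟨inS P (by omega) a2 hp', b2⟩ _
          ⟨inS P (by omega) a3 hp'', b3⟩ (hX c a1) (hX (c + 1) a1)
      have hsum : ∑ j ∈ Finset.range (5 * P.T), P.F (c + 1 + 1) (tr (c + 1 + 1) j) =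
          ∑ j ∈ Finset.range (5 * P.T), P.F (c + 1 + 1) (tr (c + 1) j) := by
        rw [hB (c + 1 + 1) (by omega) (P.F (c + 1 + 1)), hB (c + 1) (by omega) (P.F (c + 1 + 1))]
      intro j hj
      have h1 := (Finset.sum_eq_sum_iff_of_le hle).1 hsum j (Finset.mem_range.2 hj)
      exact F_eq P h (c + 1 + 1) (htr (c + 1 + 1) (by omega) j hj).1
        (htr (c + 1) (by omega) j hj).1 h1
  have hall : ∀ c ≤ 4 * P.E, ∀ j < 5 * P.T, tr c j = tr 0 j := by
    intro c
    induction c with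
    | zero => exact fun _ _ _ => rfl
    | succ c ih =>
      intro hc1 j hj
      rw [hstep c hc1 j hj, ih (by omega) j hj]
  refine ⟨tr 0, ?_, ?_, ?_⟩
  · intro c i p hc' hi hp
    rw [← hall c hc' _ (hf _ (inS P hc' hi hp))]
    exact hA c i p hc' hi hp
  · intro j hj
    refine ⟨(htr 0 (by omega) j hj).1, fun c hc' => ?_⟩
    obtain ⟨-, p, hp, h1⟩ := htr c hc' j hj
    rw [hall c hc' j hj] at h1
    exact ⟨p, hp, h1⟩
  · intro i hi
    have h1 := hB 0 (by omega) (fun k => if k = i then 1 else 0)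
    rw [Finset.sum_product, Finset.sum_comm (s := Finset.range P.T)] at h1
    have h2 : ∀ y ∈ Finset.range 5, (∑ x ∈ Finset.range P.T, if x = i then (1 : ℝ) else 0) = 1 := by
      intro y _
      rw [Finset.sum_ite_eq' (Finset.range P.T) i (fun _ => (1 : ℝ)),
        if_pos (Finset.mem_range.2 hi)]
    rw [Finset.sum_congr rfl h2, ← Finset.sum_filter, Finset.sum_const, Finset.sum_const,
      Finset.card_range, nsmul_eq_mul, nsmul_eq_mul, mul_one, mul_one] at h1
    exact_mod_cast h1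

end Pool.Agent.CPW
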