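import Pool.Agent.CPW.Bnd

/-!
# Package LemB: forbidden triples in one stage

`lem_mid`: if three labels `x, y, z` of stage `c` of track `i` with
`pos x < pos y < pos z` are in a cap then by `Cap.conc` (abscissas increase by `pt_fst_lt_iff`) and
`sl_mid` (the terms `-(G-g) - th` cancel, divide by `dl > 0`):
`(off z - off y) / (pos z - pos y) - (off y - off x) / (pos y - pos x) < 8 (pos z - pos x)`.
(Equivalently the points `(pos, -8 pos² + off)` are strictly concave.)

All other statements are numerical instances of it: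
* `lemB0`: `U l` and `W l` have the same abscissa (`Cap.inj`) but different offsets.
* `lemB1` (`l` odd): `U (l-1), U l, U (l+1)` have offsets `17, 8, 17`: `9 + 9 = 18 < 16` is false.
* `lemB2` (`l` even, `0 < l < L`): `U (l-1), W l, U (l+1)`: `8, -2, 8`: `10 + 10 < 16` false.
* `lemB3`: `U 0, e, W 1`: positions `0, 1/4, 1`, offsets `17, 1/2, 2`:
  `(3/2)/(3/4) + (33/2)/(1/4) < 8` false. `U 0, e, U 1`: `(15/2)/(3/4) + 66 < 8` false.
  `W 0, e, U 1`: offsets `1, 1/2, 8`: `10 + 2 < 8` false.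
* `lemB3'`: the mirror images with `f`: `W (L-1), f, U L`; `U (L-1), f, U L`; `U (L-1), f, W L`
  (`L` is even, `L - 1` is odd; offsets of `W (L-1)`, `U (L-1)`, `U L`, `W L` are `2, 8, 17, 1`).
* `lemB4L` (L-test, the position of `w` is `c' - 1/4`, `c' = cl` odd, `c' + 1 ≤ L`): `w, U c', U (c'+1)`:
  offsets `19/2, 8, 17`: `9 - (-3/2)/(1/4) = 15 < 8 * 5/4 = 10` false. `w, W c', W (c'+1)`: offsets
  `19/2, 2, o` with `o ∈ {-2, 1}`: `(o - 2) + (15/2)/(1/4) ≥ -4 + 30 = 26 < 10` false.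
* `lemB4R`: the mirror images `U (c'-1), U c', w` and `W (c'-1), W c', w`, the position of `w` is
  `c' + 1/4` (`c' - 1` is even; `off (W (c'-1)) ∈ {-2, 1}`).
-/

set_option autoImplicit false

namespace Pool.Agent.CPW

variable {P : Par} {C : Set Pt}

open Par

theorem lem_mid (h : P.Ok) (hC : Cap C) {c i : ℕ} (hi : i < P.T) {x y z : Lab}
    (hx : P.lab c i x) (hy : P.lab c i y) (hz : P.lab c i z)
    (hxy : P.pos (c / 4) i x < P.pos (c / 4) i y) (hyz : P.pos (c / 4) i y < P.pos (c / 4) i z)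
    (Hx : P.Q c i x ∈ C) (Hy : P.Q c i y ∈ C) (Hz : P.Q c i z ∈ C) :
    (P.off z - P.off y) / (P.pos (c / 4) i z - P.pos (c / 4) i y) -
      (P.off y - P.off x) / (P.pos (c / 4) i y - P.pos (c / 4) i x) <
      8 * (P.pos (c / 4) i z - P.pos (c / 4) i x) := by
  have hD := D_pos hi c
  have hg : 0 < P.g c i := by linarith [g_ge hi c]
  have hdl := dl_pos h
  have h1 : (P.Q c i x).1 < (P.Q c i y).1 := (pt_fst_lt_iff hD hg hdl).2 hxy
  have h2 : (P.Q c i y).1 < (P.Q c i z).1 := (pt_fst_lt_iff hD hg hdl).2 hyz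
  have h3 := hC.conc _ Hx _ Hy _ Hz h1 h2
  unfold Par.Q at h3
  rw [sl_mid hD hg hdl hyz.ne, sl_mid hD hg hdl hxy.ne] at h3
  have h4 : 0 < P.pos (c / 4) i y - P.pos (c / 4) i x := by linarith
  have h5 : 0 < P.pos (c / 4) i z - P.pos (c / 4) i y := by linarith
  have e1 : (P.off z - P.off y) * P.dl / (8 * (P.pos (c / 4) i z - P.pos (c / 4) i y)) =
      P.dl / 8 * ((P.off z - P.off y) / (P.pos (c / 4) i z - P.pos (c / 4) i y)) := by
    have := h5.ne'
    field_simp
  have e2 : (P.off y - P.off x) * P.dl / (8 * (P.pos (c / 4) i y - P.pos (c / 4) i x)) =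
      P.dl / 8 * ((P.off y - P.off x) / (P.pos (c / 4) i y - P.pos (c / 4) i x)) := by
    have := h4.ne'
    field_simp
  rw [e1, e2] at h3
  have h6 : P.dl / 8 * ((P.off z - P.off y) / (P.pos (c / 4) i z - P.pos (c / 4) i y) -
      (P.off y - P.off x) / (P.pos (c / 4) i y - P.pos (c / 4) i x)) <
      P.dl / 8 * (8 * (P.pos (c / 4) i z - P.pos (c / 4) i x)) := by
    linarith
  exact lt_of_mul_lt_mul_left h6 (by positivity)

/-- The numerical form of `lem_mid`. -/
private theorem lem_num (h : P.Ok) (hC : Cap C) {c i : ℕ} (hi : i < P.T) {x y z : Lab}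
    (hx : P.lab c i x) (hy : P.lab c i y) (hz : P.lab c i z) {ox oy oz u v : ℝ}
    (ex : P.off x = ox) (ey : P.off y = oy) (ez : P.off z = oz)
    (hu : P.pos (c / 4) i y - P.pos (c / 4) i x = u)
    (hv : P.pos (c / 4) i z - P.pos (c / 4) i y = v) (hu0 : 0 < u) (hv0 : 0 < v)
    (hf : 8 * (u + v) ≤ (oz - oy) / v - (oy - ox) / u)
    (Hx : P.Q c i x ∈ C) (Hy : P.Q c i y ∈ C) (Hz : P.Q c i z ∈ C) : False := by
  have h1 := lem_mid h hC hi hx hy hz (by linarith) (by linarith) Hx Hy Hz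
  rw [ex, ey, ez, hu, hv] at h1
  have h2 : P.pos (c / 4) i z - P.pos (c / 4) i x = u + v := by linarith
  rw [h2] at h1
  linarith

private theorem labU {c i l : ℕ} (hl : l ≤ P.L) : P.lab c i (.U l) := Or.inl hl

private theorem labW {c i l : ℕ} (hl : l ≤ P.L) : P.lab c i (.W l) := Or.inl hl

private theorem labe {c i : ℕ} : P.lab c i .e := Or.inl trivial

private theorem labf {c i : ℕ} : P.lab c i .f := Or.inl trivial

private theorem offU_even (P : Par) {l : ℕ} (h : l % 2 = 0) : P.off (.U l) = 17 := by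
  simp only [Par.off, if_pos h]

private theorem offU_odd (P : Par) {l : ℕ} (h : l % 2 = 1) : P.off (.U l) = 8 := by
  simp only [Par.off]
  rw [if_neg (by omega)]

private theorem offW_odd (h : P.Ok) {l : ℕ} (ho : l % 2 = 1) : P.off (.W l) = 2 := by
  have := h.ev
  simp only [Par.off]
  rw [if_neg (by omega), if_neg (by omega)]

private theorem offW_even (P : Par) {l : ℕ} (ho : l % 2 = 0) (h0 : 0 < l) (hl : l < P.L) :
    P.off (.W l) = -2 := by
  simp only [Par.off]
  rw [if_neg (by omega), if_pos ho]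

private theorem offW_end (P : Par) {l : ℕ} (ho : l = 0 ∨ l = P.L) : P.off (.W l) = 1 := by
  simp only [Par.off]
  rw [if_pos ho]

theorem lemB0 (h : P.Ok) (hC : Cap C) {c i : ℕ} (hi : i < P.T) {l : ℕ} (hl : l ≤ P.L)
    (H1 : P.Q c i (.U l) ∈ C) (H2 : P.Q c i (.W l) ∈ C) : False := by
  have hD := D_pos hi c
  have hg : 0 < P.g c i := by linarith [g_ge hi c]
  have hdl := dl_pos h
  have h1 := hC.inj _ H1 _ H2 ((pt_fst_eq_iff hD hg hdl).2 rfl)
  have h2 := congrArg Prod.snd h1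
  simp only [Par.Q, pt] at h2
  have h3 : P.pos (c / 4) i (.U l) = P.pos (c / 4) i (.W l) := rfl
  rw [h3] at h2
  have h4 : P.off (.U l) * P.D c * P.dl ^ 2 / (8 * P.g c i) =
      P.off (.W l) * P.D c * P.dl ^ 2 / (8 * P.g c i) := by linarith
  have h5 : P.off (.U l) = P.off (.W l) := by
    have hD' := hD.ne'
    have hg' := hg.ne'
    have hdl' := hdl.ne'
    field_simp at h4
    exact h4
  revert h5
  simp only [Par.off]
  split_ifs <;> norm_num

theorem lemB1 (h : P.Ok) (hC : Cap C) {c i : ℕ} (hi : i < P.T) {l : ℕ} (ho : l % 2 = 1)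
    (hl : l + 1 ≤ P.L) (H1 : P.Q c i (.U (l - 1)) ∈ C) (H2 : P.Q c i (.U l) ∈ C)
    (H3 : P.Q c i (.U (l + 1)) ∈ C) : False := by
  have hc : ((l - 1 : ℕ) : ℝ) = l - 1 := by
    rw [Nat.cast_sub (by omega), Nat.cast_one]
  refine lem_num h hC hi (ox := 17) (oy := 8) (oz := 17) (u := 1) (v := 1)
    (labU (by omega)) (labU (by omega))
    (labU (by omega)) (offU_even P (by omega)) (offU_odd P ho)
    (offU_even P (by omega)) ?_ ?_ (by norm_num) (by norm_num) (by norm_num) H1 H2 H3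
  · simp only [Par.pos]
    rw [hc]
    ring
  · simp only [Par.pos]
    push_cast
    ring

theorem lemB2 (h : P.Ok) (hC : Cap C) {c i : ℕ} (hi : i < P.T) {l : ℕ} (ho : l % 2 = 0)
    (h0 : 0 < l) (hl : l < P.L) (H1 : P.Q c i (.U (l - 1)) ∈ C) (H2 : P.Q c i (.W l) ∈ C)
    (H3 : P.Q c i (.U (l + 1)) ∈ C) : False := by
  have hc : ((l - 1 : ℕ) : ℝ) = l - 1 := by
    rw [Nat.cast_sub (by omega), Nat.cast_one]
  refine lem_num h hC hi (ox := 8) (oy := -2) (oz := 8) (u := 1) (v := 1)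
    (labU (by omega)) (labW (by omega))
    (labU (by omega)) (offU_odd P (by omega)) (offW_even P ho h0 hl)
    (offU_odd P (by omega)) ?_ ?_ (by norm_num) (by norm_num) (by norm_num) H1 H2 H3
  · simp only [Par.pos]
    rw [hc]
    ring
  · simp only [Par.pos]
    push_cast
    ring

theorem lemB3a (h : P.Ok) (hC : Cap C) {c i : ℕ} (hi : i < P.T)
    (H1 : P.Q c i (.U 0) ∈ C) (H2 : P.Q c i .e ∈ C) (H3 : P.Q c i (.W 1) ∈ C) : False := by
  have hL := h.ten
  refine lem_num h hC hi (ox := 17) (oy := 1 / 2) (oz := 2) (u := 1 / 4) (v := 3 / 4)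
    (labU (by omega)) labe
    (labW (by omega)) (offU_even P (by omega)) rfl
    (offW_odd h (by omega)) ?_ ?_ (by norm_num) (by norm_num) (by norm_num) H1 H2 H3
  · simp [Par.pos]
  · simp only [Par.pos]
    norm_num

theorem lemB3b (h : P.Ok) (hC : Cap C) {c i : ℕ} (hi : i < P.T)
    (H1 : P.Q c i (.U 0) ∈ C) (H2 : P.Q c i .e ∈ C) (H3 : P.Q c i (.U 1) ∈ C) : False := by
  have hL := h.ten
  refine lem_num h hC hi (ox := 17) (oy := 1 / 2) (oz := 8) (u := 1 / 4) (v := 3 / 4)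
    (labU (by omega)) labe
    (labU (by omega)) (offU_even P (by omega)) rfl
    (offU_odd P (by omega)) ?_ ?_ (by norm_num) (by norm_num) (by norm_num) H1 H2 H3
  · simp [Par.pos]
  · simp only [Par.pos]
    norm_num

theorem lemB3c (h : P.Ok) (hC : Cap C) {c i : ℕ} (hi : i < P.T)
    (H1 : P.Q c i (.W 0) ∈ C) (H2 : P.Q c i .e ∈ C) (H3 : P.Q c i (.U 1) ∈ C) : False := by
  have hL := h.ten
  refine lem_num h hC hi (ox := 1) (oy := 1 / 2) (oz := 8) (u := 1 / 4) (v := 3 / 4)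
    (labW (by omega)) labe
    (labU (by omega)) (offW_end P (Or.inl rfl)) rfl
    (offU_odd P (by omega)) ?_ ?_ (by norm_num) (by norm_num) (by norm_num) H1 H2 H3
  · simp [Par.pos]
  · simp only [Par.pos]
    norm_num

theorem lemB3a' (h : P.Ok) (hC : Cap C) {c i : ℕ} (hi : i < P.T)
    (H1 : P.Q c i (.U P.L) ∈ C) (H2 : P.Q c i .f ∈ C) (H3 : P.Q c i (.W (P.L - 1)) ∈ C) :
    False := by
  have hL := h.ten
  have hev := h.ev
  have hc : ((P.L - 1 : ℕ) : ℝ) = P.L - 1 := by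
    rw [Nat.cast_sub (by omega), Nat.cast_one]
  refine lem_num h hC hi (ox := 2) (oy := 1 / 2) (oz := 17) (u := 3 / 4) (v := 1 / 4)
    (labW (by omega)) labf
    (labU (by omega)) (offW_odd h (by omega)) rfl
    (offU_even P hev) ?_ ?_ (by norm_num) (by norm_num) (by norm_num) H3 H2 H1
  · simp only [Par.pos]
    rw [hc]
    ring
  · simp only [Par.pos]
    ring

theorem lemB3b' (h : P.Ok) (hC : Cap C) {c i : ℕ} (hi : i < P.T)
    (H1 : P.Q c i (.U P.L) ∈ C) (H2 : P.Q c i .f ∈ C) (H3 : P.Q c i (.U (P.L - 1)) ∈ C) :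
    False := by
  have hL := h.ten
  have hev := h.ev
  have hc : ((P.L - 1 : ℕ) : ℝ) = P.L - 1 := by
    rw [Nat.cast_sub (by omega), Nat.cast_one]
  refine lem_num h hC hi (ox := 8) (oy := 1 / 2) (oz := 17) (u := 3 / 4) (v := 1 / 4)
    (labU (by omega)) labf
    (labU (by omega)) (offU_odd P (by omega)) rfl
    (offU_even P hev) ?_ ?_ (by norm_num) (by norm_num) (by norm_num) H3 H2 H1
  · simp only [Par.pos]
    rw [hc]
    ring
  · simp only [Par.pos]
    ring

theorem lemB3c' (h : P.Ok) (hC : Cap C) {c i : ℕ} (hi : i < P.T)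
    (H1 : P.Q c i (.W P.L) ∈ C) (H2 : P.Q c i .f ∈ C) (H3 : P.Q c i (.U (P.L - 1)) ∈ C) :
    False := by
  have hL := h.ten
  have hev := h.ev
  have hc : ((P.L - 1 : ℕ) : ℝ) = P.L - 1 := by
    rw [Nat.cast_sub (by omega), Nat.cast_one]
  refine lem_num h hC hi (ox := 8) (oy := 1 / 2) (oz := 1) (u := 3 / 4) (v := 1 / 4)
    (labU (by omega)) labf
    (labW (by omega)) (offU_odd P (by omega)) rfl
    (offW_end P (Or.inr rfl)) ?_ ?_ (by norm_num) (by norm_num) (by norm_num) H3 H2 H1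
  · simp only [Par.pos]
    rw [hc]
    ring
  · simp only [Par.pos]
    ring

theorem lemB4LU (h : P.Ok) (hC : Cap C) {c i : ℕ} (hi : i < P.T) (hw : P.lab c i .w)
    (hr : ¬ P.rt (c / 4) i) (H1 : P.Q c i .w ∈ C) (H2 : P.Q c i (.U (P.cl (c / 4) i)) ∈ C)
    (H3 : P.Q c i (.U (P.cl (c / 4) i + 1)) ∈ C) : False := by
  have hodd := h.odd (c / 4) i
  have hlt := h.lt (c / 4) i
  refine lem_num h hC hi (ox := 19 / 2) (oy := 8) (oz := 17) (u := 1 / 4) (v := 1)
    hw (labU (by omega))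
    (labU (by omega)) rfl (offU_odd P hodd)
    (offU_even P (by omega)) ?_ ?_ (by norm_num) (by norm_num) (by norm_num) H1 H2 H3
  · simp only [Par.pos, Par.lam, if_neg hr]
    ring
  · simp only [Par.pos]
    push_cast
    ring

theorem lemB4LW (h : P.Ok) (hC : Cap C) {c i : ℕ} (hi : i < P.T) (hw : P.lab c i .w)
    (hr : ¬ P.rt (c / 4) i) (H1 : P.Q c i .w ∈ C) (H2 : P.Q c i (.W (P.cl (c / 4) i)) ∈ C)
    (H3 : P.Q c i (.W (P.cl (c / 4) i + 1)) ∈ C) : False := by
  have hodd := h.odd (c / 4) i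
  have hlt := h.lt (c / 4) i
  have hoff := off_ge P (.W (P.cl (c / 4) i + 1))
  refine lem_num h hC hi (ox := 19 / 2) (oy := 2) (u := 1 / 4) (v := 1)
    hw (labW (by omega))
    (labW (by omega)) rfl (offW_odd h hodd)
    rfl ?_ ?_ (by norm_num) (by norm_num) ?_ H1 H2 H3
  · simp only [Par.pos, Par.lam, if_neg hr]
    ring
  · simp only [Par.pos]
    push_cast
    ring
  · norm_num
    linarith

theorem lemB4RU (h : P.Ok) (hC : Cap C) {c i : ℕ} (hi : i < P.T) (hw : P.lab c i .w)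
    (hr : P.rt (c / 4) i) (H1 : P.Q c i .w ∈ C) (H2 : P.Q c i (.U (P.cl (c / 4) i)) ∈ C)
    (H3 : P.Q c i (.U (P.cl (c / 4) i - 1)) ∈ C) : False := by
  have hodd := h.odd (c / 4) i
  have hlt := h.lt (c / 4) i
  have hc : ((P.cl (c / 4) i - 1 : ℕ) : ℝ) = P.cl (c / 4) i - 1 := by
    rw [Nat.cast_sub (by omega), Nat.cast_one]
  refine lem_num h hC hi (ox := 17) (oy := 8) (oz := 19 / 2) (u := 1) (v := 1 / 4)
    (labU (by omega))
    (labU (by omega)) hw (offU_even P (by omega))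
    (offU_odd P hodd) rfl ?_ ?_ (by norm_num) (by norm_num) (by norm_num) H3 H2 H1
  · simp only [Par.pos]
    rw [hc]
    ring
  · simp only [Par.pos, Par.lam, if_pos hr]
    ring

theorem lemB4RW (h : P.Ok) (hC : Cap C) {c i : ℕ} (hi : i < P.T) (hw : P.lab c i .w)
    (hr : P.rt (c / 4) i) (H1 : P.Q c i .w ∈ C) (H2 : P.Q c i (.W (P.cl (c / 4) i)) ∈ C)
    (H3 : P.Q c i (.W (P.cl (c / 4) i - 1)) ∈ C) : False := by
  have hodd := h.odd (c / 4) i
  have hlt := h.lt (c / 4) i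
  have hoff := off_ge P (.W (P.cl (c / 4) i - 1))
  have hc : ((P.cl (c / 4) i - 1 : ℕ) : ℝ) = P.cl (c / 4) i - 1 := by
    rw [Nat.cast_sub (by omega), Nat.cast_one]
  refine lem_num h hC hi (oy := 2) (oz := 19 / 2) (u := 1) (v := 1 / 4)
    (labW (by omega))
    (labW (by omega)) hw rfl
    (offW_odd h hodd) rfl ?_ ?_ (by norm_num) (by norm_num) ?_ H3 H2 H1
  · simp only [Par.pos]
    rw [hc]
    ring
  · simp only [Par.pos, Par.lam, if_pos hr]
    ring
  · norm_num
    linarith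

end Pool.Agent.CPW
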