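import Pool.Agent.CPW.Sep

/-!
# Package Region: a cap of track `i` contains no structure point of another track

`C` is a cap which contains a point `P_c = Pc c i (p c)` of track `i` in every column.
Let `z` be a point of `C` with `X c < z.1 < X (c+1)` and `ch = F c i + s c i (z.1 - X c)` the height
of the chord of track `i` at `z.1`.

(low) `ch < z.2`: by `Cap.conc` for `P_c, z, P_{c+1}` (and `sl_left_lt`), `z` is above the segment
from `P_c` to `P_{c+1}`, whose end points are not below `(X c, F c i)`, `(X (c+1), F (c+1) i)`.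

(left) if `1 ≤ c`: `Cap.conc` for `P_{c-1}, P_c, z` and `sl_col`:
`z.2 < F c i + 4 ep + (z.1 - X c) (s (c-1) i + 4 ep)`, so
`z.2 - ch < 4 ep + (z.1 - X c) (s (c-1) i - s c i + 4 ep)`, and
`s (c-1) i - s c i = th (c-1) i - th c i + g c i ≤ 17/16 + g c i` (`G_succ`). If `g c i = 1` this
gives `z.2 - ch < 3 D c`.

(right) if `c + 2 ≤ 4 E`: `Cap.conc` for `z, P_{c+1}, P_{c+2}`: `z.2 - ch <
4 ep + (X (c+1) - z.1) (s c i - s (c+1) i + 4 ep)` and `s c i - s (c+1) i ≤ 17/16 + g (c+1) i`. If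
`g (c+1) i = 1` this gives `z.2 - ch < 3 D c`.

So always `0 < z.2 - ch < 3 D c`: for `c % 4 ∈ {2, 3}` use (left) with `g c i = 1`; for
`c % 4 ∈ {0, 1}` use (right) with `g (c+1) i = 1`; then `c + 2 ≤ 4 E` because of `c < 4 E`.

`region`: let `z = Q c j x`, `ch'` the height of the chord of track `j` at `z.1`. By the definition
of `pt` and `A_bd` (`A = th c j + pos dl`, `g = g c j`):
`z.2 - ch' = D A (g - A) / g + off D dl²/(8 g)`, and this is in `(0, 2 D c)`: lower bound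
`A (g - A) ≥ 1/16 > 2 dl²/8`, upper bound `A (g-A)/g ≤ A ≤ 25/16`, `17 dl²/8 < 1/4`. By `sep`
`|ch - ch'| > 3 D c + 1`. If `ch > ch'`: `z.2 < ch' + 2 D c < ch`, contradiction to (low). If
`ch' > ch`: `z.2 > ch' > ch + 3 D c`, contradiction.

`regionW`: `z = om e`, `c = 4 e + 2`. By `pencil` `z.2 = ch + tau e i` (`z.1 - X c = 1/2`). If `act e i`
is false, `tau e i = -1/4`, contradiction to (low).
-/

set_option autoImplicit false

namespace Pool.Agent.CPW

private theorem ep_small (P : Par) (h : P.Ok) : 0 < P.ep ∧ P.ep ≤ 1 / 1000 := by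
  have h1 := Par.ep_pos h
  have h2 := Par.ep_le h
  have h3 := Par.dl_sq h
  have h4 := Par.dl_le h
  exact ⟨h1, by nlinarith⟩

private theorem cast_p {n : ℕ} (hn : n < 5) {ε : ℝ} (hε : 0 < ε) :
    0 ≤ (n : ℝ) * ε ∧ (n : ℝ) * ε ≤ 4 * ε := by
  have h1 : (n : ℝ) ≤ 4 := by exact_mod_cast (by omega : n ≤ 4)
  exact ⟨by positivity, mul_le_mul_of_nonneg_right h1 hε.le⟩

private theorem low_bd {X F D s a b x y : ℝ} (hD : 0 < D) (ha : 0 ≤ a) (hb : 0 ≤ b)
    (h1 : X < x) (h2 : x < X + D) (h3 : sl (x, y) (X + D, F + D * s + b) < sl (X, F + a) (x, y)) :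
    F + s * (x - X) < y := by
  simp only [sl] at h3
  have e1 : 0 < x - X := by linarith
  have e2 : 0 < X + D - x := by linarith
  rw [div_lt_div_iff₀ e2 e1] at h3
  have h4 : 0 < D * (y - (F + s * (x - X))) - (a * (X + D - x) + b * (x - X)) := by
    nlinarith
  have h5 : 0 ≤ a * (X + D - x) + b * (x - X) := by positivity
  have h6 : 0 < D * (y - (F + s * (x - X))) := by linarith
  have h7 : 0 < y - (F + s * (x - X)) := (mul_pos_iff_of_pos_left hD).1 h6
  linarith

private theorem left_bd {X F D s s' a u x y : ℝ} (ha : a ≤ u) (hu : 0 < u) (hu2 : u ≤ 1 / 250)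
    (hD : 1 ≤ D) (h1 : X < x) (h2 : x < X + D) (hs : s' - s ≤ 33 / 16)
    (h3 : sl (X, F + a) (x, y) < s' + u) : y < F + s * (x - X) + 3 * D := by
  simp only [sl] at h3
  have e1 : 0 < x - X := by linarith
  rw [div_lt_iff₀ e1] at h3
  have h4 : (s' + u - s) * (x - X) ≤ (33 / 16 + u) * (x - X) :=
    mul_le_mul_of_nonneg_right (by linarith) e1.le
  have h5 : (33 / 16 + u) * (x - X) ≤ (33 / 16 + u) * D :=
    mul_le_mul_of_nonneg_left (by linarith) (by linarith)
  nlinarith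

private theorem right_bd {X F D s s' b u x y : ℝ} (hb : b ≤ u) (hu : 0 < u) (hu2 : u ≤ 1 / 250)
    (hD : 1 ≤ D) (h1 : X < x) (h2 : x < X + D) (hs : s - s' ≤ 33 / 16)
    (h3 : s' - u < sl (x, y) (X + D, F + D * s + b)) : y < F + s * (x - X) + 3 * D := by
  simp only [sl] at h3
  have e2 : 0 < X + D - x := by linarith
  rw [lt_div_iff₀ e2] at h3
  have h4 : (s - s' + u) * (X + D - x) ≤ (33 / 16 + u) * (X + D - x) :=
    mul_le_mul_of_nonneg_right (by linarith) e2.le
  have h5 : (33 / 16 + u) * (X + D - x) ≤ (33 / 16 + u) * D :=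
    mul_le_mul_of_nonneg_left (by linarith) (by linarith)
  nlinarith

private theorem s_diff (P : Par) (h : P.Ok) {i : ℕ} (hi : i < P.T) (c : ℕ)
    (hg : P.g (c + 1) i = 1) : P.s c i - P.s (c + 1) i ≤ 33 / 16 := by
  have h1 := Par.G_succ P c i
  have h2 := Par.th_ge h hi (c + 1)
  have h3 := Par.th_le h hi c
  unfold Par.s
  linarith

private theorem sl_cols (P : Par) (h : P.Ok) {i : ℕ} (hi : i < P.T) (c : ℕ) {p p' : ℕ}
    (hp : p < 5) (hp' : p' < 5) :
    P.s c i - 4 * P.ep ≤ sl (P.Pc c i p) (P.Pc (c + 1) i p') ∧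
      sl (P.Pc c i p) (P.Pc (c + 1) i p') ≤ P.s c i + 4 * P.ep := by
  have hep := ep_small P h
  have hD := Par.D_ge hi c (P := P)
  have hD' := Par.D_pos hi c (P := P)
  have h1 : sl (P.Pc c i p) (P.Pc (c + 1) i p') = P.s c i + (p' * P.ep - p * P.ep) / P.D c := by
    unfold Par.Pc
    rw [Par.X_succ]
    exact sl_col hD' (Par.F_succ P c i) _
  have h2 := cast_p hp hep.1
  have h3 := cast_p hp' hep.1
  rw [h1]
  have h4 : -(4 * P.ep) ≤ (p' * P.ep - p * P.ep) / P.D c := by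
    rw [le_div_iff₀ hD']
    nlinarith
  have h5 : (p' * P.ep - p * P.ep) / P.D c ≤ 4 * P.ep := by
    rw [div_le_iff₀ hD']
    nlinarith
  exact ⟨by linarith, by linarith⟩

/-- The two bounds (low), (left), (right) together. -/
theorem region_aux (P : Par) (h : P.Ok) {c i : ℕ} (hc : c < 4 * P.E) (hi : i < P.T)
    {C : Set Pt} (hC : Cap C) {p : ℕ → ℕ}
    (hp : ∀ c ≤ 4 * P.E, p c < 5 ∧ P.Pc c i (p c) ∈ C) {z : Pt} (hz : z ∈ C)
    (h1 : P.X c < z.1) (h2 : z.1 < P.X (c + 1)) :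
    P.F c i + P.s c i * (z.1 - P.X c) < z.2 ∧
      z.2 < P.F c i + P.s c i * (z.1 - P.X c) + 3 * P.D c := by
  obtain ⟨x, y⟩ := z
  simp only at h1 h2 ⊢
  have hep := ep_small P h
  have hD := Par.D_ge hi c (P := P)
  have hD' := Par.D_pos hi c (P := P)
  have hXs := Par.X_succ P c
  have hFs := Par.F_succ P c i
  have hpc := hp c (by omega)
  have hpc1 := hp (c + 1) (by omega)
  have b0 := cast_p hpc.1 hep.1
  have b1 := cast_p hpc1.1 hep.1
  have h2' : x < P.X c + P.D c := by rw [← hXs]; exact h2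
  have hP1 : P.Pc (c + 1) i (p (c + 1)) =
      (P.X c + P.D c, P.F c i + P.D c * P.s c i + p (c + 1) * P.ep) := by
    unfold Par.Pc
    rw [hXs, hFs]
  have hu : 0 < 4 * P.ep := by linarith [hep.1]
  have hu2 : 4 * P.ep ≤ 1 / 250 := by linarith [hep.2]
  refine ⟨?_, ?_⟩
  · have hc1 := hC.conc _ hpc.2 _ hz _ hpc1.2 h1 h2
    rw [hP1] at hc1
    exact low_bd hD' b0.1 b1.1 h1 h2' hc1
  · by_cases hc4 : c % 4 = 2 ∨ c % 4 = 3
    · obtain ⟨d, rfl⟩ : ∃ d, c = d + 1 := ⟨c - 1, by omega⟩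
      have hpd := hp d (by omega)
      have hg : P.g (d + 1) i = 1 := Par.g_of_ne (by omega) i
      have hc1 := hC.conc _ hpd.2 _ hpc.2 _ hz
        (by
          have e1 := Par.X_succ P d
          have e2 := Par.D_pos hi d (P := P)
          change P.X d < P.X (d + 1)
          linarith) h1
      have hsl := (sl_cols P h hi d hpd.1 hpc.1).2
      exact left_bd b0.2 hu hu2 hD h1 h2' (s_diff P h hi d hg) (lt_of_lt_of_le hc1 hsl)
    · have hpc2 := hp (c + 2) (by omega)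
      have hg : P.g (c + 1) i = 1 := Par.g_of_ne (by omega) i
      have hc1 := hC.conc _ hz _ hpc1.2 _ hpc2.2 h2
        (by
          have e1 := Par.X_succ P (c + 1)
          have e2 := Par.D_pos hi (c + 1) (P := P)
          change P.X (c + 1) < P.X (c + 1 + 1)
          linarith)
      have hsl := (sl_cols P h hi (c + 1) hpc1.1 hpc2.1).1
      have hc2 := lt_of_le_of_lt hsl hc1
      rw [hP1] at hc2
      exact right_bd b1.2 hu hu2 hD h1 h2' (s_diff P h hi c hg) hc2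

theorem region (P : Par) (h : P.Ok) {c i j : ℕ} (hc : c < 4 * P.E) (hi : i < P.T) (hj : j < P.T)
    (hij : i ≠ j) {x : Lab} (hx : P.str x) {C : Set Pt} (hC : Cap C) {p : ℕ → ℕ}
    (hp : ∀ c ≤ 4 * P.E, p c < 5 ∧ P.Pc c i (p c) ∈ C) (hQ : P.Q c j x ∈ C) : False := by
  have hQf := Par.Q_fst h hj (Par.str_lab hx) (c := c)
  obtain ⟨r1, r2⟩ := region_aux P h hc hi hC hp hQ hQf.1 hQf.2
  have hsep := sep P h (c := c) hi hj hij hx
  have hA := Par.A_bd h hj (Par.str_lab hx) (c := c)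
  have hD' := Par.D_pos hj c (P := P)
  have hg := Par.g_ge hj c (P := P)
  have ho := Par.off_ge P x
  have ho' := Par.off_le P x
  have hdl := Par.dl_sq h
  have hdl2 := Par.dl_le h
  have hdl3 := Par.dl_pos h
  set A : ℝ := P.th c j + P.pos (c / 4) j x * P.dl with hAdef
  have hg0 : 0 < P.g c j := by linarith
  have hdiff : (P.Q c j x).2 - (P.F c j + P.s c j * ((P.Q c j x).1 - P.X c)) =
      P.D c * ((A * (P.g c j - A) + P.off x * P.dl ^ 2 / 8) / P.g c j) := by
    have hg' := hg0.ne'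
    simp only [Par.Q, pt, Par.s, hAdef]
    field_simp
    ring
  have hgA : 1 / 4 ≤ P.g c j - A := by
    rw [hAdef]
    linarith [hA.2.2]
  have hAA : 1 / 16 ≤ A * (P.g c j - A) := by nlinarith [hA.1]
  have hod : -(1 / 4) * P.dl ^ 2 ≤ P.off x * P.dl ^ 2 / 8 := by nlinarith [hdl.1]
  have hod' : P.off x * P.dl ^ 2 / 8 ≤ 17 / 8 * P.dl ^ 2 := by nlinarith [hdl.1]
  have hdd : P.dl ^ 2 ≤ 1 / 1600 := by nlinarith
  have hlow : 0 < (A * (P.g c j - A) + P.off x * P.dl ^ 2 / 8) / P.g c j := by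
    apply div_pos _ hg0
    nlinarith
  have hup : (A * (P.g c j - A) + P.off x * P.dl ^ 2 / 8) / P.g c j < 2 := by
    rw [div_lt_iff₀ hg0]
    have h1 : A * (P.g c j - A) ≤ 25 / 16 * P.g c j := by
      have h2 : A * (P.g c j - A) ≤ 25 / 16 * (P.g c j - A) :=
        mul_le_mul_of_nonneg_right hA.2.1 (by linarith)
      have h3 : 0 ≤ A := by linarith [hA.1]
      nlinarith
    nlinarith
  have hlow' := mul_pos hD' hlow
  have hup' := mul_lt_mul_of_pos_left hup hD'
  rw [← hdiff] at hlow' hup'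
  rcases lt_abs.1 hsep with h1 | h1
  · linarith
  · linarith

theorem regionW (P : Par) (h : P.Ok) {e i : ℕ} (he : e < P.E) (hi : i < P.T)
    {C : Set Pt} (hC : Cap C) {p : ℕ → ℕ}
    (hp : ∀ c ≤ 4 * P.E, p c < 5 ∧ P.Pc c i (p c) ∈ C) (hQ : P.om e ∈ C) : P.act e i := by
  have hD : P.D (4 * e + 2) = 1 := by
    have e1 : (4 * e + 2) % 4 = 2 := by omega
    unfold Par.D
    simp [e1]
  have hXs := Par.X_succ P (4 * e + 2)
  rw [hD] at hXs
  have h1 : P.X (4 * e + 2) < (P.om e).1 := by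
    simp only [Par.om]
    linarith
  have h2 : (P.om e).1 < P.X (4 * e + 2 + 1) := by
    simp only [Par.om]
    rw [hXs]
    linarith
  obtain ⟨r1, -⟩ := region_aux P h (by omega) hi hC hp hQ h1 h2
  have hpen := Par.pencil P e i 0
  simp only [Par.om] at r1
  by_contra hact
  have htau : P.tau e i = -1 / 4 := by
    unfold Par.tau
    rw [if_neg hact]
  rw [htau] at hpen
  have h3 : P.X (4 * e + 2) + 1 / 2 - P.X (4 * e + 2) = 1 / 2 := by ring
  rw [h3] at r1
  linarith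

end Pool.Agent.CPW
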