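import Pool.Agent.CPW.TrkA

/-!
# Package TrkB: the number stored in a track

Five classes (`C.card = 5`), stages `c < N`. Put `p c x = p4 L (rt c) (cl c) x` (four times the
position).

(1) Let `Z c = {κ c (U L), κ c (W L)}` (two different elements of `C` by `ne`). If `c + 1 < N` no
present label `y` of stage `c + 1` has its class in `Z c`: by `tr`, `4 L = p c (U L) ≤ p (c+1) y ≤ 4 L`,
so equality, and `4 L = 8 m` with `2 m < L`, a contradiction (`p (c+1) w ≤ 4 (L-1) + 1` as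
`cl < L`).

(2) In every stage at least three classes are used (`two_false`). So for `1 ≤ c < N` exactly the
three classes of `C \ Z (c-1)` are used in stage `c`: they are the two elements of `Z c` and a third
one, `r c ∉ Z (c-1) ∪ Z c`. As `C.card = 5`, `C = Z (c-1) ∪ Z c ∪ {r c}`. If `c + 1 < N`, the classes
used in stage `c + 1` are in `C \ Z c = Z (c-1) ∪ {r c}`, and `r c` is used there.

(3) For `1 ≤ c < N` let `λ c` be the maximum of `p c x` over the present labels `x` of stage `c` with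
`κ c x = r c`; since `r c ∉ Z c`, `λ c ≤ 4 L - 1`. Put `φ c = (λ c + 4) / 8`. Then
`8 φ ≤ 4 L + 3`, so `2 φ c ≤ L` (`L` is even).

(4) Let `1 ≤ c`, `c + 1 < N`, `m = φ c`, so `λ c ≥ 8 m - 4`. Every label `y` of stage `c + 1` with class
`r c` has `p (c+1) y ≥ λ c` by `tr`, and `p (c+1) y > 8 m - 4` if `m ≥ 1`: if equal, `λ c = 8 m - 4`
would be a multiple of `8`. So the labels of stage `c+1` with `p ≤ 8 m - 4` have classes in `Z (c-1)`
(two classes `A, B`). If `m ≥ 1`, `pat1` (with `b = 2 m - 1`; `e` has `p = 1`) applies: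
`κ (U l) = κ (U (l-1))`, `κ (W l) = κ (W (l-1))` for all odd `l ≤ 2 m - 1`.

(4a) `φ c ≤ φ (c+1)`: suppose `φ (c+1) < m`. Then `m ≥ 1` and `λ (c+1) < 8 m - 4`. So
`r (c+1) ≠ r c` (labels of class `r c` in stage `c+1` exist and have `p > 8 m - 4`), hence
`r (c+1) ∈ Z (c-1)`. In column `2 m - 1` both classes of `Z (c-1)` occur, so
`λ (c+1) ≥ 4 (2 m - 1)`, a contradiction.

(4b) R-test: `tk (c+1)`, `rt (c+1)`, `k = cl (c+1)` (odd). Suppose `2 m > k + 1`, so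
`k ≤ 2 m - 3`. Then `w` has `p = 4 k + 1 < 8 m - 4`, so its class is `A` or `B`; by `pat1`
`κ (U k) = κ (U (k-1))`, `κ (W k) = κ (W (k-1))` and `{κ (U k), κ (W k)} = {A, B}`: contradiction to
`b4R`.

(5) L-test: `1 ≤ c < N`, `tk c`, `¬ rt c`, `k = cl c`. Suppose `k > 2 φ c + 1`, so `k ≥ 2 φ c + 3`. We
have `λ c < 8 φ c + 4`, so all present labels of stage `c` with `p ≥ 8 φ c + 4` have classes in `Z c`
(two classes), in particular `w` (`p = 4 k - 1`) and `f` (`p = 4 L - 1 ≥ 8 φ c + 4` as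
`2 φ c + 3 ≤ k < L`). By `pat0` with `b = 2 φ c + 1`, `κ (U k) = κ (U (k+1))` and
`κ (W k) = κ (W (k+1))`, contradiction to `b4L`.
-/

set_option autoImplicit false

namespace Pool.Agent.CPW

open Lab

/-- The labels present in a stage; `t`: the test point belongs to the track. -/
def has (L : ℕ) (t : Prop) : Lab → Prop
  | .U l => l ≤ L
  | .W l => l ≤ L
  | .e => True
  | .f => True
  | .w => t

open Classical in
/-- Four times the position. -/
noncomputable def p4 (L : ℕ) (r : Prop) (k : ℕ) : Lab → ℕ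
  | .U l => 4 * l
  | .W l => 4 * l
  | .e => 1
  | .f => 4 * L - 1
  | .w => if r then 4 * k + 1 else 4 * k - 1

/-- What is known about the classes of one track. -/
structure Trk (L N : ℕ) (C : Finset ℕ) (κ : ℕ → Lab → ℕ) (tk rt : ℕ → Prop) (cl : ℕ → ℕ) :
    Prop where
  ev : L % 2 = 0
  two : 2 ≤ L
  card : C.card = 5
  odd : ∀ c, cl c % 2 = 1
  lt : ∀ c, cl c < L
  mem : ∀ c < N, ∀ x, has L (tk c) x → κ c x ∈ C
  ne : ∀ c < N, ∀ l ≤ L, κ c (U l) ≠ κ c (W l)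
  b1 : ∀ c < N, ∀ l, l % 2 = 1 → l < L →
    ¬ (κ c (U (l - 1)) = κ c (U l) ∧ κ c (U l) = κ c (U (l + 1)))
  b2 : ∀ c < N, ∀ l, l % 2 = 0 → 0 < l → l < L →
    ¬ (κ c (U (l - 1)) = κ c (W l) ∧ κ c (W l) = κ c (U (l + 1)))
  b3 : ∀ c < N, (κ c e = κ c (U 0) → κ c e ≠ κ c (W 1) ∧ κ c e ≠ κ c (U 1)) ∧
    (κ c e = κ c (W 0) → κ c e ≠ κ c (U 1))
  b3' : ∀ c < N, (κ c f = κ c (U L) → κ c f ≠ κ c (W (L - 1)) ∧ κ c f ≠ κ c (U (L - 1))) ∧
    (κ c f = κ c (W L) → κ c f ≠ κ c (U (L - 1)))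
  b4L : ∀ c < N, tk c → ¬ rt c → ¬ (κ c w = κ c (U (cl c)) ∧ κ c w = κ c (U (cl c + 1))) ∧
    ¬ (κ c w = κ c (W (cl c)) ∧ κ c w = κ c (W (cl c + 1)))
  b4R : ∀ c < N, tk c → rt c → ¬ (κ c w = κ c (U (cl c)) ∧ κ c w = κ c (U (cl c - 1))) ∧
    ¬ (κ c w = κ c (W (cl c)) ∧ κ c w = κ c (W (cl c - 1)))
  tr : ∀ c, c + 1 < N → ∀ x y, has L (tk c) x → has L (tk (c + 1)) y → κ c x = κ (c + 1) y →
    p4 L (rt c) (cl c) x ≤ p4 L (rt (c + 1)) (cl (c + 1)) y ∧
      (p4 L (rt c) (cl c) x = p4 L (rt (c + 1)) (cl (c + 1)) y →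
        ∃ m : ℕ, 0 < m ∧ 2 * m < L ∧ p4 L (rt c) (cl c) x = 8 * m)

section

variable {L N : ℕ} {C : Finset ℕ} {κ : ℕ → Lab → ℕ} {tk rt : ℕ → Prop} {cl : ℕ → ℕ}

private theorem tb_w {c : ℕ} (hr : rt c) : p4 L (rt c) (cl c) w = 4 * cl c + 1 := by
  simp [p4, hr]

private theorem tb_w' {c : ℕ} (hr : ¬ rt c) : p4 L (rt c) (cl c) w = 4 * cl c - 1 := by
  simp [p4, hr]

private theorem tb_le (h : Trk L N C κ tk rt cl) (c : ℕ) {x : Lab} (hx : has L (tk c) x) :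
    p4 L (rt c) (cl c) x ≤ 4 * L ∧
      (x ≠ U L → x ≠ W L → p4 L (rt c) (cl c) x + 1 ≤ 4 * L) := by
  have h1 := h.two
  have h2 := h.lt c
  cases x with
  | U l =>
    have h3 : l ≤ L := hx
    have h4 : p4 L (rt c) (cl c) (U l) = 4 * l := rfl
    rw [h4]
    refine ⟨by omega, fun h5 _ => ?_⟩
    have h6 : l ≠ L := fun h7 => h5 (by rw [h7])
    omega
  | W l =>
    have h3 : l ≤ L := hx
    have h4 : p4 L (rt c) (cl c) (W l) = 4 * l := rfl
    rw [h4]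
    refine ⟨by omega, fun _ h5 => ?_⟩
    have h6 : l ≠ L := fun h7 => h5 (by rw [h7])
    omega
  | e =>
    have h4 : p4 L (rt c) (cl c) e = 1 := rfl
    rw [h4]
    exact ⟨by omega, fun _ _ => by omega⟩
  | f =>
    have h4 : p4 L (rt c) (cl c) f = 4 * L - 1 := rfl
    rw [h4]
    exact ⟨by omega, fun _ _ => by omega⟩
  | w =>
    by_cases hr : rt c
    · rw [tb_w hr]
      exact ⟨by omega, fun _ _ => by omega⟩
    · rw [tb_w' hr]
      exact ⟨by omega, fun _ _ => by omega⟩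

private theorem tb_notZ (h : Trk L N C κ tk rt cl) {c : ℕ} (hc : c + 1 < N) {y : Lab}
    (hy : has L (tk (c + 1)) y) : κ (c + 1) y ≠ κ c (U L) ∧ κ (c + 1) y ≠ κ c (W L) := by
  have h1 := (tb_le h (c + 1) hy).1
  have h2 := h.two
  constructor
  · intro h3
    have h4 := h.tr c hc (U L) y (le_refl L) hy h3.symm
    have h5 : p4 L (rt c) (cl c) (U L) = 4 * L := rfl
    rw [h5] at h4
    obtain ⟨m, h6, h7, h8⟩ := h4.2 (le_antisymm h4.1 h1)
    omega
  · intro h3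
    have h4 := h.tr c hc (W L) y (le_refl L) hy h3.symm
    have h5 : p4 L (rt c) (cl c) (W L) = 4 * L := rfl
    rw [h5] at h4
    obtain ⟨m, h6, h7, h8⟩ := h4.2 (le_antisymm h4.1 h1)
    omega

private theorem tb_three (h : Trk L N C κ tk rt cl) {c : ℕ} (hc : c < N) (A B : ℕ) :
    ∃ x, has L (tk c) x ∧ κ c x ≠ A ∧ κ c x ≠ B := by
  by_contra hcon
  have h1 : ∀ x, has L (tk c) x → κ c x = A ∨ κ c x = B := by
    intro x hx
    by_contra h2
    rw [not_or] at h2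
    exact hcon ⟨x, hx, h2.1, h2.2⟩
  exact two_false (κ c) A B L h.ev h.two (fun l hl => ⟨h1 (U l) hl, h1 (W l) hl⟩) (h1 e trivial)
    (h1 f trivial) (h.ne c hc) (h.b1 c hc) (h.b2 c hc) (h.b3 c hc) (h.b3' c hc)

private theorem tb_five (h : Trk L N C κ tk rt cl) {c : ℕ} (hc : c + 1 < N) {x : Lab}
    (hx : has L (tk (c + 1)) x) (h1 : κ (c + 1) x ≠ κ (c + 1) (U L))
    (h2 : κ (c + 1) x ≠ κ (c + 1) (W L)) {v : ℕ} (hv : v ∈ C) :
    v = κ c (U L) ∨ v = κ c (W L) ∨ v = κ (c + 1) (U L) ∨ v = κ (c + 1) (W L) ∨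
      v = κ (c + 1) x := by
  have hU := tb_notZ h hc (y := U L) (le_refl L)
  have hW := tb_notZ h hc (y := W L) (le_refl L)
  have hX := tb_notZ h hc hx
  have n1 := h.ne c (by omega) L (le_refl L)
  have n2 := h.ne (c + 1) hc L (le_refl L)
  have h3 : ({κ c (U L), κ c (W L), κ (c + 1) (U L), κ (c + 1) (W L), κ (c + 1) x} : Finset ℕ) =
      C := by
    apply Finset.eq_of_subset_of_card_le
    · intro u hu
      simp only [Finset.mem_insert, Finset.mem_singleton] at hu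
      rcases hu with hu | hu | hu | hu | hu
      · rw [hu]
        exact h.mem c (by omega) (U L) (le_refl L)
      · rw [hu]
        exact h.mem c (by omega) (W L) (le_refl L)
      · rw [hu]
        exact h.mem (c + 1) hc (U L) (le_refl L)
      · rw [hu]
        exact h.mem (c + 1) hc (W L) (le_refl L)
      · rw [hu]
        exact h.mem (c + 1) hc x hx
    · rw [h.card, Finset.card_insert_of_notMem, Finset.card_insert_of_notMem,
        Finset.card_insert_of_notMem, Finset.card_insert_of_notMem, Finset.card_singleton]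
      · rw [Finset.mem_singleton]
        exact fun h4 => h2 h4.symm
      · rw [Finset.mem_insert, Finset.mem_singleton]
        rintro (h4 | h4)
        · exact n2 h4
        · exact h1 h4.symm
      · rw [Finset.mem_insert, Finset.mem_insert, Finset.mem_singleton]
        rintro (h4 | h4 | h4)
        · exact hU.2 h4.symm
        · exact hW.2 h4.symm
        · exact hX.2 h4.symm
      · rw [Finset.mem_insert, Finset.mem_insert, Finset.mem_insert, Finset.mem_singleton]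
        rintro (h4 | h4 | h4 | h4)
        · exact n1 h4
        · exact hU.1 h4.symm
        · exact hW.1 h4.symm
        · exact hX.1 h4.symm
  rw [← h3] at hv
  simpa only [Finset.mem_insert, Finset.mem_singleton] using hv

private theorem tb_max (h : Trk L N C κ tk rt cl) {c : ℕ} (hc : c < N) :
    ∃ x, has L (tk c) x ∧ κ c x ≠ κ c (U L) ∧ κ c x ≠ κ c (W L) ∧
      ∀ y, has L (tk c) y → κ c y = κ c x →
        p4 L (rt c) (cl c) y ≤ p4 L (rt c) (cl c) x := by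
  obtain ⟨x₀, h1, h2, h3⟩ := tb_three h hc (κ c (U L)) (κ c (W L))
  have hne : {n : ℕ | ∃ y, has L (tk c) y ∧ κ c y = κ c x₀ ∧ p4 L (rt c) (cl c) y = n}.Nonempty :=
    ⟨_, x₀, h1, rfl, rfl⟩
  have hb : BddAbove {n : ℕ | ∃ y, has L (tk c) y ∧ κ c y = κ c x₀ ∧
      p4 L (rt c) (cl c) y = n} := by
    refine ⟨4 * L, ?_⟩
    rintro n ⟨y, hy, -, rfl⟩
    exact (tb_le h c hy).1
  obtain ⟨x, hx, hxe, hxp⟩ := Nat.sSup_mem hne hb
  refine ⟨x, hx, ?_, ?_, ?_⟩
  · rw [hxe]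
    exact h2
  · rw [hxe]
    exact h3
  · intro y hy hyx
    rw [hxp]
    exact le_csSup hb ⟨y, hy, by rw [hyx, hxe], rfl⟩

/-- Low labels of the next stage. -/
private theorem tb_low (h : Trk L N C κ tk rt cl) {c : ℕ} (hc : c + 1 + 1 < N) {x : Lab}
    (hx : has L (tk (c + 1)) x) (h1 : κ (c + 1) x ≠ κ (c + 1) (U L))
    (h2 : κ (c + 1) x ≠ κ (c + 1) (W L)) {m : ℕ}
    (hm : 8 * m ≤ p4 L (rt (c + 1)) (cl (c + 1)) x + 4) {y : Lab}
    (hy : has L (tk (c + 1 + 1)) y)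
    (hyp : p4 L (rt (c + 1 + 1)) (cl (c + 1 + 1)) y + 4 ≤ 8 * m) :
    κ (c + 1 + 1) y = κ c (U L) ∨ κ (c + 1 + 1) y = κ c (W L) := by
  have h3 := h.mem (c + 1 + 1) hc y hy
  have h4 := tb_notZ h hc hy
  rcases tb_five h (by omega) hx h1 h2 h3 with h5 | h5 | h5 | h5 | h5
  · exact Or.inl h5
  · exact Or.inr h5
  · exact absurd h5 h4.1
  · exact absurd h5 h4.2
  · have h6 := h.tr (c + 1) hc x y hx hy h5.symm
    obtain ⟨m', h7, h8, h9⟩ := h6.2 (by omega)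
    omega

private theorem tb_pat (h : Trk L N C κ tk rt cl) {c : ℕ} (hc : c + 1 + 1 < N) {x : Lab}
    (hx : has L (tk (c + 1)) x) (h1 : κ (c + 1) x ≠ κ (c + 1) (U L))
    (h2 : κ (c + 1) x ≠ κ (c + 1) (W L)) {m : ℕ}
    (hm : 8 * m ≤ p4 L (rt (c + 1)) (cl (c + 1)) x + 4) (hm1 : 1 ≤ m) (hmL : 2 * m ≤ L) :
    ∀ l ≤ 2 * m - 1, l % 2 = 1 → κ (c + 1 + 1) (U l) = κ (c + 1 + 1) (U (l - 1)) ∧
      κ (c + 1 + 1) (W l) = κ (c + 1 + 1) (W (l - 1)) := by
  refine pat1 (κ (c + 1 + 1)) (κ c (U L)) (κ c (W L)) (2 * m - 1) ?_ ?_ ?_ ?_ ?_ (h.b3 _ hc)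
  · intro l hl
    constructor
    · apply tb_low h hc hx h1 h2 hm (y := U l)
      · change l ≤ L
        omega
      · change 4 * l + 4 ≤ 8 * m
        omega
    · apply tb_low h hc hx h1 h2 hm (y := W l)
      · change l ≤ L
        omega
      · change 4 * l + 4 ≤ 8 * m
        omega
  · apply tb_low h hc hx h1 h2 hm (y := e) trivial
    change 1 + 4 ≤ 8 * m
    omega
  · intro l hl
    exact h.ne _ hc l (by omega)
  · intro l hl hl'
    exact h.b1 _ hc l hl (by omega)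
  · intro l hl hl' hl''
    exact h.b2 _ hc l hl hl' (by omega)

end

theorem track {L N : ℕ} {C : Finset ℕ} {κ : ℕ → Lab → ℕ} {tk rt : ℕ → Prop} {cl : ℕ → ℕ}
    (h : Trk L N C κ tk rt cl) :
    ∃ φ : ℕ → ℕ, (∀ c, 1 ≤ c → c < N → 2 * φ c ≤ L) ∧
      (∀ c, 1 ≤ c → c + 1 < N → φ c ≤ φ (c + 1)) ∧
      (∀ c, 1 ≤ c → c + 1 < N → tk (c + 1) → rt (c + 1) → 2 * φ c ≤ cl (c + 1) + 1) ∧
      (∀ c, 1 ≤ c → c < N → tk c → ¬ rt c → cl c ≤ 2 * φ c + 1) := by
  have hL := h.two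
  have hev := h.ev
  have : Nonempty Lab := ⟨e⟩
  choose! x hx h1 h2 hmax using fun c (hc : c < N) => tb_max h hc
  have hup : ∀ c, c < N → 2 * ((p4 L (rt c) (cl c) (x c) + 4) / 8) ≤ L := by
    intro c hc
    have h3 := (tb_le h c (hx c hc)).2 (fun h4 => h1 c hc (by rw [h4]))
      (fun h4 => h2 c hc (by rw [h4]))
    omega
  refine ⟨fun c => (p4 L (rt c) (cl c) (x c) + 4) / 8, fun c _ hc => hup c hc, ?_, ?_, ?_⟩
  · intro c hc1 hcN
    obtain ⟨d, rfl⟩ : ∃ d, c = d + 1 := ⟨c - 1, by omega⟩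
    have hd : d + 1 < N := by omega
    change (p4 L (rt (d + 1)) (cl (d + 1)) (x (d + 1)) + 4) / 8 ≤
      (p4 L (rt (d + 1 + 1)) (cl (d + 1 + 1)) (x (d + 1 + 1)) + 4) / 8
    by_contra hcon
    have hmL := hup (d + 1) hd
    set m := (p4 L (rt (d + 1)) (cl (d + 1)) (x (d + 1)) + 4) / 8 with hm
    have hm1 : 1 ≤ m := by omega
    have hm2 : 8 * m ≤ p4 L (rt (d + 1)) (cl (d + 1)) (x (d + 1)) + 4 := by omega
    have h3 : p4 L (rt (d + 1 + 1)) (cl (d + 1 + 1)) (x (d + 1 + 1)) + 4 < 8 * m := by omega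
    have h4 := tb_low h hcN (hx _ hd) (h1 _ hd) (h2 _ hd) hm2 (hx _ hcN) h3.le
    have h5 := tb_low h hcN (hx _ hd) (h1 _ hd) (h2 _ hd) hm2 (y := U (2 * m - 1))
      (by change 2 * m - 1 ≤ L; omega) (by change 4 * (2 * m - 1) + 4 ≤ 8 * m; omega)
    have h6 := tb_low h hcN (hx _ hd) (h1 _ hd) (h2 _ hd) hm2 (y := W (2 * m - 1))
      (by change 2 * m - 1 ≤ L; omega) (by change 4 * (2 * m - 1) + 4 ≤ 8 * m; omega)
    have h7 := h.ne _ hcN (2 * m - 1) (by omega)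
    have h8 : κ (d + 1 + 1) (U (2 * m - 1)) = κ (d + 1 + 1) (x (d + 1 + 1)) ∨
        κ (d + 1 + 1) (W (2 * m - 1)) = κ (d + 1 + 1) (x (d + 1 + 1)) := by
      omega
    rcases h8 with h8 | h8
    · have h9 := hmax _ hcN (U (2 * m - 1)) (by change 2 * m - 1 ≤ L; omega) h8
      have h10 : p4 L (rt (d + 1 + 1)) (cl (d + 1 + 1)) (U (2 * m - 1)) = 4 * (2 * m - 1) := rfl
      omega
    · have h9 := hmax _ hcN (W (2 * m - 1)) (by change 2 * m - 1 ≤ L; omega) h8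
      have h10 : p4 L (rt (d + 1 + 1)) (cl (d + 1 + 1)) (W (2 * m - 1)) = 4 * (2 * m - 1) := rfl
      omega
  · intro c hc1 hcN ht hr
    obtain ⟨d, rfl⟩ : ∃ d, c = d + 1 := ⟨c - 1, by omega⟩
    have hd : d + 1 < N := by omega
    change 2 * ((p4 L (rt (d + 1)) (cl (d + 1)) (x (d + 1)) + 4) / 8) ≤ cl (d + 1 + 1) + 1
    by_contra hcon
    have hmL := hup (d + 1) hd
    set m := (p4 L (rt (d + 1)) (cl (d + 1)) (x (d + 1)) + 4) / 8 with hm
    have hodd := h.odd (d + 1 + 1)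
    have hm1 : 1 ≤ m := by omega
    have hm2 : 8 * m ≤ p4 L (rt (d + 1)) (cl (d + 1)) (x (d + 1)) + 4 := by omega
    have h3 := tb_pat h hcN (hx _ hd) (h1 _ hd) (h2 _ hd) hm2 hm1 hmL (cl (d + 1 + 1))
      (by omega) hodd
    have h4 := tb_low h hcN (hx _ hd) (h1 _ hd) (h2 _ hd) hm2 (y := w) ht
      (by rw [tb_w hr]; omega)
    have h5 := tb_low h hcN (hx _ hd) (h1 _ hd) (h2 _ hd) hm2 (y := U (cl (d + 1 + 1)))
      (by change cl (d + 1 + 1) ≤ L; omega) (by change 4 * cl (d + 1 + 1) + 4 ≤ 8 * m; omega)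
    have h6 := tb_low h hcN (hx _ hd) (h1 _ hd) (h2 _ hd) hm2 (y := W (cl (d + 1 + 1)))
      (by change cl (d + 1 + 1) ≤ L; omega) (by change 4 * cl (d + 1 + 1) + 4 ≤ 8 * m; omega)
    have h7 := h.ne _ hcN (cl (d + 1 + 1)) (by omega)
    have h8 := h.b4R _ hcN ht hr
    omega
  · intro c hc1 hcN ht hr
    obtain ⟨d, rfl⟩ : ∃ d, c = d + 1 := ⟨c - 1, by omega⟩
    change cl (d + 1) ≤ 2 * ((p4 L (rt (d + 1)) (cl (d + 1)) (x (d + 1)) + 4) / 8) + 1
    by_contra hcon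
    have hmL := hup (d + 1) hcN
    set m := (p4 L (rt (d + 1)) (cl (d + 1)) (x (d + 1)) + 4) / 8 with hm
    have hodd := h.odd (d + 1)
    have hlt := h.lt (d + 1)
    have hm2 : p4 L (rt (d + 1)) (cl (d + 1)) (x (d + 1)) < 8 * m + 4 := by omega
    have key : ∀ y, has L (tk (d + 1)) y → 8 * m + 4 ≤ p4 L (rt (d + 1)) (cl (d + 1)) y →
        κ (d + 1) y = κ (d + 1) (U L) ∨ κ (d + 1) y = κ (d + 1) (W L) := by
      intro y hy hyp
      have h3 := h.mem (d + 1) hcN y hy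
      have h4 := tb_notZ h hcN hy
      rcases tb_five h hcN (hx _ hcN) (h1 _ hcN) (h2 _ hcN) h3 with h5 | h5 | h5 | h5 | h5
      · exact absurd h5 h4.1
      · exact absurd h5 h4.2
      · exact Or.inl h5
      · exact Or.inr h5
      · have h6 := hmax _ hcN y hy h5
        omega
    have hw : p4 L (rt (d + 1)) (cl (d + 1)) w = 4 * cl (d + 1) - 1 := tb_w' hr
    have h3 := pat0 (κ (d + 1)) (κ (d + 1) (U L)) (κ (d + 1) (W L)) (2 * m + 1) L hev
      (fun l hl hl' => ⟨key (U l) hl' (by change 8 * m + 4 ≤ 4 * l; omega),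
        key (W l) hl' (by change 8 * m + 4 ≤ 4 * l; omega)⟩)
      (key f trivial (by change 8 * m + 4 ≤ 4 * L - 1; omega))
      (fun l _ hl' => h.ne _ hcN l hl')
      (fun l hl _ hl'' => h.b1 _ hcN l hl hl'')
      (fun l hl hl' hl'' => h.b2 _ hcN l hl (by omega) hl'') (h.b3' _ hcN)
      (cl (d + 1)) (by omega) hlt hodd
    have h4 := key w ht (by omega)
    have h5 := key (U (cl (d + 1))) (by change cl (d + 1) ≤ L; omega)
      (by change 8 * m + 4 ≤ 4 * cl (d + 1); omega)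
    have h6 := key (W (cl (d + 1))) (by change cl (d + 1) ≤ L; omega)
      (by change 8 * m + 4 ≤ 4 * cl (d + 1); omega)
    have h7 := h.ne _ hcN (cl (d + 1)) (by omega)
    have h8 := h.b4L _ hcN ht hr
    omega

end Pool.Agent.CPW
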