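import Pool.Agent.CPW.LemT
import Pool.Agent.CPW.LemB
import Pool.Agent.CPW.Count
import Pool.Agent.CPW.Region
import Pool.Agent.CPW.TrkB

/-!
# Package Sound: assembly of the soundness part

Let `f` be the partition into `5 T` caps, `tr` the map of `count`. For `i < T` let
`C_i = (range (5 T)).filter (tr · = i)`, `κ c x = f (P.Q c i x)`, and
`tk c` the statement `c % 4 = 2 ∧ P.pre (c/4) ∧ P.act (c/4) i ∧ f (P.Q c i .w) ∈ C_i`
(for `c < 4 E`; note `Q_w`: then `P.Q c i .w = P.om (c/4) ∈ P.S`).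
We prove `Trk L (4 E) C_i κ tk (fun c => P.rt (c/4) i) (fun c => P.cl (c/4) i)`:
* `mem`: for a structural `x`, `z = Q c i x ∈ S`, `j = f z < 5 T`. If `tr j ≠ i`, the class of `j` is a
  cap which contains `z` and a point of the track `tr j < T` in every column (`count`, second part):
  contradiction to `region` (with the tracks `tr j` and `i`).
* `ne, b1, b2, b3, b3', b4L, b4R`: `lemB0, …, lemB4RW` for the cap `{z | z ∈ S ∧ f z = j}`.
* `tr`: if `κ c x = κ (c+1) y = j`, then `j ∈ C_i` (by `mem`), and there is `p < 5` with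
  `f (Pc (c+1) i p) = j`. The three points `Q c i x, Pc (c+1) i p, Q (c+1) i y` are in the class `j`, the
  abscissas increase (`Q_fst`), so `Cap.conc` and `lemT` give the claim; `4 * P.pos (c/4) i x =
  p4 …` for all labels (`cl ≥ 1`, `L ≥ 10` for the truncated subtractions).
`track` gives `φ i`. Finally for `e < E` with `pre e`: `j = f (om e) < 5 T`, `i = tr j < T`; by
`regionW` `act e i`; by `Q_w` `tk (4 e + 2)` holds for this `i`. Now use the last two statements of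
`track` with `c = 4 e + 1` and `c = 4 e + 2`.
-/

set_option autoImplicit false

namespace Pool.Agent.CPW

private theorem p4_pos (P : Par) (h : P.Ok) (e i : ℕ) (x : Lab) :
    (p4 P.L (P.rt e i) (P.cl e i) x : ℝ) = 4 * P.pos e i x := by
  cases x with
  | U l => simp [p4, Par.pos]
  | W l => simp [p4, Par.pos]
  | e => simp [p4, Par.pos]
  | f =>
    have h1 := h.ten
    simp only [p4, Par.pos]
    rw [Nat.cast_sub (by omega)]
    push_cast
    ring
  | w =>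
    have h1 := h.odd e i
    simp only [p4, Par.pos, Par.lam]
    split_ifs
    · push_cast
      ring
    · rw [Nat.cast_sub (by omega)]
      push_cast
      ring

private theorem has_lab (P : Par) {c i : ℕ} {t : Prop} (ht : t → c % 4 = 2 ∧ P.act (c / 4) i)
    {x : Lab} (hx : has P.L t x) : P.lab c i x := by
  cases x with
  | U l => exact Or.inl hx
  | W l => exact Or.inl hx
  | e => exact Or.inl trivial
  | f => exact Or.inl trivial
  | w => exact Or.inr ⟨rfl, ht hx⟩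

/-- The test point of period `c / 4` belongs to the track. -/
private def tkS (P : Par) (f : Pt → ℕ) (tr : ℕ → ℕ) (i c : ℕ) : Prop :=
  c % 4 = 2 ∧ P.pre (c / 4) ∧ P.act (c / 4) i ∧
    f (P.Q c i .w) ∈ (Finset.range (5 * P.T)).filter (fun j => tr j = i)

private theorem has_S (P : Par) {f : Pt → ℕ} {tr : ℕ → ℕ} {c i : ℕ} (hc : c < 4 * P.E)
    (hi : i < P.T) {x : Lab} (hx : has P.L (tkS P f tr i c) x) : P.Q c i x ∈ P.S := by
  cases x with
  | U l => exact Or.inr (Or.inl ⟨c, i, .U l, hc, hi, hx, rfl⟩)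
  | W l => exact Or.inr (Or.inl ⟨c, i, .W l, hc, hi, hx, rfl⟩)
  | e => exact Or.inr (Or.inl ⟨c, i, .e, hc, hi, trivial, rfl⟩)
  | f => exact Or.inr (Or.inl ⟨c, i, .f, hc, hi, trivial, rfl⟩)
  | w =>
    obtain ⟨h1, h2, h3, -⟩ := hx
    have e1 : c = 4 * (c / 4) + 2 := by omega
    have h4 : P.Q c i Lab.w = P.om (c / 4) := by
      have := Par.Q_w P h3
      rwa [← e1] at this
    exact Or.inr (Or.inr ⟨c / 4, by omega, h2, h4⟩)

private theorem trkS (P : Par) (h : P.Ok) {f : Pt → ℕ}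
    (hf : ∀ z ∈ P.S, f z < 5 * P.T)
    (hc : ∀ j < 5 * P.T, Cap {z | z ∈ P.S ∧ f z = j}) {tr : ℕ → ℕ}
    (tr2 : ∀ j < 5 * P.T, tr j < P.T ∧ ∀ c ≤ 4 * P.E, ∃ p < 5, f (P.Pc c (tr j) p) = j)
    (tr3 : ∀ i < P.T, ((Finset.range (5 * P.T)).filter (fun j => tr j = i)).card = 5)
    {i : ℕ} (hi : i < P.T) :
    Trk P.L (4 * P.E) ((Finset.range (5 * P.T)).filter (fun j => tr j = i))
      (fun c x => f (P.Q c i x)) (tkS P f tr i) (fun c => P.rt (c / 4) i)
      (fun c => P.cl (c / 4) i) := by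
  have hten := h.ten
  -- membership of structural points
  have str_mem : ∀ c < 4 * P.E, ∀ x, P.str x →
      f (P.Q c i x) ∈ (Finset.range (5 * P.T)).filter (fun j => tr j = i) := by
    intro c hcE x hx
    have hS : P.Q c i x ∈ P.S := Or.inr (Or.inl ⟨c, i, x, hcE, hi, hx, rfl⟩)
    have hj := hf _ hS
    refine Finset.mem_filter.2 ⟨Finset.mem_range.2 hj, ?_⟩
    by_contra hne
    obtain ⟨h1, h2⟩ := tr2 _ hj
    choose! p hp using h2
    exact region P h hcE h1 hi hne hx (hc _ hj)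
      (fun c' hc' => ⟨(hp c' hc').1,
        Or.inl ⟨c', _, _, hc', h1, (hp c' hc').1, rfl⟩, (hp c' hc').2⟩) ⟨hS, rfl⟩
  have strS : ∀ c < 4 * P.E, ∀ x, P.str x → P.Q c i x ∈ P.S := fun c hcE x hx =>
    Or.inr (Or.inl ⟨c, i, x, hcE, hi, hx, rfl⟩)
  have hmem : ∀ c < 4 * P.E, ∀ x, has P.L (tkS P f tr i c) x →
      f (P.Q c i x) ∈ (Finset.range (5 * P.T)).filter (fun j => tr j = i) := by
    intro c hcE x hx
    cases x with
    | U l => exact str_mem c hcE _ hx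
    | W l => exact str_mem c hcE _ hx
    | e => exact str_mem c hcE _ trivial
    | f => exact str_mem c hcE _ trivial
    | w => exact hx.2.2.2
  have wS : ∀ c < 4 * P.E, tkS P f tr i c → P.Q c i .w ∈ P.S := fun c hcE ht =>
    has_S P (x := .w) hcE hi ht
  have wlab : ∀ c, tkS P f tr i c → P.lab c i .w := fun c ht => Or.inr ⟨rfl, ht.1, ht.2.2.1⟩
  exact {
    ev := h.ev
    two := by omega
    card := tr3 i hi
    odd := fun c => h.odd _ _
    lt := fun c => h.lt _ _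
    mem := hmem
    ne := fun c hcE l hl heq =>
      lemB0 h (hc _ (hf _ (strS c hcE (.U l) hl))) hi hl ⟨strS c hcE (.U l) hl, rfl⟩
        ⟨strS c hcE (.W l) hl, heq.symm⟩
    b1 := fun c hcE l ho hl ⟨h1, h2⟩ =>
      lemB1 h (hc _ (hf _ (strS c hcE (.U l) hl.le))) hi ho hl
        ⟨strS c hcE (.U (l - 1)) (show l - 1 ≤ P.L by omega), h1⟩
        ⟨strS c hcE (.U l) hl.le, rfl⟩ ⟨strS c hcE (.U (l + 1)) hl, h2.symm⟩
    b2 := fun c hcE l ho h0 hl ⟨h1, h2⟩ =>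
      lemB2 h (hc _ (hf _ (strS c hcE (.W l) hl.le))) hi ho h0 hl
        ⟨strS c hcE (.U (l - 1)) (show l - 1 ≤ P.L by omega), h1⟩
        ⟨strS c hcE (.W l) hl.le, rfl⟩ ⟨strS c hcE (.U (l + 1)) hl, h2.symm⟩
    b3 := fun c hcE => by
      have se := strS c hcE .e trivial
      have C := hc _ (hf _ se)
      refine ⟨fun h1 => ⟨fun h2 => ?_, fun h2 => ?_⟩, fun h1 h2 => ?_⟩
      · exact lemB3a h C hi ⟨strS c hcE (.U 0) (Nat.zero_le _), h1.symm⟩ ⟨se, rfl⟩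
          ⟨strS c hcE (.W 1) (show 1 ≤ P.L by omega), h2.symm⟩
      · exact lemB3b h C hi ⟨strS c hcE (.U 0) (Nat.zero_le _), h1.symm⟩ ⟨se, rfl⟩
          ⟨strS c hcE (.U 1) (show 1 ≤ P.L by omega), h2.symm⟩
      · exact lemB3c h C hi ⟨strS c hcE (.W 0) (Nat.zero_le _), h1.symm⟩ ⟨se, rfl⟩
          ⟨strS c hcE (.U 1) (show 1 ≤ P.L by omega), h2.symm⟩
    b3' := fun c hcE => by
      have se := strS c hcE .f trivial
      have C := hc _ (hf _ se)
      refine ⟨fun h1 => ⟨fun h2 => ?_, fun h2 => ?_⟩, fun h1 h2 => ?_⟩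
      · exact lemB3a' h C hi ⟨strS c hcE (.U P.L) le_rfl, h1.symm⟩ ⟨se, rfl⟩
          ⟨strS c hcE (.W (P.L - 1)) (show P.L - 1 ≤ P.L by omega), h2.symm⟩
      · exact lemB3b' h C hi ⟨strS c hcE (.U P.L) le_rfl, h1.symm⟩ ⟨se, rfl⟩
          ⟨strS c hcE (.U (P.L - 1)) (show P.L - 1 ≤ P.L by omega), h2.symm⟩
      · exact lemB3c' h C hi ⟨strS c hcE (.W P.L) le_rfl, h1.symm⟩ ⟨se, rfl⟩
          ⟨strS c hcE (.U (P.L - 1)) (show P.L - 1 ≤ P.L by omega), h2.symm⟩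
    b4L := fun c hcE ht hr => by
      have sw := wS c hcE ht
      have C := hc _ (hf _ sw)
      have hlt := h.lt (c / 4) i
      refine ⟨fun ⟨h1, h2⟩ => ?_, fun ⟨h1, h2⟩ => ?_⟩
      · exact lemB4LU h C hi (wlab c ht) hr ⟨sw, rfl⟩
          ⟨strS c hcE (.U (P.cl (c / 4) i)) hlt.le, h1.symm⟩
          ⟨strS c hcE (.U (P.cl (c / 4) i + 1)) hlt, h2.symm⟩
      · exact lemB4LW h C hi (wlab c ht) hr ⟨sw, rfl⟩
          ⟨strS c hcE (.W (P.cl (c / 4) i)) hlt.le, h1.symm⟩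
          ⟨strS c hcE (.W (P.cl (c / 4) i + 1)) hlt, h2.symm⟩
    b4R := fun c hcE ht hr => by
      have sw := wS c hcE ht
      have C := hc _ (hf _ sw)
      have hlt := h.lt (c / 4) i
      refine ⟨fun ⟨h1, h2⟩ => ?_, fun ⟨h1, h2⟩ => ?_⟩
      · exact lemB4RU h C hi (wlab c ht) hr ⟨sw, rfl⟩
          ⟨strS c hcE (.U (P.cl (c / 4) i)) hlt.le, h1.symm⟩
          ⟨strS c hcE (.U (P.cl (c / 4) i - 1))
            (show P.cl (c / 4) i - 1 ≤ P.L by omega), h2.symm⟩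
      · exact lemB4RW h C hi (wlab c ht) hr ⟨sw, rfl⟩
          ⟨strS c hcE (.W (P.cl (c / 4) i)) hlt.le, h1.symm⟩
          ⟨strS c hcE (.W (P.cl (c / 4) i - 1))
            (show P.cl (c / 4) i - 1 ≤ P.L by omega), h2.symm⟩
    tr := fun c hcE x y hx hy hxy => by
      have hcE' : c < 4 * P.E := by omega
      have sx := has_S P hcE' hi hx
      have sy := has_S P hcE hi hy
      have lx : P.lab c i x := has_lab P (fun ht => ⟨ht.1, ht.2.2.1⟩) hx
      have ly : P.lab (c + 1) i y := has_lab P (fun ht => ⟨ht.1, ht.2.2.1⟩) hy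
      have hj := hf _ sx
      have hji : tr (f (P.Q c i x)) = i := (Finset.mem_filter.1 (hmem c hcE' x hx)).2
      obtain ⟨p, hp, hp2⟩ := (tr2 _ hj).2 (c + 1) (by omega)
      rw [hji] at hp2
      have hs : sl (P.Pc (c + 1) i p) (P.Q (c + 1) i y) < sl (P.Q c i x) (P.Pc (c + 1) i p) :=
        (hc _ hj).conc _ ⟨sx, rfl⟩ _ ⟨Or.inl ⟨c + 1, i, p, by omega, hi, hp, rfl⟩, hp2⟩ _
          ⟨sy, hxy.symm⟩ (Par.Q_fst h hi lx).2 (Par.Q_fst h hi ly).1
      obtain ⟨t1, t2⟩ := lemT P h hi lx ly hp hs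
      have e1 := p4_pos P h (c / 4) i x
      have e2 := p4_pos P h ((c + 1) / 4) i y
      refine ⟨?_, fun heq => ?_⟩
      · have : (p4 P.L (P.rt (c / 4) i) (P.cl (c / 4) i) x : ℝ) ≤
            p4 P.L (P.rt ((c + 1) / 4) i) (P.cl ((c + 1) / 4) i) y := by
          rw [e1, e2]; linarith
        exact_mod_cast this
      · have heq' : (p4 P.L (P.rt (c / 4) i) (P.cl (c / 4) i) x : ℝ) =
            p4 P.L (P.rt ((c + 1) / 4) i) (P.cl ((c + 1) / 4) i) y := by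
          exact_mod_cast heq
        obtain ⟨m, m1, m2, m3⟩ := t2 (by rw [e1, e2] at heq'; linarith)
        refine ⟨m, m1, m2, ?_⟩
        have : (p4 P.L (P.rt (c / 4) i) (P.cl (c / 4) i) x : ℝ) = 8 * m := by
          rw [e1, m3]; ring
        exact_mod_cast this }

theorem sound (P : Par) (h : P.Ok) (hE : 0 < P.E) (hS : CapPart P.S (5 * P.T)) :
    ∃ φ : ℕ → ℕ → ℕ,
      (∀ i < P.T, ∀ c, 1 ≤ c → c < 4 * P.E → 2 * φ i c ≤ P.L) ∧
      (∀ i < P.T, ∀ c, 1 ≤ c → c + 1 < 4 * P.E → φ i c ≤ φ i (c + 1)) ∧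
      ∀ e < P.E, P.pre e → ∃ i < P.T, P.act e i ∧
        (P.rt e i → 2 * φ i (4 * e + 1) ≤ P.cl e i + 1) ∧
        (¬ P.rt e i → P.cl e i ≤ 2 * φ i (4 * e + 2) + 1) := by
  obtain ⟨f, hf, hc⟩ := hS
  obtain ⟨tr, tr1, tr2, tr3⟩ := count P h hE f hf hc
  have hφ : ∀ i, ∃ φ : ℕ → ℕ, i < P.T → (∀ c, 1 ≤ c → c < 4 * P.E → 2 * φ c ≤ P.L) ∧
      (∀ c, 1 ≤ c → c + 1 < 4 * P.E → φ c ≤ φ (c + 1)) ∧
      (∀ c, 1 ≤ c → c + 1 < 4 * P.E → tkS P f tr i (c + 1) → P.rt ((c + 1) / 4) i →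
        2 * φ c ≤ P.cl ((c + 1) / 4) i + 1) ∧
      (∀ c, 1 ≤ c → c < 4 * P.E → tkS P f tr i c → ¬ P.rt (c / 4) i →
        P.cl (c / 4) i ≤ 2 * φ c + 1) := by
    intro i
    by_cases hi : i < P.T
    · obtain ⟨φ, hφ⟩ := track (trkS P h hf hc tr2 tr3 hi)
      exact ⟨φ, fun _ => hφ⟩
    · exact ⟨fun _ => 0, fun h' => absurd h' hi⟩
  choose φ hφ using hφ
  refine ⟨φ, fun i hi => (hφ i hi).1, fun i hi => (hφ i hi).2.1, fun e he hpre => ?_⟩
  have hom : P.om e ∈ P.S := Or.inr (Or.inr ⟨e, he, hpre, rfl⟩)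
  have hj := hf _ hom
  obtain ⟨h1, h2⟩ := tr2 _ hj
  choose! p hp using h2
  have hact : P.act e (tr (f (P.om e))) := regionW P h he h1 (hc _ hj)
    (fun c' hc' => ⟨(hp c' hc').1,
      Or.inl ⟨c', _, _, hc', h1, (hp c' hc').1, rfl⟩, (hp c' hc').2⟩) ⟨hom, rfl⟩
  refine ⟨tr (f (P.om e)), h1, hact, ?_⟩
  have ediv : (4 * e + 2) / 4 = e := by omega
  have htk : tkS P f tr (tr (f (P.om e))) (4 * e + 2) := by
    refine ⟨by omega, ?_, ?_, ?_⟩
    · rw [ediv]; exact hpre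
    · rw [ediv]; exact hact
    · rw [Par.Q_w P hact]
      exact Finset.mem_filter.2 ⟨Finset.mem_range.2 hj, rfl⟩
  obtain ⟨-, -, t3, t4⟩ := hφ _ h1
  have t3' := t3 (4 * e + 1) (by omega) (by omega) htk
  have t4' := t4 (4 * e + 2) (by omega) (by omega) htk
  have ediv' : (4 * e + 1 + 1) / 4 = e := by omega
  rw [ediv'] at t3'
  rw [ediv] at t4'
  exact ⟨t3', t4'⟩

end Pool.Agent.CPW
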