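import Pool.Agent.CPW.ClauseA
import Pool.Agent.CPW.Sound
import Pool.Agent.CPW.Compl

/-!
# Package ClauseB: cliques and cap partitions

`k = 0`: `T = E = 0`, `S` is empty (no `i < 0`, no `e < 0`; the first part has `i < T = 0`), both sides
are true. Let `k > 0`; then `nc n k ≥ 2 k > 0`, `E > 0`, `5 T = 10 k`.

(→) `compl` with `v i = 10 (u (i/2) + 1)` and `clause_compl` for `j = e % nc n k`.

(←) `sound` gives `φ`. `blocks` with `T = 2 k`, `L = 10 (n+1)`, `m = nc n k`,
`B = 2 k (5 (n+1)) + 1` (`T (L/2) < B`, `E = B m`) gives a block `β`. Put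
`m i = φ i (4 (β nc) + 1)`. For `j < nc` with `cpre j` let `e = β nc + j < E`, `e % nc = j`; `sound` gives an
active track `i`, and `4 e + 1`, `4 e + 2` are in the block (`< 4 (β + 1) nc`), so
`φ i (4e+1) = φ i (4e+2) = m i`. Now `clause_sound`.
-/

set_option autoImplicit false

namespace Pool.Agent.CPW

theorem clique_iff_cap (n k : ℕ) (adj : ℕ → ℕ → Prop) :
    (∃ u : ℕ → ℕ, (∀ a < k, u a < n) ∧ ∀ a b, a < b → b < k → adj (u a) (u b)) ↔
      CapPart (par n k adj).S (10 * k) := by
  have h10 : 5 * (par n k adj).T = 10 * k := by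
    change 5 * (2 * k) = 10 * k
    ring
  rcases Nat.eq_zero_or_pos k with hk | hk
  · have hT : (par n k adj).T = 0 := by
      change 2 * k = 0
      omega
    have hE : (par n k adj).E = 0 := by
      change (2 * k * (5 * (n + 1)) + 1) * nc n k = 0
      rw [hk]
      simp [nc]
    refine ⟨fun _ => ⟨fun _ => 0, ?_, ?_⟩, fun _ => ⟨fun _ => 0, ?_, ?_⟩⟩
    · rintro z (⟨c, i, p, -, hi, -⟩ | ⟨c, i, x, -, hi, -⟩ | ⟨e, he, -⟩)
      · rw [hT] at hi
        exact absurd hi (Nat.not_lt_zero _)
      · rw [hT] at hi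
        exact absurd hi (Nat.not_lt_zero _)
      · rw [hE] at he
        exact absurd he (Nat.not_lt_zero _)
    · intro j hj
      omega
    · intro a ha
      omega
    · intro a b _ hb
      omega
  have hnc : 0 < nc n k := by
    unfold nc
    have h1 : 0 ≤ k * (n + 1) + k * (k * (n * n)) := Nat.zero_le _
    omega
  have hE : 0 < (par n k adj).E := by
    change 0 < (2 * k * (5 * (n + 1)) + 1) * nc n k
    positivity
  rw [← h10]
  constructor
  · rintro ⟨u, hu, hadj⟩
    obtain ⟨h1, h2⟩ := clause_compl n k adj u hu hadj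
    exact compl (par n k adj) (par_ok n k adj) hE (fun i => 10 * (u (i / 2) + 1)) h1
      fun e _ hpre => h2 (e % nc n k) (Nat.mod_lt _ hnc) hpre
  · intro h
    obtain ⟨φ, hb, hmono, ht⟩ := sound (par n k adj) (par_ok n k adj) hE h
    have hB : 2 * k * (10 * (n + 1) / 2) < 2 * k * (5 * (n + 1)) + 1 := by
      have h1 : 10 * (n + 1) / 2 = 5 * (n + 1) := by omega
      rw [h1]
      exact Nat.lt_succ_self _
    obtain ⟨β, hβ, hc⟩ := blocks (2 * k) (10 * (n + 1)) (nc n k) (2 * k * (5 * (n + 1)) + 1) φ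
      hnc hB hb hmono
    refine clause_sound n k adj (fun i => φ i (4 * (β * nc n k) + 1)) fun j hj hpre => ?_
    have e1 : (β + 1) * nc n k = β * nc n k + nc n k := by ring
    have he : β * nc n k + j < (2 * k * (5 * (n + 1)) + 1) * nc n k := by
      have h1 : (β + 1) * nc n k ≤ (2 * k * (5 * (n + 1)) + 1) * nc n k :=
        Nat.mul_le_mul_right _ hβ
      omega
    have hmod : (β * nc n k + j) % nc n k = j := by
      rw [Nat.add_comm, Nat.add_mul_mod_self_right, Nat.mod_eq_of_lt hj]
    have hpre' : (par n k adj).pre (β * nc n k + j) := by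
      change cpre n k adj ((β * nc n k + j) % nc n k)
      rw [hmod]
      exact hpre
    obtain ⟨i, hi, hact, h1, h2⟩ := ht (β * nc n k + j) he hpre'
    change cact n k ((β * nc n k + j) % nc n k) i at hact
    change crt n k ((β * nc n k + j) % nc n k) i →
      2 * φ i (4 * (β * nc n k + j) + 1) ≤ ccl n k ((β * nc n k + j) % nc n k) i + 1 at h1
    change ¬ crt n k ((β * nc n k + j) % nc n k) i →
      ccl n k ((β * nc n k + j) % nc n k) i ≤ 2 * φ i (4 * (β * nc n k + j) + 2) + 1 at h2
    rw [hmod] at hact h1 h2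
    have c1 := hc i hi (4 * (β * nc n k + j) + 1) (by omega) (by omega)
    have c2 := hc i hi (4 * (β * nc n k + j) + 2) (by omega) (by omega)
    rw [c1] at h1
    rw [c2] at h2
    exact ⟨i, hi, hact, h1, h2⟩

end Pool.Agent.CPW
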