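import Mathlib

/-!
# Partition into few sets in convex position: definitions

Paper proof: see the docstrings; overview in the team store, `CPW_Proof.md`.
-/

set_option autoImplicit false

namespace Pool.Agent.CPW

/-- Points of the plane. -/
abbrev Pt : Type := ℝ × ℝ

/-- A set in convex position: no point is a convex combination of other points (Mathlib's
`ConvexIndependent`). -/
def ConvPos (A : Set Pt) : Prop := ConvexIndependent ℝ (fun p : A => (p : Pt))

/-- `S` can be split into `k` (possibly empty) pairwise disjoint sets in convex position; `f z` is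
the number of the part of `z`. -/
def ConvPart (S : Set Pt) (k : ℕ) : Prop :=
  ∃ f : Pt → ℕ, (∀ z ∈ S, f z < k) ∧ ∀ j < k, ConvPos {z | z ∈ S ∧ f z = j}

/-- The slope of the line through two points. -/
noncomputable def sl (a b : Pt) : ℝ := (b.2 - a.2) / (b.1 - a.1)

/-- Strict caps: strictly concave chains, no two points on a vertical line. -/
structure Cap (C : Set Pt) : Prop where
  inj : ∀ a ∈ C, ∀ b ∈ C, a.1 = b.1 → a = b
  conc : ∀ a ∈ C, ∀ b ∈ C, ∀ c ∈ C, a.1 < b.1 → b.1 < c.1 → sl b c < sl a b

/-- Partition into `k` strict caps. -/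
def CapPart (S : Set Pt) (k : ℕ) : Prop :=
  ∃ f : Pt → ℕ, (∀ z ∈ S, f z < k) ∧ ∀ j < k, Cap {z | z ∈ S ∧ f z = j}

/-- The guards: `2 K` points on the line `x = 0` and `2 K` points on the line `x = w`. -/
def guard (K : ℕ) (w : ℝ) : Set Pt := {z | ∃ j : ℕ, j < 2 * K ∧ (z = (0, (j : ℝ)) ∨ z = (w, (j : ℝ)))}

/-- The point number `(a, o)` of a stage: the stage starts at `(X, F)`, has width `D`; its chord has
slope `th - G`; `g` is the total turn. -/
noncomputable def pt (X F D g th G dl a o : ℝ) : Pt :=
  (X + D * (th + a * dl) / g,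
    F + (th - G) * (D * (th + a * dl) / g) + D * (th + a * dl) * (g - th - a * dl) / g +
      o * D * dl ^ 2 / (8 * g))

/-- Names of the points of a stage: `U l` and `W l` for `l ≤ L`, the end points `e` and `f`, the test
point `w`. -/
inductive Lab : Type
  | U (l : ℕ) : Lab
  | W (l : ℕ) : Lab
  | e : Lab
  | f : Lab
  | w : Lab

/-- The parameters: `T` tracks, `L` (the number of columns of a gadget, minus one), `E` periods; in
the period `e` track `i` is active if `act e i`; it has a test at column `cl e i`, an R-test if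
`rt e i`, an L-test otherwise; the period has a test point if `pre e`. -/
structure Par : Type where
  T : ℕ
  L : ℕ
  E : ℕ
  act : ℕ → ℕ → Prop
  rt : ℕ → ℕ → Prop
  cl : ℕ → ℕ → ℕ
  pre : ℕ → Prop

/-- Admissible parameters. -/
structure Par.Ok (P : Par) : Prop where
  ten : 10 ≤ P.L
  ev : P.L % 2 = 0
  odd : ∀ e i, P.cl e i % 2 = 1
  lt : ∀ e i, P.cl e i < P.L

namespace Par

variable (P : Par)

noncomputable def dl : ℝ := 1 / (4 * P.L)
noncomputable def q : ℝ := 4 * P.T + 2
noncomputable def V : ℝ := 80 * P.L + 24 * P.T + 16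
noncomputable def M : ℝ := 2 * P.V * P.T + 4
noncomputable def ep : ℝ := P.dl ^ 2 / (10000 * (P.M + 2 * P.V * P.T + 1))
/-- The sign `(-1)^e`. -/
noncomputable def sg (e : ℕ) : ℝ := (-1) ^ e

open Classical in
/-- The position of the test point. -/
noncomputable def lam (e i : ℕ) : ℝ := if P.rt e i then P.cl e i + 1 / 4 else P.cl e i - 1 / 4

open Classical in
noncomputable def tau (e i : ℕ) : ℝ := if P.act e i then 1 / 4 + 19 / 16 * P.dl ^ 2 else - 1 / 4

noncomputable def al (e i : ℕ) : ℝ := 1 / 8 - P.lam e i * P.dl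

/-- The width of the stage `c`. -/
noncomputable def D (c : ℕ) : ℝ :=
  if c % 4 = 0 then 1 else if c % 4 = 1 then P.q - 1 else if c % 4 = 2 then 1 else P.q

noncomputable def th (c i : ℕ) : ℝ :=
  if c % 4 = 0 then 1 - P.tau (c / 4) i - P.al (c / 4) i / 2
  else if c % 4 = 1 then 3 / 8
  else if c % 4 = 2 then 3 / 8 + P.al (c / 4) i
  else 3 / 8 + (P.tau (c / 4) i - P.al (c / 4) i / 2) / P.q

/-- The total turn in the stage `c` of track `i`. -/
noncomputable def g (c i : ℕ) : ℝ := if c % 4 = 0 then P.M - 2 * sg (c / 4) * P.V * i else 1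

/-- Minus the slope of the last edge of the parabola of stage `c`. -/
noncomputable def G (c i : ℕ) : ℝ :=
  (c / 4 : ℕ) * (P.M + 3) + P.M + (c % 4 : ℕ) - sg (c / 4) * P.V * i

/-- The abscissa of the column `c`. -/
noncomputable def X (c : ℕ) : ℝ :=
  1 + (c / 4 : ℕ) * (2 * P.q + 1) +
    (if c % 4 = 0 then 0 else if c % 4 = 1 then 1 else if c % 4 = 2 then P.q else P.q + 1)

/-- The slope of the chord of stage `c` of track `i`. -/
noncomputable def s (c i : ℕ) : ℝ := P.th c i - P.G c i

/-- A bound for all vertical deviations. -/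
noncomputable def R : ℝ :=
  P.V * P.T * (P.q + 1) + P.E * (2 * P.q + 1) * ((P.E + 1) * (P.M + 3) + P.V * P.T + 2) +
    2 * P.q + 10

/-- The right guard line is `x = wd`. -/
noncomputable def wd : ℝ := 2 + P.E * (2 * P.q + 1)

/-- The inverse of a lower bound for the horizontal distance of points of different abscissa. -/
noncomputable def Z : ℝ := 256 * P.L ^ 2 * (P.M + 2 * P.V * P.T) ^ 2

/-- The height of the construction. -/
noncomputable def H : ℝ := P.R + 10 * P.T + (2 * P.R * P.Z + 1) * P.wd + 1

/-- The height of the lowest point of track `i` in column `c`. -/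
noncomputable def F : ℕ → ℕ → ℝ
  | 0, i => P.H - P.V * i * (P.q + 1 / 2)
  | c + 1, i => F c i + P.D c * P.s c i

/-- The forced points: point `p < 5` of track `i` in column `c`. -/
noncomputable def Pc (c i p : ℕ) : Pt := (P.X c, P.F c i + p * P.ep)

/-- The position of a label in the period `e` for the track `i`. -/
noncomputable def pos (e i : ℕ) : Lab → ℝ
  | .U l => l
  | .W l => l
  | .e => 1 / 4
  | .f => P.L - 1 / 4
  | .w => P.lam e i

/-- The offset of a label. -/
noncomputable def off : Lab → ℝ
  | .U l => if l % 2 = 0 then 17 else 8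
  | .W l => if l = 0 ∨ l = P.L then 1 else if l % 2 = 0 then -2 else 2
  | .e => 1 / 2
  | .f => 1 / 2
  | .w => 19 / 2

/-- The point of stage `c` of track `i` with label `x`. -/
noncomputable def Q (c i : ℕ) (x : Lab) : Pt :=
  pt (P.X c) (P.F c i) (P.D c) (P.g c i) (P.th c i) (P.G c i) P.dl (P.pos (c / 4) i x) (P.off x)

/-- The structural labels. -/
def str : Lab → Prop
  | .U l => l ≤ P.L
  | .W l => l ≤ P.L
  | .e => True
  | .f => True
  | .w => False

/-- The test point of the period `e`. -/
noncomputable def om (e : ℕ) : Pt :=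
  (P.X (4 * e + 2) + 1 / 2, P.F (4 * e + 2) 0 + P.s (4 * e + 2) 0 / 2 + P.tau e 0)

/-- The points of the construction (without guards). -/
def S : Set Pt :=
  {z | (∃ c i p : ℕ, c ≤ 4 * P.E ∧ i < P.T ∧ p < 5 ∧ z = P.Pc c i p) ∨
    (∃ (c i : ℕ) (x : Lab), c < 4 * P.E ∧ i < P.T ∧ P.str x ∧ z = P.Q c i x) ∨
    (∃ e : ℕ, e < P.E ∧ P.pre e ∧ z = P.om e)}

/-- The labels which the classes of track `i` may have in stage `c`. -/
def lab (c i : ℕ) (x : Lab) : Prop := P.str x ∨ (x = Lab.w ∧ c % 4 = 2 ∧ P.act (c / 4) i)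

end Par

end Pool.Agent.CPW
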