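import Pool.Agent.CPW.TDefs

/-!
# Package Enum: the enumeration of the points

`enum`: (⊆) case distinction on the definition of `pnt`: `j < 2K`: the guard `(0, j)`;
`j < 4 K`: the guard `(wd, j - 2K)`; the third case: `Pc c i p` with `c = r / (5 T) ≤ 4 E`,
`i = r % (5T) / 5 < T`, `p = r % (5T) % 5 < 5` (here `T > 0` as `r < (4E+1) (T*5)`); the fourth case:
`Q c i (labT L t)` with `c < 4 E`, `i < T`, `t < 2 L + 4`, `labT L t` is structural; the last case
(`< E`): `om e` if `pre e`, otherwise `Pc 0 0 0 ∈ S` because `0 < E` gives `0 < T`.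
(⊇) guards: `j` or `j + 2 K`; `Pc c i p`: index `4K + (c (T*5) + (i * 5 + p))`; `Q c i x`: index
`4K + (4E+1)(T*5) + (c (T (2L+4)) + (i (2L+4) + t))` with `labT L t = x`: `t = l` for `U l`, `L + 1 + l` for
`W l`, `2L+2` for `e`, `2L+3` for `f`; `om e`: the last block.
-/

set_option autoImplicit false

namespace Pool.Agent.CPW

private theorem labT_str (P : Par) (t : ℕ) : P.str (labT P.L t) := by
  unfold labT
  split_ifs with h1 h2 h3
  · change t ≤ P.L
    omega
  · change t - (P.L + 1) ≤ P.L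
    omega
  · trivial
  · trivial

private theorem labT_surj (P : Par) {x : Lab} (hx : P.str x) :
    ∃ t, t < 2 * P.L + 4 ∧ labT P.L t = x := by
  cases x with
  | U l =>
    have h : l ≤ P.L := hx
    refine ⟨l, by omega, ?_⟩
    unfold labT
    rw [if_pos (by omega)]
  | W l =>
    have h : l ≤ P.L := hx
    refine ⟨P.L + 1 + l, by omega, ?_⟩
    unfold labT
    rw [if_neg (by omega), if_pos (by omega)]
    congr 1
    omega
  | e =>
    refine ⟨2 * P.L + 2, by omega, ?_⟩
    unfold labT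
    rw [if_neg (by omega), if_neg (by omega), if_pos rfl]
  | f =>
    refine ⟨2 * P.L + 3, by omega, ?_⟩
    unfold labT
    rw [if_neg (by omega), if_neg (by omega), if_neg (by omega)]
  | w => exact hx.elim

private theorem dm_div {c n x : ℕ} (hx : x < n) : (c * n + x) / n = c := by
  rw [add_comm, Nat.add_mul_div_right _ _ (by omega), Nat.div_eq_of_lt hx, zero_add]

private theorem dm_mod {c n x : ℕ} (hx : x < n) : (c * n + x) % n = x := by
  rw [add_comm, Nat.add_mul_mod_self_right, Nat.mod_eq_of_lt hx]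

private theorem dm_lt {c n x m : ℕ} (hx : x < n) (hc : c < m) : c * n + x < m * n := by
  have h1 : (c + 1) * n ≤ m * n := Nat.mul_le_mul_right n hc
  rw [add_mul, one_mul] at h1
  omega

private theorem pnt_A {P : Par} {K r : ℕ} (h : r < (4 * P.E + 1) * (P.T * 5)) :
    pnt P K (4 * K + r) = P.Pc (r / (P.T * 5)) (r % (P.T * 5) / 5) (r % (P.T * 5) % 5) := by
  have e1 : 4 * K + r - 4 * K = r := by omega
  unfold pnt
  rw [if_neg (by omega), if_neg (by omega), e1, if_pos h]

private theorem pnt_B {P : Par} {K r : ℕ} (h : r < 4 * P.E * (P.T * (2 * P.L + 4))) :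
    pnt P K (4 * K + ((4 * P.E + 1) * (P.T * 5) + r)) =
      P.Q (r / (P.T * (2 * P.L + 4))) (r % (P.T * (2 * P.L + 4)) / (2 * P.L + 4))
        (labT P.L (r % (P.T * (2 * P.L + 4)) % (2 * P.L + 4))) := by
  unfold pnt
  generalize (4 * P.E + 1) * (P.T * 5) = A
  have e1 : 4 * K + (A + r) - 4 * K = A + r := by omega
  have e2 : A + r - A = r := by omega
  rw [if_neg (by omega), if_neg (by omega), e1, if_neg (by omega), e2, if_pos h]

private theorem pnt_C {P : Par} {K e : ℕ} (h : P.pre e) :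
    pnt P K (4 * K + ((4 * P.E + 1) * (P.T * 5) + (4 * P.E * (P.T * (2 * P.L + 4)) + e))) =
      P.om e := by
  unfold pnt
  generalize (4 * P.E + 1) * (P.T * 5) = A
  generalize 4 * P.E * (P.T * (2 * P.L + 4)) = B
  have e1 : 4 * K + (A + (B + e)) - 4 * K = A + (B + e) := by omega
  have e2 : A + (B + e) - A = B + e := by omega
  have e3 : B + e - B = e := by omega
  rw [if_neg (by omega), if_neg (by omega), e1, if_neg (by omega), e2, if_neg (by omega), e3,
    if_pos h]

private theorem pnt_G {P : Par} {K j : ℕ} (h : j < 2 * K) : pnt P K j = (0, (j : ℝ)) := by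
  unfold pnt
  rw [if_pos h]

private theorem pnt_H {P : Par} {K j : ℕ} (h : j < 2 * K) :
    pnt P K (j + 2 * K) = (P.wd, (j : ℝ)) := by
  have e1 : j + 2 * K - 2 * K = j := by omega
  unfold pnt
  rw [if_neg (by omega), if_pos (by omega), e1]

theorem enum (P : Par) (K : ℕ) (hT : 0 < P.E → 0 < P.T) :
    {z | ∃ j < cnt P K, z = pnt P K j} = P.S ∪ guard K P.wd := by
  ext z
  constructor
  · rintro ⟨j, hj, rfl⟩
    by_cases h1 : j < 2 * K
    · rw [pnt_G h1]
      exact Or.inr ⟨j, h1, Or.inl rfl⟩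
    by_cases h2 : j < 4 * K
    · obtain ⟨j', rfl⟩ : ∃ j', j = j' + 2 * K := ⟨j - 2 * K, by omega⟩
      have h3 : j' < 2 * K := by omega
      rw [pnt_H h3]
      exact Or.inr ⟨j', h3, Or.inr rfl⟩
    left
    obtain ⟨r, rfl⟩ : ∃ r, j = 4 * K + r := ⟨j - 4 * K, by omega⟩
    by_cases h3 : r < (4 * P.E + 1) * (P.T * 5)
    · rw [pnt_A h3]
      have hT5 : 0 < P.T * 5 := Nat.pos_of_ne_zero fun h0 => by
        rw [h0, mul_zero] at h3
        exact absurd h3 (Nat.not_lt_zero r)
      have h4 : r / (P.T * 5) < 4 * P.E + 1 := (Nat.div_lt_iff_lt_mul hT5).2 h3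
      have h5 : r % (P.T * 5) / 5 < P.T :=
        (Nat.div_lt_iff_lt_mul (by norm_num)).2 (Nat.mod_lt _ hT5)
      exact Or.inl ⟨_, _, _, by omega, h5, Nat.mod_lt _ (by norm_num), rfl⟩
    obtain ⟨r', rfl⟩ : ∃ r', r = (4 * P.E + 1) * (P.T * 5) + r' :=
      ⟨r - (4 * P.E + 1) * (P.T * 5), (Nat.add_sub_cancel' (not_lt.1 h3)).symm⟩
    by_cases h4 : r' < 4 * P.E * (P.T * (2 * P.L + 4))
    · rw [pnt_B h4]
      have hTL : 0 < P.T * (2 * P.L + 4) := Nat.pos_of_ne_zero fun h0 => by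
        rw [h0, mul_zero] at h4
        exact absurd h4 (Nat.not_lt_zero r')
      have h5 : r' / (P.T * (2 * P.L + 4)) < 4 * P.E := (Nat.div_lt_iff_lt_mul hTL).2 h4
      have h6 : r' % (P.T * (2 * P.L + 4)) / (2 * P.L + 4) < P.T :=
        (Nat.div_lt_iff_lt_mul (by omega)).2 (Nat.mod_lt _ hTL)
      exact Or.inr (Or.inl ⟨_, _, _, h5, h6, labT_str P _, rfl⟩)
    obtain ⟨e, rfl⟩ : ∃ e, r' = 4 * P.E * (P.T * (2 * P.L + 4)) + e :=
      ⟨r' - 4 * P.E * (P.T * (2 * P.L + 4)), (Nat.add_sub_cancel' (not_lt.1 h4)).symm⟩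
    have he : e < P.E := by
      unfold cnt at hj
      generalize (4 * P.E + 1) * (P.T * 5) = A at hj
      generalize 4 * P.E * (P.T * (2 * P.L + 4)) = B at hj
      omega
    by_cases h5 : P.pre e
    · rw [pnt_C h5]
      exact Or.inr (Or.inr ⟨e, he, h5, rfl⟩)
    · have h6 : pnt P K (4 * K + ((4 * P.E + 1) * (P.T * 5) +
          (4 * P.E * (P.T * (2 * P.L + 4)) + e))) = P.Pc 0 0 0 := by
        unfold pnt
        generalize (4 * P.E + 1) * (P.T * 5) = A
        generalize 4 * P.E * (P.T * (2 * P.L + 4)) = B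
        have e1 : 4 * K + (A + (B + e)) - 4 * K = A + (B + e) := by omega
        have e2 : A + (B + e) - A = B + e := by omega
        have e3 : B + e - B = e := by omega
        rw [if_neg (by omega), if_neg (by omega), e1, if_neg (by omega), e2,
          if_neg (by omega), e3, if_neg h5]
      rw [h6]
      exact Or.inl ⟨0, 0, 0, Nat.zero_le _, hT (by omega), by norm_num, rfl⟩
  · rintro ((⟨c, i, p, hc, hi, hp, rfl⟩ | ⟨c, i, x, hc, hi, hx, rfl⟩ | ⟨e, he, hpre, rfl⟩) |
      ⟨j, hj, rfl | rfl⟩)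
    · have h1 : i * 5 + p < P.T * 5 := dm_lt hp hi
      have h2 : c * (P.T * 5) + (i * 5 + p) < (4 * P.E + 1) * (P.T * 5) :=
        dm_lt h1 (by omega)
      refine ⟨4 * K + (c * (P.T * 5) + (i * 5 + p)), ?_, ?_⟩
      · unfold cnt
        generalize 4 * P.E * (P.T * (2 * P.L + 4)) = B
        generalize (4 * P.E + 1) * (P.T * 5) = A at h2 ⊢
        omega
      · rw [pnt_A h2, dm_div h1, dm_mod h1, dm_div hp, dm_mod hp]
    · obtain ⟨t, ht, rfl⟩ := labT_surj P hx
      have h1 : i * (2 * P.L + 4) + t < P.T * (2 * P.L + 4) := dm_lt ht hi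
      have h2 : c * (P.T * (2 * P.L + 4)) + (i * (2 * P.L + 4) + t) <
        4 * P.E * (P.T * (2 * P.L + 4)) := dm_lt h1 hc
      refine ⟨4 * K + ((4 * P.E + 1) * (P.T * 5) +
        (c * (P.T * (2 * P.L + 4)) + (i * (2 * P.L + 4) + t))), ?_, ?_⟩
      · unfold cnt
        generalize 4 * P.E * (P.T * (2 * P.L + 4)) = B at h2 ⊢
        generalize (4 * P.E + 1) * (P.T * 5) = A
        generalize c * (P.T * (2 * P.L + 4)) + (i * (2 * P.L + 4) + t) = C at h2 ⊢
        omega
      · rw [pnt_B h2, dm_div h1, dm_mod h1, dm_div ht, dm_mod ht]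
    · refine ⟨4 * K + ((4 * P.E + 1) * (P.T * 5) + (4 * P.E * (P.T * (2 * P.L + 4)) + e)),
        ?_, (pnt_C hpre).symm⟩
      unfold cnt
      generalize 4 * P.E * (P.T * (2 * P.L + 4)) = B
      generalize (4 * P.E + 1) * (P.T * 5) = A
      omega
    · refine ⟨j, ?_, (pnt_G hj).symm⟩
      unfold cnt
      generalize 4 * P.E * (P.T * (2 * P.L + 4)) = B
      generalize (4 * P.E + 1) * (P.T * 5) = A
      omega
    · refine ⟨j + 2 * K, ?_, (pnt_H hj).symm⟩
      unfold cnt
      generalize 4 * P.E * (P.T * (2 * P.L + 4)) = B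
      generalize (4 * P.E + 1) * (P.T * 5) = A
      omega

end Pool.Agent.CPW
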