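import Pool.Agent.CPW.Slopes

/-!
# Package GuardA: guards force caps

Let `f` be a partition of `S ∪ guard K w` into `K` sets in convex position `A_j = {z | f z = j}`
(use `convexIndependent_set_iff_notMem_convexHull_diff`: no `z ∈ A_j` is in the convex hull of
`A_j \ {z}`). The same `f` shows `CapPart S K`.

(1) `A_j` contains at most two of the points `(0, m)`: if `a < b < c` then `(0, b)` is in the segment
from `(0, a)` to `(0, c)`. The `2K` points `(0, m)`, `m < 2K`, lie in `K` classes, at most two in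
each, so every class contains at least one of them (otherwise at most `2 (K - 1)` points). In the
same way every class contains at least one of the points `(w, m)`, `m < 2K`.

(2) Let `(0, d)` and `(w, r)` be such points of `A_j`, `0 ≤ d, r ≤ 2K - 1`. For every `x` with
`0 < x < w` the segment from `(0, d)` to `(w, r)` contains a point `(x, y₀)` with
`y₀ ≤ 2K - 1 < 2K`.

`inj`: let `a, b ∈ A_j ∩ S`, `a.1 = b.1 = x`, `a ≠ b`, say `a.2 < b.2`. Then
`y₀ < 2K ≤ a.2 < b.2`, so `a` is in the segment from `(x, y₀)` to `b`, hence in the convex hull of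
`{(0, d), (w, r), b}`, and these three points are different from `a` (their abscissas are `0`, `w`;
`b ≠ a`). Contradiction.

`conc`: let `a, b, c ∈ A_j ∩ S`, `a.1 < b.1 < c.1` and suppose `sl a b ≤ sl b c`. Then the segment
from `a` to `c` contains a point `(b.1, y₁)` with `b.2 ≤ y₁`; and `y₀ < b.2` for `x = b.1`. So `b` is
in the segment from `(b.1, y₀)` to `(b.1, y₁)`, hence in the convex hull of
`{a, c, (0, d), (w, r)} ⊆ A_j \ {b}`. Contradiction.
-/

set_option autoImplicit false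

namespace Pool.Agent.CPW

private theorem gA_vert {C : Set Pt} (hC : Convex ℝ C) {x p q y : ℝ} (hp : ((x, p) : Pt) ∈ C)
    (hq : ((x, q) : Pt) ∈ C) (h1 : p ≤ y) (h2 : y ≤ q) : ((x, y) : Pt) ∈ C := by
  have h3 : y ∈ segment ℝ p q := by
    rw [segment_eq_Icc (h1.trans h2)]
    exact ⟨h1, h2⟩
  obtain ⟨a, b, ha, hb, hab, rfl⟩ := h3
  have h4 := hC hp hq ha hb hab
  have h5 : a • ((x, p) : Pt) + b • ((x, q) : Pt) = (x, a • p + b • q) := by
    refine Prod.ext ?_ rfl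
    change a * x + b * x = x
    rw [← add_mul, hab, one_mul]
  rwa [h5] at h4

private theorem gA_horiz {C : Set Pt} (hC : Convex ℝ C) {p q : Pt} (hp : p ∈ C) (hq : q ∈ C)
    {x : ℝ} (h1 : p.1 ≤ x) (h2 : x ≤ q.1) : ∃ a b : ℝ, 0 ≤ a ∧ 0 ≤ b ∧ a + b = 1 ∧
      a * p.1 + b * q.1 = x ∧ ((x, a * p.2 + b * q.2) : Pt) ∈ C := by
  have h3 : x ∈ segment ℝ p.1 q.1 := by
    rw [segment_eq_Icc (h1.trans h2)]
    exact ⟨h1, h2⟩
  obtain ⟨a, b, ha, hb, hab, hx⟩ := h3
  refine ⟨a, b, ha, hb, hab, hx, ?_⟩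
  have h4 := hC hp hq ha hb hab
  have h5 : a • p + b • q = (x, a * p.2 + b * q.2) := Prod.ext hx rfl
  rwa [h5] at h4

private theorem gA_hull {A : Set Pt} (hA : ConvPos A) : ∀ x ∈ A, x ∉ convexHull ℝ (A \ {x}) :=
  convexIndependent_set_iff_notMem_convexHull_sdiff.1 hA

private theorem gA_three {A : Set Pt} (hA : ConvPos A) {x a b c : ℝ} (hab : a < b) (hbc : b < c)
    (ha : ((x, a) : Pt) ∈ A) (hb : ((x, b) : Pt) ∈ A) (hc : ((x, c) : Pt) ∈ A) : False := by
  refine gA_hull hA _ hb (gA_vert (convex_convexHull ℝ _) (p := a) (q := c) ?_ ?_ hab.le hbc.le)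
  · refine subset_convexHull ℝ _ ⟨ha, fun h => ?_⟩
    have h1 : a = b := congrArg Prod.snd h
    exact hab.ne h1
  · refine subset_convexHull ℝ _ ⟨hc, fun h => ?_⟩
    have h1 : c = b := congrArg Prod.snd h
    exact hbc.ne' h1

/-- every class contains one of the `2 K` points on a vertical line -/
private theorem gA_pigeon {B : Set Pt} {K : ℕ} {f : Pt → ℕ} (hf : ∀ z ∈ B, f z < K)
    (hc : ∀ j < K, ConvPos {z | z ∈ B ∧ f z = j}) {x : ℝ}
    (hx : ∀ m : ℕ, m < 2 * K → ((x, (m : ℝ)) : Pt) ∈ B) {j : ℕ} (hj : j < K) :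
    ∃ m : ℕ, m < 2 * K ∧ f (x, (m : ℝ)) = j := by
  by_contra hcon
  push Not at hcon
  have h1 : ∀ m ∈ Finset.range (2 * K), f (x, (m : ℝ)) ∈ (Finset.range K).erase j := by
    intro m hm
    rw [Finset.mem_range] at hm
    exact Finset.mem_erase.2 ⟨hcon m hm, Finset.mem_range.2 (hf _ (hx m hm))⟩
  have hT : ∀ i < K, ∀ a b c : ℕ, a < b → b < c → a < 2 * K → b < 2 * K → c < 2 * K →
      f (x, (a : ℝ)) = i → f (x, (b : ℝ)) = i → f (x, (c : ℝ)) = i → False := by
    intro i hi a b c hab hbc ha hb hc' fa fb fc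
    exact gA_three (hc i hi) (x := x) (a := a) (b := b) (c := c) (by exact_mod_cast hab)
      (by exact_mod_cast hbc) ⟨hx a ha, fa⟩ ⟨hx b hb, fb⟩ ⟨hx c hc', fc⟩
  have h2 : ∀ i ∈ (Finset.range K).erase j,
      ((Finset.range (2 * K)).filter fun m : ℕ => f (x, (m : ℝ)) = i).card ≤ 2 := by
    intro i hi
    have hiK : i < K := Finset.mem_range.1 (Finset.mem_of_mem_erase hi)
    by_contra h3
    push Not at h3
    obtain ⟨a, ha, b, hb, c, hc', hab, hac, hbc⟩ := Finset.two_lt_card.1 h3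
    rw [Finset.mem_filter, Finset.mem_range] at ha hb hc'
    rcases lt_or_gt_of_ne hab with g1 | g1 <;> rcases lt_or_gt_of_ne hac with g2 | g2 <;>
      rcases lt_or_gt_of_ne hbc with g3 | g3
    · exact hT i hiK a b c g1 g3 ha.1 hb.1 hc'.1 ha.2 hb.2 hc'.2
    · exact hT i hiK a c b g2 g3 ha.1 hc'.1 hb.1 ha.2 hc'.2 hb.2
    · omega
    · exact hT i hiK c a b g2 g1 hc'.1 ha.1 hb.1 hc'.2 ha.2 hb.2
    · exact hT i hiK b a c g1 g2 hb.1 ha.1 hc'.1 hb.2 ha.2 hc'.2
    · omega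
    · exact hT i hiK b c a g3 g2 hb.1 hc'.1 ha.1 hb.2 hc'.2 ha.2
    · exact hT i hiK c b a g3 g1 hc'.1 hb.1 ha.1 hc'.2 hb.2 ha.2
  have h3 := Finset.card_le_mul_card_image_of_maps_to h1 2 h2
  rw [Finset.card_range, Finset.card_erase_of_mem (Finset.mem_range.2 hj),
    Finset.card_range] at h3
  omega

theorem guardA (S : Set Pt) (K : ℕ) (w : ℝ)
    (hS : ∀ z ∈ S, 0 < z.1 ∧ z.1 < w ∧ 2 * (K : ℝ) ≤ z.2)
    (h : ConvPart (S ∪ guard K w) K) : CapPart S K := by
  obtain ⟨f, hf, hc⟩ := h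
  refine ⟨f, fun z hz => hf z (Or.inl hz), fun j hj => ?_⟩
  -- the guard points of the class `j`
  obtain ⟨m, hm, hmj⟩ := gA_pigeon hf hc (x := 0)
    (fun m hm => Or.inr ⟨m, hm, Or.inl rfl⟩) hj
  obtain ⟨n, hn, hnj⟩ := gA_pigeon hf hc (x := w)
    (fun m hm => Or.inr ⟨m, hm, Or.inr rfl⟩) hj
  set A : Set Pt := {z | z ∈ S ∪ guard K w ∧ f z = j} with hA
  have hAj : ConvPos A := hc j hj
  have hmA : ((0, (m : ℝ)) : Pt) ∈ A := ⟨Or.inr ⟨m, hm, Or.inl rfl⟩, hmj⟩
  have hnA : ((w, (n : ℝ)) : Pt) ∈ A := ⟨Or.inr ⟨n, hn, Or.inr rfl⟩, hnj⟩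
  have hm' : (m : ℝ) < 2 * (K : ℝ) := by exact_mod_cast hm
  have hn' : (n : ℝ) < 2 * (K : ℝ) := by exact_mod_cast hn
  -- the low point above `x`
  have low : ∀ b ∈ S, ∃ y, y < 2 * (K : ℝ) ∧ ((b.1, y) : Pt) ∈ convexHull ℝ (A \ {b}) := by
    intro b hb
    obtain ⟨hb1, hb2, -⟩ := hS b hb
    have e1 : ((0, (m : ℝ)) : Pt) ∈ convexHull ℝ (A \ {b}) := by
      refine subset_convexHull ℝ _ ⟨hmA, fun he => ?_⟩
      have h1 : (0 : ℝ) = b.1 := congrArg Prod.fst he
      exact hb1.ne h1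
    have e2 : ((w, (n : ℝ)) : Pt) ∈ convexHull ℝ (A \ {b}) := by
      refine subset_convexHull ℝ _ ⟨hnA, fun he => ?_⟩
      have h1 : w = b.1 := congrArg Prod.fst he
      exact hb2.ne' h1
    obtain ⟨s, t, hs, ht, hst, -, hp⟩ :=
      gA_horiz (convex_convexHull ℝ (A \ {b})) e1 e2 (x := b.1) hb1.le hb2.le
    refine ⟨s * (m : ℝ) + t * (n : ℝ), ?_, hp⟩
    rcases eq_or_lt_of_le hs with h0 | h0
    · have h1 : t = 1 := by linarith
      rw [← h0, h1]
      linarith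
    · have h1 : s * (m : ℝ) < s * (2 * K) := mul_lt_mul_of_pos_left hm' h0
      have h2 : t * (n : ℝ) ≤ t * (2 * K) := mul_le_mul_of_nonneg_left hn'.le ht
      have h3 : s * (2 * (K : ℝ)) + t * (2 * K) = 2 * K := by rw [← add_mul, hst, one_mul]
      linarith
  -- no two points of the class on a vertical line
  have hinj : ∀ a ∈ S, f a = j → ∀ b ∈ S, f b = j → a.1 = b.1 → ¬ a.2 < b.2 := by
    intro a ha fa b hb fb hab hlt
    obtain ⟨y, hy, hyA⟩ := low a ha
    refine gA_hull hAj a ⟨Or.inl ha, fa⟩ ?_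
    have e1 : ((a.1, b.2) : Pt) ∈ convexHull ℝ (A \ {a}) := by
      have e2 : ((a.1, b.2) : Pt) = b := Prod.ext hab rfl
      rw [e2]
      refine subset_convexHull ℝ _ ⟨⟨Or.inl hb, fb⟩, fun he => ?_⟩
      have h1 : b = a := he
      rw [h1] at hlt
      exact lt_irrefl _ hlt
    have h2 := (hS a ha).2.2
    exact gA_vert (convex_convexHull ℝ _) hyA e1 (by linarith) hlt.le
  refine ⟨fun a ha b hb hab => ?_, fun a ha b hb c hcc hab hbc => ?_⟩
  · rcases lt_trichotomy a.2 b.2 with h1 | h1 | h1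
    · exact absurd h1 (hinj a ha.1 ha.2 b hb.1 hb.2 hab)
    · exact Prod.ext hab h1
    · exact absurd h1 (hinj b hb.1 hb.2 a ha.1 ha.2 hab.symm)
  · by_contra hcon
    push Not at hcon
    obtain ⟨y, hy, hyA⟩ := low b hb.1
    refine gA_hull hAj b ⟨Or.inl hb.1, hb.2⟩ ?_
    have e1 : a ∈ convexHull ℝ (A \ {b}) := by
      refine subset_convexHull ℝ _ ⟨⟨Or.inl ha.1, ha.2⟩, fun he => ?_⟩
      have h1 : a = b := he
      rw [h1] at hab
      exact lt_irrefl _ hab
    have e2 : c ∈ convexHull ℝ (A \ {b}) := by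
      refine subset_convexHull ℝ _ ⟨⟨Or.inl hcc.1, hcc.2⟩, fun he => ?_⟩
      have h1 : c = b := he
      rw [h1] at hbc
      exact lt_irrefl _ hbc
    obtain ⟨s, t, hs, ht, hst, hx, hp⟩ :=
      gA_horiz (convex_convexHull ℝ (A \ {b})) e1 e2 (x := b.1) hab.le hbc.le
    have h2 := (hS b hb.1).2.2
    refine gA_vert (convex_convexHull ℝ _) hyA hp (by linarith) ?_
    have h3 : 0 < b.1 - a.1 := by linarith
    have h4 : 0 < c.1 - b.1 := by linarith
    have h5 : 0 < c.1 - a.1 := by linarith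
    simp only [sl] at hcon
    rw [div_le_div_iff₀ h3 h4] at hcon
    have h6 : b.1 - a.1 = t * (c.1 - a.1) := by
      have : s = 1 - t := by linarith
      rw [← hx, this]
      ring
    have h7 : c.1 - b.1 = s * (c.1 - a.1) := by
      have : t = 1 - s := by linarith
      rw [← hx, this]
      ring
    rw [h6, h7] at hcon
    have h8 : ((b.2 - a.2) * s) * (c.1 - a.1) ≤ ((c.2 - b.2) * t) * (c.1 - a.1) := by
      calc ((b.2 - a.2) * s) * (c.1 - a.1) = (b.2 - a.2) * (s * (c.1 - a.1)) := by ring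
        _ ≤ (c.2 - b.2) * (t * (c.1 - a.1)) := hcon
        _ = ((c.2 - b.2) * t) * (c.1 - a.1) := by ring
    have h9 := le_of_mul_le_mul_right h8 h5
    have h10 : b.2 = s * b.2 + t * b.2 := by rw [← add_mul, hst, one_mul]
    rw [h10]
    linarith

end Pool.Agent.CPW
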