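import Pool.Agent.CPW.Slopes

/-!
# Package GuardB: caps plus guards are in convex position

Let `f` be a partition of `S` into `K` caps `C_j`. Define `f' z = f z` for `z ∈ S`, and for a guard
`z = (0, m)` or `z = (w, m)`, `m < 2K` (these are not in `S`, as `1 ≤ z.1 ≤ w - 1` on `S`), let
`f' z = m / 2`, for example `f' z = ⌊z.2⌋₊ / 2`. Then the class `j < K` is
`A = C_j ∪ {(0, 2j), (0, 2j+1), (w, 2j), (w, 2j+1)}`. It is in convex position by the following

criterion (a): if for every `a ∈ A` there are reals `u, v` such that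
`u * b.1 + v * b.2 < u * a.1 + v * a.2` for all `b ∈ A`, `b ≠ a`, then `A` is in convex position
(`convexIndependent_set_iff_notMem_convexHull_diff`; the open half plane
`{b | u * b.1 + v * b.2 < u * a.1 + v * a.2}` is convex and contains `A \ {a}`, hence the convex hull
of `A \ {a}`, but not `a`).

Functionals: for `a = (0, 2j+1)`: `u = -B, v = 1`; for `a = (0, 2j)`: `u = -B, v = -1`; for
`a = (w, 2j+1)`: `u = B, v = 1`, for `a = (w, 2j)`: `u = B, v = -1`, where `B` is large:
`B > h1 + 2 K + 1 + |h0|` (recall `w ≥ 2`, `0 ≤ h0` because of `hh`, and `h0 ≤ z.2 ≤ h1`,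
`1 ≤ z.1 ≤ w - 1` for `z ∈ S`).

For `a ∈ C_j`: let `R₀ = (h1 - h0) / γ`. All slopes between two points of `S` of different abscissa
have absolute value at most `R₀` (`hgap`). `C_j` is finite. Choose `m` with
`sl a c < m` for all `c ∈ C_j` with `a.1 < c.1`, and `m < sl b a` for all `b ∈ C_j` with
`b.1 < a.1`, and `|m| ≤ R₀ + 1`: every `sl a c` is less than every `sl b a` by `Cap.conc`; if there
are points on both sides let `m` be the mean of the maximum of the `sl a c` and the minimum of the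
`sl b a`; if there are only points on the right, `m = max + 1`; only on the left, `m = min - 1`;
none, `m = 0`. The functional is `u = -m, v = 1`: for `c` on the right,
`c.2 - a.2 = sl a c * (c.1 - a.1) < m (c.1 - a.1)`, and for `b` on the left
`a.2 - b.2 = sl b a (a.1 - b.1) > m (a.1 - b.1)`; points of `C_j` with the same abscissa as `a` are
equal to `a`. For a guard `b = (0, y)`, `y ≤ 2K - 1`: `a.2 - m a.1 ≥ h0 - (R₀ + 1) w > 2K > y`. For
`b = (w, y)`: `(a.2 - m a.1) - (y - m w) = a.2 - y + m (w - a.1) ≥ h0 - 2K - (R₀ + 1) w > 0`.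
-/

set_option autoImplicit false

namespace Pool.Agent.CPW

/-- A criterion for convex position: every point is the strict maximum of a linear functional. -/
private theorem conv_of {A : Set Pt} (h : ∀ a ∈ A, ∃ u v : ℝ, ∀ b ∈ A, b ≠ a →
    u * b.1 + v * b.2 < u * a.1 + v * a.2) : ConvPos A := by
  unfold ConvPos
  rw [convexIndependent_set_iff_notMem_convexHull_sdiff]
  intro a ha hmem
  obtain ⟨u, v, huv⟩ := h a ha
  have h1 : convexHull ℝ (A \ {a}) ⊆ {b : Pt | u * b.1 + v * b.2 < u * a.1 + v * a.2} := by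
    apply convexHull_min
    · rintro b ⟨hb, hba⟩
      exact huv b hb hba
    · refine convex_halfSpace_lt (f := fun b : Pt => u * b.1 + v * b.2) ⟨?_, ?_⟩ _
      · intro x y
        simp only [Prod.fst_add, Prod.snd_add]
        ring
      · intro c x
        simp only [Prod.smul_fst, Prod.smul_snd, smul_eq_mul]
        ring
  exact lt_irrefl (u * a.1 + v * a.2) (h1 hmem)

private theorem exists_sl {P Q : Set ℝ} (hP : P.Finite) (hQ : Q.Finite) {R : ℝ} (hR : 0 ≤ R)
    (hp : ∀ x ∈ P, x ≤ R) (hq : ∀ y ∈ Q, -R ≤ y) (h : ∀ x ∈ P, ∀ y ∈ Q, x < y) :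
    ∃ m : ℝ, -(R + 1) < m ∧ m < R + 1 ∧ (∀ x ∈ P, x < m) ∧ ∀ y ∈ Q, m < y := by
  classical
  obtain ⟨m, h1, h2⟩ := Order.exists_between_finsets (α := ℝ) (lo := insert (-(R + 1)) hP.toFinset)
    (hi := insert (R + 1) hQ.toFinset) (by
      intro x hx y hy
      rw [Finset.mem_insert, Set.Finite.mem_toFinset] at hx hy
      rcases hx with rfl | hx <;> rcases hy with rfl | hy
      · linarith
      · have := hq y hy
        linarith
      · have := hp x hx
        linarith
      · exact h x hx y hy)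
  refine ⟨m, h1 _ (Finset.mem_insert_self _ _), h2 _ (Finset.mem_insert_self _ _),
    fun x hx => h1 x ?_, fun y hy => h2 y ?_⟩
  · exact Finset.mem_insert_of_mem (hP.mem_toFinset.2 hx)
  · exact Finset.mem_insert_of_mem (hQ.mem_toFinset.2 hy)

private theorem sl_bd {a c : Pt} {h0 h1 γ : ℝ} (hγ : 0 < γ) (ha : h0 ≤ a.2 ∧ a.2 ≤ h1)
    (hc : h0 ≤ c.2 ∧ c.2 ≤ h1) (hac : γ ≤ c.1 - a.1) :
    -((h1 - h0) / γ) ≤ sl a c ∧ sl a c ≤ (h1 - h0) / γ := by
  have h2 : 0 < c.1 - a.1 := by linarith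
  have h3 : 0 ≤ h1 - h0 := by linarith
  have h4 : 0 ≤ (h1 - h0) / γ := by positivity
  have h5 : (h1 - h0) / γ * γ = h1 - h0 := by field_simp
  unfold sl
  constructor
  · rw [le_div_iff₀ h2]
    nlinarith
  · rw [div_le_iff₀ h2]
    nlinarith

private theorem sl_mul {a c : Pt} (h : a.1 < c.1) : c.2 - a.2 = sl a c * (c.1 - a.1) := by
  have h2 : c.1 - a.1 ≠ 0 := by
    have : 0 < c.1 - a.1 := by linarith
    exact this.ne'
  unfold sl
  field_simp

/-- The functional of a point of a cap. -/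
private theorem cap_fun {S : Set Pt} {K : ℕ} {w h0 h1 γ : ℝ} (hfin : S.Finite)
    (hS : ∀ z ∈ S, 1 ≤ z.1 ∧ z.1 ≤ w - 1 ∧ h0 ≤ z.2 ∧ z.2 ≤ h1) (hγ : 0 < γ)
    (hgap : ∀ z ∈ S, ∀ z' ∈ S, z.1 < z'.1 → γ ≤ z'.1 - z.1) (hw : 2 ≤ w) (h01 : h0 ≤ h1)
    (hh : 2 * (K : ℝ) + ((h1 - h0) / γ + 1) * w < h0) {C : Set Pt} (hCS : C ⊆ S) (hC : Cap C)
    {a : Pt} (ha : a ∈ C) : ∃ m : ℝ, (∀ b ∈ C, b ≠ a → -m * b.1 + 1 * b.2 < -m * a.1 + 1 * a.2) ∧
      ∀ y : ℝ, y ≤ 2 * K → -m * 0 + 1 * y < -m * a.1 + 1 * a.2 ∧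
        -m * w + 1 * y < -m * a.1 + 1 * a.2 := by
  have hCf : C.Finite := hfin.subset hCS
  have hR : 0 ≤ (h1 - h0) / γ := by
    have : 0 ≤ h1 - h0 := by linarith
    positivity
  obtain ⟨m, m1, m2, m3, m4⟩ := exists_sl
    (P := (fun c => sl a c) '' {c | c ∈ C ∧ a.1 < c.1})
    (Q := (fun b => sl b a) '' {b | b ∈ C ∧ b.1 < a.1})
    ((hCf.subset fun c hc => hc.1).image _) ((hCf.subset fun c hc => hc.1).image _) hR
    (by
      rintro _ ⟨c, ⟨hc, hac⟩, rfl⟩
      exact (sl_bd hγ (hS a (hCS ha)).2.2 (hS c (hCS hc)).2.2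
        (hgap a (hCS ha) c (hCS hc) hac)).2)
    (by
      rintro _ ⟨b, ⟨hb, hba⟩, rfl⟩
      exact (sl_bd hγ (hS b (hCS hb)).2.2 (hS a (hCS ha)).2.2
        (hgap b (hCS hb) a (hCS ha) hba)).1)
    (by
      rintro _ ⟨c, ⟨hc, hac⟩, rfl⟩ _ ⟨b, ⟨hb, hba⟩, rfl⟩
      exact hC.conc b hb a ha c hc hba hac)
  have ha' := hS a (hCS ha)
  refine ⟨m, fun b hb hne => ?_, fun y hy => ?_⟩
  · rcases lt_trichotomy b.1 a.1 with h | h | h
    · have e1 := m4 _ ⟨b, ⟨hb, h⟩, rfl⟩
      have e2 := sl_mul h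
      have e3 : m * (a.1 - b.1) < sl b a * (a.1 - b.1) :=
        mul_lt_mul_of_pos_right e1 (by linarith)
      linarith
    · exact absurd (hC.inj b hb a ha h) hne
    · have e1 := m3 _ ⟨b, ⟨hb, h⟩, rfl⟩
      have e2 := sl_mul h
      have e3 : sl a b * (b.1 - a.1) < m * (b.1 - a.1) :=
        mul_lt_mul_of_pos_right e1 (by linarith)
      linarith
  · have e1 : -((h1 - h0) / γ + 1) * w ≤ -m * a.1 := by
      nlinarith
    have e2 : -((h1 - h0) / γ + 1) * w ≤ m * (w - a.1) := by
      nlinarith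
    constructor
    · linarith
    · linarith

theorem guardB (S : Set Pt) (K : ℕ) (w h0 h1 γ : ℝ) (hfin : S.Finite)
    (hS : ∀ z ∈ S, 1 ≤ z.1 ∧ z.1 ≤ w - 1 ∧ h0 ≤ z.2 ∧ z.2 ≤ h1) (hγ : 0 < γ)
    (hgap : ∀ z ∈ S, ∀ z' ∈ S, z.1 < z'.1 → γ ≤ z'.1 - z.1) (hw : 2 ≤ w) (h01 : h0 ≤ h1)
    (hh : 2 * (K : ℝ) + ((h1 - h0) / γ + 1) * w < h0)
    (h : CapPart S K) : ConvPart (S ∪ guard K w) K := by
  classical
  obtain ⟨f, hf1, hf2⟩ := h
  have hR : 0 ≤ (h1 - h0) / γ := by
    have : 0 ≤ h1 - h0 := by linarith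
    positivity
  have hK0 : (0 : ℝ) ≤ K := Nat.cast_nonneg K
  have h0p : 0 < h0 := by
    have : 0 ≤ ((h1 - h0) / γ + 1) * w := by positivity
    linarith
  have nL : ∀ y : ℝ, ((0 : ℝ), y) ∉ S := fun y hy => by
    have := (hS _ hy).1
    simp only at this
    linarith
  have nR : ∀ y : ℝ, (w, y) ∉ S := fun y hy => by
    have := (hS _ hy).2.1
    simp only at this
    linarith
  set F : Pt → ℕ := fun z => if z ∈ S then f z else ⌊z.2⌋₊ / 2 with hF
  have FL : ∀ m : ℕ, F ((0 : ℝ), (m : ℝ)) = m / 2 := fun m => by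
    simp only [hF, if_neg (nL _), Nat.floor_natCast]
  have FR : ∀ m : ℕ, F (w, (m : ℝ)) = m / 2 := fun m => by
    simp only [hF, if_neg (nR _), Nat.floor_natCast]
  refine ⟨F, ?_, fun j hj => ?_⟩
  · rintro z (hz | ⟨m, hm, rfl | rfl⟩)
    · simp only [hF, if_pos hz]
      exact hf1 z hz
    · rw [FL]
      omega
    · rw [FR]
      omega
  · have hjK : (j : ℝ) + 1 ≤ K := by exact_mod_cast hj
    have hj0 : (0 : ℝ) ≤ j := Nat.cast_nonneg j
    have hcap := hf2 j hj
    -- the points of the class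
    have hmem : ∀ b ∈ {z | z ∈ S ∪ guard K w ∧ F z = j}, b ∈ {z | z ∈ S ∧ f z = j} ∨
        (b = ((0 : ℝ), 2 * (j : ℝ)) ∨ b = ((0 : ℝ), 2 * (j : ℝ) + 1)) ∨
        (b = (w, 2 * (j : ℝ)) ∨ b = (w, 2 * (j : ℝ) + 1)) := by
      rintro b ⟨hb | ⟨m, hm, rfl | rfl⟩, hbj⟩
      · left
        simp only [hF, if_pos hb] at hbj
        exact ⟨hb, hbj⟩
      · right
        left
        rw [FL] at hbj
        have h2 : m = 2 * j ∨ m = 2 * j + 1 := by omega
        rcases h2 with rfl | rfl
        · left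
          push_cast
          rfl
        · right
          push_cast
          rfl
      · right
        right
        rw [FR] at hbj
        have h2 : m = 2 * j ∨ m = 2 * j + 1 := by omega
        rcases h2 with rfl | rfl
        · left
          push_cast
          rfl
        · right
          push_cast
          rfl
    set B : ℝ := h1 + 2 * K + 1 + h0 with hB
    have hBp : 0 < B := by linarith
    have hBw : 0 < B * w := by positivity
    have hSb : ∀ b ∈ {z | z ∈ S ∧ f z = j}, B ≤ B * b.1 ∧ B * b.1 ≤ B * w - B ∧ h0 ≤ b.2 ∧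
        b.2 ≤ h1 := by
      rintro b ⟨hb, -⟩
      have h2 := hS b hb
      refine ⟨?_, ?_, h2.2.2.1, h2.2.2.2⟩
      · nlinarith
      · nlinarith
    apply conv_of
    intro a ha
    rcases hmem a ha with ha' | (rfl | rfl) | (rfl | rfl)
    · obtain ⟨m, h2, h3⟩ := cap_fun hfin hS hγ hgap hw h01 hh (fun z hz => hz.1) hcap ha'
      refine ⟨-m, 1, fun b hb hne => ?_⟩
      rcases hmem b hb with hb' | (rfl | rfl) | (rfl | rfl)
      · exact h2 b hb' hne
      · exact (h3 _ (by linarith)).1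
      · exact (h3 _ (by linarith)).1
      · exact (h3 _ (by linarith)).2
      · exact (h3 _ (by linarith)).2
    · refine ⟨-B, -1, fun b hb hne => ?_⟩
      rcases hmem b hb with hb' | (rfl | rfl) | (rfl | rfl)
      · have h2 := hSb b hb'
        simp only
        linarith
      · exact absurd rfl hne
      · simp only
        linarith
      · simp only
        linarith
      · simp only
        linarith
    · refine ⟨-B, 1, fun b hb hne => ?_⟩
      rcases hmem b hb with hb' | (rfl | rfl) | (rfl | rfl)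
      · have h2 := hSb b hb'
        simp only
        linarith
      · simp only
        linarith
      · exact absurd rfl hne
      · simp only
        linarith
      · simp only
        linarith
    · refine ⟨B, -1, fun b hb hne => ?_⟩
      rcases hmem b hb with hb' | (rfl | rfl) | (rfl | rfl)
      · have h2 := hSb b hb'
        simp only
        linarith
      · simp only
        linarith
      · simp only
        linarith
      · exact absurd rfl hne
      · simp only
        linarith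
    · refine ⟨B, 1, fun b hb hne => ?_⟩
      rcases hmem b hb with hb' | (rfl | rfl) | (rfl | rfl)
      · have h2 := hSb b hb'
        simp only
        linarith
      · simp only
        linarith
      · simp only
        linarith
      · simp only
        linarith
      · exact absurd rfl hne

end Pool.Agent.CPW
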