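import Pool.Agent.CPW.Clos

/-!
# Package Hb: the heights are between `H - R` and `H + R`

Let `i < T`, so `T ≥ 1`, `q ≥ 6`. For `c' < 4 E`: `|G c' i| ≤ E (M+3) + V T` (`(c'/4) (M+3) + M + c' % 4 ≤
(c'/4 + 1) (M + 3) ≤ E (M + 3)` and `sg_Vi`), `|th c' i| ≤ 21/16`, so
`|s c' i| ≤ (E+1) (M+3) + V T + 2 =: m`. By induction on `c ≤ 4 E`:
`|F c i - H| ≤ V T (q + 1/2) + (X c - X 0) m`, (`F 0 i = H - V i (q + 1/2)`, `F_succ`, `X_succ`,
`D > 0`), and `X c - X 0 ≤ E (2 q + 1)` (`X (4 E) = 1 + E (2q+1)`, `X` is monotone).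

* `z = Pc c i p`: `z.2 = F c i + p ep`, `0 ≤ p ep ≤ 1`.
* `z = Q c i x`, `x` structural: `z.2 = ch + D A (g - A)/g + off D dl²/(8 g)` where `ch` is the height
  of the chord at `z.1`, so between `F c i` and `F (c+1) i`, and the rest is in `[0, 2 D] ⊆ [0, 2 q]`
  (`A_bd`; `A (g-A)/g ≤ 25/16`, `A (g - A) ≥ 1/16 ≥ 2 dl²/8`).
* `z = om e`: `z.2 = F (4e+2) 0 + s (4e+2) 0 / 2 + tau e 0` is the height of the chord in the middle plus
  `tau`, `|tau| ≤ 1`, if `T ≥ 1`.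

Abscissas: `X 0 = 1`, `X` is monotone, `X (4 E) = wd - 1`; `Q_fst`; `(om e).1 = X (4e+2) + 1/2` and
`X (4e+2) + 1 = X (4e+3)`.
-/

set_option autoImplicit false

namespace Pool.Agent.CPW

namespace Par

variable {P : Par}

private theorem s_bd (h : P.Ok) {c i : ℕ} (hc : c < 4 * P.E) (hi : i < P.T) :
    |P.s c i| ≤ (P.E + 1) * (P.M + 3) + P.V * P.T + 2 := by
  have h1 := sg_Vi hi (c / 4)
  have h2 := th_ge h hi c
  have h3 := th_le h hi c
  have h4 := M_ge P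
  have h5 := V_pos P
  have h6 : ((c / 4 : ℕ) : ℝ) + 1 ≤ P.E := by
    have : c / 4 + 1 ≤ P.E := by omega
    exact_mod_cast this
  have h7 : ((c % 4 : ℕ) : ℝ) ≤ 3 := by
    have : c % 4 ≤ 3 := by omega
    exact_mod_cast this
  have h8 : (0 : ℝ) ≤ ((c % 4 : ℕ) : ℝ) := Nat.cast_nonneg _
  have h9 : (0 : ℝ) ≤ ((c / 4 : ℕ) : ℝ) := Nat.cast_nonneg _
  have h10 : (((c / 4 : ℕ) : ℝ) + 1) * (P.M + 3) ≤ P.E * (P.M + 3) :=
    mul_le_mul_of_nonneg_right h6 (by linarith)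
  have h11 : 0 ≤ ((c / 4 : ℕ) : ℝ) * (P.M + 3) := mul_nonneg h9 (by linarith)
  have h12 : 0 ≤ (P.E : ℝ) * (P.M + 3) := mul_nonneg (Nat.cast_nonneg _) (by linarith)
  have hs : P.s c i = P.th c i - (((c / 4 : ℕ) : ℝ) * (P.M + 3) + P.M + ((c % 4 : ℕ) : ℝ) -
      sg (c / 4) * P.V * i) := rfl
  rw [hs, abs_le]
  generalize sg (c / 4) * P.V * (i : ℝ) = u at *
  constructor
  · nlinarith [h1.1]
  · nlinarith [h1.2]

private theorem F_bd (h : P.Ok) {i : ℕ} (hi : i < P.T) : ∀ c ≤ 4 * P.E,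
    |P.F c i - P.H| ≤ P.V * P.T * (P.q + 1 / 2) +
      (P.X c - 1) * ((P.E + 1) * (P.M + 3) + P.V * P.T + 2) := by
  intro c
  induction c with
  | zero =>
    intro _
    have h0 : P.X 0 = 1 := by simp [X]
    have hF : P.F 0 i = P.H - P.V * i * (P.q + 1 / 2) := rfl
    rw [h0, hF]
    have h1 := V_pos P
    have h2 := i_le hi
    have h3 := q_ge hi
    have h4 : (0 : ℝ) ≤ i := Nat.cast_nonneg _
    have h5 : P.V * i * (P.q + 1 / 2) ≤ P.V * P.T * (P.q + 1 / 2) :=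
      mul_le_mul_of_nonneg_right (mul_le_mul_of_nonneg_left (by linarith) h1.le) (by linarith)
    have h6 : 0 ≤ P.V * i * (P.q + 1 / 2) := mul_nonneg (mul_nonneg h1.le h4) (by linarith)
    rw [abs_le, sub_self, zero_mul]
    constructor <;> linarith
  | succ c ih =>
    intro hc
    have h1 := ih (by omega)
    have h2 := s_bd h (show c < 4 * P.E by omega) hi
    have h3 := D_pos hi c
    rw [F_succ, X_succ]
    generalize ((P.E : ℝ) + 1) * (P.M + 3) + P.V * P.T + 2 = m at h1 h2 ⊢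
    have h4 : |P.D c * P.s c i| ≤ P.D c * m := by
      rw [abs_mul, abs_of_pos h3]
      exact mul_le_mul_of_nonneg_left h2 h3.le
    have h5 : P.F c i + P.D c * P.s c i - P.H = (P.F c i - P.H) + P.D c * P.s c i := by ring
    have h6 := abs_add_le (P.F c i - P.H) (P.D c * P.s c i)
    rw [h5]
    have h7 : (P.X c + P.D c - 1) * m = (P.X c - 1) * m + P.D c * m := by ring
    rw [h7]
    linarith

private theorem X_mono (hT : 0 < P.T) : Monotone P.X :=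
  monotone_nat_of_le_succ fun c => by
    rw [X_succ]
    linarith [D_pos hT c]

private theorem X_bd (hT : 0 < P.T) {c : ℕ} (hc : c ≤ 4 * P.E) :
    1 ≤ P.X c ∧ P.X c ≤ P.wd - 1 := by
  have h0 : P.X 0 = 1 := by simp [X]
  have h1 : P.X (4 * P.E) = P.wd - 1 := by
    unfold X wd
    rw [Nat.mul_mod_right, if_pos rfl, Nat.mul_div_cancel_left _ (by norm_num)]
    ring
  constructor
  · rw [← h0]
    exact X_mono hT (Nat.zero_le c)
  · rw [← h1]
    exact X_mono hT hc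

private theorem F_bd' (h : P.Ok) {i : ℕ} (hi : i < P.T) {c : ℕ} (hc : c ≤ 4 * P.E) :
    |P.F c i - P.H| ≤ P.R - 2 * P.q - 10 := by
  have h1 := F_bd h hi c hc
  have h2 := (X_bd (by omega : 0 < P.T) hc).2
  have h3 : P.X c - 1 ≤ P.E * (2 * P.q + 1) := by
    unfold wd at h2
    linarith
  have h4 := M_ge P
  have h5 := V_pos P
  have h6 : (0 : ℝ) ≤ P.T := Nat.cast_nonneg _
  have h7 : 0 ≤ P.V * P.T := mul_nonneg h5.le h6
  have h8 : 0 ≤ ((P.E : ℝ) + 1) * (P.M + 3) :=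
    mul_nonneg (add_nonneg (Nat.cast_nonneg _) zero_le_one) (by linarith)
  have h9 := mul_le_mul_of_nonneg_right h3
    (by linarith : 0 ≤ ((P.E : ℝ) + 1) * (P.M + 3) + P.V * P.T + 2)
  unfold R
  have h10 : P.V * P.T * (P.q + 1) = P.V * P.T * (P.q + 1 / 2) + P.V * P.T / 2 := by ring
  rw [h10]
  linarith

private theorem chord (h : P.Ok) {i : ℕ} (hi : i < P.T) {c : ℕ} (hc : c < 4 * P.E) {l : ℝ}
    (h0 : 0 ≤ l) (h1 : l ≤ 1) :
    |P.F c i + P.s c i * (P.D c * l) - P.H| ≤ P.R - 2 * P.q - 10 := by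
  have h2 := F_bd' h hi hc.le
  have h3 := F_bd' h hi (show c + 1 ≤ 4 * P.E by omega)
  rw [F_succ] at h3
  have h4 : P.F c i + P.s c i * (P.D c * l) - P.H = (1 - l) * (P.F c i - P.H) +
      l * (P.F c i + P.D c * P.s c i - P.H) := by ring
  rw [h4]
  rw [abs_le] at h2 h3 ⊢
  constructor
  · nlinarith [mul_le_mul_of_nonneg_left h2.1 (by linarith : 0 ≤ 1 - l),
      mul_le_mul_of_nonneg_left h3.1 h0]
  · nlinarith [mul_le_mul_of_nonneg_left h2.2 (by linarith : 0 ≤ 1 - l),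
      mul_le_mul_of_nonneg_left h3.2 h0]

private theorem Q_snd (h : P.Ok) {i : ℕ} (hi : i < P.T) {c : ℕ} (hc : c < 4 * P.E) {x : Lab}
    (hx : P.lab c i x) : |(P.Q c i x).2 - P.H| ≤ P.R - 10 := by
  have hg := g_ge hi c
  have hA := A_bd h hi hx
  have ho1 := off_ge P x
  have ho2 := off_le P x
  have hd1 := D_pos hi c
  have hd2 := D_le hi c
  have hq := dl_sq h
  have hl := dl_le h
  have hsnd : (P.Q c i x).2 = P.F c i + P.s c i *
      (P.D c * (P.th c i + P.pos (c / 4) i x * P.dl) / P.g c i) +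
      P.D c * (P.th c i + P.pos (c / 4) i x * P.dl) *
        (P.g c i - P.th c i - P.pos (c / 4) i x * P.dl) / P.g c i +
      P.off x * P.D c * P.dl ^ 2 / (8 * P.g c i) := rfl
  obtain ⟨A, hAe⟩ : ∃ A, A = P.th c i + P.pos (c / 4) i x * P.dl := ⟨_, rfl⟩
  have hA3 : P.g c i - P.th c i - P.pos (c / 4) i x * P.dl = P.g c i - A := by
    rw [hAe]
    ring
  rw [hA3, ← hAe] at hA hsnd
  have hg0 : 0 < P.g c i := by linarith
  have e1 : P.D c * A / P.g c i = P.D c * (A / P.g c i) := mul_div_assoc _ _ _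
  have e2 : P.D c * A * (P.g c i - A) / P.g c i + P.off x * P.D c * P.dl ^ 2 / (8 * P.g c i) =
      P.D c * ((A * (P.g c i - A) + P.off x * P.dl ^ 2 / 8) / P.g c i) := by
    field_simp
  have h1 := chord h hi hc (l := A / P.g c i) (div_nonneg (by linarith [hA.1]) hg0.le)
    ((div_le_one hg0).2 (by linarith [hA.2.2]))
  have h2 : 0 ≤ (A * (P.g c i - A) + P.off x * P.dl ^ 2 / 8) / P.g c i := by
    refine div_nonneg ?_ hg0.le
    have k1 : 1 / 16 ≤ A * (P.g c i - A) := by nlinarith [hA.1, hA.2.2]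
    have k2 : -2 * P.dl ^ 2 ≤ P.off x * P.dl ^ 2 := mul_le_mul_of_nonneg_right ho1 hq.1.le
    nlinarith [hq.2, hl]
  have h3 : (A * (P.g c i - A) + P.off x * P.dl ^ 2 / 8) / P.g c i ≤ 2 := by
    rw [div_le_iff₀ hg0]
    have k1 : A * (P.g c i - A) ≤ 25 / 16 * (P.g c i - A) :=
      mul_le_mul_of_nonneg_right hA.2.1 (by linarith [hA.2.2])
    have k2 : P.off x * P.dl ^ 2 ≤ 17 * P.dl ^ 2 := mul_le_mul_of_nonneg_right ho2 hq.1.le
    nlinarith [hq.2, hl, hA.1]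
  have h4 : 0 ≤ P.D c * ((A * (P.g c i - A) + P.off x * P.dl ^ 2 / 8) / P.g c i) :=
    mul_nonneg hd1.le h2
  have h5 : P.D c * ((A * (P.g c i - A) + P.off x * P.dl ^ 2 / 8) / P.g c i) ≤ P.q * 2 :=
    mul_le_mul hd2 h3 h2 (by linarith)
  rw [hsnd, e1, add_assoc, e2]
  rw [abs_le] at h1 ⊢
  constructor <;> linarith [h1.1, h1.2]

end Par

open Par in
theorem hb (P : Par) (h : P.Ok) (hT : 0 < P.T) :
    ∀ z ∈ P.S, 1 ≤ z.1 ∧ z.1 ≤ P.wd - 1 ∧ P.H - P.R ≤ z.2 ∧ z.2 ≤ P.H + P.R := by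
  have hq := q_ge hT
  rintro z (⟨c, i, p, hc, hi, hp, rfl⟩ | ⟨c, i, x, hc, hi, hx, rfl⟩ | ⟨e, he, -, rfl⟩)
  · have h1 := X_bd hT hc
    have h2 := abs_le.1 (F_bd' h hi hc)
    have h3 := ep_pos h
    have h4 := ep_le h
    have h5 := dl_sq h
    have h6 := dl_le h
    have h7 : (p : ℝ) ≤ 4 := by
      have : p ≤ 4 := by omega
      exact_mod_cast this
    have h8 : 0 ≤ (p : ℝ) * P.ep := mul_nonneg (Nat.cast_nonneg _) h3.le
    have h9 : (p : ℝ) * P.ep ≤ 4 * P.ep := mul_le_mul_of_nonneg_right h7 h3.le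
    refine ⟨h1.1, h1.2, ?_, ?_⟩
    · change P.H - P.R ≤ P.F c i + p * P.ep
      linarith [h2.1]
    · change P.F c i + p * P.ep ≤ P.H + P.R
      linarith [h2.2, h5.2]
  · have h1 := X_bd hT hc.le
    have h2 := X_bd hT (show c + 1 ≤ 4 * P.E by omega)
    have h3 := Q_fst h hi (str_lab (c := c) (i := i) hx)
    have h4 := abs_le.1 (Q_snd h hi hc (str_lab hx))
    refine ⟨by linarith [h1.1, h3.1], by linarith [h2.2, h3.2], by linarith [h4.1],
      by linarith [h4.2]⟩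
  · have hc : 4 * e + 2 < 4 * P.E := by omega
    have h1 := X_bd hT hc.le
    have h2 := X_bd hT (show 4 * e + 2 + 1 ≤ 4 * P.E by omega)
    have hD : P.D (4 * e + 2) = 1 := by
      unfold D
      rw [if_neg (by omega), if_neg (by omega), if_pos (by omega)]
    rw [X_succ, hD] at h2
    have h3 := abs_le.1 (chord h hT hc (l := 1 / 2) (by norm_num) (by norm_num))
    rw [hD] at h3
    have h4 := tau_ge h e 0
    have h5 := tau_le' h e 0
    refine ⟨?_, ?_, ?_, ?_⟩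
    · change 1 ≤ P.X (4 * e + 2) + 1 / 2
      linarith [h1.1]
    · change P.X (4 * e + 2) + 1 / 2 ≤ P.wd - 1
      linarith [h2.2]
    · change P.H - P.R ≤ P.F (4 * e + 2) 0 + P.s (4 * e + 2) 0 / 2 + P.tau e 0
      linarith [h3.1]
    · change P.F (4 * e + 2) 0 + P.s (4 * e + 2) 0 / 2 + P.tau e 0 ≤ P.H + P.R
      linarith [h3.2]

end Pool.Agent.CPW
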