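import Pool.Agent.CPW.Bnd

/-!
# Package XGap: different abscissas differ by at least `1 / Z`

`x_frac`: every `z ∈ S` has `z.1 = a / (256 L² g)` with `a : ℤ` and a natural number
`1 ≤ g ≤ M + 2 V T`:
* `z = Pc c i p` and `z = om e`: `2 z.1` is an integer (`X` has integral values as `q = 4 T + 2`), `g = 1`.
* `z = Q c i x`, `x` structural: `z.1 = X c + D (th + a dl) / g c i`. Here `4 a` is an integer,
  `dl = 1/(4 L)`, `lam = l'/4` for an integer `l'`, `tau ∈ {1/4 + 19/(256 L²), -1/4}`,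
  `al = 1/8 - l'/(16 L)`. `c % 4 = 0`: `D = 1`, `256 L² (th + a dl)` is an integer
  (`th = 1 - tau - al/2`, `al / 2 = 1/16 - l'/(32 L)`), `g c i = M - 2 σ V i` is a positive natural
  number (`g_B_ge`; `M, V, i` are natural numbers, `σ = ±1`), `≤ M + 2 V T` by `g_le`. The other cases:
  `g c i = 1`; `D th` is `(q-1) 3/8`, `3/8 + al`, or `q 3/8 + tau - al/2`, and `D a dl` is `a dl` times an
  integer; `256 L²` times these is an integer.

`xgap`: let `z.1 = a/(256 L² g) < z'.1 = a'/(256 L² g')`. Then `a' g - a g' > 0` is an integer, so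
`z'.1 - z.1 = (a' g - a g')/(256 L² g g') ≥ 1/(256 L² g g') ≥ 1/Z`.
-/

set_option autoImplicit false

namespace Pool.Agent.CPW

/-- the integers as a subring of the reals -/
private def xgZ : Subring ℝ := (Int.castRingHom ℝ).range

private theorem xg_nat (n : ℕ) : (n : ℝ) ∈ xgZ := natCast_mem xgZ n

private theorem xg_num (n : ℕ) [n.AtLeastTwo] : (OfNat.ofNat n : ℝ) ∈ xgZ := ofNat_mem xgZ n

private theorem xg_q (P : Par) : P.q ∈ xgZ := by
  unfold Par.q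
  exact add_mem (mul_mem (xg_num 4) (xg_nat _)) (xg_num 2)

private theorem xg_V (P : Par) : P.V ∈ xgZ := by
  unfold Par.V
  exact add_mem (add_mem (mul_mem (xg_num 80) (xg_nat _)) (mul_mem (xg_num 24) (xg_nat _)))
    (xg_num 16)

private theorem xg_M (P : Par) : P.M ∈ xgZ := by
  unfold Par.M
  exact add_mem (mul_mem (mul_mem (xg_num 2) (xg_V P)) (xg_nat _)) (xg_num 4)

private theorem xg_X (P : Par) (c : ℕ) : P.X c ∈ xgZ := by
  have h1 := xg_q P
  unfold Par.X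
  refine add_mem (add_mem (one_mem _) (mul_mem (xg_nat _)
    (add_mem (mul_mem (xg_num 2) h1) (one_mem _)))) ?_
  split_ifs
  · exact zero_mem _
  · exact one_mem _
  · exact h1
  · exact add_mem h1 (one_mem _)

private theorem xg_sg (e : ℕ) : Par.sg e ∈ xgZ := by
  unfold Par.sg
  exact pow_mem (neg_mem (one_mem _)) e

private theorem xg_g (P : Par) (c i : ℕ) : P.g c i ∈ xgZ := by
  unfold Par.g
  split_ifs
  · exact sub_mem (xg_M P) (mul_mem (mul_mem (mul_mem (xg_num 2) (xg_sg _)) (xg_V P)) (xg_nat _))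
  · exact one_mem _

private theorem xg_lam (P : Par) (e i : ℕ) : 4 * P.lam e i ∈ xgZ := by
  unfold Par.lam
  split_ifs
  · have e1 : (4 : ℝ) * (P.cl e i + 1 / 4) = 4 * P.cl e i + 1 := by ring
    rw [e1]
    exact add_mem (mul_mem (xg_num 4) (xg_nat _)) (one_mem _)
  · have e1 : (4 : ℝ) * (P.cl e i - 1 / 4) = 4 * P.cl e i - 1 := by ring
    rw [e1]
    exact sub_mem (mul_mem (xg_num 4) (xg_nat _)) (one_mem _)

private theorem xg_pos (P : Par) (e i : ℕ) {x : Lab} (hx : P.str x) :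
    4 * P.pos e i x ∈ xgZ := by
  cases x with
  | U l => exact mul_mem (xg_num 4) (xg_nat l)
  | W l => exact mul_mem (xg_num 4) (xg_nat l)
  | e =>
    have e1 : (4 : ℝ) * (1 / 4) = 1 := by norm_num
    unfold Par.pos
    rw [e1]
    exact one_mem _
  | f =>
    have e1 : (4 : ℝ) * (P.L - 1 / 4) = 4 * P.L - 1 := by ring
    unfold Par.pos
    rw [e1]
    exact sub_mem (mul_mem (xg_num 4) (xg_nat _)) (one_mem _)
  | w => exact absurd hx (by simp [Par.str])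

private theorem xg_tau (P : Par) (h : P.Ok) (e i : ℕ) : 256 * P.L ^ 2 * P.tau e i ∈ xgZ := by
  have hL := P.L_dl h
  unfold Par.tau
  split_ifs
  · have e1 : (256 : ℝ) * P.L ^ 2 * (1 / 4 + 19 / 16 * P.dl ^ 2) =
        64 * P.L ^ 2 + 304 * (P.L * P.dl) ^ 2 := by ring
    rw [e1, hL]
    have e2 : (304 : ℝ) * (1 / 4) ^ 2 = 19 := by norm_num
    rw [e2]
    exact add_mem (mul_mem (xg_num 64) (pow_mem (xg_nat _) 2)) (xg_num 19)
  · have e1 : (256 : ℝ) * P.L ^ 2 * (-1 / 4) = -(64 * P.L ^ 2) := by ring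
    rw [e1]
    exact neg_mem (mul_mem (xg_num 64) (pow_mem (xg_nat _) 2))

private theorem xg_al (P : Par) (h : P.Ok) (e i : ℕ) :
    256 * P.L ^ 2 * (P.al e i / 2) ∈ xgZ := by
  have hL := P.L_dl h
  unfold Par.al
  have e1 : (256 : ℝ) * P.L ^ 2 * ((1 / 8 - P.lam e i * P.dl) / 2) =
      16 * P.L ^ 2 - 32 * P.L * (4 * P.lam e i) * (P.L * P.dl) := by ring
  have e2 : (32 : ℝ) * P.L * (4 * P.lam e i) * (1 / 4) = 8 * P.L * (4 * P.lam e i) := by ring
  rw [e1, hL, e2]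
  exact sub_mem (mul_mem (xg_num 16) (pow_mem (xg_nat _) 2))
    (mul_mem (mul_mem (xg_num 8) (xg_nat _)) (xg_lam P e i))

private theorem xg_pdl (P : Par) (h : P.Ok) (e i : ℕ) {x : Lab} (hx : P.str x) :
    256 * P.L ^ 2 * (P.pos e i x * P.dl) ∈ xgZ := by
  have hL := P.L_dl h
  have e1 : (256 : ℝ) * P.L ^ 2 * (P.pos e i x * P.dl) =
      64 * P.L * (4 * P.pos e i x) * (P.L * P.dl) := by ring
  have e2 : (64 : ℝ) * P.L * (4 * P.pos e i x) * (1 / 4) = 16 * P.L * (4 * P.pos e i x) := by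
    ring
  rw [e1, hL, e2]
  exact mul_mem (mul_mem (xg_num 16) (xg_nat _)) (xg_pos P e i hx)

private theorem xg_D (P : Par) (h : P.Ok) (c i : ℕ) {x : Lab} (hx : P.str x) :
    256 * P.L ^ 2 * (P.D c * (P.th c i + P.pos (c / 4) i x * P.dl)) ∈ xgZ := by
  have h1 := xg_tau P h (c / 4) i
  have h2 := xg_al P h (c / 4) i
  have h3 := xg_pdl P h (c / 4) i hx
  have hq := xg_q P
  have hq0 : P.q ≠ 0 := by
    unfold Par.q
    positivity
  have hL2 : (P.L : ℝ) ^ 2 ∈ xgZ := pow_mem (xg_nat _) 2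
  unfold Par.D Par.th
  split_ifs
  · have e1 : 256 * (P.L : ℝ) ^ 2 * (1 * (1 - P.tau (c / 4) i - P.al (c / 4) i / 2 +
        P.pos (c / 4) i x * P.dl)) = 256 * (P.L : ℝ) ^ 2 - 256 * P.L ^ 2 * P.tau (c / 4) i -
        256 * P.L ^ 2 * (P.al (c / 4) i / 2) + 256 * P.L ^ 2 * (P.pos (c / 4) i x * P.dl) := by
      ring
    rw [e1]
    exact add_mem (sub_mem (sub_mem (mul_mem (xg_num 256) hL2) h1) h2) h3
  · have e1 : 256 * (P.L : ℝ) ^ 2 * ((P.q - 1) * (3 / 8 + P.pos (c / 4) i x * P.dl)) =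
        (P.q - 1) * (96 * (P.L : ℝ) ^ 2 + 256 * P.L ^ 2 * (P.pos (c / 4) i x * P.dl)) := by
      ring
    rw [e1]
    exact mul_mem (sub_mem hq (one_mem _)) (add_mem (mul_mem (xg_num 96) hL2) h3)
  · have e1 : 256 * (P.L : ℝ) ^ 2 * (1 * (3 / 8 + P.al (c / 4) i + P.pos (c / 4) i x * P.dl)) =
        96 * (P.L : ℝ) ^ 2 + 2 * (256 * P.L ^ 2 * (P.al (c / 4) i / 2)) +
          256 * P.L ^ 2 * (P.pos (c / 4) i x * P.dl) := by
      ring
    rw [e1]
    exact add_mem (add_mem (mul_mem (xg_num 96) hL2) (mul_mem (xg_num 2) h2)) h3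
  · have e0 : P.q * (3 / 8 + (P.tau (c / 4) i - P.al (c / 4) i / 2) / P.q +
        P.pos (c / 4) i x * P.dl) = P.q * (3 / 8) + (P.tau (c / 4) i - P.al (c / 4) i / 2) +
        P.q * (P.pos (c / 4) i x * P.dl) := by
      field_simp
    have e1 : 256 * (P.L : ℝ) ^ 2 * (P.q * (3 / 8) + (P.tau (c / 4) i - P.al (c / 4) i / 2) +
        P.q * (P.pos (c / 4) i x * P.dl)) = 96 * (P.L : ℝ) ^ 2 * P.q +
        (256 * P.L ^ 2 * P.tau (c / 4) i - 256 * P.L ^ 2 * (P.al (c / 4) i / 2)) +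
          P.q * (256 * P.L ^ 2 * (P.pos (c / 4) i x * P.dl)) := by
      ring
    rw [e0, e1]
    exact add_mem (add_mem (mul_mem (mul_mem (xg_num 96) hL2) hq) (sub_mem h1 h2))
      (mul_mem hq h3)

private theorem xg_fin (P : Par) (h : P.Ok) {z g : ℝ} (hg : g ∈ xgZ) (hg1 : 1 ≤ g)
    (hg2 : g ≤ P.M + 2 * P.V * P.T) (hz : z * (256 * P.L ^ 2 * g) ∈ xgZ) :
    ∃ (a : ℤ) (g : ℕ), 1 ≤ g ∧
    (g : ℝ) ≤ P.M + 2 * P.V * P.T ∧ z = a / (256 * P.L ^ 2 * g) := by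
  obtain ⟨n, hn⟩ := hg
  obtain ⟨a, ha⟩ := hz
  have hn' : (n : ℝ) = g := hn
  have ha' : (a : ℝ) = z * (256 * P.L ^ 2 * g) := ha
  have hn1 : 1 ≤ n := by
    have : (1 : ℝ) ≤ n := by rw [hn']; exact hg1
    exact_mod_cast this
  obtain ⟨m, rfl⟩ := Int.eq_ofNat_of_zero_le (by linarith : 0 ≤ n)
  have e : ((m : ℤ) : ℝ) = (m : ℝ) := by norm_cast
  rw [e] at hn'
  refine ⟨a, m, by exact_mod_cast hn1, by rw [hn']; exact hg2, ?_⟩
  have hL : (0 : ℝ) < P.L := by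
    have : (10 : ℝ) ≤ P.L := by exact_mod_cast h.ten
    linarith
  have hgp : 0 < g := by linarith
  rw [hn', ha', eq_div_iff (by positivity)]

theorem x_frac (P : Par) (h : P.Ok) : ∀ z ∈ P.S, ∃ (a : ℤ) (g : ℕ), 1 ≤ g ∧
    (g : ℝ) ≤ P.M + 2 * P.V * P.T ∧ z.1 = a / (256 * P.L ^ 2 * g) := by
  have hM := Par.M_ge P
  have hV := Par.V_pos P
  have hB : 1 ≤ P.M + 2 * P.V * P.T := by
    have : (0 : ℝ) ≤ 2 * P.V * P.T := by positivity
    linarith
  have hL2 : (P.L : ℝ) ^ 2 ∈ xgZ := pow_mem (xg_nat _) 2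
  rintro z (⟨c, i, p, -, -, -, rfl⟩ | ⟨c, i, x, -, hi, hx, rfl⟩ | ⟨e, -, -, rfl⟩)
  · refine xg_fin P h (one_mem _) le_rfl hB ?_
    exact mul_mem (xg_X P c) (mul_mem (mul_mem (xg_num 256) hL2) (one_mem _))
  · refine xg_fin P h (xg_g P c i) (Par.g_ge hi c) (Par.g_le hi c) ?_
    have hg0 : P.g c i ≠ 0 := by
      have := Par.g_ge hi c
      linarith
    have e1 : (P.Q c i x).1 * (256 * P.L ^ 2 * P.g c i) =
        P.X c * (256 * P.L ^ 2 * P.g c i) +
          256 * P.L ^ 2 * (P.D c * (P.th c i + P.pos (c / 4) i x * P.dl)) := by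
      unfold Par.Q pt
      field_simp
    rw [e1]
    exact add_mem (mul_mem (xg_X P c) (mul_mem (mul_mem (xg_num 256) hL2) (xg_g P c i)))
      (xg_D P h c i hx)
  · refine xg_fin P h (one_mem _) le_rfl hB ?_
    have e1 : (P.om e).1 * (256 * P.L ^ 2 * 1) =
        P.X (4 * e + 2) * (256 * P.L ^ 2) + 128 * P.L ^ 2 := by
      unfold Par.om
      ring
    rw [e1]
    exact add_mem (mul_mem (xg_X P _) (mul_mem (xg_num 256) hL2)) (mul_mem (xg_num 128) hL2)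

theorem xgap (P : Par) (h : P.Ok) : ∀ z ∈ P.S, ∀ z' ∈ P.S, z.1 < z'.1 →
    1 / P.Z ≤ z'.1 - z.1 := by
  intro z hz z' hz' hlt
  obtain ⟨a, g, hg, hgB, e⟩ := x_frac P h z hz
  obtain ⟨a', g', hg', hgB', e'⟩ := x_frac P h z' hz'
  have hL : (0 : ℝ) < P.L := by
    have : (10 : ℝ) ≤ P.L := by exact_mod_cast h.ten
    linarith
  have hK : (0 : ℝ) < 256 * P.L ^ 2 := by positivity
  obtain ⟨K, hKd⟩ : ∃ K : ℝ, K = 256 * (P.L : ℝ) ^ 2 := ⟨_, rfl⟩
  obtain ⟨B, hBd⟩ : ∃ B : ℝ, B = P.M + 2 * P.V * P.T := ⟨_, rfl⟩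
  rw [← hKd] at hK e e'
  rw [← hBd] at hgB hgB'
  have hg1 : (1 : ℝ) ≤ g := by exact_mod_cast hg
  have hg1' : (1 : ℝ) ≤ g' := by exact_mod_cast hg'
  have hgp : (0 : ℝ) < g := by linarith
  have hgp' : (0 : ℝ) < g' := by linarith
  have hd : z'.1 - z.1 = (a' * g - a * g') / (K * (g * g')) := by
    rw [e, e']
    field_simp
  have hpos : (0 : ℝ) < a' * g - a * g' := by
    have h1 : 0 < z'.1 - z.1 := by linarith
    rw [hd] at h1
    by_contra h2
    push Not at h2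
    have h3 := div_nonpos_of_nonpos_of_nonneg h2 (by positivity : (0 : ℝ) ≤ K * (g * g'))
    linarith
  have hint : (1 : ℝ) ≤ a' * g - a * g' := by
    have h1 : (0 : ℤ) < a' * g - a * g' := by exact_mod_cast hpos
    have h2 : (1 : ℤ) ≤ a' * g - a * g' := h1
    exact_mod_cast h2
  have hB : (g : ℝ) * g' ≤ B ^ 2 := by
    rw [pow_two]
    exact mul_le_mul hgB hgB' hgp'.le (hgp.le.trans hgB)
  have hZ : P.Z = K * B ^ 2 := by
    unfold Par.Z
    rw [hKd, hBd]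
  rw [hd, hZ]
  calc 1 / (K * B ^ 2) ≤ 1 / (K * (g * g')) :=
        one_div_le_one_div_of_le (by positivity) (mul_le_mul_of_nonneg_left hB hK.le)
    _ ≤ (a' * g - a * g') / (K * (g * g')) :=
        div_le_div_of_nonneg_right hint (by positivity)

end Pool.Agent.CPW
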