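import Pool.Agent.CPW.ClauseB
import Pool.Agent.CPW.Hb
import Pool.Agent.CPW.XGap
import Pool.Agent.CPW.GuardA
import Pool.Agent.CPW.GuardB

/-!
# Package MainA: cliques and partitions into sets in convex position (assembly)

`s_finite`: the first part of `S` is the image of a finite set of triples; the second one of the
triples `(c, i, x)` with `c < 4 E`, `i < T`, `x` structural (finitely many labels:
`U l, W l, l ≤ L`, `e`, `f`); the third one of `e < E`.

`conv_iff_cap`: `5 T = 10 k` classes. If `T = 0` then (for `P = par n k adj`, `k = 0`) see below;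
for `T > 0`: `guardA` with `K = 5 T`, `w = wd`: `0 < z.1 < wd` and `2 K = 10 T ≤ z.2` for `z ∈ S` by
`hb`, as `H - R = 10 T + (2 R Z + 1) wd + 1` and `R, Z, wd ≥ 0`. `guardB` with `h0 = H - R`,
`h1 = H + R`, `γ = 1 / Z`: `(h1 - h0)/γ = 2 R Z`, `hh` holds by the definition of `H`.

`clique_iff_conv`: if `k = 0`, then `T = E = 0`, `S = ∅`, `guard 0 wd = ∅`, both sides are true.
Otherwise `clique_iff_cap` and `conv_iff_cap`.
-/

set_option autoImplicit false

namespace Pool.Agent.CPW

private theorem str_finite (P : Par) : {x : Lab | P.str x}.Finite := by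
  have h1 : ((Lab.U '' Set.Iic P.L) ∪ (Lab.W '' Set.Iic P.L) ∪ {Lab.e, Lab.f}).Finite :=
    (((Set.finite_Iic _).image _).union ((Set.finite_Iic _).image _)).union
      (Set.toFinite _)
  refine h1.subset ?_
  intro x hx
  cases x with
  | U l => exact Or.inl (Or.inl ⟨l, hx, rfl⟩)
  | W l => exact Or.inl (Or.inr ⟨l, hx, rfl⟩)
  | e => exact Or.inr (Or.inl rfl)
  | f => exact Or.inr (Or.inr rfl)
  | w => exact absurd hx id

theorem s_finite (P : Par) : P.S.Finite := by
  have h1 : ((fun t : ℕ × ℕ × ℕ => P.Pc t.1 t.2.1 t.2.2) ''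
      (Set.Iic (4 * P.E) ×ˢ (Set.Iio P.T ×ˢ Set.Iio 5))).Finite :=
    ((Set.finite_Iic _).prod ((Set.finite_Iio _).prod (Set.finite_Iio _))).image _
  have h2 : ((fun t : ℕ × ℕ × Lab => P.Q t.1 t.2.1 t.2.2) ''
      (Set.Iio (4 * P.E) ×ˢ (Set.Iio P.T ×ˢ {x : Lab | P.str x}))).Finite :=
    ((Set.finite_Iio _).prod ((Set.finite_Iio _).prod (str_finite P))).image _
  have h3 : ((fun e : ℕ => P.om e) '' Set.Iio P.E).Finite := (Set.finite_Iio _).image _
  refine ((h1.union h2).union h3).subset ?_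
  rintro z (⟨c, i, p, hc, hi, hp, rfl⟩ | ⟨c, i, x, hc, hi, hx, rfl⟩ | ⟨e, he, _, rfl⟩)
  · exact Or.inl (Or.inl ⟨(c, i, p), ⟨hc, hi, hp⟩, rfl⟩)
  · exact Or.inl (Or.inr ⟨(c, i, x), ⟨hc, hi, hx⟩, rfl⟩)
  · exact Or.inr ⟨e, he, rfl⟩

theorem conv_iff_cap (P : Par) (h : P.Ok) (hT : 0 < P.T) :
    ConvPart (P.S ∪ guard (5 * P.T) P.wd) (5 * P.T) ↔ CapPart P.S (5 * P.T) := by
  have hq : 0 ≤ P.q := by
    unfold Par.q
    positivity
  have hV : 0 ≤ P.V := (Par.V_pos P).le
  have hM : 4 ≤ P.M := Par.M_ge P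
  have hM0 : 0 ≤ P.M := by linarith
  have hR : 0 ≤ P.R := by
    unfold Par.R
    positivity
  have hL : (10 : ℝ) ≤ P.L := by exact_mod_cast h.ten
  have hZ : 0 < P.Z := by
    unfold Par.Z
    have h1 : 0 < P.M + 2 * P.V * P.T := by positivity
    positivity
  have hwd : 2 ≤ P.wd := by
    unfold Par.wd
    have h1 : 0 ≤ (P.E : ℝ) * (2 * P.q + 1) := by positivity
    linarith
  have hH : P.H - P.R = 10 * P.T + (2 * P.R * P.Z + 1) * P.wd + 1 := by
    unfold Par.H
    ring
  have hhb := hb P h hT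
  have hpos : 0 ≤ (2 * P.R * P.Z + 1) * P.wd := by positivity
  constructor
  · intro hc
    refine guardA P.S (5 * P.T) P.wd ?_ hc
    intro z hz
    obtain ⟨h1, h2, h3, _⟩ := hhb z hz
    refine ⟨by linarith, by linarith, ?_⟩
    push_cast
    linarith
  · intro hc
    refine guardB P.S (5 * P.T) P.wd (P.H - P.R) (P.H + P.R) (1 / P.Z) (s_finite P) hhb
      (by positivity) (xgap P h) hwd (by linarith) ?_ hc
    have h1 : (P.H + P.R - (P.H - P.R)) / (1 / P.Z) = 2 * P.R * P.Z := by
      field_simp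
      ring
    rw [h1, hH]
    push_cast
    linarith

theorem clique_iff_conv (n k : ℕ) (adj : ℕ → ℕ → Prop) :
    (∃ u : ℕ → ℕ, (∀ a < k, u a < n) ∧ ∀ a b, a < b → b < k → adj (u a) (u b)) ↔
      ConvPart ((par n k adj).S ∪ guard (10 * k) (par n k adj).wd) (10 * k) := by
  rcases Nat.eq_zero_or_pos k with rfl | hk
  · have hS : (par n 0 adj).S = ∅ := by
      ext z
      refine ⟨?_, fun hz => absurd hz (Set.notMem_empty z)⟩
      rintro (⟨c, i, p, _, hi, _⟩ | ⟨c, i, x, _, hi, _⟩ | ⟨e, he, _⟩)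
      · exact absurd hi (by simp [par])
      · exact absurd hi (by simp [par])
      · exact absurd he (by simp [par, nc])
    have hg : guard (10 * 0) (par n 0 adj).wd = ∅ := by
      ext z
      refine ⟨?_, fun hz => absurd hz (Set.notMem_empty z)⟩
      rintro ⟨j, hj, _⟩
      exact absurd hj (by simp)
    rw [hS, hg]
    constructor
    · intro _
      exact ⟨fun _ => 0, fun z hz => by simp at hz, fun j hj => by simp at hj⟩
    · intro _
      exact ⟨fun _ => 0, fun a ha => by simp at ha, fun a b _ hb => by simp at hb⟩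
  · have hT : 5 * (par n k adj).T = 10 * k := by
      simp only [par]
      ring
    have hT0 : 0 < (par n k adj).T := by
      simp only [par]
      omega
    rw [clique_iff_cap, ← hT]
    exact (conv_iff_cap _ (par_ok n k adj) hT0).symm

end Pool.Agent.CPW
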