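import Pool.Agent.CPW.TDefs

/-!
# Package Read: reading the code of a graph

As in `Pool/Agent/B7219d/Enc.lean` (`nn_enc`, `aj_enc`; the code there differs only behind the second
separator: `k` in binary instead of unary). `kk_encC`: the length of the code is
`n + 1 + n n + 1 + k`. `graph_clique`: a set of `k` pairwise adjacent vertices is listed by an injective
function `Fin k → Fin n` (`Finset.orderEmbOfFin` or `Finset.equivFin`), adjacency is symmetric.
Conversely the values `u a`, `a < k`, are pairwise adjacent, hence different (irreflexivity).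
-/

set_option autoImplicit false

namespace Pool.Agent.CPW

open Pool.Agent.PT Turing
open Pool.Agent.B7219d (nn aj UF_nn UP_aj)

private theorem encC_lt (I : CInst) {i : ℕ} (hi : i < I.n) : (encC I)[i]? = some (some true) := by
  classical
  unfold encC
  rw [List.getElem?_append_left (by simpa using hi)]
  simp [hi]

private theorem encC_sep (I : CInst) : (encC I)[I.n]? = some none := by
  classical
  unfold encC
  rw [List.getElem?_append_right (by simp)]
  simp

private theorem encC_mat (I : CInst) {p : ℕ} (hp : p < I.n * I.n) :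
    (encC I)[I.n + 1 + p]? = some (some true) ↔
      I.G.Adj (Fin.divNat ⟨p, hp⟩) (Fin.modNat ⟨p, hp⟩) := by
  classical
  unfold encC
  rw [List.getElem?_append_right (by simp; omega)]
  rw [List.length_replicate, show I.n + 1 + p - I.n = p + 1 by omega, List.getElem?_cons_succ,
    List.getElem?_append_left (by simpa using hp)]
  rw [List.getElem?_ofFn]
  simp [hp]

private theorem encC_length (I : CInst) :
    (encC I).length = I.n + 1 + I.n * I.n + 1 + I.k := by
  classical
  simp [encC]
  omega

theorem nn_encC (I : CInst) : nn (encC I) = I.n := by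
  classical
  unfold nn
  have h1 : ∀ i ∈ Finset.range (encC I).length, (if ∀ j, j < i + 1 → ¬ (encC I)[j]? = some none
      then 1 else 0) = if i < I.n then 1 else 0 := by
    intro i _
    by_cases hi : i < I.n
    · rw [if_pos hi, if_pos fun j hj => by rw [encC_lt I (by omega)]; simp]
    · rw [if_neg hi, if_neg fun h => h I.n (by omega) (encC_sep I)]
  rw [Finset.sum_congr rfl h1, ← Finset.sum_filter]
  have : (Finset.range (encC I).length).filter (fun i => i < I.n) = Finset.range I.n := by
    ext i
    simp only [Finset.mem_filter, Finset.mem_range, encC_length]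
    omega
  rw [this]
  simp

theorem kk_encC (I : CInst) : kk (encC I) = I.k := by
  unfold kk
  rw [nn_encC, encC_length]
  omega

theorem aj_encC (I : CInst) (i j : Fin I.n) : aj (encC I) i j ↔ I.G.Adj i j := by
  unfold aj
  rw [nn_encC]
  have h1 : (i : ℕ) * I.n + j < I.n * I.n := by
    calc (i : ℕ) * I.n + j < i * I.n + I.n := by have := j.2; omega
      _ = (i + 1) * I.n := by ring
      _ ≤ I.n * I.n := Nat.mul_le_mul_right _ i.2
  rw [encC_mat I h1]
  have e1 : (Fin.divNat ⟨(i : ℕ) * I.n + j, h1⟩ : Fin I.n) = i := by
    ext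
    simp only [Fin.coe_divNat]
    rw [Nat.add_comm, Nat.add_mul_div_right _ _ (by have := j.2; omega), Nat.div_eq_of_lt j.2]
    omega
  have e2 : (Fin.modNat ⟨(i : ℕ) * I.n + j, h1⟩ : Fin I.n) = j := by
    ext
    simp only [Fin.coe_modNat]
    rw [Nat.add_comm, Nat.add_mul_mod_self_right, Nat.mod_eq_of_lt j.2]
  rw [e1, e2]

theorem graph_clique (I : CInst) :
    (∃ s : Finset (Fin I.n), I.G.IsNClique I.k s) ↔
      ∃ u : ℕ → ℕ, (∀ a < I.k, u a < I.n) ∧
        ∀ a b, a < b → b < I.k → aj (encC I) (u a) (u b) := by
  classical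
  constructor
  · rintro ⟨s, hs⟩
    have hc := hs.isClique
    have hcard := hs.card_eq
    refine ⟨fun a => if h : a < I.k then (s.orderEmbOfFin hcard ⟨a, h⟩ : ℕ) else 0,
      fun a ha => ?_, fun a b hab hb => ?_⟩
    · simp only [dif_pos ha]
      exact (s.orderEmbOfFin hcard ⟨a, ha⟩).2
    · simp only [dif_pos (hab.trans hb), dif_pos hb]
      rw [aj_encC]
      refine hc (s.orderEmbOfFin_mem hcard _) (s.orderEmbOfFin_mem hcard _) fun h => ?_
      have h2 := (s.orderEmbOfFin hcard).injective h
      rw [Fin.mk.injEq] at h2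
      omega
  · rintro ⟨u, hu, hadj⟩
    let w : Fin I.k → Fin I.n := fun a => ⟨u a, hu a a.2⟩
    have h1 : ∀ a b : Fin I.k, a < b → I.G.Adj (w a) (w b) := by
      intro a b hab
      have h2 := hadj a b hab b.2
      exact (aj_encC I (w a) (w b)).1 h2
    have h2 : ∀ a b : Fin I.k, a ≠ b → I.G.Adj (w a) (w b) := by
      intro a b hab
      rcases lt_or_gt_of_ne hab with h | h
      · exact h1 a b h
      · exact (h1 b a h).symm
    have hinj : Function.Injective w := by
      intro a b hab
      by_contra hne
      exact (h2 a b hne).ne hab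
    refine ⟨Finset.univ.image w, ⟨?_, ?_⟩⟩
    · intro x hx y hy hxy
      rw [Finset.mem_coe, Finset.mem_image] at hx hy
      obtain ⟨a, -, rfl⟩ := hx
      obtain ⟨b, -, rfl⟩ := hy
      exact h2 a b fun h => hxy (by rw [h])
    · rw [Finset.card_image_of_injective _ hinj, Finset.card_univ, Fintype.card_fin]

end Pool.Agent.CPW
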