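import Pool.Agent.CPW.TDefs

/-!
# Package Una: lists of natural numbers in unary

`encN l = l.flatMap (fun m => 1^m 0)` (`true` for `1`, `false` for `0`).

For a list `l = (List.range m).map v` the word `encN l` has length `∑ t < m, (v t + 1)`, and its letter
number `i` (smaller than the length) is `false` iff there is `j < m` with
`∑ t < j + 1, (v t + 1) = i + 1` (induction on `m`, `List.range_succ`, `List.flatMap_append`).

So the letter is given by the term `1` if `∃ j < m, ∑ t < j + 1, (v t + 1) = i + 1`, else `0`
(`UP.bex`, `UF.sum`, `UP.eq`; the argument of `v` is the variable `0` of the environment: use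
`UF.comp₁`-like substitution, or the closure lemma `UF.sum` with `hv`), with
`φ 0 = true`, `φ 1 = false`, `K = 1` in `polyTime_of_terms`.
-/

set_option autoImplicit false

namespace Pool.Agent.CPW

open Pool.Agent.PT Turing

private theorem una_enc (v : ℕ → ℕ) (m : ℕ) (P : ℕ → ℕ → Prop) [∀ m i, Decidable (P m i)]
    (hP : ∀ m i, P m i ↔ ∃ j, j < m ∧ ∑ t ∈ Finset.range (j + 1), (v t + 1) = i + 1) :
    encN ((List.range m).map v) = (List.range (∑ t ∈ Finset.range m, (v t + 1))).map
      (fun i => if P m i then false else true) := by
  induction m with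
  | zero => simp [encN]
  | succ m ih =>
    have h1 : encN ((List.range (m + 1)).map v) =
        encN ((List.range m).map v) ++ (List.replicate (v m) true ++ [false]) := by
      rw [List.range_succ, List.map_append]
      unfold encN
      rw [List.flatMap_append]
      simp
    rw [h1, ih, Finset.sum_range_succ, List.range_add, List.map_append]
    congr 1
    · apply List.map_congr_left
      intro i hi
      rw [List.mem_range] at hi
      have h2 : P m i ↔ P (m + 1) i := by
        rw [hP, hP]
        constructor
        · rintro ⟨j, hj, hs⟩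
          exact ⟨j, by omega, hs⟩
        · rintro ⟨j, hj, hs⟩
          refine ⟨j, ?_, hs⟩
          by_contra hjm
          have hjm' : j = m := by omega
          subst hjm'
          rw [Finset.sum_range_succ] at hs
          omega
      by_cases h3 : P m i
      · rw [if_pos h3, if_pos (h2.1 h3)]
      · rw [if_neg h3, if_neg fun h4 => h3 (h2.2 h4)]
    · have h2 : ∀ r, P (m + 1) (∑ t ∈ Finset.range m, (v t + 1) + r) ↔ r = v m := by
        intro r
        rw [hP]
        constructor
        · rintro ⟨j, hj, hs⟩
          by_cases hjm : j = m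
          · subst hjm
            rw [Finset.sum_range_succ] at hs
            omega
          · have hle : ∑ t ∈ Finset.range (j + 1), (v t + 1) ≤
                ∑ t ∈ Finset.range m, (v t + 1) :=
              Finset.sum_le_sum_of_subset (Finset.range_subset_range.2 (by omega))
            omega
        · rintro rfl
          exact ⟨m, by omega, by rw [Finset.sum_range_succ]; omega⟩
      rw [List.map_map, List.range_succ, List.map_append]
      congr 1
      · symm
        rw [List.eq_replicate_iff]
        refine ⟨by simp, fun b hb => ?_⟩
        obtain ⟨r, hr, rfl⟩ := List.mem_map.1 hb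
        rw [List.mem_range] at hr
        simp only [Function.comp]
        rw [if_neg]
        rw [h2]
        omega
      · simp only [List.map_cons, List.map_nil, Function.comp]
        rw [if_pos ((h2 _).2 rfl)]

theorem una {α Γ : Type} [Fintype Γ] (ec : α → List Γ) (f : α → List ℕ)
    (m : List Γ → ℕ) (v : List Γ → ℕ → ℕ) (hm : UF (fun x (_ : ℕ → ℕ) => m x))
    (hv : UF (fun x e => v x (e 0)))
    (h : ∀ a, f a = (List.range (m (ec a))).map (v (ec a))) :
    Nonempty (TM2ComputableInPolyTime ec encN f) := by
  classical
  have h1 : UF (Γ := Γ) (fun x (_ : ℕ → ℕ) => ∑ t ∈ Finset.range (m x), (v x t + 1)) :=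
    UF.sum (b := fun x _ => m x) (f := fun x _ t => v x t + 1) hm (hv.add (UF.const 1))
  have h2 : UP (Γ := Γ) (fun x e => ∃ j, j < m x ∧
      ∑ t ∈ Finset.range (j + 1), (v x t + 1) = e 0 + 1) :=
    UP.bex (b := fun x _ => m x)
      (P := fun x e j => ∑ t ∈ Finset.range (j + 1), (v x t + 1) = e 0 + 1) hm
      (UP.eq (UF.sum (b := fun _ e => e 0 + 1) (f := fun x _ t => v x t + 1)
        ((UF.var 0).add (UF.const 1)) (hv.add (UF.const 1))) ((UF.var 1).add (UF.const 1)))
  obtain ⟨tm, htm⟩ := h1
  obtain ⟨tt, htt⟩ := h2
  refine polyTime_of_terms ec encN f tm tt 1 (fun n => if n = 0 then true else false) fun a => ?_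
  rw [h a, una_enc (v (ec a)) (m (ec a))
    (fun m' i => ∃ j, j < m' ∧ ∑ t ∈ Finset.range (j + 1), (v (ec a) t + 1) = i + 1)
    (fun _ _ => Iff.rfl), htm]
  apply List.map_congr_left
  intro i _
  rw [htt]
  simp only [Pool.Agent.PT.cons]
  split_ifs <;> simp_all

end Pool.Agent.CPW
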