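import Pool.Agent.CPW.PntU
import Pool.Agent.CPW.Enum
import Pool.Agent.CPW.CPl
import Pool.Agent.CPW.Una
import Pool.Agent.CPW.Read
import Pool.Agent.CPW.MainA

/-!
# Package Fin: the final theorem (assembly)

Let `a₁, d₁` and `a₂, d₂` be the terms of `UR.frac` for `UR_pnt1`, `UR_pnt2`. For a word `x` and `j` let
`quad x j = (a₁, d₁, a₂, d₂)` evaluated at `x` and the environment `cons j (fun _ => 0)`, and
`f I = (10 * I.k, (List.range (cnt (parW x) (10 * kk x))).map (quad x))` with `x = encC I`.

(1) All points of `P.S ∪ guard (10 k) P.wd`, `P = parW x = par (nn x) (kk x) (aj x)`, have non-negative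
coordinates: guards clear (`wd ≥ 2`); if `T > 0` by `hb` (`H ≥ R` by the definition of `H`; `par_ok`). If
`T = 0`, then `k = 0`, `E = 0` and `S = ∅`. By `enum` (`E > 0 → T > 0`, as `k = 0` gives `nc = 0`, `E = 0`)
the set of the points `pnt P (10 k) j`, `j < cnt`, is this set; so `pts (f I) = P.S ∪ guard (10 k) P.wd` by
`UR.frac`.

(2) `(∃ clique) ↔ CP (pts (f I)) ≤ 10 k`: `graph_clique`, `clique_iff_conv` with `adj = aj x`,
`nn_encC`, `kk_encC`, `cp_le_iff` (`s_finite`, `guard` is finite).

(3) Polynomial time: `encP (f I) = encN (list)`, where the list is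
`(List.range (1 + 4 * cnt)).map v` with `v x 0 = 10 * kk x` and
`v x (1 + 4 j + r) =` component `r` of `quad x j` (`v x t = if t = 0 then 10 kk x else` component
`(t - 1) % 4` of `quad x ((t-1)/4)`, by `UF.comp₁`, `UF.ite`); induction on the number of quadruples.
`una` gives `TM2ComputableInPolyTime encC encN (fun I => list)`; as `encP (f I) = encN (list I)` it is also a
`TM2ComputableInPolyTime encC encP f` (the structure only mentions the words `encP (f I)`; unfold or
rebuild the structure field by field; or apply `polyTime_of_terms` directly as in `una`).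
-/

set_option autoImplicit false

namespace Pool.Agent.CPW

open Pool.Agent.PT Turing
open Pool.Agent.B7219d (nn aj UF_nn UP_aj)

private theorem list_eq (c : ℕ) (q : ℕ → ℕ × ℕ × ℕ × ℕ) (N : ℕ) :
    c :: (((List.range N).map q).flatMap fun t => [t.1, t.2.1, t.2.2.1, t.2.2.2]) =
      (List.range (1 + 4 * N)).map fun t => if t = 0 then c else
        if (t - 1) % 4 = 0 then (q ((t - 1) / 4)).1 else
        if (t - 1) % 4 = 1 then (q ((t - 1) / 4)).2.1 else
        if (t - 1) % 4 = 2 then (q ((t - 1) / 4)).2.2.1 else (q ((t - 1) / 4)).2.2.2 := by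
  induction N with
  | zero => simp [List.range_succ]
  | succ N ih =>
    have e0 : 1 + 4 * (N + 1) = (1 + 4 * N) + 1 + 1 + 1 + 1 := by ring
    rw [e0, List.range_succ, List.range_succ, List.range_succ, List.range_succ, List.range_succ]
    simp only [List.map_append, List.flatMap_append, List.map_cons, List.map_nil,
      List.flatMap_cons, List.flatMap_nil, List.append_nil]
    rw [← ih]
    have h1 : 1 + 4 * N - 1 = 4 * N := by omega
    have h2 : 1 + 4 * N + 1 - 1 = 4 * N + 1 := by omega
    have h3 : 1 + 4 * N + 1 + 1 - 1 = 4 * N + 2 := by omega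
    have h4 : 1 + 4 * N + 1 + 1 + 1 - 1 = 4 * N + 3 := by omega
    have d1 : 4 * N / 4 = N := by omega
    have d2 : (4 * N + 1) / 4 = N := by omega
    have d3 : (4 * N + 2) / 4 = N := by omega
    have d4 : (4 * N + 3) / 4 = N := by omega
    have m1 : 4 * N % 4 = 0 := by omega
    have m2 : (4 * N + 1) % 4 = 1 := by omega
    have m3 : (4 * N + 2) % 4 = 2 := by omega
    have m4 : (4 * N + 3) % 4 = 3 := by omega
    have n1 : 1 + 4 * N ≠ 0 := by omega
    have n2 : 1 + 4 * N + 1 ≠ 0 := by omega
    have n3 : 1 + 4 * N + 1 + 1 ≠ 0 := by omega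
    have n4 : 1 + 4 * N + 1 + 1 + 1 ≠ 0 := by omega
    rw [if_neg n1, if_neg n2, if_neg n3, if_neg n4, h1, h2, h3, h4, d1, d2, d3, d4, m1, m2, m3,
      m4]
    simp

/-- The term evaluated at `t / 4`. -/
private theorem UF_at {a : List (Option Bool) → (ℕ → ℕ) → ℕ} (ha : UF a) :
    UF (fun x e => a x (cons ((e 0 - 1) / 4) fun _ => 0)) := by
  have h1 := ha.subst (fun i => Nat.casesOn i (fun _ e => (e 0 - 1) / 4) (fun _ _ _ => 0))
    (fun i => by
      cases i with
      | zero => exact (((UF.var 0).sub (UF.const 1)).div (UF.const 4))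
      | succ i => exact UF.const 0)
  refine h1.congr fun x e => ?_
  congr 1
  funext i
  cases i <;> rfl

private theorem pts_nonneg {n k : ℕ} {adj : ℕ → ℕ → Prop} {z : Pt}
    (hz : z ∈ (par n k adj).S ∪ guard (10 * k) (par n k adj).wd) : 0 ≤ z.1 ∧ 0 ≤ z.2 := by
  set P := par n k adj with hP
  have hok : P.Ok := par_ok n k adj
  have hq : 0 ≤ P.q := by
    unfold Par.q
    positivity
  have hV : 0 ≤ P.V := (Par.V_pos P).le
  have hM : 4 ≤ P.M := Par.M_ge P
  have hM0 : 0 ≤ P.M := by linarith
  have hR : 0 ≤ P.R := by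
    unfold Par.R
    positivity
  have hL : (10 : ℝ) ≤ P.L := by exact_mod_cast hok.ten
  have hZ : 0 < P.Z := by
    unfold Par.Z
    have h1 : 0 < P.M + 2 * P.V * P.T := by positivity
    positivity
  have hwd : 2 ≤ P.wd := by
    unfold Par.wd
    have h1 : 0 ≤ (P.E : ℝ) * (2 * P.q + 1) := by positivity
    linarith
  have hH : P.H - P.R = 10 * P.T + (2 * P.R * P.Z + 1) * P.wd + 1 := by
    unfold Par.H
    ring
  rcases hz with hz | ⟨j, -, rfl | rfl⟩
  · have hT : 0 < P.T := by
      rcases hz with ⟨c, i, p, _, hi, _⟩ | ⟨c, i, x, _, hi, _⟩ | ⟨e, he, _⟩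
      · omega
      · omega
      · rcases Nat.eq_zero_or_pos k with rfl | hk
        · exact absurd he (by simp [hP, par, nc])
        · rw [hP]
          simp only [par]
          omega
    obtain ⟨h1, _, h3, _⟩ := hb P hok hT z hz
    refine ⟨by linarith, ?_⟩
    have h4 : 0 ≤ (2 * P.R * P.Z + 1) * P.wd := by positivity
    have h5 : (0 : ℝ) ≤ P.T := Nat.cast_nonneg _
    linarith
  · exact ⟨le_refl _, Nat.cast_nonneg _⟩
  · exact ⟨by simp only; linarith, Nat.cast_nonneg _⟩

theorem final : ∃ f : CInst → PInst, Nonempty (TM2ComputableInPolyTime encC encP f) ∧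
    ∀ I : CInst, (f I).1 = 10 * I.k ∧
      ((∃ s : Finset (Fin I.n), I.G.IsNClique I.k s) ↔ CP (pts (f I)) ≤ (f I).1) := by
  obtain ⟨a1, d1, ha1, hd1, h1⟩ := UR.frac UR_pnt1
  obtain ⟨a2, d2, ha2, hd2, h2⟩ := UR.frac UR_pnt2
  set quad : List (Option Bool) → ℕ → ℕ × ℕ × ℕ × ℕ := fun x j =>
    (a1 x (cons j fun _ => 0), d1 x (cons j fun _ => 0), a2 x (cons j fun _ => 0),
      d2 x (cons j fun _ => 0)) with hquad
  set N : List (Option Bool) → ℕ := fun x => cnt (parW x) (10 * kk x) with hN
  set f : CInst → PInst := fun I => (10 * I.k, (List.range (N (encC I))).map (quad (encC I)))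
    with hf
  refine ⟨f, ?_, fun I => ⟨rfl, ?_⟩⟩
  · -- polynomial time
    set L : CInst → List ℕ := fun I => (f I).1 ::
      (f I).2.flatMap fun t => [t.1, t.2.1, t.2.2.1, t.2.2.2] with hL
    set v : List (Option Bool) → ℕ → ℕ := fun x t => if t = 0 then 10 * kk x else
        if (t - 1) % 4 = 0 then (quad x ((t - 1) / 4)).1 else
        if (t - 1) % 4 = 1 then (quad x ((t - 1) / 4)).2.1 else
        if (t - 1) % 4 = 2 then (quad x ((t - 1) / 4)).2.2.1 else
          (quad x ((t - 1) / 4)).2.2.2 with hv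
    have hk : UF (fun x (_ : ℕ → ℕ) => 10 * kk x) := (UF.const 10).mul UF_kk'
    have hm : UF (fun x (_ : ℕ → ℕ) => 1 + 4 * N x) := by
      refine (UF.const 1).add ((UF.const 4).mul ?_)
      exact ((((UF.const 4).mul hk).add ((((UF.const 4).mul UF_E).add (UF.const 1)).mul
        (UF_T.mul (UF.const 5)))).add (((UF.const 4).mul UF_E).mul
          (UF_T.mul (((UF.const 2).mul UF_L).add (UF.const 4))))).add UF_E
    have hr : UF (Γ := Option Bool) (fun _ e => (e 0 - 1) % 4) :=
      ((UF.var 0).sub (UF.const 1)).mod (UF.const 4)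
    have hvU : UF (fun x e => v x (e 0)) := by
      refine UF.ite (UP.eq (UF.var 0) (UF.const 0)) hk ?_
      refine UF.ite (UP.eq hr (UF.const 0)) (UF_at ha1) ?_
      refine UF.ite (UP.eq hr (UF.const 1)) (UF_at hd1) ?_
      exact UF.ite (UP.eq hr (UF.const 2)) (UF_at ha2) (UF_at hd2)
    obtain ⟨T⟩ := una encC L (fun x => 1 + 4 * N x) v hm hvU (fun I => by
      have h3 := list_eq (10 * I.k) (quad (encC I)) (N (encC I))
      rw [hL, hf]
      simp only
      rw [h3, hv]
      simp only [kk_encC])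
    exact ⟨{ toTM2ComputableAux := T.toTM2ComputableAux
             time := T.time
             outputsFun := fun I => T.outputsFun I }⟩
  · have hpar : parW (encC I) = par I.n I.k (aj (encC I)) := by
      unfold parW
      rw [nn_encC, kk_encC]
    have hNI : N (encC I) = cnt (par I.n I.k (aj (encC I))) (10 * I.k) := by
      rw [hN]
      simp only
      rw [hpar, kk_encC]
    have hen := enum (par I.n I.k (aj (encC I))) (10 * I.k) (by
      intro hE
      by_contra hT
      have hk0 : I.k = 0 := by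
        simp only [par] at hT
        omega
      rw [hk0] at hE
      exact absurd hE (by simp [par, nc]))
    have hpts : pts (f I) = (par I.n I.k (aj (encC I))).S ∪
        guard (10 * I.k) (par I.n I.k (aj (encC I))).wd := by
      rw [← hen]
      have key : ∀ j < cnt (par I.n I.k (aj (encC I))) (10 * I.k),
          (((quad (encC I) j).1 : ℝ) / ((quad (encC I) j).2.1 + 1),
            ((quad (encC I) j).2.2.1 : ℝ) / ((quad (encC I) j).2.2.2 + 1)) =
              pnt (par I.n I.k (aj (encC I))) (10 * I.k) j := by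
        intro j hj
        have hmem : pnt (par I.n I.k (aj (encC I))) (10 * I.k) j ∈
            (par I.n I.k (aj (encC I))).S ∪
              guard (10 * I.k) (par I.n I.k (aj (encC I))).wd := by
          rw [← hen]
          exact ⟨j, hj, rfl⟩
        have hnn := pts_nonneg hmem
        have e1 := h1 (encC I) (cons j fun _ => 0)
        have e2 := h2 (encC I) (cons j fun _ => 0)
        rw [cons_zero, hpar, kk_encC] at e1 e2
        exact Prod.ext (e1 hnn.1).symm (e2 hnn.2).symm
      ext z
      simp only [pts, Set.mem_setOf_eq, hf, List.mem_map, List.mem_range]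
      rw [hNI]
      constructor
      · rintro ⟨t, ⟨j, hj, rfl⟩, rfl⟩
        exact ⟨j, hj, key j hj⟩
      · rintro ⟨j, hj, rfl⟩
        exact ⟨_, ⟨j, hj, rfl⟩, (key j hj).symm⟩
    have hfin : (pts (f I)).Finite := by
      have h3 : pts (f I) = (fun t : ℕ × ℕ × ℕ × ℕ =>
          ((t.1 : ℝ) / (t.2.1 + 1), (t.2.2.1 : ℝ) / (t.2.2.2 + 1))) '' {t | t ∈ (f I).2} := by
        ext z
        simp only [pts, Set.mem_setOf_eq, Set.mem_image]
        exact ⟨fun ⟨t, ht, hz⟩ => ⟨t, ht, hz.symm⟩, fun ⟨t, ht, hz⟩ => ⟨t, ht, hz.symm⟩⟩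
      rw [h3]
      exact (List.finite_toSet _).image _
    rw [cp_le_iff _ hfin, graph_clique, clique_iff_conv, hpts]

end Pool.Agent.CPW
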