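import Pool.Agent.CPW.Bnd

/-!
# Package LemT: positions of a class increase from stage to stage

Let `a = pos x`, `a' = pos y`, `o = off x`, `o' = off y`, `A = th c i + a dl`,
`A' = th (c+1) i + a' dl`, `g = g c i`, `g' = g (c+1) i`, `D = D c`, `D' = D (c+1)`. By `sl_out`
(with `u = p * ep`; note `P.Pc (c+1) i p = (X c + D, F c i + D * (th - G) + p * ep)` by `X_succ`,
`F_succ'`) and `sl_in` (and `G_succ`: `G (c+1) - g (c+1) = G c`) the hypothesis reads
`- G c - a' dl + o' dl²/(8 A') - p ep g'/(D' A') <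
   - G c - a dl - o dl²/(8 (g - A)) + p ep g / (D (g - A))`, i.e.

(*) `o dl²/(8 (g-A)) + o' dl²/(8 A') - p ep g'/(D' A') - p ep g/(D (g-A)) < (a' - a) dl`.

By `A_bd`: `1/4 ≤ A ≤ 25/16`, `1/4 ≤ g - A`, same for `A'`. By `ep_g`, `D_ge` and `p ≤ 4` both error
terms are at most `16 dl²/10000`, together at most `dl²/300`. Every offset is either `≥ 1/2`, or it
is `-2` and then the label is `W l` with `l` even, `l ≠ 0`, `l ≠ L`.
If `o ≥ 1/2`: `o / (8 (g-A)) ≥ 0`; if `o = -2`: `≥ -1`. If `o' ≥ 1/2`: `o' / (8 A') ≥ 1/25`, if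
`o' = -2`: `≥ -1`.

First claim: (*) gives `(a' - a) dl > -2 dl² - dl²/300`, so `a' - a > - (2 + 1/300)/40 > -1/4`. As
`4 a` and `4 a'` are integers (`4 l`, `1`, `4 L - 1`, `4 cl ± 1`), `a' ≥ a`.

Second claim: if `a = a'`, the left side of (*) is negative. If both offsets were `≥ 1/2` it would
be `≥ dl²/25 - dl²/300 > 0`. So one of the two labels is `W l`, `l = 2 m` even, `0 < l < L`, and its
position is `2 m`.
-/

set_option autoImplicit false

namespace Pool.Agent.CPW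

private theorem off_cases (P : Par) (x : Lab) : 1 / 2 ≤ P.off x ∨
    (P.off x = -2 ∧ ∃ l : ℕ, x = Lab.W l ∧ l % 2 = 0 ∧ l ≠ 0 ∧ l ≠ P.L) := by
  cases x with
  | U l =>
    left
    simp only [Par.off]
    split_ifs <;> norm_num
  | W l =>
    by_cases h1 : l = 0 ∨ l = P.L
    · left
      simp only [Par.off, if_pos h1]
      norm_num
    · by_cases h2 : l % 2 = 0
      · right
        refine ⟨?_, l, rfl, h2, fun h => h1 (Or.inl h), fun h => h1 (Or.inr h)⟩
        simp only [Par.off, if_neg h1, if_pos h2]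
      · left
        simp only [Par.off, if_neg h1, if_neg h2]
        norm_num
  | e => left; simp only [Par.off]; norm_num
  | f => left; simp only [Par.off]; norm_num
  | w => left; simp only [Par.off]; norm_num

private theorem pos_int (P : Par) (e i : ℕ) (x : Lab) : ∃ z : ℤ, 4 * P.pos e i x = (z : ℝ) := by
  cases x with
  | U l => exact ⟨4 * (l : ℤ), by simp only [Par.pos]; push_cast; ring⟩
  | W l => exact ⟨4 * (l : ℤ), by simp only [Par.pos]; push_cast; ring⟩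
  | e => exact ⟨1, by simp only [Par.pos]; push_cast; ring⟩
  | f => exact ⟨4 * (P.L : ℤ) - 1, by simp only [Par.pos]; push_cast; ring⟩
  | w =>
    by_cases hr : P.rt e i
    · exact ⟨4 * (P.cl e i : ℤ) + 1, by
        simp only [Par.pos, Par.lam, if_pos hr]; push_cast; ring⟩
    · exact ⟨4 * (P.cl e i : ℤ) - 1, by
        simp only [Par.pos, Par.lam, if_neg hr]; push_cast; ring⟩

private theorem err_bd {p : ℕ} (hp : p < 5) {ep g D A d : ℝ} (hep : 0 < ep) (hg : 0 < g)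
    (hD : 1 ≤ D) (hA : 1 / 4 ≤ A) (h : ep * g ≤ d / 10000) :
    (p : ℝ) * ep * g / (D * A) ≤ 16 * d / 10000 := by
  have hp' : (p : ℝ) ≤ 4 := by
    have : p ≤ 4 := by omega
    exact_mod_cast this
  have hDA : 1 / 4 ≤ D * A := by nlinarith
  have hpos : 0 < D * A := by linarith
  rw [div_le_iff₀ hpos]
  have h0 : 0 < ep * g := mul_pos hep hg
  have h1 : (p : ℝ) * ep * g ≤ 4 * (d / 10000) := by nlinarith
  have h2 : 0 < d := by linarith
  nlinarith

private theorem tm_ge {o B d : ℝ} (ho : -2 ≤ o) (hB : 1 / 4 ≤ B) (hd : 0 < d) :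
    -d ≤ o * d / (8 * B) := by
  rw [le_div_iff₀ (by linarith)]
  nlinarith

private theorem tm_nonneg {o B d : ℝ} (ho : 1 / 2 ≤ o) (hB : 1 / 4 ≤ B) (hd : 0 < d) :
    0 ≤ o * d / (8 * B) := by
  apply div_nonneg
  · nlinarith
  · linarith

private theorem tm_pos {o B d : ℝ} (ho : 1 / 2 ≤ o) (hB : 1 / 4 ≤ B) (hB' : B ≤ 25 / 16)
    (hd : 0 < d) : d / 25 ≤ o * d / (8 * B) := by
  rw [le_div_iff₀ (by linarith)]
  nlinarith

private theorem core {dl o o' B A' e1 e2 a a' : ℝ} (hdl : 0 < dl) (hdl' : dl ≤ 1 / 40)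
    (ho : -2 ≤ o) (ho' : -2 ≤ o') (hB : 1 / 4 ≤ B) (hA : 1 / 4 ≤ A') (hA' : A' ≤ 25 / 16)
    (he1 : e1 ≤ 16 * dl ^ 2 / 10000) (he2 : e2 ≤ 16 * dl ^ 2 / 10000)
    (hs : o * dl ^ 2 / (8 * B) + o' * dl ^ 2 / (8 * A') - e1 - e2 < (a' - a) * dl) :
    -(1 / 4) < a' - a ∧ (a = a' → ¬ (1 / 2 ≤ o ∧ 1 / 2 ≤ o')) := by
  have hd : 0 < dl ^ 2 := by positivity
  constructor
  · have h1 := tm_ge ho hB hd
    have h2 := tm_ge ho' hA hd
    by_contra hc
    have hc' : a' - a ≤ -(1 / 4) := not_lt.1 hc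
    nlinarith
  · rintro rfl ⟨h1, h2⟩
    have h3 := tm_nonneg h1 hB hd
    have h4 := tm_pos h2 hA hA' hd
    nlinarith

private theorem star (P : Par) (h : P.Ok) {c i : ℕ} (hi : i < P.T) {x y : Lab}
    (hx : P.lab c i x) (hy : P.lab (c + 1) i y) {p : ℕ}
    (hs : sl (P.Pc (c + 1) i p) (P.Q (c + 1) i y) < sl (P.Q c i x) (P.Pc (c + 1) i p)) :
    P.off x * P.dl ^ 2 / (8 * (P.g c i - P.th c i - P.pos (c / 4) i x * P.dl)) +
      P.off y * P.dl ^ 2 / (8 * (P.th (c + 1) i + P.pos ((c + 1) / 4) i y * P.dl)) -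
      (p : ℝ) * P.ep * P.g (c + 1) i /
        (P.D (c + 1) * (P.th (c + 1) i + P.pos ((c + 1) / 4) i y * P.dl)) -
      (p : ℝ) * P.ep * P.g c i /
        (P.D c * (P.g c i - P.th c i - P.pos (c / 4) i x * P.dl)) <
      (P.pos ((c + 1) / 4) i y - P.pos (c / 4) i x) * P.dl := by
  have bx := Par.A_bd h hi hx
  have by' := Par.A_bd h hi hy
  have hD := Par.D_pos hi c
  have hD' := Par.D_pos hi (c + 1)
  have hg : 0 < P.g c i := by linarith [Par.g_ge hi c]
  have hg' : 0 < P.g (c + 1) i := by linarith [Par.g_ge hi (c + 1)]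
  have e1 : sl (P.Pc (c + 1) i p) (P.Q (c + 1) i y) =
      -(P.G (c + 1) i - P.g (c + 1) i) - P.pos ((c + 1) / 4) i y * P.dl +
      P.off y * P.dl ^ 2 / (8 * (P.th (c + 1) i + P.pos ((c + 1) / 4) i y * P.dl)) -
      (p : ℝ) * P.ep * P.g (c + 1) i /
        (P.D (c + 1) * (P.th (c + 1) i + P.pos ((c + 1) / 4) i y * P.dl)) :=
    sl_in hD' hg' (by linarith [by'.1])
  have e2 : sl (P.Q c i x) (P.Pc (c + 1) i p) =
      -P.G c i - P.pos (c / 4) i x * P.dl -
      P.off x * P.dl ^ 2 / (8 * (P.g c i - P.th c i - P.pos (c / 4) i x * P.dl)) +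
      (p : ℝ) * P.ep * P.g c i /
        (P.D c * (P.g c i - P.th c i - P.pos (c / 4) i x * P.dl)) := by
    have e3 : P.Pc (c + 1) i p =
        (P.X c + P.D c, P.F c i + P.D c * (P.th c i - P.G c i) + (p : ℝ) * P.ep) := by
      simp only [Par.Pc, Par.X_succ, Par.F_succ']
    rw [e3]
    exact sl_out hD hg (by linarith [bx.2.2])
  rw [e1, e2] at hs
  have e4 := Par.G_succ P c i
  linarith

theorem lemT (P : Par) (h : P.Ok) {c i : ℕ} (hi : i < P.T) {x y : Lab} (hx : P.lab c i x)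
    (hy : P.lab (c + 1) i y) {p : ℕ} (hp : p < 5)
    (hs : sl (P.Pc (c + 1) i p) (P.Q (c + 1) i y) < sl (P.Q c i x) (P.Pc (c + 1) i p)) :
    P.pos (c / 4) i x ≤ P.pos ((c + 1) / 4) i y ∧
      (P.pos (c / 4) i x = P.pos ((c + 1) / 4) i y →
        ∃ m : ℕ, 0 < m ∧ 2 * m < P.L ∧ P.pos (c / 4) i x = 2 * m) := by
  have bx := Par.A_bd h hi hx
  have by' := Par.A_bd h hi hy
  have hg : 0 < P.g c i := by linarith [Par.g_ge hi c]
  have hg' : 0 < P.g (c + 1) i := by linarith [Par.g_ge hi (c + 1)]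
  have hep := Par.ep_pos h
  have k := core (Par.dl_pos h) (Par.dl_le h) (Par.off_ge P x) (Par.off_ge P y) bx.2.2 by'.1
    by'.2.1 (err_bd hp hep hg' (Par.D_ge hi (c + 1)) by'.1 (Par.ep_g h hi (c + 1)))
    (err_bd hp hep hg (Par.D_ge hi c) bx.2.2 (Par.ep_g h hi c)) (star P h hi hx hy hs)
  have aux : ∀ (c : ℕ) (z : Lab), P.lab c i z → ¬ (1 / 2 ≤ P.off z) →
      ∃ m : ℕ, 0 < m ∧ 2 * m < P.L ∧ P.pos (c / 4) i z = 2 * m := by
    intro c z hz ho
    rcases off_cases P z with h1 | ⟨_, l, rfl, h2, h3, h4⟩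
    · exact absurd h1 ho
    · have hl : l ≤ P.L := by
        rcases hz with hz | hz
        · exact hz
        · simp at hz
      refine ⟨l / 2, by omega, by omega, ?_⟩
      have h5 : l = 2 * (l / 2) := by omega
      have h6 : (l : ℝ) = 2 * ((l / 2 : ℕ) : ℝ) := by exact_mod_cast h5
      simp only [Par.pos]
      exact h6
  constructor
  · obtain ⟨z1, hz1⟩ := pos_int P (c / 4) i x
    obtain ⟨z2, hz2⟩ := pos_int P ((c + 1) / 4) i y
    have h1 : ((z1 : ℝ)) < (z2 : ℝ) + 1 := by rw [← hz1, ← hz2]; linarith [k.1]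
    have h2 : z1 < z2 + 1 := by exact_mod_cast h1
    have h3 : z1 ≤ z2 := by omega
    have h4 : (z1 : ℝ) ≤ (z2 : ℝ) := by exact_mod_cast h3
    rw [← hz1, ← hz2] at h4
    linarith
  · intro heq
    have h1 := k.2 heq
    by_cases h2 : 1 / 2 ≤ P.off x
    · have h3 : ¬ (1 / 2 ≤ P.off y) := fun h3 => h1 ⟨h2, h3⟩
      rw [heq]
      exact aux (c + 1) y hy h3
    · exact aux c x hx h2

end Pool.Agent.CPW
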