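import Pool.Agent.CPW.CDefs

/-!
# Package Micro: the labels of a supporter are in strictly concave position

Finite case analysis. Let `a = pos x`, `a' = pos y`, `d = a' - a`, `o = off x`, `o' = off y`, `μ = mu x`.
To show `a ≠ a'` and `o' < o + 8 d² + μ d`. Here `0 < ls < L`, `ls` and `L` even, `cl e i` odd and
`< L`, `b < 2`.

Positions: `U l`, `W l` are never both labels of the supporter for the same `l` (parities of
`blk ls l + b`), so different labels have different positions.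

|d| ≥ 2: `8 d² + μ d ≥ |d| (8 |d| - |μ|) ≥ 2 (16 - |μ|)`, so the right side is at least
`o + 32 - 2 |μ|`. In the following table `(o, |μ|)`: `U even (17, 0)`, `U odd (8, 5)`,
`W odd (2, 15/2)`, `W even (-2, 3)`, `W 0, W L (1, 3)`, `e, f (1/2, 2)`, `w (19/2, 6)`. So the right
side is at least `19 > 17 ≥ o'`.

|d| < 2. The pairs of labels of the supporter at distance less than 2 are, where the block function
`blk ls` is constant exactly on the pairs `{2j, 2j+1}` for `2j + 1 < ls`, on `{ls}` and on the pairs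
`{2j-1, 2j}` for `2j - 1 > ls`, and changes by one from block to block (so that the supporter changes
between `U` and `W` from block to block, and has no label in column `ls` if the parity there is odd):
* columns `l, l+1` in the same block, left of `ls` (`l` even): `U l, U (l+1)`: `8 < 17 + 8 + 0`;
  `17 < 8 + 8 + 5`. `W l, W (l+1)`: `2 < -2 + 8 - 3` (`2 < 1 + 8 - 3` if `l = 0`);
  `-2 < 2 + 8 - 15/2` (`1 < 2 + 8 - 15/2` if `l = 0`).
* columns `l, l+1` in consecutive blocks, left of `ls` (`l` odd, `l + 1 ≤ ls`): `U l, W (l+1)` (only if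
  `l + 1 < ls`): `-2 < 8 + 8 - 5`; `8 < -2 + 8 + 3`. `W l, U (l+1)`: `17 < 2 + 8 + 15/2`;
  `2 < 17 + 8`.
* the mirror images right of `ls` (`μ` changes its sign, `l` is replaced by `L - l`, `W L` has offset
  `1`).
* `e` (position `1/4`, `b = 1`, so `W 0, W 1` are labels, and `U 2` or (if `ls = 2`) `U 2`): `e, W 0`:
  `1 < 1/2 + 1/2 + 1/2`; `W 0, e`: `1/2 < 1 + 1/2 - 3/4`; `e, W 1`: `2 < 1/2 + 9/2 - 3/2`; `W 1, e`:
  `1/2 < 2 + 9/2 - 45/8`; `e, U 2` (`d = 7/4`): `17 < 1/2 + 49/2 - 7/2`; `U 2, e`: `1/2 < 17`. The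
  mirror images for `f`.
* `w`, L-test, position `k - 1/4`, `k = cl < ls` odd, `blk ls (k-1) = blk ls k`, so `U (k-1)`, `U k` are
  labels: `w, U (k-1)` (`d = -3/4`): `17 < 19/2 + 9/2 + 9/2`; `U (k-1), w`: `19/2 < 17 + 9/2`;
  `w, U k` (`d = 1/4`): `8 < 19/2 + 1/2 - 3/2`; `U k, w` (`d = -1/4`): `19/2 < 8 + 1/2 + 5/4`;
  `w, W (k+1)` (`d = 5/4`, if `k + 1 < ls`): `-2 < 19/2 + 25/2 - 15/2`; `W (k+1), w`:
  `19/2 < -2 + 25/2 + 15/4`; `w, W (k-2)` (`d = -7/4`, `μ = 15/2`): `2 < 19/2 + …`; `W (k-2), w`: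
  `19/2 < 2 + 49/2 + …`; `e, w` and `w, e` (only `k = 1` could have `|d| < 2`; but for `k = 1` the
  labels `U 0, U 1` give `b = 0` and `e` is no label; `k = 3` has `d = 5/2`).
  The mirror images for the R-test, `k > ls`, position `k + 1/4`.
-/

set_option autoImplicit false

namespace Pool.Agent.CPW

/-- Integral data of a label: four times the position, twice the offset and twice the slope. -/
private def Micro_d (P : Par) (ls b k : ℕ) (x : Lab) (p o m : ℤ) : Prop :=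
  match x with
  | .U l => p = 4 * l ∧ l ≤ P.L ∧
      ((l < ls ∧ (l / 2 + b) % 2 = 0) ∨ (ls ≤ l ∧ ((l + 1) / 2 + b) % 2 = 0)) ∧
      ((l % 2 = 0 ∧ o = 34 ∧ m = 0) ∨ (l % 2 = 1 ∧ o = 16 ∧ l < ls ∧ m = -10) ∨
        (l % 2 = 1 ∧ o = 16 ∧ ls ≤ l ∧ m = 10))
  | .W l => p = 4 * l ∧ l ≤ P.L ∧ l ≠ ls ∧
      ((l < ls ∧ (l / 2 + b) % 2 = 1) ∨ (ls ≤ l ∧ ((l + 1) / 2 + b) % 2 = 1)) ∧
      (((l = 0 ∨ l = P.L) ∧ o = 2) ∨ (l ≠ 0 ∧ l ≠ P.L ∧ l % 2 = 0 ∧ o = -4) ∨
        (l ≠ 0 ∧ l ≠ P.L ∧ l % 2 = 1 ∧ o = 4)) ∧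
      ((l < ls ∧ l % 2 = 1 ∧ m = 15) ∨ (l < ls ∧ l % 2 = 0 ∧ m = -6) ∨
        (ls ≤ l ∧ l % 2 = 1 ∧ m = -15) ∨ (ls ≤ l ∧ l % 2 = 0 ∧ m = 6))
  | .e => p = 1 ∧ b % 2 = 1 ∧ o = 1 ∧ m = -4
  | .f => p = 4 * P.L - 1 ∧ ((P.L + 1) / 2 + b) % 2 = 1 ∧ o = 1 ∧ m = 4
  | .w => o = 19 ∧ ((ls < k ∧ ((k + 1) / 2 + b) % 2 = 0 ∧ p = 4 * k + 1 ∧ m = 12) ∨
      (k < ls ∧ (k / 2 + b) % 2 = 0 ∧ p = 4 * k - 1 ∧ m = -12))

private theorem Micro_ex (P : Par) {ls b e i : ℕ} {t : Prop}
    (hl : ls < P.L) {x : Lab} (hx : P.sup ls b e i t x) :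
    ∃ p o m : ℤ, Micro_d P ls b (P.cl e i) x p o m ∧ P.pos e i x = p / 4 ∧ P.off x = o / 2 ∧
      P.mu ls e i x = m / 2 := by
  cases x with
  | U l =>
    obtain ⟨h1, h2⟩ := hx
    have h3 : (l < ls ∧ (l / 2 + b) % 2 = 0) ∨ (ls ≤ l ∧ ((l + 1) / 2 + b) % 2 = 0) := by
      unfold blk at h2
      split_ifs at h2 with h4
      · exact Or.inl ⟨h4, h2⟩
      · exact Or.inr ⟨by omega, h2⟩
    rcases Nat.mod_two_eq_zero_or_one l with h4 | h4
    · refine ⟨4 * l, 34, 0, ⟨rfl, h1, h3, Or.inl ⟨h4, rfl, rfl⟩⟩, ?_, ?_, ?_⟩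
      · simp only [Par.pos]
        push_cast
        ring
      · simp only [Par.off]
        rw [if_pos h4]
        norm_num
      · simp only [Par.mu]
        rw [if_pos h4]
        norm_num
    · have h4' : ¬ l % 2 = 0 := by omega
      by_cases h5 : l < ls
      · refine ⟨4 * l, 16, -10, ⟨rfl, h1, h3, Or.inr (Or.inl ⟨h4, rfl, h5, rfl⟩)⟩, ?_, ?_, ?_⟩
        · simp only [Par.pos]
          push_cast
          ring
        · simp only [Par.off]
          rw [if_neg h4']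
          norm_num
        · simp only [Par.mu]
          rw [if_neg h4', if_pos h5]
          norm_num
      · refine ⟨4 * l, 16, 10, ⟨rfl, h1, h3, Or.inr (Or.inr ⟨h4, rfl, by omega, rfl⟩)⟩,
          ?_, ?_, ?_⟩
        · simp only [Par.pos]
          push_cast
          ring
        · simp only [Par.off]
          rw [if_neg h4']
          norm_num
        · simp only [Par.mu]
          rw [if_neg h4', if_neg h5]
          norm_num
  | W l =>
    obtain ⟨h1, h0, h2⟩ := hx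
    have h3 : (l < ls ∧ (l / 2 + b) % 2 = 1) ∨ (ls ≤ l ∧ ((l + 1) / 2 + b) % 2 = 1) := by
      unfold blk at h2
      split_ifs at h2 with h4
      · exact Or.inl ⟨h4, h2⟩
      · exact Or.inr ⟨by omega, h2⟩
    obtain ⟨o, ho, ho'⟩ : ∃ o : ℤ, (((l = 0 ∨ l = P.L) ∧ o = 2) ∨
        (l ≠ 0 ∧ l ≠ P.L ∧ l % 2 = 0 ∧ o = -4) ∨ (l ≠ 0 ∧ l ≠ P.L ∧ l % 2 = 1 ∧ o = 4)) ∧
        P.off (Lab.W l) = o / 2 := by
      simp only [Par.off]
      by_cases h4 : l = 0 ∨ l = P.L
      · refine ⟨2, Or.inl ⟨h4, rfl⟩, ?_⟩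
        rw [if_pos h4]
        norm_num
      · rw [if_neg h4]
        push Not at h4
        by_cases h5 : l % 2 = 0
        · refine ⟨-4, Or.inr (Or.inl ⟨h4.1, h4.2, h5, rfl⟩), ?_⟩
          rw [if_pos h5]
          norm_num
        · refine ⟨4, Or.inr (Or.inr ⟨h4.1, h4.2, by omega, rfl⟩), ?_⟩
          rw [if_neg h5]
          norm_num
    obtain ⟨m, hm, hm'⟩ : ∃ m : ℤ, ((l < ls ∧ l % 2 = 1 ∧ m = 15) ∨
        (l < ls ∧ l % 2 = 0 ∧ m = -6) ∨ (ls ≤ l ∧ l % 2 = 1 ∧ m = -15) ∨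
        (ls ≤ l ∧ l % 2 = 0 ∧ m = 6)) ∧ P.mu ls e i (Lab.W l) = m / 2 := by
      simp only [Par.mu]
      by_cases h4 : l < ls
      · rw [if_pos h4]
        by_cases h5 : l % 2 = 1
        · refine ⟨15, Or.inl ⟨h4, h5, rfl⟩, ?_⟩
          rw [if_pos h5]
          norm_num
        · refine ⟨-6, Or.inr (Or.inl ⟨h4, by omega, rfl⟩), ?_⟩
          rw [if_neg h5]
          norm_num
      · rw [if_neg h4]
        by_cases h5 : l % 2 = 1
        · refine ⟨-15, Or.inr (Or.inr (Or.inl ⟨by omega, h5, rfl⟩)), ?_⟩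
          rw [if_pos h5]
          norm_num
        · refine ⟨6, Or.inr (Or.inr (Or.inr ⟨by omega, by omega, rfl⟩)), ?_⟩
          rw [if_neg h5]
          norm_num
    refine ⟨4 * l, o, m, ⟨rfl, h1, h0, h3, ho, hm⟩, ?_, ho', hm'⟩
    simp only [Par.pos]
    push_cast
    ring
  | e =>
    refine ⟨1, 1, -4, ⟨rfl, hx, rfl, rfl⟩, ?_, ?_, ?_⟩ <;>
      simp only [Par.pos, Par.off, Par.mu] <;> norm_num
  | f =>
    have h1 : ((P.L + 1) / 2 + b) % 2 = 1 := by
      have h2 : (blk ls P.L + b) % 2 = 1 := hx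
      unfold blk at h2
      rwa [if_neg (by omega)] at h2
    refine ⟨4 * P.L - 1, 1, 4, ⟨rfl, h1, rfl, rfl⟩, ?_, ?_, ?_⟩ <;>
      simp only [Par.pos, Par.off, Par.mu] <;> push_cast <;> ring
  | w =>
    obtain ⟨-, h1, h2, h3⟩ := hx
    by_cases hr : P.rt e i
    · have h4 := h2 hr
      unfold blk at h1
      rw [if_neg (by omega)] at h1
      refine ⟨4 * P.cl e i + 1, 19, 12, ⟨rfl, Or.inl ⟨h4, h1, rfl, rfl⟩⟩, ?_, ?_, ?_⟩
      · simp only [Par.pos, Par.lam]
        rw [if_pos hr]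
        push_cast
        ring
      · simp only [Par.off]
        norm_num
      · simp only [Par.mu]
        rw [if_pos hr]
        norm_num
    · have h4 := h3 hr
      unfold blk at h1
      rw [if_pos h4] at h1
      refine ⟨4 * P.cl e i - 1, 19, -12, ⟨rfl, Or.inr ⟨h4, h1, rfl, rfl⟩⟩, ?_, ?_, ?_⟩
      · simp only [Par.pos, Par.lam]
        rw [if_neg hr]
        push_cast
        ring
      · simp only [Par.off]
        norm_num
      · simp only [Par.mu]
        rw [if_neg hr]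
        norm_num

private theorem Micro_bd {P : Par} {ls b k : ℕ} {x : Lab} {p o m : ℤ}
    (h : Micro_d P ls b k x p o m) : o ≤ 34 ∧ -15 ≤ m ∧ m ≤ 15 ∧ 136 < 4 * o + 256 + 8 * m ∧
      136 < 4 * o + 256 - 8 * m := by
  cases x <;> simp only [Micro_d] at h <;> omega

private theorem Micro_far {p o m p' o' : ℤ} (ho' : o' ≤ 34) (h1 : -15 ≤ m) (h2 : m ≤ 15)
    (h3 : 136 < 4 * o + 256 + 8 * m) (h4 : 136 < 4 * o + 256 - 8 * m)
    (h : p' - p ≤ -8 ∨ 8 ≤ p' - p) :
    p ≠ p' ∧ 4 * o' < 4 * o + 4 * (p' - p) ^ 2 + m * (p' - p) := by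
  refine ⟨by omega, ?_⟩
  rcases h with h | h
  · have h5 : 0 ≤ (-(p' - p) - 8) * (-4 * (p' - p) - m) := by
      apply mul_nonneg <;> linarith
    nlinarith
  · have h5 : 0 ≤ ((p' - p) - 8) * (4 * (p' - p) + m) := by
      apply mul_nonneg <;> linarith
    nlinarith

private theorem Micro_num {p o m p' o' : ℤ} (hq : (p' - p) % 4 = 0)
    (h0 : p' - p ≠ 0) (h1 : p' - p = 4 → 4 * o' < 4 * o + 64 + 4 * m)
    (h2 : p' - p = -4 → 4 * o' < 4 * o + 64 - 4 * m) (h3 : -8 < p' - p) (h4 : p' - p < 8) :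
    p ≠ p' ∧ 4 * o' < 4 * o + 4 * (p' - p) ^ 2 + m * (p' - p) := by
  refine ⟨by omega, ?_⟩
  have h5 : p' - p = 4 ∨ p' - p = -4 := by omega
  rcases h5 with h5 | h5
  · have := h1 h5
    rw [h5]
    linarith
  · have := h2 h5
    rw [h5]
    linarith

private theorem Micro_odd {p o m p' o' : ℤ} (hq : (p' - p) % 2 = 1)
    (h1 : p' - p = 1 → 4 * o' < 4 * o + 4 + m) (h2 : p' - p = -1 → 4 * o' < 4 * o + 4 - m)
    (h3 : p' - p = 3 → 4 * o' < 4 * o + 36 + 3 * m)
    (h4 : p' - p = -3 → 4 * o' < 4 * o + 36 - 3 * m)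
    (h5 : p' - p = 5 → 4 * o' < 4 * o + 100 + 5 * m)
    (h6 : p' - p = -5 → 4 * o' < 4 * o + 100 - 5 * m)
    (h7 : p' - p = 7 → 4 * o' < 4 * o + 196 + 7 * m)
    (h8 : p' - p = -7 → 4 * o' < 4 * o + 196 - 7 * m)
    (h9 : -8 < p' - p) (h10 : p' - p < 8) :
    p ≠ p' ∧ 4 * o' < 4 * o + 4 * (p' - p) ^ 2 + m * (p' - p) := by
  refine ⟨by omega, ?_⟩
  have h : p' - p = 1 ∨ p' - p = -1 ∨ p' - p = 3 ∨ p' - p = -3 ∨ p' - p = 5 ∨ p' - p = -5 ∨
    p' - p = 7 ∨ p' - p = -7 := by omega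
  rcases h with h | h | h | h | h | h | h | h
  · have := h1 h
    rw [h]
    linarith
  · have := h2 h
    rw [h]
    linarith
  · have := h3 h
    rw [h]
    linarith
  · have := h4 h
    rw [h]
    linarith
  · have := h5 h
    rw [h]
    linarith
  · have := h6 h
    rw [h]
    linarith
  · have := h7 h
    rw [h]
    linarith
  · have := h8 h
    rw [h]
    linarith

private theorem Micro_int (P : Par) {ls b k : ℕ} (hL : 10 ≤ P.L) (hL2 : P.L % 2 = 0)
    (hk : k % 2 = 1) (hkL : k < P.L) (h0 : 0 < ls) (hl : ls < P.L) (hev : ls % 2 = 0)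
    {x y : Lab} {p o m p' o' m' : ℤ} (hx : Micro_d P ls b k x p o m)
    (hy : Micro_d P ls b k y p' o' m') (hxy : x ≠ y) :
    p ≠ p' ∧ 4 * o' < 4 * o + 4 * (p' - p) ^ 2 + m * (p' - p) := by
  have hbx := Micro_bd hx
  have hby := Micro_bd hy
  by_cases hf : p' - p ≤ -8 ∨ 8 ≤ p' - p
  · exact Micro_far hby.1 hbx.2.1 hbx.2.2.1 hbx.2.2.2.1 hbx.2.2.2.2 hf
  push Not at hf
  obtain ⟨hf1, hf2⟩ := hf
  clear hbx hby
  rcases x with l | l | _ | _ | _ <;> rcases y with n | n | _ | _ | _ <;>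
    simp only [Micro_d] at hx hy
  · have hln : l ≠ n := fun h => hxy (by rw [h])
    exact Micro_num (by omega) (by omega) (by omega) (by omega) hf1 hf2
  · exact Micro_num (by omega) (by omega) (by omega) (by omega) hf1 hf2
  · exact Micro_odd (by omega) (by omega) (by omega) (by omega) (by omega) (by omega) (by omega)
      (by omega) (by omega) hf1 hf2
  · exact Micro_odd (by omega) (by omega) (by omega) (by omega) (by omega) (by omega) (by omega)
      (by omega) (by omega) hf1 hf2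
  · exact Micro_odd (by omega) (by omega) (by omega) (by omega) (by omega) (by omega) (by omega)
      (by omega) (by omega) hf1 hf2
  · exact Micro_num (by omega) (by omega) (by omega) (by omega) hf1 hf2
  · have hln : l ≠ n := fun h => hxy (by rw [h])
    exact Micro_num (by omega) (by omega) (by omega) (by omega) hf1 hf2
  · exact Micro_odd (by omega) (by omega) (by omega) (by omega) (by omega) (by omega) (by omega)
      (by omega) (by omega) hf1 hf2
  · exact Micro_odd (by omega) (by omega) (by omega) (by omega) (by omega) (by omega) (by omega)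
      (by omega) (by omega) hf1 hf2
  · exact Micro_odd (by omega) (by omega) (by omega) (by omega) (by omega) (by omega) (by omega)
      (by omega) (by omega) hf1 hf2
  · exact Micro_odd (by omega) (by omega) (by omega) (by omega) (by omega) (by omega) (by omega)
      (by omega) (by omega) hf1 hf2
  · exact Micro_odd (by omega) (by omega) (by omega) (by omega) (by omega) (by omega) (by omega)
      (by omega) (by omega) hf1 hf2
  · exact absurd rfl hxy
  · exfalso
    omega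
  · exfalso
    omega
  · exact Micro_odd (by omega) (by omega) (by omega) (by omega) (by omega) (by omega) (by omega)
      (by omega) (by omega) hf1 hf2
  · exact Micro_odd (by omega) (by omega) (by omega) (by omega) (by omega) (by omega) (by omega)
      (by omega) (by omega) hf1 hf2
  · exfalso
    omega
  · exact absurd rfl hxy
  · exfalso
    omega
  · exact Micro_odd (by omega) (by omega) (by omega) (by omega) (by omega) (by omega) (by omega)
      (by omega) (by omega) hf1 hf2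
  · exact Micro_odd (by omega) (by omega) (by omega) (by omega) (by omega) (by omega) (by omega)
      (by omega) (by omega) hf1 hf2
  · exfalso
    omega
  · exfalso
    omega
  · exact absurd rfl hxy

theorem micro (P : Par) (h : P.Ok) {ls b e i : ℕ} {t : Prop} (hb : b < 2) (h0 : 0 < ls)
    (hl : ls < P.L) (hev : ls % 2 = 0) {x y : Lab} (hx : P.sup ls b e i t x)
    (hy : P.sup ls b e i t y) (hxy : x ≠ y) :
    P.pos e i x ≠ P.pos e i y ∧
      P.off y < P.off x + 8 * (P.pos e i y - P.pos e i x) ^ 2 +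
        P.mu ls e i x * (P.pos e i y - P.pos e i x) := by
  obtain ⟨p, o, m, hd, h1, h2, h3⟩ := Micro_ex P hl hx
  obtain ⟨p', o', m', hd', h1', h2', -⟩ := Micro_ex P hl hy
  obtain ⟨hne, hlt⟩ := Micro_int P h.ten h.ev (h.odd e i) (h.lt e i) h0 hl hev hd hd' hxy
  rw [h1, h2, h3, h1', h2']
  constructor
  · intro h4
    apply hne
    have h5 : (p : ℝ) = p' := by linarith
    exact_mod_cast h5
  · have h4 : (4 * o' : ℝ) < 4 * o + 4 * (p' - p) ^ 2 + m * (p' - p) := by exact_mod_cast hlt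
    nlinarith

end Pool.Agent.CPW
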