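import Pool.Agent.CPW.Clos

/-!
# Package NoSw: caps do not change the track

`noSw`: put `Δ = F (c+1) j - F (c+1) i > 0` (so `i ≠ j`) and suppose
`sl (Pc c i p') (Pc (c+1) j p'') < sl (Pc (c-1) i p) (Pc c i p')`. By `sl_col` the right side is
`s (c-1) i + (p' - p) ep / D (c-1) ≤ s (c-1) i + 4 ep` (`D ≥ 1`), the left side is
`s c i + (Δ + (p'' - p') ep) / D c ≥ s c i + (Δ - 4 ep) / D c`. So
`Δ < D c (s (c-1) i - s c i + 4 ep) + 4 ep`. By `G_succ`,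
`s (c-1) i - s c i = th (c-1) i - th c i + g c i ≤ 21/16 - 1/4 + g c i`.
* `c % 4 ≠ 0`: `g = 1`, `D c ≤ q`, so `Δ < 3 q = 12 T + 6` (`ep ≤ dl²/10000` is tiny). But by `gapAll`
  `Δ ≥ V/2 - 1 = 40 L + 12 T + 7`.
* `c % 4 = 0`: `D c = 1`, `Δ < g + 2 ≤ M + 2 V T + 2 = 4 V T + 6`; but `c + 1 = 4 e + 1`, by `gapOne`
  `Δ ≥ V (q - 1/2) - 1 = 4 V T + 3/2 V - 1` and `V ≥ 816`.

`noSw0`: by `gapOne` `F 1 i - F 1 j ≥ V (q - 1/2) - 1`. Suppose
`sl (Pc 1 j p') (Pc 2 m p'') < sl (Pc 0 i p) (Pc 1 j p')`. The right side is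
`s 0 i + F 1 j - F 1 i + (p' - p) ep ≤ s 0 i - V (q-1/2) + 1 + 4 ep` (`D 0 = 1`) and
`s 0 i = th 0 i - M + V i ≤ 21/16 - M + V T`. The left side is
`s 1 j + (F 2 m - F 2 j + (p'' - p') ep) / (q - 1)`, `s 1 j = 3/8 - (M + 1) + V j ≥ 3/8 - M - 1`, and
by `F_two` (`e = 0`) `F 2 m - F 2 j ≥ - V T / 2 - 1`, `q - 1 = 4 T + 1`, so the quotient is
`≥ - V / 8 - 1 - 4 ep`. Together `V (4 T + 3/2) ≤ V T + V/8 + 10`, a contradiction.
-/

set_option autoImplicit false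

namespace Pool.Agent.CPW

private theorem sl_Pc (P : Par) {c i j p p' : ℕ} (hi : i < P.T) :
    sl (P.Pc c i p) (P.Pc (c + 1) j p') =
      P.s c i + (P.F (c + 1) j - P.F (c + 1) i) / P.D c + (((p' : ℝ) - p) * P.ep) / P.D c := by
  have hD := Par.D_pos hi c
  have h1 : P.F (c + 1) j = P.F c i +
      P.D c * (P.s c i + (P.F (c + 1) j - P.F (c + 1) i) / P.D c) := by
    rw [mul_add, mul_div_cancel₀ _ hD.ne']
    rw [Par.F_succ P c i]
    ring
  unfold Par.Pc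
  rw [Par.X_succ, sl_col hD h1]
  ring

private theorem frac_bd {D x y : ℝ} (hD : 1 ≤ D) (_ : 0 ≤ y) (hx : |x| ≤ y) : |x / D| ≤ y := by
  rw [abs_div, abs_of_pos (by linarith : 0 < D)]
  exact (div_le_self (abs_nonneg x) hD).trans hx

private theorem pp_bd {p p' : ℕ} (hp : p < 5) (hp' : p' < 5) {ep : ℝ} (he : 0 ≤ ep) :
    |((p' : ℝ) - p) * ep| ≤ 4 * ep := by
  have h1 : (p : ℝ) ≤ 4 := by exact_mod_cast (by omega : p ≤ 4)
  have h2 : (p' : ℝ) ≤ 4 := by exact_mod_cast (by omega : p' ≤ 4)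
  have h3 : (0 : ℝ) ≤ p := by positivity
  have h4 : (0 : ℝ) ≤ p' := by positivity
  rw [abs_mul, abs_of_nonneg he]
  refine mul_le_mul_of_nonneg_right ?_ he
  rw [abs_le]
  constructor <;> linarith

private theorem ep_small {P : Par} (h : P.Ok) : 0 < P.ep ∧ P.ep ≤ 1 / 1000 := by
  have h1 := Par.ep_pos h
  have h2 := Par.ep_le h
  have h3 := Par.dl_sq h
  have h4 := Par.dl_le h
  exact ⟨h1, by linarith⟩

theorem noSw (P : Par) (h : P.Ok) {c i j p p' p'' : ℕ} (hc : 1 ≤ c) (hi : i < P.T) (hj : j < P.T)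
    (hp : p < 5) (hp' : p' < 5) (hp'' : p'' < 5) (hF : P.F (c + 1) i < P.F (c + 1) j) :
    ¬ (sl (P.Pc c i p') (P.Pc (c + 1) j p'') < sl (P.Pc (c - 1) i p) (P.Pc c i p')) := by
  intro hcon
  obtain ⟨d, rfl⟩ : ∃ d, c = d + 1 := ⟨c - 1, by omega⟩
  rw [Nat.add_sub_cancel, sl_Pc P hi, sl_Pc P hi, sub_self, zero_div, add_zero] at hcon
  have hep := ep_small h
  have hD1 := Par.D_ge hi d
  have hD2 := Par.D_ge hi (d + 1)
  have hD3 := Par.D_le hi (d + 1)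
  have hq := Par.q_ge hi
  have hV := Par.V_ge P
  have b1 := abs_le.1 (frac_bd hD1 (by linarith) (pp_bd hp hp' hep.1.le))
  have b2 := abs_le.1 (frac_bd hD2 (by linarith) (pp_bd hp' hp'' hep.1.le))
  have hG := Par.G_succ P d i
  have hs1 : P.s d i = P.th d i - P.G d i := rfl
  have hs2 : P.s (d + 1) i = P.th (d + 1) i - P.G (d + 1) i := rfl
  have t1 := Par.th_le h hi d
  have t2 := Par.th_ge h hi (d + 1)
  have hij : j ≠ i := fun h => by rw [h] at hF; exact lt_irrefl _ hF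
  have hΔ : (P.F (d + 1 + 1) j - P.F (d + 1 + 1) i) / P.D (d + 1) <
      17 / 16 + P.g (d + 1) i + 8 * P.ep := by
    linarith [b1.1, b1.2, b2.1, b2.2]
  rw [div_lt_iff₀ (by linarith)] at hΔ
  by_cases hd : (d + 1) % 4 = 0
  · have hD : P.D (d + 1) = 1 := by
      unfold Par.D
      rw [if_pos hd]
    have hg : P.g (d + 1) i = P.M - 2 * Par.sg ((d + 1) / 4) * P.V * i := by
      unfold Par.g
      rw [if_pos hd]
    have h1 := Par.sg_Vi hi ((d + 1) / 4)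
    have h2 := Par.gapOne h ((d + 1) / 4) hj hi hij
    rw [show 4 * ((d + 1) / 4) + 1 = d + 1 + 1 by omega, abs_of_pos (by linarith)] at h2
    rw [hD, hg] at hΔ
    unfold Par.q at h2
    unfold Par.M at hΔ
    linarith [h1.1, h1.2, hep.2]
  · rw [Par.g_of_ne hd] at hΔ
    have h2 := Par.gapAll h (d + 1 + 1) hj hi hij
    rw [abs_of_pos (by linarith)] at h2
    have h3 : (17 / 16 + 1 + 8 * P.ep) * P.D (d + 1) ≤ 3 * P.q := by
      have e1 : (17 / 16 + 1 + 8 * P.ep) ≤ 3 := by linarith [hep.2]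
      exact mul_le_mul e1 hD3 (by linarith) (by norm_num)
    have h4 : P.q = 4 * P.T + 2 := rfl
    have h5 : P.V = 80 * P.L + 24 * P.T + 16 := rfl
    have h6 : (0 : ℝ) ≤ P.L := by positivity
    linarith

theorem noSw0 (P : Par) (h : P.Ok) {i j m p p' p'' : ℕ} (hi : i < P.T) (hj : j < P.T)
    (hm : m < P.T) (hp : p < 5) (hp' : p' < 5) (hp'' : p'' < 5) (hF : P.F 1 j < P.F 1 i) :
    ¬ (sl (P.Pc 1 j p') (P.Pc 2 m p'') < sl (P.Pc 0 i p) (P.Pc 1 j p')) := by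
  intro hcon
  have e1 : sl (P.Pc 1 j p') (P.Pc 2 m p'') = P.s 1 j + (P.F 2 m - P.F 2 j) / P.D 1 +
      (((p'' : ℝ) - p') * P.ep) / P.D 1 := sl_Pc P hj
  have e2 : sl (P.Pc 0 i p) (P.Pc 1 j p') = P.s 0 i + (P.F 1 j - P.F 1 i) / P.D 0 +
      (((p' : ℝ) - p) * P.ep) / P.D 0 := sl_Pc P hi
  rw [e1, e2] at hcon
  have hep := ep_small h
  have hV := Par.V_ge P
  have hT := Par.T_ge hi
  have hD0 : P.D 0 = 1 := by
    unfold Par.D
    norm_num
  have hD1 : P.D 1 = 4 * P.T + 1 := by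
    unfold Par.D Par.q
    norm_num
    ring
  have b1 := abs_le.1 (frac_bd (D := P.D 0) (by rw [hD0]) (by linarith) (pp_bd hp hp' hep.1.le))
  have b2 := abs_le.1 (frac_bd (D := P.D 1) (by rw [hD1]; linarith) (by linarith)
    (pp_bd hp' hp'' hep.1.le))
  have hij : i ≠ j := fun h => by rw [h] at hF; exact lt_irrefl _ hF
  have hgap : P.V * (P.q - 1 / 2) - 1 ≤ |P.F 1 i - P.F 1 j| := Par.gapOne h 0 hi hj hij
  rw [abs_of_pos (by linarith)] at hgap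
  have hs0 : P.s 0 i = P.th 0 i - P.G 0 i := rfl
  have hs1 : P.s 1 j = P.th 1 j - P.G 1 j := rfl
  have hG0 : P.G 0 i = P.M - P.V * i := by
    unfold Par.G Par.sg
    norm_num
  have hG1 : P.G 1 j = P.M + 1 - P.V * j := by
    unfold Par.G Par.sg
    norm_num
  have ht0 := Par.th_le h hi 0
  have ht1 := Par.th_ge h hj 1
  have hVi : P.V * i ≤ P.V * P.T - P.V := by
    have := Par.i_le hi
    nlinarith
  have hVm : P.V * m ≤ P.V * P.T := by
    have := Par.i_le hm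
    nlinarith
  have hVj : 0 ≤ P.V * j := by positivity
  have f2m : P.F 2 m = P.base 0 - Par.sg 0 * P.V * m / 2 + (1 - P.tau 0 m - P.al 0 m / 2) +
      (P.q - 1) * (3 / 8) - P.q * ((0 : ℕ) * (P.M + 3) + P.M) - (P.q - 1) := Par.F_two P 0 m
  have f2j : P.F 2 j = P.base 0 - Par.sg 0 * P.V * j / 2 + (1 - P.tau 0 j - P.al 0 j / 2) +
      (P.q - 1) * (3 / 8) - P.q * ((0 : ℕ) * (P.M + 3) + P.M) - (P.q - 1) := Par.F_two P 0 j
  have hsg : Par.sg 0 = 1 := pow_zero _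
  have hΔ : -(P.V * P.T / 2 + 1) ≤ P.F 2 m - P.F 2 j := by
    rw [f2m, f2j, hsg]
    have h1 := Par.tau_ge h 0 j
    have h2 := Par.tau_ge h 0 m
    have h3 := Par.tau_le' h 0 j
    have h4 := Par.tau_le' h 0 m
    have h5 := Par.al_ge h 0 j
    have h6 := Par.al_ge h 0 m
    have h7 := Par.al_le h 0 j
    have h8 := Par.al_le h 0 m
    have h9 := Par.dl_pos h
    linarith
  have hq : -(P.V / 8 + 1) ≤ (P.F 2 m - P.F 2 j) / P.D 1 := by
    rw [hD1, le_div_iff₀ (by linarith)]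
    nlinarith
  rw [hD0, div_one, div_one] at hcon
  have b1' := b1.2
  rw [hD0, div_one] at b1'
  have hVT : 0 ≤ P.V * P.T := by positivity
  unfold Par.q at hgap
  linarith [b2.1, hep.2]

end Pool.Agent.CPW
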