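import Pool.Agent.CPW.URc

/-!
# Package ParU: the parameters are given by terms

`UF_kk`: `UF.len`, `UF_nn`. The functions `ca, cr, cb, cu, cv, ctv` of `n, k, j, i` are built from `+`,
`*`, `-`, `/`, `%`, `min` and `ite`, the predicates `cact, crt, cpre` from `=`, `<`, `≤`, `∧`, `∨`, `¬` and
`aj` (`UP_aj`, `UP.comp₂`): use the closure lemmas of `Pool/Agent/PT/UF.lean` (`UF.div`, `UF.mod`,
`UF.min`, `UF.ite`, `UP.and`, …). State the lemmas in the composed form (for arbitrary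
`UF` arguments) as below. `parW x = par (nn x) (kk x) (aj x)`; unfold `parW, par`. `P.E` etc. with
`P = parW x`: `T = 2 k`, `L = 10 (n+1)`, `E = (2 k (5 (n+1)) + 1) nc n k`; `cl e i = ccl n k (e % nc) i`.
Then the real functions, in the order of `Defs.lean`, with the closure lemmas of `URc.lean`
(`UR.nat` for casts, `UR.ite` with `UP.eq (UF.mod …) (UF.const …)` for the cases modulo `4`,
`UR.negOnePow` for `sg`).
-/

set_option autoImplicit false

namespace Pool.Agent.CPW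

open Pool.Agent.PT
open Pool.Agent.B7219d (nn aj UF_nn UP_aj)

theorem UF_kk' : UF (fun x (_ : ℕ → ℕ) => kk x) := by
  unfold kk
  exact UF.len.sub (((UF_nn.add (UF.const 1)).add (UF_nn.mul UF_nn)).add (UF.const 1))

theorem UF_T : UF (fun x (_ : ℕ → ℕ) => (parW x).T) :=
  (UF.const 2).mul UF_kk'

theorem UF_L : UF (fun x (_ : ℕ → ℕ) => (parW x).L) :=
  (UF.const 10).mul (UF_nn.add (UF.const 1))

private theorem UF_nc : UF (fun x (_ : ℕ → ℕ) => nc (nn x) (kk x)) :=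
  (((UF.const 2).mul UF_kk').add (UF_kk'.mul (UF_nn.add (UF.const 1)))).add
    (UF_kk'.mul (UF_kk'.mul (UF_nn.mul UF_nn)))

theorem UF_E : UF (fun x (_ : ℕ → ℕ) => (parW x).E) :=
  ((((UF.const 2).mul UF_kk').mul ((UF.const 5).mul (UF_nn.add (UF.const 1)))).add
    (UF.const 1)).mul UF_nc

variable {c i : List (Option Bool) → (ℕ → ℕ) → ℕ}

private theorem UF_b1 : UF (fun x (_ : ℕ → ℕ) => 2 * kk x) := (UF.const 2).mul UF_kk'

private theorem UF_b2 : UF (fun x (_ : ℕ → ℕ) => 2 * kk x + kk x * (nn x + 1)) :=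
  UF_b1.add (UF_kk'.mul (UF_nn.add (UF.const 1)))

private theorem UF_ca (hc : UF c) : UF (fun x e => ca (nn x) (kk x) (c x e)) :=
  (hc.sub UF_b2).div (UF_kk'.mul (UF_nn.mul UF_nn))

private theorem UF_cr (hc : UF c) : UF (fun x e => cr (nn x) (kk x) (c x e)) :=
  (hc.sub UF_b2).mod (UF_kk'.mul (UF_nn.mul UF_nn))

private theorem UF_cb (hc : UF c) : UF (fun x e => cb (nn x) (kk x) (c x e)) :=
  (UF_cr hc).div (UF_nn.mul UF_nn)

private theorem UF_cu (hc : UF c) : UF (fun x e => cu (nn x) (kk x) (c x e)) :=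
  ((UF_cr hc).mod (UF_nn.mul UF_nn)).div UF_nn

private theorem UF_cv (hc : UF c) : UF (fun x e => cv (nn x) (kk x) (c x e)) :=
  ((UF_cr hc).mod (UF_nn.mul UF_nn)).mod UF_nn

private theorem UF_i2 (hi : UF i) : UF (fun x e => i x e / 2) := hi.div (UF.const 2)

private theorem UF_im (hi : UF i) : UF (fun x e => i x e % 2) := hi.mod (UF.const 2)

private theorem UP_cact (hc : UF c) (hi : UF i) :
    UP (fun x e => cact (nn x) (kk x) (c x e) (i x e)) := by
  unfold cact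
  refine ((UP.lt hc UF_kk').and (UP.eq hi (((UF.const 2).mul hc).add (UF.const 1)))).or
    (((UP.le UF_kk' hc).and ((UP.lt hc UF_b1).and
      (UP.eq hi (((UF.const 2).mul (hc.sub UF_kk')).add (UF.const 1))))).or
    (((UP.le UF_b1 hc).and ((UP.lt hc UF_b2).and
      (UP.eq (UF_i2 hi) ((hc.sub UF_b1).div (UF_nn.add (UF.const 1)))))).or
    ((UP.le UF_b2 hc).and ((UP.eq (UF_i2 hi) (UF_ca hc)).or (UP.eq (UF_i2 hi) (UF_cb hc))))))

private theorem UP_crt (hc : UF c) (hi : UF i) :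
    UP (fun x e => crt (nn x) (kk x) (c x e) (i x e)) := by
  unfold crt
  exact ((UP.le UF_kk' hc).and (UP.lt hc UF_b1)).or
    (((UP.le UF_b1 hc).and ((UP.lt hc UF_b2).and (UP.eq (UF_im hi) (UF.const 1)))).or
    ((UP.le UF_b2 hc).and (UP.eq (UF_im hi) (UF.const 0))))

private theorem UF_ctv (hc : UF c) (hi : UF i) :
    UF (fun x e => ctv (nn x) (kk x) (c x e) (i x e)) := by
  unfold ctv
  exact UF.ite (UP.lt hc UF_kk') (UF.const 0) (UF.ite (UP.lt hc UF_b1) UF_nn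
    (UF.ite (UP.lt hc UF_b2) ((hc.sub UF_b1).mod (UF_nn.add (UF.const 1)))
      (UF.min UF_nn ((UF.ite (UP.eq (UF_i2 hi) (UF_ca hc)) (UF_cu hc) (UF_cv hc)).add
        (UF_im hi)))))

private theorem UF_ccl (hc : UF c) (hi : UF i) :
    UF (fun x e => ccl (nn x) (kk x) (c x e) (i x e)) := by
  unfold ccl
  exact ((UF.const 10).mul (UF_ctv hc hi)).add (UF.ite (UP_crt hc hi) (UF.const 3) (UF.const 7))

private theorem UF_cm (hc : UF c) : UF (fun x e => c x e % nc (nn x) (kk x)) := hc.mod UF_nc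

theorem UF_cl (hc : UF c) (hi : UF i) : UF (fun x e => (parW x).cl (c x e) (i x e)) :=
  UF_ccl (UF_cm hc) hi

theorem UP_act (hc : UF c) (hi : UF i) : UP (fun x e => (parW x).act (c x e) (i x e)) :=
  UP_cact (UF_cm hc) hi

theorem UP_rt (hc : UF c) (hi : UF i) : UP (fun x e => (parW x).rt (c x e) (i x e)) :=
  UP_crt (UF_cm hc) hi

theorem UP_pre (hc : UF c) : UP (fun x e => (parW x).pre (c x e)) := by
  have h : UP (fun x e => cpre (nn x) (kk x) (aj x) (c x e % nc (nn x) (kk x))) := by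
    unfold cpre
    exact (UP.lt (UF_cm hc) UF_b2).or ((UP.lt (UF_ca (UF_cm hc)) (UF_cb (UF_cm hc))).and
      (UP.comp₂ (P := fun x i j => aj x i j) UP_aj (UF_cu (UF_cm hc)) (UF_cv (UF_cm hc))).not)
  exact h

theorem UR_dl : UR (fun x (_ : ℕ → ℕ) => (parW x).dl) :=
  UR.one.div ((UR.ofNat 4).mul (UR.nat UF_L))

theorem UR_q : UR (fun x (_ : ℕ → ℕ) => (parW x).q) :=
  ((UR.ofNat 4).mul (UR.nat UF_T)).add (UR.ofNat 2)

theorem UR_V : UR (fun x (_ : ℕ → ℕ) => (parW x).V) :=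
  (((UR.ofNat 80).mul (UR.nat UF_L)).add ((UR.ofNat 24).mul (UR.nat UF_T))).add (UR.ofNat 16)

theorem UR_M : UR (fun x (_ : ℕ → ℕ) => (parW x).M) :=
  (((UR.ofNat 2).mul UR_V).mul (UR.nat UF_T)).add (UR.ofNat 4)

theorem UR_ep : UR (fun x (_ : ℕ → ℕ) => (parW x).ep) :=
  (UR_dl.pow 2).div ((UR.ofNat 10000).mul
    ((UR_M.add (((UR.ofNat 2).mul UR_V).mul (UR.nat UF_T))).add UR.one))

theorem UR_sg (hc : UF c) : UR (fun x e => Par.sg (c x e)) :=
  UR.negOnePow hc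

theorem UR_lam (hc : UF c) (hi : UF i) : UR (fun x e => (parW x).lam (c x e) (i x e)) := by
  unfold Par.lam
  exact UR.ite (UP_rt hc hi) ((UR.nat (UF_cl hc hi)).add (UR.one.div (UR.ofNat 4)))
    ((UR.nat (UF_cl hc hi)).sub (UR.one.div (UR.ofNat 4)))

theorem UR_tau (hc : UF c) (hi : UF i) : UR (fun x e => (parW x).tau (c x e) (i x e)) := by
  unfold Par.tau
  exact UR.ite (UP_act hc hi)
    ((UR.one.div (UR.ofNat 4)).add (((UR.ofNat 19).div (UR.ofNat 16)).mul (UR_dl.pow 2)))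
    (UR.one.neg.div (UR.ofNat 4))

theorem UR_al (hc : UF c) (hi : UF i) : UR (fun x e => (parW x).al (c x e) (i x e)) :=
  (UR.one.div (UR.ofNat 8)).sub ((UR_lam hc hi).mul UR_dl)

private theorem UP_m (hc : UF c) (r : ℕ) : UP (fun x e => c x e % 4 = r) :=
  UP.eq (hc.mod (UF.const 4)) (UF.const r)

theorem UR_D (hc : UF c) : UR (fun x e => (parW x).D (c x e)) := by
  unfold Par.D
  exact UR.ite (UP_m hc 0) UR.one (UR.ite (UP_m hc 1) (UR_q.sub UR.one)
    (UR.ite (UP_m hc 2) UR.one UR_q))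

theorem UR_th (hc : UF c) (hi : UF i) : UR (fun x e => (parW x).th (c x e) (i x e)) := by
  have hd : UF (fun x e => c x e / 4) := hc.div (UF.const 4)
  have h38 : UR (fun (_ : List (Option Bool)) (_ : ℕ → ℕ) => (3 : ℝ) / 8) :=
    (UR.ofNat 3).div (UR.ofNat 8)
  unfold Par.th
  exact UR.ite (UP_m hc 0) ((UR.one.sub (UR_tau hd hi)).sub ((UR_al hd hi).div (UR.ofNat 2)))
    (UR.ite (UP_m hc 1) h38 (UR.ite (UP_m hc 2) (h38.add (UR_al hd hi))
      (h38.add (((UR_tau hd hi).sub ((UR_al hd hi).div (UR.ofNat 2))).div UR_q))))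

theorem UR_g (hc : UF c) (hi : UF i) : UR (fun x e => (parW x).g (c x e) (i x e)) := by
  unfold Par.g
  exact UR.ite (UP_m hc 0) (UR_M.sub ((((UR.ofNat 2).mul
    (UR_sg (hc.div (UF.const 4)))).mul UR_V).mul (UR.nat hi))) UR.one

theorem UR_G (hc : UF c) (hi : UF i) : UR (fun x e => (parW x).G (c x e) (i x e)) := by
  unfold Par.G
  exact ((((UR.nat (hc.div (UF.const 4))).mul (UR_M.add (UR.ofNat 3))).add UR_M).add
    (UR.nat (hc.mod (UF.const 4)))).sub (((UR_sg (hc.div (UF.const 4))).mul UR_V).mul (UR.nat hi))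

theorem UR_X (hc : UF c) : UR (fun x e => (parW x).X (c x e)) := by
  unfold Par.X
  exact (UR.one.add ((UR.nat (hc.div (UF.const 4))).mul
    (((UR.ofNat 2).mul UR_q).add UR.one))).add (UR.ite (UP_m hc 0) UR.zero
      (UR.ite (UP_m hc 1) UR.one (UR.ite (UP_m hc 2) UR_q (UR_q.add UR.one))))

theorem UR_s (hc : UF c) (hi : UF i) : UR (fun x e => (parW x).s (c x e) (i x e)) :=
  (UR_th hc hi).sub (UR_G hc hi)

theorem UR_R : UR (fun x (_ : ℕ → ℕ) => (parW x).R) :=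
  ((((UR_V.mul (UR.nat UF_T)).mul (UR_q.add UR.one)).add
    (((UR.nat UF_E).mul (((UR.ofNat 2).mul UR_q).add UR.one)).mul
      (((((UR.nat UF_E).add UR.one).mul (UR_M.add (UR.ofNat 3))).add
        (UR_V.mul (UR.nat UF_T))).add (UR.ofNat 2)))).add ((UR.ofNat 2).mul UR_q)).add
    (UR.ofNat 10)

theorem UR_wd : UR (fun x (_ : ℕ → ℕ) => (parW x).wd) :=
  (UR.ofNat 2).add ((UR.nat UF_E).mul (((UR.ofNat 2).mul UR_q).add UR.one))

theorem UR_Z : UR (fun x (_ : ℕ → ℕ) => (parW x).Z) :=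
  ((UR.ofNat 256).mul ((UR.nat UF_L).pow 2)).mul
    ((UR_M.add (((UR.ofNat 2).mul UR_V).mul (UR.nat UF_T))).pow 2)

theorem UR_H : UR (fun x (_ : ℕ → ℕ) => (parW x).H) :=
  ((UR_R.add ((UR.ofNat 10).mul (UR.nat UF_T))).add
    (((((UR.ofNat 2).mul UR_R).mul UR_Z).add UR.one).mul UR_wd)).add UR.one

end Pool.Agent.CPW
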