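import Pool.Agent.CPW.ParU
import Pool.Agent.CPW.Clos

/-!
# Package PntU: the coordinates of all points are given by terms

`UR_F`: by `F_four, F_one, F_two, F_three` (file `Clos.lean`) with `e = c / 4` and `c = 4 (c/4) + c % 4`,
`F c i` is given by a case distinction on `c % 4`; `base` is built from `H, q, M` and the cast of `e`
(`e * (e - 1) / 2` real). Then `Pc`, `Q` (unfold `Par.Q, pt`; `pos` and `off` of `labT L t` are given by case
distinctions on `t`: `t < L+1`: `pos = t`, `off = 17` or `8`; `t < 2L+2`: `pos = t - (L+1)` and the cases of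
`off (W l)`; `e`, `f`), `om` (with `i = 0`), and finally `pnt` (nested `ite`; use the composed forms, the
indices are given by `UF` terms).
-/

set_option autoImplicit false

namespace Pool.Agent.CPW

open Pool.Agent.PT
open Pool.Agent.B7219d (nn aj UF_nn UP_aj)

variable {c i t : List (Option Bool) → (ℕ → ℕ) → ℕ}

private theorem UR_half : UR (Γ := Option Bool) (fun _ _ => (1 / 2 : ℝ)) :=
  UR.one.div (UR.ofNat 2)

private theorem UR_base (hc : UF c) : UR (fun x e => (parW x).base (c x e)) := by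
  unfold Par.base
  exact (UR_H.sub ((UR.nat hc).mul (((UR.ofNat 13).div (UR.ofNat 4)).mul UR_q))).sub
    ((((UR.ofNat 2).mul UR_q).add UR.one).mul ((UR_M.mul (UR.nat hc)).add
      ((UR_M.add (UR.ofNat 3)).mul (((UR.nat hc).mul ((UR.nat hc).sub UR.one)).div
        (UR.ofNat 2)))))

theorem UR_F (hc : UF c) (hi : UF i) : UR (fun x e => (parW x).F (c x e) (i x e)) := by
  have he : UF (fun x e => c x e / 4) := hc.div (UF.const 4)
  have hm : UF (fun x e => c x e % 4) := hc.mod (UF.const 4)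
  have hb := UR_base he
  have hV : UR (fun x e => Par.sg (c x e / 4) * (parW x).V * (i x e : ℝ)) :=
    ((UR_sg he).mul UR_V).mul (UR.nat hi)
  have hE : UR (fun x e => ((c x e / 4 : ℕ) : ℝ) * ((parW x).M + 3) + (parW x).M) :=
    ((UR.nat he).mul (UR_M.add (UR.ofNat 3))).add UR_M
  have hA : UR (fun x e => 1 - (parW x).tau (c x e / 4) (i x e) -
      (parW x).al (c x e / 4) (i x e) / 2) :=
    (UR.one.sub (UR_tau he hi)).sub ((UR_al he hi).div (UR.ofNat 2))
  have hA' : UR (fun x e => 1 - (parW x).tau (c x e / 4) (i x e) +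
      (parW x).al (c x e / 4) (i x e) / 2) :=
    (UR.one.sub (UR_tau he hi)).add ((UR_al he hi).div (UR.ofNat 2))
  have h38 : UR (Γ := Option Bool) (fun _ _ => (3 / 8 : ℝ)) := (UR.ofNat 3).div (UR.ofNat 8)
  have h0 := hb.sub (hV.mul (UR_q.add UR_half))
  have h1 := ((hb.sub (hV.mul (UR_q.sub UR_half))).add hA).sub hE
  have h2 := ((((hb.sub (hV.div (UR.ofNat 2))).add hA).add
    ((UR_q.sub UR.one).mul h38)).sub (UR_q.mul hE)).sub (UR_q.sub UR.one)
  have h3 := ((((hb.add (hV.div (UR.ofNat 2))).add hA').add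
    (UR_q.mul h38)).sub ((UR_q.add UR.one).mul hE)).sub (UR_q.add UR.one)
  refine (UR.ite (inst := fun _ _ => Nat.decEq _ _) (UP.eq hm (UF.const 0)) h0
    (UR.ite (inst := fun _ _ => Nat.decEq _ _) (UP.eq hm (UF.const 1)) h1
    (UR.ite (inst := fun _ _ => Nat.decEq _ _) (UP.eq hm (UF.const 2)) h2 h3))).congr
    fun x e => ?_
  split_ifs with a1 a2 a3
  · have : c x e = 4 * (c x e / 4) := by omega
    exact ((congrArg (fun m => (parW x).F m (i x e)) this).trans
      (Par.F_four (parW x) (c x e / 4) (i x e))).symm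
  · have : c x e = 4 * (c x e / 4) + 1 := by omega
    exact ((congrArg (fun m => (parW x).F m (i x e)) this).trans
      (Par.F_one (parW x) (c x e / 4) (i x e))).symm
  · have : c x e = 4 * (c x e / 4) + 2 := by omega
    exact ((congrArg (fun m => (parW x).F m (i x e)) this).trans
      (Par.F_two (parW x) (c x e / 4) (i x e))).symm
  · have : c x e = 4 * (c x e / 4) + 3 := by omega
    exact ((congrArg (fun m => (parW x).F m (i x e)) this).trans
      (Par.F_three (parW x) (c x e / 4) (i x e))).symm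

theorem UR_pos (hc : UF c) (hi : UF i) (ht : UF t) :
    UR (fun x e => (parW x).pos (c x e) (i x e) (labT (parW x).L (t x e))) := by
  have _h1 := hc
  have _h2 := hi
  have hL1 : UF (fun x (_ : ℕ → ℕ) => (parW x).L + 1) := UF_L.add (UF.const 1)
  have hL2 : UF (fun x (_ : ℕ → ℕ) => 2 * (parW x).L + 2) :=
    ((UF.const 2).mul UF_L).add (UF.const 2)
  have h4 : UR (Γ := Option Bool) (fun _ _ => (1 / 4 : ℝ)) := UR.one.div (UR.ofNat 4)
  refine (UR.ite (inst := fun _ _ => Nat.decLt _ _) (UP.lt ht hL1) (UR.nat ht)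
    (UR.ite (inst := fun _ _ => Nat.decLt _ _) (UP.lt ht hL2) (UR.nat (ht.sub hL1))
    (UR.ite (inst := fun _ _ => Nat.decEq _ _) (UP.eq ht hL2) h4
      ((UR.nat UF_L).sub h4)))).congr fun x e => ?_
  unfold labT
  split_ifs <;> simp only [Par.pos]

theorem UR_off (ht : UF t) : UR (fun x e => (parW x).off (labT (parW x).L (t x e))) := by
  have hL1 : UF (fun x (_ : ℕ → ℕ) => (parW x).L + 1) := UF_L.add (UF.const 1)
  have hL2 : UF (fun x (_ : ℕ → ℕ) => 2 * (parW x).L + 2) :=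
    ((UF.const 2).mul UF_L).add (UF.const 2)
  have hU : UR (fun x e => if t x e % 2 = 0 then (17 : ℝ) else 8) :=
    UR.ite (UP.eq (ht.mod (UF.const 2)) (UF.const 0)) (UR.ofNat 17) (UR.ofNat 8)
  have hd : UF (fun x e => t x e - ((parW x).L + 1)) := ht.sub hL1
  have hW : UR (fun x e => if t x e - ((parW x).L + 1) = 0 ∨
      t x e - ((parW x).L + 1) = (parW x).L then (1 : ℝ) else
      if (t x e - ((parW x).L + 1)) % 2 = 0 then -2 else 2) :=
    UR.ite ((UP.eq hd (UF.const 0)).or (UP.eq hd UF_L)) UR.one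
      (UR.ite (UP.eq (hd.mod (UF.const 2)) (UF.const 0)) (UR.neg (UR.ofNat 2)) (UR.ofNat 2))
  refine (UR.ite (inst := fun _ _ => Nat.decLt _ _) (UP.lt ht hL1) hU
    (UR.ite (inst := fun _ _ => Nat.decLt _ _) (UP.lt ht hL2) hW UR_half)).congr fun x e => ?_
  unfold labT
  by_cases h1 : t x e < (parW x).L + 1
  · rw [if_pos h1, if_pos h1]
    rfl
  · by_cases h2 : t x e < 2 * (parW x).L + 2
    · rw [if_neg h1, if_neg h1, if_pos h2, if_pos h2]
      rfl
    · by_cases h3 : t x e = 2 * (parW x).L + 2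
      · rw [if_neg h1, if_neg h1, if_neg h2, if_neg h2, if_pos h3]
        rfl
      · rw [if_neg h1, if_neg h1, if_neg h2, if_neg h2, if_neg h3]
        rfl

variable {p : List (Option Bool) → (ℕ → ℕ) → ℕ}

private theorem UR_Pc1 (hc : UF c) :
    UR (fun x e => ((parW x).Pc (c x e) (i x e) (p x e)).1) := UR_X hc

private theorem UR_Pc2 (hc : UF c) (hi : UF i) (hp : UF p) :
    UR (fun x e => ((parW x).Pc (c x e) (i x e) (p x e)).2) :=
  (UR_F hc hi).add ((UR.nat hp).mul UR_ep)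

/-- The argument `th + a * dl`. -/
private theorem UR_arg (hc : UF c) (hi : UF i) (ht : UF t) :
    UR (fun x e => (parW x).th (c x e) (i x e) +
      (parW x).pos (c x e / 4) (i x e) (labT (parW x).L (t x e)) * (parW x).dl) :=
  (UR_th hc hi).add ((UR_pos (hc.div (UF.const 4)) hi ht).mul UR_dl)

private theorem UR_Q1 (hc : UF c) (hi : UF i) (ht : UF t) :
    UR (fun x e => ((parW x).Q (c x e) (i x e) (labT (parW x).L (t x e))).1) :=
  (UR_X hc).add (((UR_D hc).mul (UR_arg hc hi ht)).div (UR_g hc hi))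

private theorem UR_Q2 (hc : UF c) (hi : UF i) (ht : UF t) :
    UR (fun x e => ((parW x).Q (c x e) (i x e) (labT (parW x).L (t x e))).2) :=
  (((UR_F hc hi).add (((UR_th hc hi).sub (UR_G hc hi)).mul
    (((UR_D hc).mul (UR_arg hc hi ht)).div (UR_g hc hi)))).add
    ((((UR_D hc).mul (UR_arg hc hi ht)).mul (((UR_g hc hi).sub (UR_th hc hi)).sub
      ((UR_pos (hc.div (UF.const 4)) hi ht).mul UR_dl))).div (UR_g hc hi))).add
    ((((UR_off ht).mul (UR_D hc)).mul (UR_dl.pow 2)).div ((UR.ofNat 8).mul (UR_g hc hi)))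

private theorem UF_42 (hc : UF c) : UF (fun x e => 4 * c x e + 2) :=
  ((UF.const 4).mul hc).add (UF.const 2)

private theorem UR_om1 (hc : UF c) : UR (fun x e => ((parW x).om (c x e)).1) :=
  (UR_X (UF_42 hc)).add UR_half

private theorem UR_om2 (hc : UF c) : UR (fun x e => ((parW x).om (c x e)).2) :=
  ((UR_F (UF_42 hc) (UF.const 0)).add ((UR_s (UF_42 hc) (UF.const 0)).div (UR.ofNat 2))).add
    (UR_tau hc (UF.const 0))

private theorem UF_K2 : UF (fun x (_ : ℕ → ℕ) => 2 * (10 * kk x)) :=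
  (UF.const 2).mul ((UF.const 10).mul UF_kk')

private theorem UF_K4 : UF (fun x (_ : ℕ → ℕ) => 4 * (10 * kk x)) :=
  (UF.const 4).mul ((UF.const 10).mul UF_kk')

private theorem UF_J1 : UF (fun x (e : ℕ → ℕ) => e 0 - 4 * (10 * kk x)) :=
  (UF.var 0).sub UF_K4

private theorem UF_T5 : UF (fun x (_ : ℕ → ℕ) => (parW x).T * 5) := UF_T.mul (UF.const 5)

private theorem UF_N1 : UF (fun x (_ : ℕ → ℕ) => (4 * (parW x).E + 1) * ((parW x).T * 5)) :=
  (((UF.const 4).mul UF_E).add (UF.const 1)).mul UF_T5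

private theorem UF_L4 : UF (fun x (_ : ℕ → ℕ) => 2 * (parW x).L + 4) :=
  ((UF.const 2).mul UF_L).add (UF.const 4)

private theorem UF_TL : UF (fun x (_ : ℕ → ℕ) => (parW x).T * (2 * (parW x).L + 4)) :=
  UF_T.mul UF_L4

private theorem UF_N2 :
    UF (fun x (_ : ℕ → ℕ) => 4 * (parW x).E * ((parW x).T * (2 * (parW x).L + 4))) :=
  ((UF.const 4).mul UF_E).mul UF_TL

private theorem UF_J2 : UF (fun x (e : ℕ → ℕ) =>
    e 0 - 4 * (10 * kk x) - (4 * (parW x).E + 1) * ((parW x).T * 5)) := UF_J1.sub UF_N1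

private theorem UF_J3 : UF (fun x (e : ℕ → ℕ) =>
    e 0 - 4 * (10 * kk x) - (4 * (parW x).E + 1) * ((parW x).T * 5) -
      4 * (parW x).E * ((parW x).T * (2 * (parW x).L + 4))) := UF_J2.sub UF_N2

theorem UR_pnt1 : UR (fun x e => (pnt (parW x) (10 * kk x) (e 0)).1) := by
  unfold pnt
  simp only [apply_ite Prod.fst]
  exact UR.ite (UP.lt (UF.var 0) UF_K2) UR.zero
    (UR.ite (UP.lt (UF.var 0) UF_K4) UR_wd
    (UR.ite (UP.lt UF_J1 UF_N1) (UR_Pc1 (UF_J1.div UF_T5))
    (UR.ite (UP.lt UF_J2 UF_N2) (UR_Q1 (UF_J2.div UF_TL) ((UF_J2.mod UF_TL).div UF_L4)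
      ((UF_J2.mod UF_TL).mod UF_L4))
    (UR.ite (UP_pre UF_J3) (UR_om1 UF_J3) (UR_Pc1 (UF.const 0))))))

theorem UR_pnt2 : UR (fun x e => (pnt (parW x) (10 * kk x) (e 0)).2) := by
  unfold pnt
  simp only [apply_ite Prod.snd]
  exact UR.ite (UP.lt (UF.var 0) UF_K2) (UR.nat (UF.var 0))
    (UR.ite (UP.lt (UF.var 0) UF_K4) (UR.nat ((UF.var 0).sub UF_K2))
    (UR.ite (UP.lt UF_J1 UF_N1) (UR_Pc2 (UF_J1.div UF_T5) ((UF_J1.mod UF_T5).div (UF.const 5))
      ((UF_J1.mod UF_T5).mod (UF.const 5)))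
    (UR.ite (UP.lt UF_J2 UF_N2) (UR_Q2 (UF_J2.div UF_TL) ((UF_J2.mod UF_TL).div UF_L4)
      ((UF_J2.mod UF_TL).mod UF_L4))
    (UR.ite (UP_pre UF_J3) (UR_om2 UF_J3) (UR_Pc2 (UF.const 0) (UF.const 0) (UF.const 0))))))

end Pool.Agent.CPW
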