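import Pool.Agent.CPW.Clos

/-!
# Package Sep: the chords of different tracks are far apart above structure points

Let `x0 = (Q c j x).1`, `X c < x0 < X (c+1)` (`Q_fst`). Let
`Δ(ξ) = (F c i + s c i (ξ - X c)) - (F c j + s c j (ξ - X c))`, an affine function of `ξ` with
`Δ(X c) = F c i - F c j` and `Δ(X (c+1)) = F (c+1) i - F (c+1) j` (`F_succ`, `X_succ`).

* `c % 4 ≠ 2`: both values have the same sign and absolute value at least `V / 2 - 1`, by
  `gap0, gap1` (`c = 4e`), `gap1, gap2` (`c = 4e+1`), `gap3, gap4` (`c = 4e+3`), applied to the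
  larger and the smaller one of `i, j` (note `V (q - 1/2) - 1 ≥ V/2 - 1`). So `|Δ(x0)| ≥ V/2 - 1 =
  40 L + 12 T + 7`, and `3 D c + 1 ≤ 3 q + 1 = 12 T + 7`.
* `c = 4 e + 2`: `D = 1`, `g = 1`, `x0 - X c = t` with `t = th c j + pos dl = 3/8 + al e j + a dl =
  1/2 + (a - lam e j) dl`, `a = pos x`. As `x` is structural and `lam e j = cl ± 1/4`, `cl` odd,
  `1 ≤ cl ≤ L - 1`, we have `|a - lam e j| ≥ 1/4` (`a` is an integer, or `1/4`, or `L - 1/4`), so
  `|t - 1/2| ≥ dl / 4`. By `pencil`, `Δ(x0) = (s c i - s c j) (t - 1/2) - (tau e i - tau e j)`, and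
  `s c i - s c j = al e i - al e j + sg e V (i - j)`, of absolute value at least `V - 1/4`, and
  `|tau e i - tau e j| ≤ 51/100`. So `|Δ(x0)| ≥ (V - 1/4) dl / 4 - 51/100 ≥
  (80 L + 15) / (16 L) - 51/100 > 5 - 51/100 > 4 = 3 D + 1`.
-/

set_option autoImplicit false

namespace Pool.Agent.CPW

private theorem pairs {P : Par} {c : ℕ} {σ K : ℝ} (hσ : σ = 1 ∨ σ = -1)
    (H : ∀ a b : ℕ, a < P.T → b < a → K ≤ σ * (P.F c b - P.F c a) ∧
      K ≤ σ * (P.F (c + 1) b - P.F (c + 1) a)) {i j : ℕ} (hi : i < P.T) (hj : j < P.T)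
    (hij : i ≠ j) {t : ℝ} (ht0 : 0 ≤ t) (htD : t ≤ P.D c) (hD : 0 < P.D c) :
    K ≤ |(P.F c i + P.s c i * t) - (P.F c j + P.s c j * t)| := by
  have key : ∀ a b : ℕ, a < P.T → b < a →
      K ≤ |(P.F c b + P.s c b * t) - (P.F c a + P.s c a * t)| := by
    intro a b ha hb
    obtain ⟨h1, h2⟩ := H a b ha hb
    rw [Par.F_succ, Par.F_succ] at h2
    have h3 : K ≤ σ * ((P.F c b + P.s c b * t) - (P.F c a + P.s c a * t)) := by
      have h4 : (P.D c - t) * K ≤ (P.D c - t) * (σ * (P.F c b - P.F c a)) :=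
        mul_le_mul_of_nonneg_left h1 (by linarith)
      have h5 := mul_le_mul_of_nonneg_left h2 ht0
      have h6 : P.D c * K ≤ P.D c *
          (σ * ((P.F c b + P.s c b * t) - (P.F c a + P.s c a * t))) := by
        calc P.D c * K = (P.D c - t) * K + t * K := by ring
          _ ≤ _ := add_le_add h4 h5
          _ = _ := by ring
      exact le_of_mul_le_mul_left h6 hD
    refine h3.trans ?_
    rcases hσ with rfl | rfl
    · rw [one_mul]
      exact le_abs_self _
    · rw [neg_one_mul]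
      exact neg_le_abs _
  rcases lt_or_gt_of_ne hij with h | h
  · exact key j i hj h
  · rw [abs_sub_comm]
    exact key i j hi h

private theorem nat_sub_lam {n m : ℕ} {r : ℝ} (hr : r = 1 / 4 ∨ r = -(1 / 4)) :
    1 / 4 ≤ |(n : ℝ) - ((m : ℝ) + r)| := by
  rcases lt_trichotomy n m with h | h | h
  · have h1 : (n : ℝ) + 1 ≤ m := by exact_mod_cast h
    rw [abs_sub_comm]
    refine le_trans ?_ (le_abs_self _)
    rcases hr with rfl | rfl <;> linarith
  · subst h
    have h1 : (n : ℝ) - ((n : ℝ) + r) = -r := by ring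
    rw [h1, abs_neg]
    rcases hr with rfl | rfl
    · norm_num
    · norm_num
  · have h1 : (m : ℝ) + 1 ≤ n := by exact_mod_cast h
    refine le_trans ?_ (le_abs_self _)
    rcases hr with rfl | rfl <;> linarith

private theorem lam_form (P : Par) (e i : ℕ) :
    ∃ r : ℝ, (r = 1 / 4 ∨ r = -(1 / 4)) ∧ P.lam e i = (P.cl e i : ℝ) + r := by
  unfold Par.lam
  split_ifs
  · exact ⟨1 / 4, Or.inl rfl, rfl⟩
  · exact ⟨-(1 / 4), Or.inr rfl, by ring⟩

private theorem pos_lam {P : Par} (h : P.Ok) (e j : ℕ) {x : Lab} (hx : P.str x) :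
    1 / 4 ≤ |P.pos e j x - P.lam e j| := by
  obtain ⟨r, hr, hl⟩ := lam_form P e j
  have h1 := Par.lam_ge h e j
  have h2 := Par.lam_le h e j
  cases x with
  | U l =>
    simp only [Par.pos]
    rw [hl]
    exact nat_sub_lam hr
  | W l =>
    simp only [Par.pos]
    rw [hl]
    exact nat_sub_lam hr
  | e =>
    simp only [Par.pos]
    rw [abs_sub_comm]
    refine le_trans ?_ (le_abs_self _)
    linarith
  | f =>
    simp only [Par.pos]
    refine le_trans ?_ (le_abs_self _)
    linarith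
  | w => exact absurd hx (by simp [Par.str])

theorem sep (P : Par) (h : P.Ok) {c i j : ℕ} (hi : i < P.T) (hj : j < P.T) (hij : i ≠ j)
    {x : Lab} (hx : P.str x) :
    3 * P.D c + 1 < |(P.F c i + P.s c i * ((P.Q c j x).1 - P.X c)) -
      (P.F c j + P.s c j * ((P.Q c j x).1 - P.X c))| := by
  have hL : (10 : ℝ) ≤ P.L := by exact_mod_cast h.ten
  have hT := Par.T_ge hi
  have hq := Par.q_ge hi
  have hV := Par.V_ge P
  have hQ := Par.Q_fst h hj (Par.str_lab (c := c) (i := j) hx)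
  have hD := Par.D_pos hi c
  have hDq := Par.D_le hi c
  rw [Par.X_succ] at hQ
  have ht0 : 0 ≤ (P.Q c j x).1 - P.X c := by linarith [hQ.1]
  have htD : (P.Q c j x).1 - P.X c ≤ P.D c := by linarith [hQ.2]
  have hK1 : P.V / 2 - 1 ≤ P.V * (P.q + 1 / 2) := by nlinarith
  have hK2 : P.V / 2 - 1 ≤ P.V * (P.q - 1 / 2) - 1 := by nlinarith
  have hfin : 3 * P.D c + 1 < P.V / 2 - 1 := by
    have h1 : P.q = 4 * P.T + 2 := rfl
    have h2 : P.V = 80 * P.L + 24 * P.T + 16 := rfl
    linarith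
  have hneg : ∀ e, -Par.sg e = 1 ∨ -Par.sg e = -1 := by
    intro e
    rcases Par.sg_cases e with h1 | h1 <;> rw [h1]
    · exact Or.inr rfl
    · exact Or.inl (by norm_num)
  have h4 : c % 4 = 0 ∨ c % 4 = 1 ∨ c % 4 = 2 ∨ c % 4 = 3 := by omega
  rcases h4 with hc | hc | hc | hc
  · obtain ⟨e, rfl⟩ : ∃ e, c = 4 * e := ⟨c / 4, by omega⟩
    refine hfin.trans_le (pairs (Par.sg_cases e) (fun a b ha hb => ⟨?_, ?_⟩) hi hj hij ht0 htD hD)
    · exact hK1.trans (Par.gap0 h e ha hb)
    · exact hK2.trans (Par.gap1 h e ha hb)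
  · obtain ⟨e, rfl⟩ : ∃ e, c = 4 * e + 1 := ⟨c / 4, by omega⟩
    refine hfin.trans_le (pairs (Par.sg_cases e) (fun a b ha hb => ⟨?_, ?_⟩) hi hj hij ht0 htD hD)
    · exact hK2.trans (Par.gap1 h e ha hb)
    · exact Par.gap2 h e ha hb
  · obtain ⟨e, rfl⟩ : ∃ e, c = 4 * e + 2 := ⟨c / 4, by omega⟩
    have hdiv : (4 * e + 2) / 4 = e := by omega
    have hmod : (4 * e + 2) % 4 = 2 := by omega
    have hD1 : P.D (4 * e + 2) = 1 := by
      unfold Par.D
      simp [hmod]
    have hth : ∀ k, P.th (4 * e + 2) k = 3 / 8 + P.al e k := by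
      intro k
      unfold Par.th
      simp [hmod, hdiv]
    have hG : ∀ k, P.G (4 * e + 2) k = (e : ℝ) * (P.M + 3) + P.M + 2 - Par.sg e * P.V * k := by
      intro k
      unfold Par.G
      rw [hmod, hdiv]
      norm_num
    have hg : P.g (4 * e + 2) j = 1 := Par.g_of_ne (by omega) j
    have ht : (P.Q (4 * e + 2) j x).1 - P.X (4 * e + 2) =
        1 / 2 + (P.pos e j x - P.lam e j) * P.dl := by
      simp only [Par.Q, pt]
      rw [hD1, hg, hth, hdiv]
      unfold Par.al
      ring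
    set t := (P.Q (4 * e + 2) j x).1 - P.X (4 * e + 2) with htd
    have hs : P.s (4 * e + 2) i - P.s (4 * e + 2) j =
        P.al e i - P.al e j + Par.sg e * (P.V * ((i : ℝ) - j)) := by
      unfold Par.s
      rw [hth, hth, hG, hG]
      ring
    have hpen := Par.pencil P e i j
    have hΔ : (P.F (4 * e + 2) i + P.s (4 * e + 2) i * t) -
        (P.F (4 * e + 2) j + P.s (4 * e + 2) j * t) =
        (P.s (4 * e + 2) i - P.s (4 * e + 2) j) * (t - 1 / 2) - (P.tau e i - P.tau e j) := by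
      linear_combination hpen
    have hij1 : 1 ≤ |(i : ℝ) - j| := by
      rcases lt_or_gt_of_ne hij with h1 | h1
      · have h2 : (i : ℝ) + 1 ≤ j := by exact_mod_cast h1
        rw [abs_sub_comm]
        refine le_trans ?_ (le_abs_self _)
        linarith
      · have h2 : (j : ℝ) + 1 ≤ i := by exact_mod_cast h1
        refine le_trans ?_ (le_abs_self _)
        linarith
    have hdl := Par.dl_pos h
    have hLdl := Par.L_dl h
    have hs1 : P.V - 1 / 4 ≤ |P.s (4 * e + 2) i - P.s (4 * e + 2) j| := by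
      rw [hs]
      have h1 : P.V ≤ |Par.sg e * (P.V * ((i : ℝ) - j))| := by
        rw [abs_mul, abs_mul, abs_of_pos (Par.V_pos P)]
        have h2 : |Par.sg e| = 1 := by
          rcases Par.sg_cases e with h1 | h1 <;> rw [h1] <;> norm_num
        rw [h2, one_mul]
        nlinarith [Par.V_pos P]
      have h2 : |P.al e i - P.al e j| ≤ 1 / 4 := by
        rw [abs_le]
        have h3 := Par.al_ge h e i
        have h4 := Par.al_le h e i
        have h5 := Par.al_ge h e j
        have h6 := Par.al_le h e j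
        constructor <;> linarith
      have h3 := abs_sub_abs_le_abs_sub (Par.sg e * (P.V * ((i : ℝ) - j)))
        (-(P.al e i - P.al e j))
      rw [abs_neg, sub_neg_eq_add, add_comm (Par.sg e * (P.V * ((i : ℝ) - j)))] at h3
      linarith
    have ht1 : P.dl / 4 ≤ |t - 1 / 2| := by
      have h1 : t - 1 / 2 = (P.pos e j x - P.lam e j) * P.dl := by
        rw [ht]
        ring
      rw [h1, abs_mul, abs_of_pos hdl]
      have h2 := mul_le_mul_of_nonneg_right (pos_lam h e j hx) hdl.le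
      linarith
    have htau : |P.tau e i - P.tau e j| ≤ 51 / 100 := by
      rw [abs_le]
      have h3 := Par.tau_ge h e i
      have h4 := Par.tau_le' h e i
      have h5 := Par.tau_ge h e j
      have h6 := Par.tau_le' h e j
      constructor <;> linarith
    have hprod : (P.V - 1 / 4) * (P.dl / 4) ≤
        |(P.s (4 * e + 2) i - P.s (4 * e + 2) j) * (t - 1 / 2)| := by
      rw [abs_mul]
      exact mul_le_mul hs1 ht1 (by positivity) (abs_nonneg _)
    have h7 := abs_sub_abs_le_abs_sub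
      ((P.s (4 * e + 2) i - P.s (4 * e + 2) j) * (t - 1 / 2)) (P.tau e i - P.tau e j)
    rw [hΔ, hD1]
    have h8 : 5 ≤ (P.V - 1 / 4) * (P.dl / 4) := by
      have h2 : P.V = 80 * P.L + 24 * P.T + 16 := rfl
      have h9 : (P.V - 1 / 4) * (P.dl / 4) =
          20 * (P.L * P.dl) + (24 * P.T + 16 - 1 / 4) * (P.dl / 4) := by
        rw [h2]
        ring
      rw [h9, hLdl]
      have h10 : 0 ≤ (24 * (P.T : ℝ) + 16 - 1 / 4) * (P.dl / 4) :=
        mul_nonneg (by linarith) (by positivity)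
      linarith
    linarith
  · obtain ⟨e, rfl⟩ : ∃ e, c = 4 * e + 3 := ⟨c / 4, by omega⟩
    refine hfin.trans_le (pairs (hneg e) (fun a b ha hb => ⟨?_, ?_⟩) hi hj hij ht0 htD hD)
    · have h1 := Par.gap3 h e ha hb
      linarith
    · have h1 := hK1.trans (Par.gap4 h e ha hb)
      have h2 : 4 * e + 3 + 1 = 4 * e + 4 := rfl
      rw [h2]
      linarith

end Pool.Agent.CPW
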