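import Pool.Agent.CPW.Defs

/-!
# Slopes (proved)
-/

set_option autoImplicit false

namespace Pool.Agent.CPW

theorem sl_in {X F D g th G dl a o u : ℝ} (hD : 0 < D) (hg : 0 < g) (hA : 0 < th + a * dl) :
    sl (X, F + u) (pt X F D g th G dl a o) =
      -(G - g) - a * dl + o * dl ^ 2 / (8 * (th + a * dl)) - u * g / (D * (th + a * dl)) := by
  have hD' := hD.ne'
  have hg' := hg.ne'
  have hA' := hA.ne'
  simp only [sl, pt]
  have h1 : X + D * (th + a * dl) / g - X = D * (th + a * dl) / g := by ring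
  rw [h1]
  field_simp
  ring

theorem sl_out {X F D g th G dl a o u : ℝ} (hD : 0 < D) (hg : 0 < g)
    (hA : th + a * dl < g) :
    sl (pt X F D g th G dl a o) (X + D, F + D * (th - G) + u) =
      -G - a * dl - o * dl ^ 2 / (8 * (g - th - a * dl)) + u * g / (D * (g - th - a * dl)) := by
  have hD' := hD.ne'
  have hg' := hg.ne'
  have hA' : g - th - a * dl ≠ 0 := by
    have : 0 < g - th - a * dl := by linarith
    exact this.ne'
  simp only [sl, pt]
  have h1 : X + D - (X + D * (th + a * dl) / g) = D * (g - th - a * dl) / g := by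
    field_simp
    ring
  rw [h1]
  field_simp
  ring

theorem sl_mid {X F D g th G dl a o a' o' : ℝ} (hD : 0 < D) (hg : 0 < g) (hdl : 0 < dl)
    (ha : a ≠ a') :
    sl (pt X F D g th G dl a o) (pt X F D g th G dl a' o') =
      -(G - g) - th - (a + a') * dl + (o' - o) * dl / (8 * (a' - a)) := by
  have hD' := hD.ne'
  have hg' := hg.ne'
  have hdl' := hdl.ne'
  have ha' : a' - a ≠ 0 := sub_ne_zero.2 ha.symm
  simp only [sl, pt]
  have h1 : X + D * (th + a' * dl) / g - (X + D * (th + a * dl) / g) =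
      D * ((a' - a) * dl) / g := by
    field_simp
    ring
  rw [h1]
  field_simp
  ring

theorem sl_col {X Y D u v : ℝ} (hD : 0 < D) {s : ℝ} (hs : v = Y + D * s) (w : ℝ) :
    sl (X, Y + u) (X + D, v + w) = s + (w - u) / D := by
  have hD' := hD.ne'
  simp only [sl]
  rw [hs]
  have : X + D - X = D := by ring
  rw [this]
  field_simp
  ring

theorem pt_fst_gt {X F D g th G dl a o : ℝ} (hD : 0 < D) (hg : 0 < g) (hA : 0 < th + a * dl) :
    X < (pt X F D g th G dl a o).1 := by
  simp only [pt]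
  have : 0 < D * (th + a * dl) / g := by positivity
  linarith

theorem pt_fst_lt {X F D g th G dl a o : ℝ} (hD : 0 < D) (hg : 0 < g) (hA : th + a * dl < g) :
    (pt X F D g th G dl a o).1 < X + D := by
  simp only [pt]
  have h1 : D * (th + a * dl) / g < D := by
    rw [div_lt_iff₀ hg]
    exact mul_lt_mul_of_pos_left hA hD
  linarith

theorem pt_fst_lt_iff {X F D g th G dl a o a' o' : ℝ} (hD : 0 < D) (hg : 0 < g) (hdl : 0 < dl) :
    (pt X F D g th G dl a o).1 < (pt X F D g th G dl a' o').1 ↔ a < a' := by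
  simp only [pt]
  rw [add_lt_add_iff_left, div_lt_div_iff_of_pos_right hg, mul_lt_mul_iff_right₀ hD,
    add_lt_add_iff_left, mul_lt_mul_iff_left₀ hdl]

theorem pt_fst_eq_iff {X F D g th G dl a o a' o' : ℝ} (hD : 0 < D) (hg : 0 < g) (hdl : 0 < dl) :
    (pt X F D g th G dl a o).1 = (pt X F D g th G dl a' o').1 ↔ a = a' := by
  constructor
  · intro h
    rcases lt_trichotomy a a' with h1 | h1 | h1
    · exact absurd h ((pt_fst_lt_iff (o := o) (o' := o') hD hg hdl).2 h1).ne
    · exact h1
    · exact absurd h ((pt_fst_lt_iff (o := o') (o' := o) hD hg hdl).2 h1).ne'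
  · rintro rfl
    simp [pt]

/-- Slopes are averages. -/
theorem sl_left_lt {a b c : Pt} (h1 : a.1 < b.1) (h2 : b.1 < c.1) (h : sl b c < sl a b) :
    sl a c < sl a b ∧ sl b c < sl a c := by
  simp only [sl] at *
  have e1 : 0 < b.1 - a.1 := by linarith
  have e2 : 0 < c.1 - b.1 := by linarith
  have e3 : 0 < c.1 - a.1 := by linarith
  rw [div_lt_div_iff₀ e2 e1] at h
  constructor
  · rw [div_lt_div_iff₀ e3 e1]
    nlinarith
  · rw [div_lt_div_iff₀ e2 e3]
    nlinarith

theorem CapPart_of_cover {S : Set Pt} {k : ℕ} (A : ℕ → Set Pt) (hA : ∀ j < k, Cap (A j))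
    (hS : ∀ z ∈ S, ∃ j < k, z ∈ A j) : CapPart S k := by
  classical
  refine ⟨fun z => if h : ∃ j < k, z ∈ A j then Nat.find h else 0, fun z hz => ?_, fun j hj => ?_⟩
  · have h := hS z hz
    simp only [dif_pos h]
    exact (Nat.find_spec h).1
  · have key : ∀ z, z ∈ S ∧ (if h : ∃ j < k, z ∈ A j then Nat.find h else 0) = j → z ∈ A j := by
      rintro z ⟨hz, hj⟩
      have h := hS z hz
      rw [dif_pos h] at hj
      rw [← hj]
      exact (Nat.find_spec h).2
    exact ⟨fun a ha b hb => (hA j hj).inj a (key a ha) b (key b hb),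
      fun a ha b hb c hc => (hA j hj).conc a (key a ha) b (key b hb) c (key c hc)⟩

end Pool.Agent.CPW
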