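import Mathlib
import Pool.Agent.PT.Out
import Pool.Agent.PT.UF
import Pool.Agent.B7219d.Enc
import Pool.Agent.CPW.ClDefs

/-!
# Definitions for the polynomial time part and for the final theorem
-/

set_option autoImplicit false

namespace Pool.Agent.CPW

open Pool.Agent.PT Turing
open Pool.Agent.B7219d (nn aj)

/-- Instances of the clique problem: a graph on the vertices `0, …, n-1` and a number `k`. -/
structure CInst : Type where
  n : ℕ
  G : SimpleGraph (Fin n)
  k : ℕ

open Classical in
/-- The code of the instance `(G, k)`: `1^n`, a separator, the adjacency matrix row by row, a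
separator, `1^k`. -/
noncomputable def encC (I : CInst) : List (Option Bool) :=
  List.replicate I.n (some true) ++ none ::
    (List.ofFn (fun p : Fin (I.n * I.n) => some (decide (I.G.Adj p.divNat p.modNat))) ++
      none :: List.replicate I.k (some true))

/-- Instances of the partition problem: a number and a list of quadruples of natural numbers; the
quadruple `(a, b, c, d)` stands for the point `(a / (b+1), c / (d+1))`. -/
abbrev PInst : Type := ℕ × List (ℕ × ℕ × ℕ × ℕ)

/-- The points of an instance. -/
def pts (P : PInst) : Set Pt :=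
  {z | ∃ t ∈ P.2, z = ((t.1 : ℝ) / (t.2.1 + 1), (t.2.2.1 : ℝ) / (t.2.2.2 + 1))}

/-- The code of a list of natural numbers, all numbers in unary: `1^m 0` for every number `m`. -/
def encN (l : List ℕ) : List Bool := l.flatMap fun m => List.replicate m true ++ [false]

/-- The code of an instance of the partition problem: the list of all its numbers, in unary. -/
def encP (P : PInst) : List Bool :=
  encN (P.1 :: P.2.flatMap fun t => [t.1, t.2.1, t.2.2.1, t.2.2.2])

/-- The least number of parts in a partition into sets in convex position. -/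
noncomputable def CP (S : Set Pt) : ℕ := sInf {k : ℕ | ConvPart S k}

/-! ### Working on words -/

/-- The number `k`, read from the word. -/
noncomputable def kk (x : List (Option Bool)) : ℕ := x.length - (nn x + 1 + nn x * nn x + 1)

/-- The parameters, read from the word. -/
noncomputable def parW (x : List (Option Bool)) : Par := par (nn x) (kk x) (aj x)

/-- Real valued functions of a word and of natural numbers which are given by terms:
`(a - b) / d` with `a, b, d` given by terms, `d > 0`. -/
def UR {Γ : Type} (f : List Γ → (ℕ → ℕ) → ℝ) : Prop :=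
  ∃ a b d : List Γ → (ℕ → ℕ) → ℕ, UF a ∧ UF b ∧ UF d ∧ (∀ x e, 0 < d x e) ∧
    ∀ x e, f x e = ((a x e : ℝ) - b x e) / d x e

/-! ### Enumeration of the points -/

/-- The label number `t`, `t < 2 L + 4`. -/
def labT (L t : ℕ) : Lab :=
  if t < L + 1 then Lab.U t else if t < 2 * L + 2 then Lab.W (t - (L + 1))
  else if t = 2 * L + 2 then Lab.e else Lab.f

open Classical in
/-- The point number `j`. -/
noncomputable def pnt (P : Par) (K j : ℕ) : Pt :=
  if j < 2 * K then (0, (j : ℝ))
  else if j < 4 * K then (P.wd, ((j - 2 * K : ℕ) : ℝ))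
  else if j - 4 * K < (4 * P.E + 1) * (P.T * 5) then
    P.Pc ((j - 4 * K) / (P.T * 5)) ((j - 4 * K) % (P.T * 5) / 5) ((j - 4 * K) % (P.T * 5) % 5)
  else if j - 4 * K - (4 * P.E + 1) * (P.T * 5) < 4 * P.E * (P.T * (2 * P.L + 4)) then
    P.Q ((j - 4 * K - (4 * P.E + 1) * (P.T * 5)) / (P.T * (2 * P.L + 4)))
      ((j - 4 * K - (4 * P.E + 1) * (P.T * 5)) % (P.T * (2 * P.L + 4)) / (2 * P.L + 4))
      (labT P.L ((j - 4 * K - (4 * P.E + 1) * (P.T * 5)) % (P.T * (2 * P.L + 4)) %
        (2 * P.L + 4)))
  else if P.pre (j - 4 * K - (4 * P.E + 1) * (P.T * 5) - 4 * P.E * (P.T * (2 * P.L + 4))) then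
    P.om (j - 4 * K - (4 * P.E + 1) * (P.T * 5) - 4 * P.E * (P.T * (2 * P.L + 4)))
  else P.Pc 0 0 0

/-- The number of points. -/
def cnt (P : Par) (K : ℕ) : ℕ :=
  4 * K + (4 * P.E + 1) * (P.T * 5) + 4 * P.E * (P.T * (2 * P.L + 4)) + P.E

end Pool.Agent.CPW
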