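import Pool.Agent.CPW.Defs

/-!
# Package TrkA: two classes on a part of a gadget

`pat1` (left end): for `l = 1`: the class of `e` is `κ (U 0)` or `κ (W 0)` (both classes `A, B` occur
in column `0`), and `κ (U 1)` or `κ (W 1)`; `hb3` excludes all combinations except
`κ e = κ (W 0) = κ (W 1)`; so also `κ (U 0) = κ (U 1)` (the other class; two values only). Step: let
`l` be odd, `l + 2 ≤ b` and `κ (U (l-1)) = κ (U l)`. By `hb1` at `l`, `κ (U (l+1)) ≠ κ (U l)`, so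
`κ (W (l+1)) = κ (U l)`; by `hb2` at `l + 1`, `κ (U (l+2)) ≠ κ (U l)`, so
`κ (U (l+2)) = κ (U (l+1))` and `κ (W (l+2)) = κ (W (l+1))`.

`pat0` is the mirror image (right end `L`, even; `l` runs down from `L - 1`).

`two_false`: by `pat1` at `l = 1`, `κ (U 0) = κ (U 1)`, by `pat0` at `l = 1`, `κ (U 1) = κ (U 2)`:
contradiction to `hb1` at `l = 1`.
-/

set_option autoImplicit false

namespace Pool.Agent.CPW

open Lab

theorem pat1 (κ : Lab → ℕ) (A B b : ℕ)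
    (hAB : ∀ l ≤ b, (κ (U l) = A ∨ κ (U l) = B) ∧ (κ (W l) = A ∨ κ (W l) = B))
    (he : κ e = A ∨ κ e = B) (hne : ∀ l ≤ b, κ (U l) ≠ κ (W l))
    (hb1 : ∀ l, l % 2 = 1 → l + 1 ≤ b → ¬ (κ (U (l - 1)) = κ (U l) ∧ κ (U l) = κ (U (l + 1))))
    (hb2 : ∀ l, l % 2 = 0 → 0 < l → l + 1 ≤ b →
      ¬ (κ (U (l - 1)) = κ (W l) ∧ κ (W l) = κ (U (l + 1))))
    (hb3 : (κ e = κ (U 0) → κ e ≠ κ (W 1) ∧ κ e ≠ κ (U 1)) ∧ (κ e = κ (W 0) → κ e ≠ κ (U 1))) :
    ∀ l ≤ b, l % 2 = 1 → κ (U l) = κ (U (l - 1)) ∧ κ (W l) = κ (W (l - 1)) := by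
  have key : ∀ k, 2 * k + 1 ≤ b → κ (U (2 * k + 1)) = κ (U (2 * k)) ∧
      κ (W (2 * k + 1)) = κ (W (2 * k)) := by
    intro k
    induction k with
    | zero =>
      intro hb
      have a0 := hAB 0 (Nat.zero_le _)
      have a1 := hAB 1 hb
      have n0 := hne 0 (Nat.zero_le _)
      have n1 := hne 1 hb
      rw [Nat.mul_zero, Nat.zero_add]
      omega
    | succ k ih =>
      intro hb
      have h1 := ih (by omega)
      have h2 := hb1 (2 * k + 1) (by omega) (by omega)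
      have h3 := hb2 (2 * k + 1 + 1) (by omega) (by omega) (by omega)
      rw [Nat.add_sub_cancel] at h2 h3
      have a1 := hAB (2 * k + 1) (by omega)
      have a2 := hAB (2 * k + 1 + 1) (by omega)
      have a3 := hAB (2 * k + 1 + 1 + 1) (by omega)
      have n2 := hne (2 * k + 1 + 1) (by omega)
      have n3 := hne (2 * k + 1 + 1 + 1) (by omega)
      have e1 : 2 * (k + 1) = 2 * k + 1 + 1 := by ring
      rw [e1]
      omega
  intro l hl hodd
  have h1 := key (l / 2) (by omega)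
  have e1 : 2 * (l / 2) + 1 = l := by omega
  have e2 : 2 * (l / 2) = l - 1 := by omega
  rw [e1, e2] at h1
  exact h1

theorem pat0 (κ : Lab → ℕ) (A B b L : ℕ) (hL : L % 2 = 0)
    (hAB : ∀ l, b ≤ l → l ≤ L → (κ (U l) = A ∨ κ (U l) = B) ∧ (κ (W l) = A ∨ κ (W l) = B))
    (hf : κ f = A ∨ κ f = B) (hne : ∀ l, b ≤ l → l ≤ L → κ (U l) ≠ κ (W l))
    (hb1 : ∀ l, l % 2 = 1 → b + 1 ≤ l → l < L →
      ¬ (κ (U (l - 1)) = κ (U l) ∧ κ (U l) = κ (U (l + 1))))
    (hb2 : ∀ l, l % 2 = 0 → b + 1 ≤ l → l < L →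
      ¬ (κ (U (l - 1)) = κ (W l) ∧ κ (W l) = κ (U (l + 1))))
    (hb3 : (κ f = κ (U L) → κ f ≠ κ (W (L - 1)) ∧ κ f ≠ κ (U (L - 1))) ∧
      (κ f = κ (W L) → κ f ≠ κ (U (L - 1)))) :
    ∀ l, b ≤ l → l < L → l % 2 = 1 → κ (U l) = κ (U (l + 1)) ∧ κ (W l) = κ (W (l + 1)) := by
  have key : ∀ k l, l + (2 * k + 1) = L → b ≤ l → κ (U l) = κ (U (l + 1)) ∧
      κ (W l) = κ (W (l + 1)) := by
    intro k
    induction k with
    | zero =>
      intro l hl hb
      have hL' : L = l + 1 := by omega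
      rw [hL'] at hb3
      rw [Nat.add_sub_cancel] at hb3
      have a0 := hAB l hb (by omega)
      have a1 := hAB (l + 1) (by omega) (by omega)
      have n0 := hne l hb (by omega)
      have n1 := hne (l + 1) (by omega) (by omega)
      omega
    | succ k ih =>
      intro l hl hb
      have h1 := ih (l + 1 + 1) (by omega) (by omega)
      have h2 := hb1 (l + 1 + 1) (by omega) (by omega) (by omega)
      have h3 := hb2 (l + 1) (by omega) (by omega) (by omega)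
      rw [Nat.add_sub_cancel] at h2 h3
      have a0 := hAB l hb (by omega)
      have a1 := hAB (l + 1) (by omega) (by omega)
      have a2 := hAB (l + 1 + 1) (by omega) (by omega)
      have n0 := hne l hb (by omega)
      have n1 := hne (l + 1) (by omega) (by omega)
      omega
  intro l hb hl hodd
  exact key ((L - l) / 2) l (by omega) hb

theorem two_false (κ : Lab → ℕ) (A B L : ℕ) (hL : L % 2 = 0) (hL2 : 2 ≤ L)
    (hAB : ∀ l ≤ L, (κ (U l) = A ∨ κ (U l) = B) ∧ (κ (W l) = A ∨ κ (W l) = B))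
    (he : κ e = A ∨ κ e = B) (hf : κ f = A ∨ κ f = B) (hne : ∀ l ≤ L, κ (U l) ≠ κ (W l))
    (hb1 : ∀ l, l % 2 = 1 → l < L → ¬ (κ (U (l - 1)) = κ (U l) ∧ κ (U l) = κ (U (l + 1))))
    (hb2 : ∀ l, l % 2 = 0 → 0 < l → l < L →
      ¬ (κ (U (l - 1)) = κ (W l) ∧ κ (W l) = κ (U (l + 1))))
    (hb3 : (κ e = κ (U 0) → κ e ≠ κ (W 1) ∧ κ e ≠ κ (U 1)) ∧ (κ e = κ (W 0) → κ e ≠ κ (U 1)))
    (hb3' : (κ f = κ (U L) → κ f ≠ κ (W (L - 1)) ∧ κ f ≠ κ (U (L - 1))) ∧
      (κ f = κ (W L) → κ f ≠ κ (U (L - 1)))) : False := by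
  have h1 := pat1 κ A B L hAB he hne (fun l h h' => hb1 l h h')
    (fun l h h' h'' => hb2 l h h' h'') hb3 1 (by omega) rfl
  have h2 := pat0 κ A B 0 L hL (fun l _ h => hAB l h) hf (fun l _ h => hne l h)
    (fun l h _ h' => hb1 l h h') (fun l h h' h'' => hb2 l h (by omega) h'') hb3' 1 (by omega)
    (by omega) rfl
  exact hb1 1 rfl (by omega) ⟨h1.1.symm, h2.1⟩

end Pool.Agent.CPW
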