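import Pool.Agent.CPW.TDefs

/-!
# Package URc: closure properties of the class `UR`

`UR f`: `f = (a - b) / d` with `a, b, d` in `UF` and `d > 0`.
* `nat`: `a = f, b = 0, d = 1`.
* `add`: `(a d' + a' d - (b d' + b' d)) / (d d')`. `neg`: exchange `a` and `b`. `sub` from these.
* `mul`: `(a a' + b b' - (a b' + b a')) / (d d')`.
* `inv` (`0⁻¹ = 0`): if `b < a`: `(d - 0) / (a - b)`; if `a < b`: `(0 - d) / (b - a)`; otherwise
  `(0 - 0)/1`; built with `UF.ite` (natural subtraction is exact in the respective case).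
* `div` from `inv` and `mul`; `pow` by induction; `ite` componentwise with `UF.ite`.
* `comp₁, comp₂, comp₃`: from `UF.comp₁ …` for the three components.
* `frac`: if `0 ≤ f x e` then `f x e = (a - b : ℕ) / ((d - 1) + 1)` (if `a < b` the value would be
  negative).
-/

set_option autoImplicit false

namespace Pool.Agent.CPW

open Pool.Agent.PT

namespace UR

variable {Γ : Type}

theorem congr {f g : List Γ → (ℕ → ℕ) → ℝ} (hf : UR f) (h : ∀ x e, f x e = g x e) : UR g := by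
  obtain ⟨a, b, d, ha, hb, hd, hp, he⟩ := hf
  exact ⟨a, b, d, ha, hb, hd, hp, fun x e => (h x e).symm.trans (he x e)⟩

theorem nat {f : List Γ → (ℕ → ℕ) → ℕ} (hf : UF f) : UR (fun x e => (f x e : ℝ)) :=
  ⟨f, fun _ _ => 0, fun _ _ => 1, hf, UF.const 0, UF.const 1, fun _ _ => Nat.one_pos,
    fun x e => by simp⟩

/-- Numerals: use `(num 3).congr …` or unification up to `norm_num`. -/
theorem num (n : ℕ) : UR (Γ := Γ) (fun _ _ => (n : ℝ)) := nat (UF.const n)

theorem one : UR (Γ := Γ) (fun _ _ => (1 : ℝ)) :=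
  (num 1).congr fun _ _ => Nat.cast_one

theorem zero : UR (Γ := Γ) (fun _ _ => (0 : ℝ)) :=
  (num 0).congr fun _ _ => Nat.cast_zero

theorem ofNat (n : ℕ) [n.AtLeastTwo] : UR (Γ := Γ) (fun _ _ => (OfNat.ofNat n : ℝ)) :=
  (num n).congr fun _ _ => rfl

theorem add {f g : List Γ → (ℕ → ℕ) → ℝ} (hf : UR f) (hg : UR g) :
    UR (fun x e => f x e + g x e) := by
  obtain ⟨a, b, d, ha, hb, hd, hp, he⟩ := hf
  obtain ⟨a', b', d', ha', hb', hd', hp', he'⟩ := hg
  refine ⟨fun x e => a x e * d' x e + a' x e * d x e, fun x e => b x e * d' x e + b' x e * d x e,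
    fun x e => d x e * d' x e, (ha.mul hd').add (ha'.mul hd), (hb.mul hd').add (hb'.mul hd),
    hd.mul hd', fun x e => Nat.mul_pos (hp x e) (hp' x e), fun x e => ?_⟩
  have h1 : (d x e : ℝ) ≠ 0 := by exact_mod_cast (hp x e).ne'
  have h2 : (d' x e : ℝ) ≠ 0 := by exact_mod_cast (hp' x e).ne'
  beta_reduce
  rw [he, he']
  push_cast
  field_simp
  ring

theorem neg {f : List Γ → (ℕ → ℕ) → ℝ} (hf : UR f) : UR (fun x e => -f x e) := by
  obtain ⟨a, b, d, ha, hb, hd, hp, he⟩ := hf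
  refine ⟨b, a, d, hb, ha, hd, hp, fun x e => ?_⟩
  beta_reduce
  rw [he, ← neg_div, neg_sub]

theorem sub {f g : List Γ → (ℕ → ℕ) → ℝ} (hf : UR f) (hg : UR g) :
    UR (fun x e => f x e - g x e) :=
  (hf.add hg.neg).congr fun x e => (sub_eq_add_neg (f x e) (g x e)).symm

theorem mul {f g : List Γ → (ℕ → ℕ) → ℝ} (hf : UR f) (hg : UR g) :
    UR (fun x e => f x e * g x e) := by
  obtain ⟨a, b, d, ha, hb, hd, hp, he⟩ := hf
  obtain ⟨a', b', d', ha', hb', hd', hp', he'⟩ := hg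
  refine ⟨fun x e => a x e * a' x e + b x e * b' x e, fun x e => a x e * b' x e + b x e * a' x e,
    fun x e => d x e * d' x e, (ha.mul ha').add (hb.mul hb'), (ha.mul hb').add (hb.mul ha'),
    hd.mul hd', fun x e => Nat.mul_pos (hp x e) (hp' x e), fun x e => ?_⟩
  have h1 : (d x e : ℝ) ≠ 0 := by exact_mod_cast (hp x e).ne'
  have h2 : (d' x e : ℝ) ≠ 0 := by exact_mod_cast (hp' x e).ne'
  beta_reduce
  rw [he, he']
  push_cast
  field_simp
  ring

theorem inv {f : List Γ → (ℕ → ℕ) → ℝ} (hf : UR f) : UR (fun x e => (f x e)⁻¹) := by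
  classical
  obtain ⟨a, b, d, ha, hb, hd, hp, he⟩ := hf
  refine ⟨fun x e => if b x e < a x e then d x e else 0,
    fun x e => if a x e < b x e then d x e else 0,
    fun x e => if b x e < a x e then a x e - b x e
      else if a x e < b x e then b x e - a x e else 1,
    UF.ite (inst := fun _ _ => _) (UP.lt hb ha) hd (UF.const 0),
    UF.ite (inst := fun _ _ => _) (UP.lt ha hb) hd (UF.const 0),
    UF.ite (inst := fun _ _ => _) (UP.lt hb ha) (ha.sub hb)
      (UF.ite (inst := fun _ _ => _) (UP.lt ha hb) (hb.sub ha) (UF.const 1)),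
    fun x e => ?_, fun x e => ?_⟩
  · beta_reduce
    split_ifs <;> omega
  · have h1 : (d x e : ℝ) ≠ 0 := by exact_mod_cast (hp x e).ne'
    beta_reduce
    rw [he]
    rcases lt_trichotomy (b x e) (a x e) with h | h | h
    · have h2 : ¬ a x e < b x e := not_lt.2 h.le
      rw [if_pos h, if_neg h2, if_pos h, Nat.cast_sub h.le, inv_div, Nat.cast_zero, sub_zero]
    · have h2 : ¬ b x e < a x e := not_lt.2 h.ge
      have h3 : ¬ a x e < b x e := not_lt.2 h.le
      rw [if_neg h2, if_neg h3, if_neg h2, if_neg h3, h]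
      simp
    · have h2 : ¬ b x e < a x e := not_lt.2 h.le
      have h3 : ((a x e : ℝ) - b x e) ≠ 0 := by
        have : (a x e : ℝ) < b x e := by exact_mod_cast h
        exact (sub_neg.2 this).ne
      have h4 : ((b x e : ℝ) - a x e) ≠ 0 := by
        have : (a x e : ℝ) < b x e := by exact_mod_cast h
        exact (sub_pos.2 this).ne'
      rw [if_neg h2, if_pos h, if_neg h2, if_pos h, Nat.cast_sub h.le, inv_div, Nat.cast_zero,
        zero_sub, div_eq_div_iff h3 h4]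
      ring

theorem div {f g : List Γ → (ℕ → ℕ) → ℝ} (hf : UR f) (hg : UR g) :
    UR (fun x e => f x e / g x e) :=
  (hf.mul hg.inv).congr fun x e => (div_eq_mul_inv (f x e) (g x e)).symm

theorem pow {f : List Γ → (ℕ → ℕ) → ℝ} (hf : UR f) (n : ℕ) : UR (fun x e => f x e ^ n) := by
  induction n with
  | zero => exact one.congr fun x e => (pow_zero (f x e)).symm
  | succ n ih => exact (ih.mul hf).congr fun x e => (pow_succ (f x e) n).symm

theorem ite {p : List Γ → (ℕ → ℕ) → Prop} {f g : List Γ → (ℕ → ℕ) → ℝ}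
    {inst : ∀ x e, Decidable (p x e)} (hp : UP p) (hf : UR f) (hg : UR g) :
    UR (fun x e => @_root_.ite ℝ (p x e) (inst x e) (f x e) (g x e)) := by
  obtain ⟨a, b, d, ha, hb, hd, hq, he⟩ := hf
  obtain ⟨a', b', d', ha', hb', hd', hq', he'⟩ := hg
  refine ⟨fun x e => @_root_.ite ℕ (p x e) (inst x e) (a x e) (a' x e),
    fun x e => @_root_.ite ℕ (p x e) (inst x e) (b x e) (b' x e),
    fun x e => @_root_.ite ℕ (p x e) (inst x e) (d x e) (d' x e),
    UF.ite hp ha ha', UF.ite hp hb hb', UF.ite hp hd hd', fun x e => ?_, fun x e => ?_⟩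
  · by_cases h : p x e
    · simp only [if_pos h]
      exact hq x e
    · simp only [if_neg h]
      exact hq' x e
  · by_cases h : p x e
    · simp only [if_pos h]
      exact he x e
    · simp only [if_neg h]
      exact he' x e

theorem comp₁ {f : List Γ → ℕ → ℝ} (hf : UR (fun x e => f x (e 0)))
    {g : List Γ → (ℕ → ℕ) → ℕ} (hg : UF g) : UR (fun x e => f x (g x e)) := by
  obtain ⟨a, b, d, ha, hb, hd, hp, he⟩ := hf
  exact ⟨_, _, _, ha.subst (fun _ => g) (fun _ => hg), hb.subst (fun _ => g) (fun _ => hg),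
    hd.subst (fun _ => g) (fun _ => hg), fun x e => hp x _, fun x e => he x (fun _ => g x e)⟩

theorem comp₂ {f : List Γ → ℕ → ℕ → ℝ} (hf : UR (fun x e => f x (e 0) (e 1)))
    {g h : List Γ → (ℕ → ℕ) → ℕ} (hg : UF g) (hh : UF h) :
    UR (fun x e => f x (g x e) (h x e)) := by
  obtain ⟨a, b, d, ha, hb, hd, hp, he⟩ := hf
  have hG : ∀ i : ℕ, UF (Γ := Γ) ((fun i => Nat.casesOn i g (fun _ => h) :
      ℕ → List Γ → (ℕ → ℕ) → ℕ) i) := fun i => by cases i; exacts [hg, hh]
  exact ⟨_, _, _, ha.subst _ hG, hb.subst _ hG, hd.subst _ hG, fun x e => hp x _,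
    fun x e => he x (fun i => (Nat.casesOn i g (fun _ => h) : List Γ → (ℕ → ℕ) → ℕ) x e)⟩

theorem comp₃ {f : List Γ → ℕ → ℕ → ℕ → ℝ} (hf : UR (fun x e => f x (e 0) (e 1) (e 2)))
    {g h k : List Γ → (ℕ → ℕ) → ℕ} (hg : UF g) (hh : UF h) (hk : UF k) :
    UR (fun x e => f x (g x e) (h x e) (k x e)) := by
  obtain ⟨a, b, d, ha, hb, hd, hp, he⟩ := hf
  have hG : ∀ i : ℕ, UF (Γ := Γ) ((fun i => Nat.casesOn i g
      (fun i => Nat.casesOn i h (fun _ => k)) : ℕ → List Γ → (ℕ → ℕ) → ℕ) i) :=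
    fun i => by rcases i with _ | _ | i; exacts [hg, hh, hk]
  exact ⟨_, _, _, ha.subst _ hG, hb.subst _ hG, hd.subst _ hG, fun x e => hp x _,
    fun x e => he x (fun i => (Nat.casesOn i g
      (fun i => Nat.casesOn i h (fun _ => k)) : List Γ → (ℕ → ℕ) → ℕ) x e)⟩

/-- `(-1)^n`. -/
theorem negOnePow {f : List Γ → (ℕ → ℕ) → ℕ} (hf : UF f) :
    UR (fun x e => (-1 : ℝ) ^ (f x e)) := by
  have h : UR (fun x e => @_root_.ite ℝ (f x e % 2 = 0) (Nat.decEq _ _) (1 : ℝ) (-1)) :=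
    UR.ite (UP.eq (hf.mod (UF.const 2)) (UF.const 0)) one one.neg
  refine h.congr fun x e => ?_
  by_cases h2 : f x e % 2 = 0
  · rw [if_pos h2, (Nat.even_iff.2 h2).neg_one_pow]
  · rw [if_neg h2, (Nat.odd_iff.2 (by omega)).neg_one_pow]

theorem frac {f : List Γ → (ℕ → ℕ) → ℝ} (hf : UR f) :
    ∃ a d : List Γ → (ℕ → ℕ) → ℕ, UF a ∧ UF d ∧
      ∀ x e, 0 ≤ f x e → f x e = (a x e : ℝ) / (d x e + 1) := by
  obtain ⟨a, b, d, ha, hb, hd, hp, he⟩ := hf
  refine ⟨fun x e => a x e - b x e, fun x e => d x e - 1, ha.sub hb, hd.sub (UF.const 1),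
    fun x e h0 => ?_⟩
  have h1 : (0 : ℝ) < d x e := by exact_mod_cast hp x e
  have h2 : b x e ≤ a x e := by
    by_contra hc
    have h3 : (a x e : ℝ) < b x e := by exact_mod_cast not_le.1 hc
    have h4 : f x e < 0 := by
      rw [he]
      exact div_neg_of_neg_of_pos (sub_neg.2 h3) h1
    exact absurd h0 (not_le.2 h4)
  have h5 : (((d x e - 1 : ℕ) : ℝ) + 1) = d x e := by
    rw [Nat.cast_sub (hp x e)]
    push_cast
    ring
  rw [h5, Nat.cast_sub h2, he]

end UR

end Pool.Agent.CPW
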